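import Pool.Agent.Lib_MP_a0d45a_int.UGapi

/-!
# Piece UDIAGI (port of `Lib_MP_a0d45a_lc/UDiag.lean`)
-/

set_option autoImplicit false

namespace Pool.Agent.SOUi

open Pool.Agent.SOU Pool.Agent.HMod

universe w

variable {𝔐 : HM.{w}} [StdF 𝔐] {U : Filter (Finset ℕ)} (hU : IsSOUi 𝔐 U)
include hU

omit hU in
theorem int_fuI {α : Type*} [Cod 𝔐 α] {A : α → IFun 𝔐 ℕ (Finset ℕ)} {f : α → Finset ℕ}
    (hA : IntF 𝔐 A) (hf : IntF 𝔐 f) : Int 𝔐 (fun a => f a ∈ fu (A a).1) :=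
  int_comp2 (R := fun (A : IFun 𝔐 ℕ (Finset ℕ)) (b : Finset ℕ) => b ∈ fu A.1) int_fu_rel hA hf

theorem diag_i (S : ℕ → Set (Finset ℕ)) (hi : Int 𝔐 (fun q : ℕ × Finset ℕ => q.2 ∈ S q.1))
    (hS : ∀ n, S n ∈ U) :
    ∃ A, IntF 𝔐 A ∧ BlkF A ∧ fu A ∈ U ∧ fu A ⊆ S 0 ∧
      ∀ b ∈ fu A, ∀ c ∈ fu A, Bef b c → c ∈ S (mx b + 1) := by
  have hT : ∀ n, {x | ∀ i ∈ Finset.range (n + 1), x ∈ S i} ∈ U := by
    intro n
    exact (Filter.eventually_all_finset (l := U)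
      (p := fun i x => x ∈ S i) (Finset.range (n + 1))).2 (fun i _ => hS i)
  have hR : Int 𝔐 (fun q : ℕ × IFun 𝔐 ℕ (Finset ℕ) => BlkF q.2.1 ∧
      (∀ᶠ b in U, b ∈ fu q.2.1) ∧ ∀ x : Finset ℕ, x ∈ fu q.2.1 → ∀ i < q.1 + 1, x ∈ S i) := by
    refine int_and (int_comp (p := fun A : IFun 𝔐 ℕ (Finset ℕ) => BlkF A.1) int_blkF
      (intF_snd' intF_id)) (int_and ?_ (int_all (int_imp ?_ ?_)))
    · refine int_eventually hU.fil ?_
      exact int_fuI (intF_snd' (intF_fst' intF_id)) (intF_snd' intF_id)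
    · exact int_fuI (intF_snd' (intF_fst' intF_id)) (intF_snd' intF_id)
    · refine int_ball (f := fun q : (ℕ × IFun 𝔐 ℕ (Finset ℕ)) × Finset ℕ => q.1.1 + 1) ?_
        (intF_comp intF_succ (intF_fst' (intF_fst' intF_id)))
      exact int_comp hi (intF_pair (intF_snd' intF_id) (intF_snd' (intF_fst' intF_id)))
  obtain ⟨A, hAi, hA⟩ := int_cc (R := fun (n : ℕ) (A : IFun 𝔐 ℕ (Finset ℕ)) => BlkF A.1 ∧
      (∀ᶠ b in U, b ∈ fu A.1) ∧ ∀ x : Finset ℕ, x ∈ fu A.1 → ∀ i < n + 1, x ∈ S i) hR (fun n => by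
    obtain ⟨A, h1, h2, h3, h4⟩ := hU.base _ (hT n)
    exact ⟨⟨A, h1⟩, h2, h3, fun x hx i hi' => h4 hx i (Finset.mem_range.2 hi')⟩)
  have hA' : IntF 𝔐 (fun q : ℕ × ℕ => (A q.1).1 q.2) := intF_iff_uncurry.1 hAi
  obtain ⟨B, hBi, hB1, hB2, hB3⟩ := hU.stable (fun n => (A n).1) hA'
    (fun n => ⟨(hA n).1, (hA n).2.1⟩)
  have hK : Int 𝔐 (fun q : ℕ × ℕ => ∀ b : Finset ℕ, b ∈ fu B → (∀ j : ℕ, j ∈ b → q.2 < j) →
      b ∈ fu (A q.1).1) := by
    refine int_all (int_imp ?_ (int_imp (int_all (int_imp ?_ ?_)) ?_))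
    · exact int_comp (int_fu hBi) (intF_snd' intF_id)
    · exact Pool.Agent.SOUi.int_memF (intF_snd' intF_id) (intF_snd' (intF_fst' intF_id))
    · exact int_ltF (intF_snd' (intF_fst' (intF_fst' intF_id))) (intF_snd' intF_id)
    · exact int_fuI (intF_comp hAi (intF_fst' (intF_fst' intF_id))) (intF_snd' intF_id)
  obtain ⟨k, hki, hk⟩ := int_cc (R := fun n m : ℕ => ∀ b : Finset ℕ, b ∈ fu B →
      (∀ j : ℕ, j ∈ b → m < j) → b ∈ fu (A n).1) hK (fun n => by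
    obtain ⟨k, hk⟩ := hB3 n
    exact ⟨k, hk⟩)
  obtain ⟨C, hCi, hC1, hC2, hC3, hC4⟩ := gap_lemma_i hU (h := fun i => k (i + 1))
    (intF_comp hki intF_succ) (S := fu B ∩ S 0) (Filter.inter_mem hB2 (hS 0))
  refine ⟨C, hCi, hC1, hC2, fun x hx => (hC3 hx).2, fun b hb c hc hbc => ?_⟩
  have h1 := fu_gap hC1 (h := fun i => k (i + 1)) hC4 hb hc hbc
  have h2 : c ∈ fu (A (mx b + 1)).1 := hk _ c (hC3 hc).1 h1
  exact (hA _).2.2 c h2 (mx b + 1) (Nat.lt_succ_self _)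

theorem diag_sets_i (S₀ : Set (Finset ℕ)) (hS₀ : S₀ ∈ U) (S : Finset ℕ → Set (Finset ℕ))
    (hi : Int 𝔐 (fun q : Finset ℕ × Finset ℕ => q.2 ∈ S q.1)) (hS : ∀ b, S b ∈ U) :
    ∃ A, IntF 𝔐 A ∧ BlkF A ∧ fu A ∈ U ∧ fu A ⊆ S₀ ∧ (∀ c ∈ fu A, c ∈ S ∅) ∧
      ∀ b ∈ fu A, ∀ c ∈ fu A, Bef b c → ∀ p ⊆ Finset.range (mx b + 1), c ∈ S p := by
  obtain ⟨T, hTU, hTi, hTS⟩ := hU.fil.gen S₀ hS₀
  have hT : ∀ n, {x | x ∈ T ∧ ∀ p ∈ (Finset.range n).powerset, x ∈ S p} ∈ U := by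
    intro n
    have h1 : ∀ᶠ x in U, ∀ p ∈ (Finset.range n).powerset, x ∈ S p :=
      (Filter.eventually_all_finset (l := U)
        (p := fun p x => x ∈ S p) (Finset.range n).powerset).2 (fun p _ => hS p)
    exact Filter.inter_mem hTU h1
  have hT' : ∀ n, {x | x ∈ T ∧ ∀ p : Finset ℕ, p ⊆ Finset.range n → x ∈ S p} ∈ U := by
    intro n
    refine Filter.mem_of_superset (hT n) ?_
    rintro x ⟨h1, h2⟩
    exact ⟨h1, fun p hp => h2 p (Finset.mem_powerset.2 hp)⟩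
  obtain ⟨A, h0, h1, h2, h3, h4⟩ := diag_i hU
    (fun n => {x | x ∈ T ∧ ∀ p : Finset ℕ, p ⊆ Finset.range n → x ∈ S p}) (by
      refine int_and (int_comp hTi (intF_snd' intF_id)) ?_
      refine int_ballS (f := fun q : ℕ × Finset ℕ => q.1) ?_ (intF_fst' intF_id)
      exact int_comp hi (intF_pair (intF_snd' intF_id) (intF_snd' (intF_fst' intF_id)))) hT'
  exact ⟨A, h0, h1, h2, fun x hx => hTS (h3 hx).1, fun c hc => (h3 hc).2 ∅ (by simp),
    fun b hb c hc hbc p hp => (h4 b hb c hc hbc).2 p hp⟩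

omit [StdF 𝔐] hU in
private theorem udiagi_lists_finite (n : ℕ) :
    {l : List (Finset ℕ) | l.length ≤ n ∧ ∀ x ∈ l, x ⊆ Finset.range n}.Finite := by
  have h1 : {l : List {x : Finset ℕ // x ∈ (Finset.range n).powerset} | l.length ≤ n}.Finite :=
    List.finite_length_le _ n
  refine (h1.image (List.map Subtype.val)).subset ?_
  rintro l ⟨h2, h3⟩
  refine ⟨l.attach.map (fun x => ⟨x.1, Finset.mem_powerset.2 (h3 x.1 x.2)⟩), ?_, ?_⟩
  · simpa using h2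
  · simp

/-- the same for families indexed by finite lists of finite sets: `S l` for all lists `l` of subsets of
`range n`, of length `≤ n` -/
theorem diag_lists_i (S : List (Finset ℕ) → Set (Finset ℕ))
    (hi : Int 𝔐 (fun q : List (Finset ℕ) × Finset ℕ => q.2 ∈ S q.1)) (hS : ∀ l, S l ∈ U)
    {S₀ : Set (Finset ℕ)} (hS₀ : S₀ ∈ U) :
    ∃ A, IntF 𝔐 A ∧ BlkF A ∧ fu A ∈ U ∧ fu A ⊆ S₀ ∧ (∀ c ∈ fu A, c ∈ S []) ∧
      ∀ b ∈ fu A, ∀ c ∈ fu A, Bef b c → ∀ l : List (Finset ℕ), l.length ≤ mx b + 1 →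
        (∀ x ∈ l, x ⊆ Finset.range (mx b + 1)) → c ∈ S l := by
  obtain ⟨T, hTU, hTi, hTS⟩ := hU.fil.gen S₀ hS₀
  have hT : ∀ n : ℕ, {x | x ∈ T ∧ ∀ l : List (Finset ℕ), (l.length ≤ n ∧
      ∀ y : Finset ℕ, y ∈ l → y ⊆ Finset.range n) → x ∈ S l} ∈ U := by
    intro n
    have h1 : ∀ᶠ x in U, ∀ l ∈ {l : List (Finset ℕ) | l.length ≤ n ∧
        ∀ x ∈ l, x ⊆ Finset.range n}, x ∈ S l :=
      (Filter.eventually_all_finite (udiagi_lists_finite n)).2 (fun l _ => hS l)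
    exact Filter.inter_mem hTU h1
  obtain ⟨A, h0, h1, h2, h3, h4⟩ := diag_i hU _ (by
      refine int_and (int_comp hTi (intF_snd' intF_id)) (int_all (int_imp (int_and ?_
        (int_all (int_imp ?_ ?_))) ?_))
      · exact int_leF (intF_comp StdF.length (intF_snd' intF_id)) (intF_fst' (intF_fst' intF_id))
      · exact int_comp StdF.memL (intF_pair (intF_snd' intF_id) (intF_snd' (intF_fst' intF_id)))
      · exact int_comp StdF.sub (intF_pair (intF_snd' intF_id)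
          (intF_comp StdF.range (intF_fst' (intF_fst' (intF_fst' intF_id)))))
      · exact int_comp hi (intF_pair (intF_snd' intF_id) (intF_snd' (intF_fst' intF_id)))) hT
  exact ⟨A, h0, h1, h2, fun x hx => hTS (h3 hx).1,
    fun c hc => (h3 hc).2 [] ⟨by simp, by simp⟩,
    fun b hb c hc hbc l hl1 hl2 => (h4 b hb c hc hbc).2 l ⟨hl1, hl2⟩⟩

/-- two sequences in `U` have a common refinement in `U` (auxiliary) -/
private theorem udiagi_common {A B : ℕ → Finset ℕ} (hA : fu A ∈ U) (hB : fu B ∈ U) :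
    ∃ C, IntF 𝔐 C ∧ BlkF C ∧ fu C ∈ U ∧ fu C ⊆ fu A ∧ fu C ⊆ fu B := by
  obtain ⟨C, h0, h1, h2, h3⟩ := hU.base (fu A ∩ fu B) (Filter.inter_mem hA hB)
  exact ⟨C, h0, h1, h2, fun x hx => (h3 hx).1, fun x hx => (h3 hx).2⟩

/-- diagonalisation in the last variable (auxiliary) -/
private theorem udiagi_last {ι : Type*} [Cod 𝔐 ι] (F : ℕ → ι → Prop)
    (hFf : ∀ n, {i | F n i}.Finite) (hF : Int 𝔐 (fun q : ℕ × ι => F q.1 q.2))
    (R : ι → Finset ℕ → Prop) (hR : Int 𝔐 (fun q : ι × Finset ℕ => R q.1 q.2)) :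
    ∃ A, IntF 𝔐 A ∧ BlkF A ∧ fu A ∈ U ∧ ∀ c ∈ fu A, ∀ d ∈ fu A, Bef c d → ∀ i, F (mx c + 1) i →
      (∀ᶠ e in U, R i e) → R i d := by
  have hT : ∀ n, {d | ∀ i, F n i → (∀ᶠ e in U, R i e) → R i d} ∈ U := by
    intro n
    refine (Filter.eventually_all_finite (l := U)
      (p := fun i d => (∀ᶠ e in U, R i e) → R i d) (hFf n)).2 (fun i _ => ?_)
    by_cases h : ∀ᶠ e in U, R i e
    · exact h.mono (fun x hx _ => hx)
    · exact Filter.Eventually.of_forall (fun x hx => absurd hx h)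
  obtain ⟨A, h0, h1, h2, -, h4⟩ := diag_i hU _ (by
    refine int_all (int_imp ?_ (int_imp ?_ ?_))
    · exact int_comp hF (intF_pair (intF_fst' (intF_fst' intF_id)) (intF_snd' intF_id))
    · refine int_eventually hU.fil ?_
      exact int_comp hR (intF_pair (intF_snd' (intF_fst' intF_id)) (intF_snd' intF_id))
    · exact int_comp hR (intF_pair (intF_snd' intF_id) (intF_snd' (intF_fst' intF_id)))) hT
  exact ⟨A, h0, h1, h2, h4⟩

omit [StdF 𝔐] hU in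
private theorem udiagi_self (b : Finset ℕ) : b ⊆ Finset.range (mx b + 1) :=
  fun _ hi => Finset.mem_range.2 (Nat.lt_succ_of_le (le_mx hi))

omit [StdF 𝔐] hU in
private theorem udiagi_bef {b c : Finset ℕ} (h : Bef b c) (hc : c.Nonempty) :
    b ⊆ Finset.range (mx c + 1) :=
  fun i hi => Finset.mem_range.2 (Nat.lt_succ_of_lt (h i hi (mx c) (mx_mem hc)))

omit [StdF 𝔐] hU in
private theorem udiagi_fin (n : ℕ) : {b : Finset ℕ | b ⊆ Finset.range n}.Finite := by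
  refine ((Finset.range n).powerset.finite_toSet).subset ?_
  intro b hb
  exact Finset.mem_coe.2 (Finset.mem_powerset.2 hb)

theorem diag2_i {R : Finset ℕ → Finset ℕ → Prop}
    (hR : Int 𝔐 (fun q : Finset ℕ × Finset ℕ => R q.1 q.2))
    (h : ∀ᶠ b in U, ∀ᶠ c in U, R b c) :
    ∃ A, IntF 𝔐 A ∧ BlkF A ∧ fu A ∈ U ∧ ∀ b ∈ fu A, ∀ c ∈ fu A, Bef b c → R b c := by
  obtain ⟨A₁, -, -, h2, h3⟩ := hU.base _ h
  obtain ⟨A₂, -, -, k2, k3⟩ := udiagi_last hU (fun n b => b ⊆ Finset.range n) udiagi_fin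
    (int_comp StdF.sub (intF_pair (intF_snd' intF_id) (intF_comp StdF.range (intF_fst' intF_id))))
    R hR
  obtain ⟨C, l0, l1, l2, l3, l4⟩ := udiagi_common hU h2 k2
  refine ⟨C, l0, l1, l2, fun b hb c hc hbc => ?_⟩
  exact k3 b (l4 hb) c (l4 hc) hbc b (udiagi_self b) (h3 (l3 hb))

theorem diag3_i {R : Finset ℕ → Finset ℕ → Finset ℕ → Prop}
    (hR : Int 𝔐 (fun q : Finset ℕ × Finset ℕ × Finset ℕ => R q.1 q.2.1 q.2.2))
    (h : ∀ᶠ b in U, ∀ᶠ c in U, ∀ᶠ d in U, R b c d) :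
    ∃ A, IntF 𝔐 A ∧ BlkF A ∧ fu A ∈ U ∧
      ∀ b ∈ fu A, ∀ c ∈ fu A, ∀ d ∈ fu A, Bef b c → Bef c d → R b c d := by
  obtain ⟨A₁, -, -, h2, h3⟩ := diag2_i hU (R := fun b c => ∀ᶠ d in U, R b c d) (by
    refine int_eventually hU.fil ?_
    exact int_comp hR (intF_pair (intF_fst' (intF_fst' intF_id))
      (intF_pair (intF_snd' (intF_fst' intF_id)) (intF_snd' intF_id)))) h
  obtain ⟨A₂, -, -, k2, k3⟩ := udiagi_last hU
    (fun (n : ℕ) (i : Finset ℕ × Finset ℕ) => i.1 ⊆ Finset.range n ∧ i.2 ⊆ Finset.range n)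
    (fun n => (udiagi_fin n).prod (udiagi_fin n))
    (int_and
      (int_comp StdF.sub (intF_pair (intF_fst' (intF_snd' intF_id))
        (intF_comp StdF.range (intF_fst' intF_id))))
      (int_comp StdF.sub (intF_pair (intF_snd' (intF_snd' intF_id))
        (intF_comp StdF.range (intF_fst' intF_id)))))
    (fun i d => R i.1 i.2 d)
    (int_comp hR (intF_pair (intF_fst' (intF_fst' intF_id))
      (intF_pair (intF_snd' (intF_fst' intF_id)) (intF_snd' intF_id))))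
  obtain ⟨C, l0, l1, l2, l3, l4⟩ := udiagi_common hU h2 k2
  refine ⟨C, l0, l1, l2, fun b hb c hc d hd hbc hcd => ?_⟩
  exact k3 c (l4 hc) d (l4 hd) hcd (b, c)
    ⟨udiagi_bef hbc (fu_ne l1 hc), udiagi_self c⟩ (h3 b (l3 hb) c (l3 hc) hbc)

theorem diag4_i {R : Finset ℕ → Finset ℕ → Finset ℕ → Finset ℕ → Prop}
    (hR : Int 𝔐 (fun q : Finset ℕ × Finset ℕ × Finset ℕ × Finset ℕ =>
      R q.1 q.2.1 q.2.2.1 q.2.2.2))
    (h : ∀ᶠ b in U, ∀ᶠ c in U, ∀ᶠ d in U, ∀ᶠ e in U, R b c d e) :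
    ∃ A, IntF 𝔐 A ∧ BlkF A ∧ fu A ∈ U ∧ ∀ b ∈ fu A, ∀ c ∈ fu A, ∀ d ∈ fu A, ∀ e ∈ fu A,
      Bef b c → Bef c d → Bef d e → R b c d e := by
  obtain ⟨A₁, -, -, h2, h3⟩ := diag3_i hU (R := fun b c d => ∀ᶠ e in U, R b c d e) (by
    refine int_eventually hU.fil ?_
    exact int_comp hR (intF_pair (intF_fst' (intF_fst' intF_id))
      (intF_pair (intF_fst' (intF_snd' (intF_fst' intF_id)))
        (intF_pair (intF_snd' (intF_snd' (intF_fst' intF_id))) (intF_snd' intF_id))))) h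
  obtain ⟨A₂, -, -, k2, k3⟩ := udiagi_last hU
    (fun (n : ℕ) (i : Finset ℕ × Finset ℕ × Finset ℕ) => i.1 ⊆ Finset.range n ∧
      i.2.1 ⊆ Finset.range n ∧ i.2.2 ⊆ Finset.range n)
    (fun n => (udiagi_fin n).prod ((udiagi_fin n).prod (udiagi_fin n)))
    (int_and
      (int_comp StdF.sub (intF_pair (intF_fst' (intF_snd' intF_id))
        (intF_comp StdF.range (intF_fst' intF_id))))
      (int_and
        (int_comp StdF.sub (intF_pair (intF_fst' (intF_snd' (intF_snd' intF_id)))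
          (intF_comp StdF.range (intF_fst' intF_id))))
        (int_comp StdF.sub (intF_pair (intF_snd' (intF_snd' (intF_snd' intF_id)))
          (intF_comp StdF.range (intF_fst' intF_id))))))
    (fun i d => R i.1 i.2.1 i.2.2 d)
    (int_comp hR (intF_pair (intF_fst' (intF_fst' intF_id))
      (intF_pair (intF_fst' (intF_snd' (intF_fst' intF_id)))
        (intF_pair (intF_snd' (intF_snd' (intF_fst' intF_id))) (intF_snd' intF_id)))))
  obtain ⟨C, l0, l1, l2, l3, l4⟩ := udiagi_common hU h2 k2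
  refine ⟨C, l0, l1, l2, fun b hb c hc d hd e he hbc hcd hde => ?_⟩
  exact k3 d (l4 hd) e (l4 he) hde (b, c, d)
    ⟨udiagi_bef (hbc.trans' hcd (fu_ne l1 hc)) (fu_ne l1 hd),
      udiagi_bef hcd (fu_ne l1 hd), udiagi_self d⟩
    (h3 b (l3 hb) c (l3 hc) d (l3 hd) hbc hcd)

theorem common_i {A B : ℕ → Finset ℕ} (hA : fu A ∈ U) (hB : fu B ∈ U) :
    ∃ C, IntF 𝔐 C ∧ BlkF C ∧ fu C ∈ U ∧ fu C ⊆ fu A ∧ fu C ⊆ fu B := by
  exact udiagi_common hU hA hB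

end Pool.Agent.SOUi
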