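import Pool.Agent.Lib_HM.Fil
import Pool.Agent.Lib_MP_a0d45a_lc.CB

/-!
# MP_a0d45a_lc, stage B: the notions inside a model, standard internal relations
-/

set_option autoImplicit false

namespace Pool.Agent.SOUi

open Pool.Agent.SOU Pool.Agent.HMod

universe w

section Coding

variable (K : Type) [Field K] [Countable K]

noncomputable instance : BT (ℕ →₀ K) where
  enc := (nonempty_equiv_of_countable (α := ℕ →₀ K) (β := ℕ)).some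

noncomputable instance : BT (Finset (ℕ →₀ K)) where
  enc := (nonempty_equiv_of_countable (α := Finset (ℕ →₀ K)) (β := ℕ)).some

noncomputable instance : BT (Finset (Option (Typ × Bool))) where
  enc := (nonempty_equiv_of_countable (α := Finset (Option (Typ × Bool))) (β := ℕ)).some

variable {𝔐 : HM.{w}}

noncomputable instance : Cod 𝔐 (ℕ →₀ K) := codBT _
noncomputable instance : Cod 𝔐 (Finset (ℕ →₀ K)) := codBT _
noncomputable instance : Cod 𝔐 (Finset (Option (Typ × Bool))) := codBT _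

noncomputable instance : BL.{w} (ℕ →₀ K) where
  code := BT.enc
  inj := BT.enc.injective
  int := fun 𝔐 => intF_enc 𝔐 _

noncomputable instance : BL.{w} (Finset (ℕ →₀ K)) where
  code := BT.enc
  inj := BT.enc.injective
  int := fun 𝔐 => intF_enc 𝔐 _

noncomputable instance : BL.{w} (Finset (Option (Typ × Bool))) where
  code := BT.enc
  inj := BT.enc.injective
  int := fun 𝔐 => intF_enc 𝔐 _

end Coding

/-- standard relations on finite sets of numbers -/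
class StdF (𝔐 : HM.{w}) : Prop where
  union : IntF 𝔐 (fun q : Finset ℕ × Finset ℕ => q.1 ∪ q.2)
  inter : IntF 𝔐 (fun q : Finset ℕ × Finset ℕ => q.1 ∩ q.2)
  sdiff : IntF 𝔐 (fun q : Finset ℕ × Finset ℕ => q.1 \ q.2)
  mem : Int 𝔐 (fun q : ℕ × Finset ℕ => q.1 ∈ q.2)
  sub : Int 𝔐 (fun q : Finset ℕ × Finset ℕ => q.1 ⊆ q.2)
  bef : Int 𝔐 (fun q : Finset ℕ × Finset ℕ => Bef q.1 q.2)
  lo : Int 𝔐 (fun q : ℕ × Finset ℕ => Lo q.1 q.2)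
  hi : Int 𝔐 (fun q : ℕ × Finset ℕ => Hi q.1 q.2)
  mn : IntF 𝔐 (fun b : Finset ℕ => mn b)
  mx : IntF 𝔐 (fun b : Finset ℕ => mx b)
  card : IntF 𝔐 (fun b : Finset ℕ => b.card)
  range : IntF 𝔐 (fun n : ℕ => Finset.range n)
  sing : IntF 𝔐 (fun n : ℕ => ({n} : Finset ℕ))
  fromTo : IntF 𝔐 (fun q : ℕ × ℕ => Finset.Ico q.1 q.2)
  add : IntF 𝔐 (fun q : ℕ × ℕ => q.1 + q.2)
  mul : IntF 𝔐 (fun q : ℕ × ℕ => q.1 * q.2)
  sum : IntF 𝔐 (fun b : Finset ℕ => ∑ i ∈ b, i)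
  sub' : IntF 𝔐 (fun q : ℕ × ℕ => q.1 - q.2)
  pow : IntF 𝔐 (fun q : ℕ × ℕ => q.1 ^ q.2)
  sup : IntF 𝔐 (fun q : ℕ × ℕ => max q.1 q.2)
  memF : Int 𝔐 (fun q : Finset ℕ × Finset (Finset ℕ) => q.1 ∈ q.2)
  powerset : IntF 𝔐 (fun b : Finset ℕ => b.powerset)
  bUnion : IntF 𝔐 (fun C : Finset (Finset ℕ) => C.biUnion id)
  extC : IntF 𝔐 (fun q : Finset (Finset ℕ) × Finset ℕ =>
    q.1 ∪ {q.2} ∪ q.1.image (fun τ => τ ∪ q.2))
  snoc : IntF 𝔐 (fun q : List (Finset ℕ) × Finset ℕ => q.1 ++ [q.2])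
  append : IntF 𝔐 (fun q : List (Finset ℕ) × List (Finset ℕ) => q.1 ++ q.2)
  length : IntF 𝔐 (fun l : List (Finset ℕ) => l.length)
  getD : IntF 𝔐 (fun q : List (Finset ℕ) × ℕ => q.1.getD q.2 ∅)
  take : IntF 𝔐 (fun q : List (Finset ℕ) × ℕ => q.1.take q.2)
  memL : Int 𝔐 (fun q : Finset ℕ × List (Finset ℕ) => q.1 ∈ q.2)

/-- standard relations on vectors, types and nodes -/
class Std (𝔐 : HM.{w}) (K : Type) [Field K] [DecidableEq K] [Countable K] : Prop extends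
    StdF 𝔐 where
  supp : IntF 𝔐 (fun v : ℕ →₀ K => v.support)
  addV : IntF 𝔐 (fun q : (ℕ →₀ K) × (ℕ →₀ K) => q.1 + q.2)
  subV : IntF 𝔐 (fun q : (ℕ →₀ K) × (ℕ →₀ K) => q.1 - q.2)
  scal : Int 𝔐 (fun q : (ℕ →₀ K) × (ℕ →₀ K) => ∃ c : K, c ≠ 0 ∧ q.1 = c • q.2)
  lin : Int 𝔐 (fun q : (ℕ →₀ K) × (ℕ →₀ K) × (ℕ →₀ K) => ∃ c : K, c ≠ 0 ∧ q.1 = q.2.1 + c • q.2.2)
  spn : Int 𝔐 (fun q : (ℕ →₀ K) × Finset (ℕ →₀ K) =>
    q.1 ∈ Submodule.span K (q.2 : Set (ℕ →₀ K)))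
  memE : Int 𝔐 (fun q : (ℕ →₀ K) × Finset (ℕ →₀ K) => q.1 ∈ q.2)
  restr : IntF 𝔐 (fun q : Finset ℕ × (ℕ →₀ K) => q.2.filter (fun i => i ∈ q.1))
  from_ : IntF 𝔐 (fun q : ℕ × (ℕ →₀ K) => q.2.filter (fun i => q.1 ≤ i))
  below : IntF 𝔐 (fun q : ℕ × (ℕ →₀ K) => q.2.filter (fun i => i < q.1))
  ty : IntF 𝔐 (fun v : ℕ →₀ K => ty v)
  TT : Int 𝔐 (fun q : ℕ × (ℕ →₀ K) × Typ => q.2.2 ∈ TT q.1 q.2.1)
  TypB : IntF 𝔐 (fun m : ℕ => TypB m)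
  memT : Int 𝔐 (fun q : Typ × Finset Typ => q.1 ∈ q.2)
  subT : Int 𝔐 (fun q : Finset Typ × Finset Typ => q.1 ⊆ q.2)
  interT : IntF 𝔐 (fun q : Finset Typ × Finset Typ => q.1 ∩ q.2)
  ext : Int 𝔐 (fun q : Node × Node => Ext q.1 q.2)
  cmp : Int 𝔐 (fun q : Node × Node => Cmp q.1 q.2)
  cut : IntF 𝔐 (fun q : ℕ × Node => cut q.1 q.2)
  pat : Int 𝔐 (fun q : ℕ × (ℕ →₀ K) × Finset Typ × Node =>
    Pat q.1 q.2.1 (q.2.2.1 : Set Typ) q.2.2.2)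
  TTfin : IntF 𝔐 (fun q : ℕ × (ℕ →₀ K) => (TT_finite q.1 q.2).toFinset)
  lab : Int 𝔐 (fun q : Finset (Option (Typ × Bool)) × (ℕ →₀ K) × Typ =>
    q.2.2 ∈ lab (SOU.ty q.2.1) '' (q.1 : Set (Option (Typ × Bool))))

theorem club_StdF : ∀ᶠ 𝔐 in Club.{w}, StdF 𝔐 := by
  filter_upwards [club_intF.{w} (fun q : Finset ℕ × Finset ℕ => q.1 ∪ q.2),
    club_intF.{w} (fun q : Finset ℕ × Finset ℕ => q.1 ∩ q.2),
    club_intF.{w} (fun q : Finset ℕ × Finset ℕ => q.1 \ q.2),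
    club_int.{w} (fun q : ℕ × Finset ℕ => q.1 ∈ q.2),
    club_int.{w} (fun q : Finset ℕ × Finset ℕ => q.1 ⊆ q.2),
    club_int.{w} (fun q : Finset ℕ × Finset ℕ => Bef q.1 q.2),
    club_int.{w} (fun q : ℕ × Finset ℕ => Lo q.1 q.2),
    club_int.{w} (fun q : ℕ × Finset ℕ => Hi q.1 q.2),
    club_intF.{w} (fun b : Finset ℕ => mn b),
    club_intF.{w} (fun b : Finset ℕ => mx b),
    club_intF.{w} (fun b : Finset ℕ => b.card),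
    club_intF.{w} (fun n : ℕ => Finset.range n),
    club_intF.{w} (fun n : ℕ => ({n} : Finset ℕ)),
    club_intF.{w} (fun q : ℕ × ℕ => Finset.Ico q.1 q.2),
    club_intF.{w} (fun q : ℕ × ℕ => q.1 + q.2),
    club_intF.{w} (fun q : ℕ × ℕ => q.1 * q.2),
    club_intF.{w} (fun b : Finset ℕ => ∑ i ∈ b, i),
    club_intF.{w} (fun q : ℕ × ℕ => q.1 - q.2),
    club_intF.{w} (fun q : ℕ × ℕ => q.1 ^ q.2),
    club_intF.{w} (fun q : ℕ × ℕ => max q.1 q.2),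
    club_int.{w} (fun q : Finset ℕ × Finset (Finset ℕ) => q.1 ∈ q.2),
    club_intF.{w} (fun b : Finset ℕ => b.powerset),
    club_intF.{w} (fun C : Finset (Finset ℕ) => C.biUnion id),
    club_intF.{w} (fun q : Finset (Finset ℕ) × Finset ℕ =>
      q.1 ∪ {q.2} ∪ q.1.image (fun τ => τ ∪ q.2)),
    club_intF.{w} (fun q : List (Finset ℕ) × Finset ℕ => q.1 ++ [q.2]),
    club_intF.{w} (fun q : List (Finset ℕ) × List (Finset ℕ) => q.1 ++ q.2),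
    club_intF.{w} (fun l : List (Finset ℕ) => l.length),
    club_intF.{w} (fun q : List (Finset ℕ) × ℕ => q.1.getD q.2 ∅),
    club_intF.{w} (fun q : List (Finset ℕ) × ℕ => q.1.take q.2),
    club_int.{w} (fun q : Finset ℕ × List (Finset ℕ) => q.1 ∈ q.2)] with
    𝔐 h1 h2 h3 h4 h5 h6 h7 h8 h9 h10 h11 h12 h13 h14 h15 h16 h17 h18 h19 h20 h21 h22 h23 h24 h25
    h26 h27 h28 h29 h30
  exact ⟨h1, h2, h3, h4, h5, h6, h7, h8, h9, h10, h11, h12, h13, h14, h15, h16, h17,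
    h18, h19, h20, h21, h22, h23, h24, h25, h26, h27, h28, h29, h30⟩

theorem club_Std (K : Type) [Field K] [DecidableEq K] [Countable K] :
    ∀ᶠ 𝔐 in Club.{w}, Std 𝔐 K := by
  filter_upwards [club_StdF.{w}, club_intF.{w} (fun v : ℕ →₀ K => v.support),
    club_intF.{w} (fun q : (ℕ →₀ K) × (ℕ →₀ K) => q.1 + q.2),
    club_intF.{w} (fun q : (ℕ →₀ K) × (ℕ →₀ K) => q.1 - q.2),
    club_int.{w} (fun q : (ℕ →₀ K) × (ℕ →₀ K) => ∃ c : K, c ≠ 0 ∧ q.1 = c • q.2),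
    club_int.{w} (fun q : (ℕ →₀ K) × (ℕ →₀ K) × (ℕ →₀ K) =>
      ∃ c : K, c ≠ 0 ∧ q.1 = q.2.1 + c • q.2.2),
    club_int.{w} (fun q : (ℕ →₀ K) × Finset (ℕ →₀ K) =>
      q.1 ∈ Submodule.span K (q.2 : Set (ℕ →₀ K))),
    club_int.{w} (fun q : (ℕ →₀ K) × Finset (ℕ →₀ K) => q.1 ∈ q.2),
    club_intF.{w} (fun q : Finset ℕ × (ℕ →₀ K) => q.2.filter (fun i => i ∈ q.1)),
    club_intF.{w} (fun q : ℕ × (ℕ →₀ K) => q.2.filter (fun i => q.1 ≤ i)),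
    club_intF.{w} (fun q : ℕ × (ℕ →₀ K) => q.2.filter (fun i => i < q.1)),
    club_intF.{w} (fun v : ℕ →₀ K => ty v),
    club_int.{w} (fun q : ℕ × (ℕ →₀ K) × Typ => q.2.2 ∈ TT q.1 q.2.1),
    club_intF.{w} (fun m : ℕ => TypB m),
    club_int.{w} (fun q : Typ × Finset Typ => q.1 ∈ q.2),
    club_int.{w} (fun q : Finset Typ × Finset Typ => q.1 ⊆ q.2),
    club_intF.{w} (fun q : Finset Typ × Finset Typ => q.1 ∩ q.2),
    club_int.{w} (fun q : Node × Node => Ext q.1 q.2),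
    club_int.{w} (fun q : Node × Node => Cmp q.1 q.2),
    club_intF.{w} (fun q : ℕ × Node => cut q.1 q.2),
    club_int.{w} (fun q : ℕ × (ℕ →₀ K) × Finset Typ × Node =>
      Pat q.1 q.2.1 (q.2.2.1 : Set Typ) q.2.2.2),
    club_intF.{w} (fun q : ℕ × (ℕ →₀ K) => (TT_finite q.1 q.2).toFinset),
    club_int.{w} (fun q : Finset (Option (Typ × Bool)) × (ℕ →₀ K) × Typ =>
      q.2.2 ∈ lab (SOU.ty q.2.1) '' (q.1 : Set (Option (Typ × Bool))))] with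
    𝔐 h0 h1 h2 h3 h4 h5 h6 h7 h8 h9 h10 h11 h12 h13 h14 h15 h16 h17 h18 h19 h20 h21 h22
  exact {
    toStdF := h0,
    supp := h1,
    addV := h2,
    subV := h3,
    scal := h4,
    lin := h5,
    spn := h6,
    memE := h7,
    restr := h8,
    from_ := h9,
    below := h10,
    ty := h11,
    TT := h12,
    TypB := h13,
    memT := h14,
    subT := h15,
    interT := h16,
    ext := h17,
    cmp := h18,
    cut := h19,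
    pat := h20,
    TTfin := h21,
    lab := h22 }

/-! ### the notions inside a model -/

/-- stable ordered-union ultrafilters of the model -/
structure IsSOUi (𝔐 : HM.{w}) (U : Filter (Finset ℕ)) : Prop where
  fil : IsIFil 𝔐 U
  ne : U.NeBot
  ultra : ∀ S : Set (Finset ℕ), Int 𝔐 (fun b => b ∈ S) → S ∈ U ∨ Sᶜ ∈ U
  base : ∀ S ∈ U, ∃ A, IntF 𝔐 A ∧ BlkF A ∧ fu A ∈ U ∧ fu A ⊆ S
  stable : ∀ A : ℕ → ℕ → Finset ℕ, IntF 𝔐 (fun q : ℕ × ℕ => A q.1 q.2) →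
    (∀ n, BlkF (A n) ∧ fu (A n) ∈ U) →
      ∃ B, IntF 𝔐 B ∧ BlkF B ∧ fu B ∈ U ∧ ∀ n, ∃ k, ∀ b ∈ fu B, (∀ j ∈ b, k < j) → b ∈ fu (A n)

variable {K : Type} [Field K] [Countable K]

structure IsBlockFilteri (𝔐 : HM.{w}) (F : Filter (ℕ →₀ K)) : Prop where
  fil : IsIFil 𝔐 F
  ne : F.NeBot
  nz : {v : ℕ →₀ K | v ≠ 0} ∈ F
  cofin : ∀ V : Submodule K (ℕ →₀ K), Int 𝔐 (fun v => v ∈ V) →
    FiniteDimensional K ((ℕ →₀ K) ⧸ V) → {v : ℕ →₀ K | v ≠ 0 ∧ v ∈ V} ∈ F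
  base : ∀ S ∈ F, ∃ X, IntF 𝔐 X ∧ Blk X ∧ bs X ∈ F ∧ bs X ⊆ S

def FDensei (𝔐 : HM.{w}) (F : Filter (ℕ →₀ K)) (D : Set (ℕ →₀ K)) : Prop :=
  ∀ X, IntF 𝔐 X → Blk X → bs X ∈ F → ∃ V : Submodule K (ℕ →₀ K), Int 𝔐 (fun v => v ∈ V) ∧
    ¬ FiniteDimensional K V ∧ ∀ v ∈ V, v ≠ 0 → v ∈ bs X ∧ v ∈ D

structure IsFulli (𝔐 : HM.{w}) (F : Filter (ℕ →₀ K)) : Prop extends IsBlockFilteri 𝔐 F where
  full : ∀ D : Set (ℕ →₀ K), Int 𝔐 (fun v => v ∈ D) → FDensei 𝔐 F D → D ∈ F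

structure IsPPlusi (𝔐 : HM.{w}) (F : Filter (ℕ →₀ K)) : Prop extends IsFulli 𝔐 F where
  pfil : ∀ X : ℕ → ℕ → ℕ →₀ K, IntF 𝔐 (fun q : ℕ × ℕ => X q.1 q.2) →
    (∀ n, Blk (X n) ∧ bs (X n) ∈ F) →
      ∃ Y, IntF 𝔐 Y ∧ Blk Y ∧ bs Y ∈ F ∧
        ∀ n, ∃ k, ∀ v ∈ bs Y, (∀ j ∈ v.support, k < j) → v ∈ bs (X n)

end Pool.Agent.SOUi
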