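import Pool.Agent.Lib_MP_a0d45a_int.FinUi

/-!
# Piece BFI (port of `Lib_MP_a0d45a_lc/BF.lean`)
-/

set_option autoImplicit false

namespace Pool.Agent.SOUi

open Pool.Agent.SOU Pool.Agent.HMod

universe w

variable {𝔐 : HM.{w}} {K : Type} [Field K] [DecidableEq K] [Countable K] [Std 𝔐 K]
  {F : Filter (ℕ →₀ K)}

omit [DecidableEq K] [Countable K] [Std 𝔐 K] in
/-- the kernel of the first `m` coordinates is the set of the vectors with support `≥ m` -/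
theorem bfi_mem_ker (m : ℕ) (v : ℕ →₀ K) :
    v ∈ LinearMap.ker (LinearMap.pi fun i : Fin m =>
      (Finsupp.lapply (i : ℕ) : (ℕ →₀ K) →ₗ[K] K)) ↔ Lo m v.support := by
  rw [LinearMap.mem_ker]
  constructor
  · intro h1 j hj
    by_contra hjm
    have hjm' : j < m := by omega
    have h2 := congrFun h1 ⟨j, hjm'⟩
    have h3 : v j = 0 := h2
    exact (Finsupp.mem_support_iff.1 hj) h3
  · intro h
    funext i
    change v (i : ℕ) = 0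
    by_contra h1
    have h2 := h (i : ℕ) (Finsupp.mem_support_iff.2 h1)
    have h3 := i.2
    omega

theorem bf_tail_i (hF : IsBlockFilteri 𝔐 F) (m : ℕ) : ∀ᶠ v in F, Lo m v.support := by
  have : StdF 𝔐 := Std.toStdF (K := K)
  set f : (ℕ →₀ K) →ₗ[K] (Fin m → K) := LinearMap.pi fun i : Fin m =>
    (Finsupp.lapply (i : ℕ) : (ℕ →₀ K) →ₗ[K] K) with hf
  have hfd : FiniteDimensional K ((ℕ →₀ K) ⧸ LinearMap.ker f) :=
    Module.Finite.equiv f.quotKerEquivRange.symm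
  have hi : Int 𝔐 (fun v => v ∈ LinearMap.ker f) :=
    int_congr (fun v => (bfi_mem_ker m v).symm) (int_lo (intF_const m) (intF_suppF intF_id))
  refine Filter.mem_of_superset (hF.cofin (LinearMap.ker f) hi hfd) ?_
  rintro v ⟨-, hv⟩
  exact (bfi_mem_ker m v).1 hv

theorem bf_ne_i (hF : IsBlockFilteri 𝔐 F) : ∀ᶠ v in F, v ≠ 0 := hF.nz

theorem bf_base_i (hF : IsBlockFilteri 𝔐 F) {p : (ℕ →₀ K) → Prop} (hp : ∀ᶠ v in F, p v) :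
    ∃ X, IntF 𝔐 X ∧ Blk X ∧ bs X ∈ F ∧ ∀ v ∈ bs X, p v := by
  obtain ⟨X, h0, h1, h2, h3⟩ := hF.base {v | p v} hp
  exact ⟨X, h0, h1, h2, fun v hv => h3 hv⟩

theorem bf_base_i' (hF : IsBlockFilteri 𝔐 F) {X : ℕ → ℕ →₀ K} (hX : bs X ∈ F)
    {p : (ℕ →₀ K) → Prop} (hp : ∀ᶠ v in F, p v) :
    ∃ Y, IntF 𝔐 Y ∧ Blk Y ∧ bs Y ∈ F ∧ bs Y ⊆ bs X ∧ ∀ v ∈ bs Y, p v := by
  obtain ⟨Y, h0, h1, h2, h3⟩ := hF.base (bs X ∩ {v | p v}) (Filter.inter_mem hX hp)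
  exact ⟨Y, h0, h1, h2, fun v hv => (h3 hv).1, fun v hv => (h3 hv).2⟩

theorem bf_bs_tail_i (hF : IsBlockFilteri 𝔐 F) {X : ℕ → ℕ →₀ K} (hX : Blk X) (h : bs X ∈ F)
    (k : ℕ) : bs (fun n => X (n + k)) ∈ F := by
  have hm := bf_tail_i hF (((Finset.range k).biUnion (fun n => (X n).support)).sup id + 1)
  refine Filter.mem_of_superset (Filter.inter_mem h hm) ?_
  rintro v ⟨hv, hv'⟩
  rw [mem_bs_tail hX k]
  refine ⟨hv, fun n hn i hi j hj => ?_⟩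
  have h1 : i ∈ (Finset.range k).biUnion (fun n => (X n).support) :=
    Finset.mem_biUnion.2 ⟨n, Finset.mem_range.2 hn, hi⟩
  have h2 : id i ≤ ((Finset.range k).biUnion (fun n => (X n).support)).sup id :=
    Finset.le_sup (f := id) h1
  have h3 := hv' j hj
  simp only [id] at h2
  omega

theorem full_blk_i (hF : IsFulli 𝔐 F) (D : Set (ℕ →₀ K)) (hD : Int 𝔐 (fun v => v ∈ D))
    (h : ∀ X, IntF 𝔐 X → Blk X → bs X ∈ F → ∃ Z, IntF 𝔐 Z ∧ Blk Z ∧ bs Z ⊆ bs X ∧ bs Z ⊆ D) :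
    D ∈ F := by
  refine hF.full D hD ?_
  intro X hXi hX hXF
  obtain ⟨Z, hZi, hZ, h1, h2⟩ := h X hXi hX hXF
  refine ⟨Submodule.span K (Set.range Z), int_span hZi, span_infinite hZ, ?_⟩
  intro v hv hv0
  exact ⟨h1 ⟨hv0, hv⟩, h2 ⟨hv0, hv⟩⟩

theorem full_blk_i' (hF : IsFulli 𝔐 F) {D : Set (ℕ →₀ K)} (hD : Int 𝔐 (fun v => v ∈ D))
    (h : D ∉ F) : ∃ X, IntF 𝔐 X ∧ Blk X ∧ bs X ∈ F ∧
      ∀ Z, IntF 𝔐 Z → Blk Z → bs Z ⊆ bs X → ¬ bs Z ⊆ D := by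
  by_contra hc
  apply h
  refine full_blk_i hF D hD ?_
  intro X hXi hX hXF
  by_contra hc2
  apply hc
  refine ⟨X, hXi, hX, hXF, fun Z hZi hZ h1 h2 => hc2 ⟨Z, hZi, hZ, h1, h2⟩⟩

theorem fdense_blk_i {D : Set (ℕ →₀ K)} (hD : FDensei 𝔐 F D) {X : ℕ → ℕ →₀ K}
    (hXi : IntF 𝔐 X) (hX : Blk X) (h : bs X ∈ F) :
    ∃ Z, IntF 𝔐 Z ∧ Blk Z ∧ bs Z ⊆ bs X ∧ bs Z ⊆ D := by
  obtain ⟨V, hVi, hV, h1⟩ := hD X hXi hX h
  obtain ⟨Z, hZi, hZ, h2⟩ := exists_blk_of_infinite_i V hVi hV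
  have h3 : Submodule.span K (Set.range Z) ≤ V := by
    rw [Submodule.span_le]
    rintro _ ⟨n, rfl⟩
    exact h2 n
  exact ⟨Z, hZi, hZ, fun v hv => (h1 v (h3 hv.2) hv.1).1, fun v hv => (h1 v (h3 hv.2) hv.1).2⟩

end Pool.Agent.SOUi
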