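import Pool.Agent.Lib_MP_a0d45a_int.Defs

/-!
# Piece FINUI: internality of the basic notions on sequences

Sequences of the model: `A : ℕ → Finset ℕ` with `IntF 𝔐 A`, or elements of `IFun 𝔐 ℕ (Finset ℕ)`.
-/

set_option autoImplicit false

namespace Pool.Agent.SOUi

open Pool.Agent.SOU Pool.Agent.HMod

universe w

variable {𝔐 : HM.{w}} {α : Type*} [Cod 𝔐 α]

section F
variable [StdF 𝔐]

theorem int_memF {f : α → ℕ} {g : α → Finset ℕ} (hf : IntF 𝔐 f) (hg : IntF 𝔐 g) :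
    Int 𝔐 (fun a => f a ∈ g a) := int_comp2 (R := fun i (b : Finset ℕ) => i ∈ b) StdF.mem hf hg

theorem int_bef {f g : α → Finset ℕ} (hf : IntF 𝔐 f) (hg : IntF 𝔐 g) :
    Int 𝔐 (fun a => Bef (f a) (g a)) := int_comp2 StdF.bef hf hg

theorem int_lo {f : α → ℕ} {g : α → Finset ℕ} (hf : IntF 𝔐 f) (hg : IntF 𝔐 g) :
    Int 𝔐 (fun a => Lo (f a) (g a)) := int_comp2 StdF.lo hf hg

theorem int_hi {f : α → ℕ} {g : α → Finset ℕ} (hf : IntF 𝔐 f) (hg : IntF 𝔐 g) :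
    Int 𝔐 (fun a => Hi (f a) (g a)) := int_comp2 StdF.hi hf hg

theorem intF_union {f g : α → Finset ℕ} (hf : IntF 𝔐 f) (hg : IntF 𝔐 g) :
    IntF 𝔐 (fun a => f a ∪ g a) := intF_comp2 StdF.union hf hg

theorem int_nonempty {f : α → Finset ℕ} (hf : IntF 𝔐 f) : Int 𝔐 (fun a => (f a).Nonempty) :=
  int_ex (R := fun a i => i ∈ f a)
    (int_memF (intF_snd' intF_id) (intF_comp hf (intF_fst' intF_id)))

/-- `b ∈ fu A` iff there is a nonempty `I : Finset ℕ` with `∀ i, i ∈ b ↔ ∃ n ∈ I, i ∈ A n` -/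
theorem int_fu_rel : Int 𝔐 (fun q : IFun 𝔐 ℕ (Finset ℕ) × Finset ℕ => q.2 ∈ fu q.1.1) := by
  have h : Int 𝔐 (fun q : IFun 𝔐 ℕ (Finset ℕ) × Finset ℕ => ∃ I : Finset ℕ, I.Nonempty ∧
      ∀ i : ℕ, (i ∈ q.2 ↔ ∃ n : ℕ, n ∈ I ∧ i ∈ q.1.1 n)) := by
    refine int_ex (int_and (int_nonempty (intF_snd' intF_id)) (int_all (int_iff ?_
      (int_ex (int_and ?_ ?_)))))
    · exact int_memF (intF_snd' intF_id) (intF_snd' (intF_fst' (intF_fst' intF_id)))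
    · exact int_memF (intF_snd' intF_id) (intF_snd' (intF_fst' (intF_fst' intF_id)))
    · exact int_memF (intF_snd' (intF_fst' intF_id))
        (intF_appF (intF_fst' (intF_fst' (intF_fst' (intF_fst' intF_id)))) (intF_snd' intF_id))
  refine int_congr (fun q => ?_) h
  constructor
  · rintro ⟨I, hI, h1⟩
    refine ⟨I, hI, ?_⟩
    ext i
    rw [h1, Finset.mem_biUnion]
  · rintro ⟨I, hI, h1⟩
    refine ⟨I, hI, fun i => ?_⟩
    rw [h1, Finset.mem_biUnion]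

theorem int_fu {A : ℕ → Finset ℕ} (hA : IntF 𝔐 A) : Int 𝔐 (fun b => b ∈ fu A) :=
  int_comp2 (R := fun (X : IFun 𝔐 ℕ (Finset ℕ)) (b : Finset ℕ) => b ∈ fu X.1) int_fu_rel
    (intF_const ⟨A, hA⟩) intF_id

theorem int_fuF {A : α → ℕ → Finset ℕ} (hA : IntF 𝔐 (fun q : α × ℕ => A q.1 q.2))
    {f : α → Finset ℕ} (hf : IntF 𝔐 f) : Int 𝔐 (fun a => f a ∈ fu (A a)) :=
  int_comp2 (R := fun (X : IFun 𝔐 ℕ (Finset ℕ)) (b : Finset ℕ) => b ∈ fu X.1) int_fu_rel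
    (intF_mkF hA) hf

theorem int_blkF : Int 𝔐 (fun A : IFun 𝔐 ℕ (Finset ℕ) => BlkF A.1) := by
  have h : Int 𝔐 (fun A : IFun 𝔐 ℕ (Finset ℕ) => (∀ n : ℕ, (A.1 n).Nonempty) ∧
      ∀ n : ℕ, Bef (A.1 n) (A.1 (n + 1))) := by
    refine int_and (int_all (int_nonempty ?_)) (int_all (int_bef ?_ ?_))
    · exact intF_appF (intF_fst' intF_id) (intF_snd' intF_id)
    · exact intF_appF (intF_fst' intF_id) (intF_snd' intF_id)
    · exact intF_appF (intF_fst' intF_id) (intF_comp intF_succ (intF_snd' intF_id))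
  exact int_congr (fun A => ⟨fun h => ⟨h.1, h.2⟩, fun h => ⟨h.ne, h.lt⟩⟩) h

theorem int_fu_sub {A : ℕ → Finset ℕ} : Int 𝔐 (fun q : IFun 𝔐 ℕ (Finset ℕ) ×
    ISet 𝔐 (Finset ℕ) => fu q.1.1 ⊆ q.2.1) := by
  have h : Int 𝔐 (fun q : IFun 𝔐 ℕ (Finset ℕ) × ISet 𝔐 (Finset ℕ) =>
      ∀ b : Finset ℕ, b ∈ fu q.1.1 → b ∈ q.2.1) := by
    refine int_all (int_imp ?_ ?_)
    · exact int_comp2 (R := fun (X : IFun 𝔐 ℕ (Finset ℕ)) (b : Finset ℕ) => b ∈ fu X.1)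
        int_fu_rel (intF_fst' (intF_fst' intF_id)) (intF_snd' intF_id)
    · exact HMod.int_memF (intF_snd' intF_id) (intF_snd' (intF_fst' intF_id))
  exact int_congr (fun q => ⟨fun h b hb => h b hb, fun h b hb => h hb⟩) h

/-- tails and subsequences -/
theorem intF_tail {A : ℕ → Finset ℕ} (hA : IntF 𝔐 A) (k : ℕ) : IntF 𝔐 (fun n => A (n + k)) :=
  intF_comp hA (intF_comp2 (F := fun m n : ℕ => m + n) StdF.add intF_id (intF_const k))

theorem intF_compS {A : ℕ → Finset ℕ} (hA : IntF 𝔐 A) {f : ℕ → ℕ} (hf : IntF 𝔐 f) :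
    IntF 𝔐 (fun n => A (f n)) := intF_comp hA hf

/-- internal construction of block sequences, by `int_dc` (choose `B n` above `mx (B (n-1))`) -/
theorem exists_blkF_i {P : ℕ → Finset ℕ → Prop} (hP : Int 𝔐 (fun q : ℕ × Finset ℕ => P q.1 q.2))
    (h : ∀ n N, ∃ b : Finset ℕ, b.Nonempty ∧ Lo N b ∧ P n b) :
    ∃ B, IntF 𝔐 B ∧ BlkF B ∧ ∀ n, P n (B n) := by
  obtain ⟨a₀, h1, _, h2⟩ := h 0 0
  obtain ⟨B, hB, _, hB'⟩ := int_dc (𝔐 := 𝔐) (p := fun n (b : Finset ℕ) => b.Nonempty ∧ P n b)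
    (R := fun _ (b c : Finset ℕ) => Bef b c)
    (int_and (int_nonempty (intF_snd' intF_id)) hP)
    (int_bef (intF_fst' (intF_snd' intF_id)) (intF_snd' (intF_snd' intF_id)))
    (a₀ := a₀) ⟨h1, h2⟩ (by
      rintro n b ⟨_, _⟩
      obtain ⟨c, h3, h4, h5⟩ := h (n + 1) (mx b + 1)
      refine ⟨c, ⟨h3, h5⟩, fun i hi j hj => ?_⟩
      have h6 := h4 j hj
      have h7 := le_mx hi
      omega)
  exact ⟨B, hB, ⟨fun n => (hB' n).1.1, fun n => (hB' n).2⟩, fun n => (hB' n).1.2⟩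

/-- finite intersections of an internal family, as in `diag`: for `S : ℕ → Set (Finset ℕ)` internal the
family `n ↦ ⋂_{i ≤ n} S i` is internal -/
theorem int_ball {R : α → ℕ → Prop} (hR : Int 𝔐 (fun q : α × ℕ => R q.1 q.2)) {f : α → ℕ}
    (hf : IntF 𝔐 f) : Int 𝔐 (fun a => ∀ n < f a, R a n) :=
  int_all (int_imp (int_ltF (intF_snd' intF_id) (intF_comp hf (intF_fst' intF_id))) hR)

/-- quantifiers over the subsets of `range (f a)` -/
theorem int_ballS {R : α → Finset ℕ → Prop} (hR : Int 𝔐 (fun q : α × Finset ℕ => R q.1 q.2))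
    {f : α → ℕ} (hf : IntF 𝔐 f) :
    Int 𝔐 (fun a => ∀ b : Finset ℕ, b ⊆ Finset.range (f a) → R a b) :=
  int_all (int_imp (int_comp2 (R := fun b c : Finset ℕ => b ⊆ c) StdF.sub (intF_snd' intF_id)
    (intF_comp (StdF.range (𝔐 := 𝔐)) (intF_comp hf (intF_fst' intF_id)))) hR)

end F

section V
variable {K : Type} [Field K] [DecidableEq K] [Countable K] [Std 𝔐 K]

omit [DecidableEq K] [Countable K] [Std 𝔐 K] in
theorem fui_mem_span {X : ℕ → ℕ →₀ K} {v : ℕ →₀ K} :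
    v ∈ Submodule.span K (Set.range X) ↔ ∃ s : Finset (ℕ →₀ K),
      (∀ w : ℕ →₀ K, w ∈ s → ∃ n : ℕ, X n = w) ∧ v ∈ Submodule.span K (s : Set (ℕ →₀ K)) := by
  constructor
  · intro h
    obtain ⟨T, hT, hv⟩ := Submodule.mem_span_finite_of_mem_span h
    exact ⟨T, fun w hw => hT hw, hv⟩
  · rintro ⟨s, hs, hv⟩
    exact Submodule.span_mono (fun w hw => hs w hw) hv

theorem fui_int_span_rel : Int 𝔐 (fun q : IFun 𝔐 ℕ (ℕ →₀ K) × (ℕ →₀ K) =>
    q.2 ∈ Submodule.span K (Set.range q.1.1)) := by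
  have h : Int 𝔐 (fun q : IFun 𝔐 ℕ (ℕ →₀ K) × (ℕ →₀ K) => ∃ s : Finset (ℕ →₀ K),
      (∀ w : ℕ →₀ K, w ∈ s → ∃ n : ℕ, q.1.1 n = w) ∧
        q.2 ∈ Submodule.span K (s : Set (ℕ →₀ K))) := by
    refine int_ex (int_and (int_all (int_imp ?_ (int_ex (int_eqF ?_ ?_)))) ?_)
    · exact int_comp2 (R := fun (w : ℕ →₀ K) (s : Finset (ℕ →₀ K)) => w ∈ s) Std.memE
        (intF_snd' intF_id) (intF_snd' (intF_fst' intF_id))
    · exact intF_appF (intF_fst' (intF_fst' (intF_fst' (intF_fst' intF_id)))) (intF_snd' intF_id)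
    · exact intF_snd' (intF_fst' intF_id)
    · exact int_comp2 (R := fun (v : ℕ →₀ K) (s : Finset (ℕ →₀ K)) =>
        v ∈ Submodule.span K (s : Set (ℕ →₀ K))) Std.spn
        (intF_snd' (intF_fst' intF_id)) (intF_snd' intF_id)
  exact int_congr (fun q => fui_mem_span.symm) h

/-- `v ∈ bs X` iff `v ≠ 0` and there is a finite set `s` of entries of `X` with `v` in its span -/
theorem int_bs_rel : Int 𝔐 (fun q : IFun 𝔐 ℕ (ℕ →₀ K) × (ℕ →₀ K) => q.2 ∈ bs q.1.1) :=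
  int_and (int_not (int_eqF (intF_snd' intF_id) (intF_const 0))) fui_int_span_rel

theorem int_bs {X : ℕ → ℕ →₀ K} (hX : IntF 𝔐 X) : Int 𝔐 (fun v => v ∈ bs X) :=
  Int.slice (R := fun (Y : IFun 𝔐 ℕ (ℕ →₀ K)) (v : ℕ →₀ K) => v ∈ bs Y.1) int_bs_rel ⟨X, hX⟩

theorem int_blk : Int 𝔐 (fun X : IFun 𝔐 ℕ (ℕ →₀ K) => Blk X.1) := by
  have : StdF 𝔐 := Std.toStdF (K := K)
  have h : Int 𝔐 (fun X : IFun 𝔐 ℕ (ℕ →₀ K) => (∀ n : ℕ, ¬ (X.1 n = 0)) ∧
      ∀ n : ℕ, Bef (X.1 n).support (X.1 (n + 1)).support) := by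
    refine int_and (int_all (int_not (int_eqF ?_ (intF_const 0)))) (int_all (int_bef ?_ ?_))
    · exact intF_appF (intF_fst' intF_id) (intF_snd' intF_id)
    · exact intF_comp Std.supp (intF_appF (intF_fst' intF_id) (intF_snd' intF_id))
    · exact intF_comp Std.supp
        (intF_appF (intF_fst' intF_id) (intF_comp intF_succ (intF_snd' intF_id)))
  exact int_congr (fun X => ⟨fun h => ⟨h.1, h.2⟩, fun h => ⟨h.ne, h.lt⟩⟩) h

theorem intF_suppF {f : α → ℕ →₀ K} (hf : IntF 𝔐 f) : IntF 𝔐 (fun a => (f a).support) :=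
  intF_comp Std.supp hf

theorem intF_sp {X : ℕ → ℕ →₀ K} (hX : IntF 𝔐 X) : IntF 𝔐 (sp X) := intF_suppF hX

theorem exists_blk_i {P : ℕ → (ℕ →₀ K) → Prop}
    (hP : Int 𝔐 (fun q : ℕ × (ℕ →₀ K) => P q.1 q.2))
    (h : ∀ n N, ∃ v : ℕ →₀ K, v ≠ 0 ∧ Lo N v.support ∧ P n v) :
    ∃ X, IntF 𝔐 X ∧ Blk X ∧ ∀ n, P n (X n) := by
  have : StdF 𝔐 := Std.toStdF (K := K)
  obtain ⟨a₀, h1, _, h2⟩ := h 0 0
  obtain ⟨X, hX, _, hX'⟩ := int_dc (𝔐 := 𝔐) (p := fun n (v : ℕ →₀ K) => ¬ (v = 0) ∧ P n v)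
    (R := fun _ (v w : ℕ →₀ K) => Bef v.support w.support)
    (int_and (int_not (int_eqF (intF_snd' intF_id) (intF_const 0))) hP)
    (int_bef (intF_comp Std.supp (intF_fst' (intF_snd' intF_id)))
      (intF_comp Std.supp (intF_snd' (intF_snd' intF_id))))
    (a₀ := a₀) ⟨h1, h2⟩ (by
      rintro n v ⟨_, _⟩
      obtain ⟨w, h3, h4, h5⟩ := h (n + 1) (mx v.support + 1)
      refine ⟨w, ⟨h3, h5⟩, fun i hi j hj => ?_⟩
      have h6 := h4 j hj
      have h7 := le_mx hi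
      omega)
  exact ⟨X, hX, ⟨fun n => (hX' n).1.1, fun n => (hX' n).2⟩, fun n => (hX' n).1.2⟩

/-- the span of an internal sequence is internal -/
theorem int_span {X : ℕ → ℕ →₀ K} (hX : IntF 𝔐 X) :
    Int 𝔐 (fun v => v ∈ Submodule.span K (Set.range X)) :=
  Int.slice (R := fun (Y : IFun 𝔐 ℕ (ℕ →₀ K)) (v : ℕ →₀ K) =>
    v ∈ Submodule.span K (Set.range Y.1)) fui_int_span_rel ⟨X, hX⟩

/-- Gaussian elimination inside the model: for each `m` there is a nonzero vector of `V` with support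
`≥ m` (as in `exists_blk_of_infinite`); `exists_blk_i` -/
theorem exists_blk_of_infinite_i (V : Submodule K (ℕ →₀ K)) (hV : Int 𝔐 (fun v => v ∈ V))
    (hinf : ¬ FiniteDimensional K V) : ∃ Z, IntF 𝔐 Z ∧ Blk Z ∧ ∀ n, Z n ∈ V := by
  refine exists_blk_i (P := fun _ v => v ∈ V) (int_comp hV (intF_snd' intF_id)) ?_
  intro _ N
  by_contra hcon
  push Not at hcon
  apply hinf
  let L : V →ₗ[K] (Fin N → K) :=
    { toFun := fun v i => (v : ℕ →₀ K) i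
      map_add' := fun v w => by
        ext i
        simp
      map_smul' := fun a v => by
        ext i
        simp }
  refine Module.Finite.of_injective L ?_
  rw [injective_iff_map_eq_zero]
  intro v hv
  by_contra hne
  have h1 : (v : ℕ →₀ K) ≠ 0 := fun h => hne (Subtype.ext h)
  refine hcon (v : ℕ →₀ K) h1 ?_ v.2
  intro j hj
  by_contra hlt
  have h2 := congrFun hv ⟨j, not_le.mp hlt⟩
  exact (Finsupp.mem_support_iff.mp hj) h2

end V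

end Pool.Agent.SOUi
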