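import Pool.Agent.Lib_MP_a0d45a_int.GFgeni
import Pool.Agent.Lib_MP_a0d45a_lc.GF

/-!
# Piece GFI: game fusion for hereditary properties (port of `Lib_MP_a0d45a_lc/GF.lean`)
-/

set_option autoImplicit false

namespace Pool.Agent.SOUi

open Pool.Agent.SOU Pool.Agent.HMod

universe w

variable {𝔐 : HM.{w}} {K : Type} [Field K] [DecidableEq K] [Countable K] [Std 𝔐 K]
  {F : Filter (ℕ →₀ K)} {U : Filter (Finset ℕ)}

/-- one step (no internality of `G` is needed: the union is finite) -/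
theorem gf_step_i (hF : IsBlockFilteri 𝔐 F) (T : CdI 𝔐 F) (n N : ℕ) (y : ℕ →₀ K) (hn : n < N)
    (hN : Hi N y.support) (G : CdI 𝔐 F → Prop) (hG : ∀ p q : CdI 𝔐 F, G p → q ≤ p → G q)
    (h : ∀ s ∈ T.1.T, s.1 = n → ∀ π : Set Typ, ∃ q ≤ T.atI s, G q ∧
      ∀ t ∈ q.1.T, Hi t.1 y.support → ∀ ϑ ∈ TT n y, (ϑ ∈ t.2 ↔ ϑ ∈ π)) :
    ∃ T' ≤ T, (∀ t ∈ T'.1.T, t.1 = N → G (T'.atI t)) ∧
      ∀ s ∈ T.1.T, s.1 = n → ∀ π : Set Typ, ∃ t ∈ T'.1.T, t.1 = N ∧ Ext s t ∧ Pat n y π t := by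
  classical
  have hfinT := TT_finite n y
  have hfinL := T.1.level_finite n
  have : Finite {s : Node // s ∈ T.1.T ∧ s.1 = n} := hfinL
  have hch : ∀ x : {s : Node // s ∈ T.1.T ∧ s.1 = n} × {a : Finset Typ // a ∈ hfinT.toFinset.powerset},
      ∃ q ≤ T.atI x.1.1, G q ∧
        ∀ t ∈ q.1.T, Hi t.1 y.support → ∀ ϑ ∈ TT n y, (ϑ ∈ t.2 ↔ ϑ ∈ (x.2.1 : Set Typ)) :=
    fun x => h x.1.1 x.1.2.1 x.1.2.2 (x.2.1 : Set Typ)
  choose P hP1 hP2 hP3 using hch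
  obtain ⟨t₀, ht₀, ht₀n⟩ := T.exists_level_i hF n
  have i₀ : {s : Node // s ∈ T.1.T ∧ s.1 = n} × {a : Finset Typ // a ∈ hfinT.toFinset.powerset} :=
    (⟨t₀, ht₀, ht₀n⟩, ⟨∅, Finset.empty_mem_powerset _⟩)
  obtain ⟨T', hT'⟩ := CdI.exists_union_fin_i (𝔐 := 𝔐) P i₀
  have hle : ∀ x, P x ≤ T := fun x => (hP1 x).trans (T.atI_le _)
  have hTT : T' ≤ T := by
    rw [cdI_le_iff, hT']
    exact Set.iUnion_subset fun x => cdI_le_iff.1 (hle x)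
  -- a node of level `N` in `P x` extends `x.1`
  have hext : ∀ x, ∀ t ∈ (P x).1.T, t.1 = N → Ext x.1.1 t := by
    intro x t ht htN
    have h1 : t ∈ (T.atI x.1.1).1.T := cdI_le_iff.1 (hP1 x) ht
    rw [T.atI_T x.1.2.1] at h1
    rcases h1.2 with h2 | h2
    · exact h2
    · have h3 := h2.1
      rw [x.1.2.2, htN] at h3
      omega
  -- the index is determined by the node
  have hdet : ∀ x x', ∀ t, t ∈ (P x).1.T → t ∈ (P x').1.T → t.1 = N → x = x' := by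
    intro x x' t ht ht' htN
    have e1 : x.1 = x'.1 := by
      apply Subtype.ext
      have h1 := (hext x t ht htN).cut
      have h2 := (hext x' t ht' htN).cut
      rw [x.1.2.2] at h1
      rw [x'.1.2.2] at h2
      rw [h1, h2]
    have hiN : Hi t.1 y.support := by
      rw [htN]
      exact hN
    have e2 : x.2 = x'.2 := by
      apply Subtype.ext
      have k1 := Finset.mem_powerset.1 x.2.2
      have k2 := Finset.mem_powerset.1 x'.2.2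
      ext ϑ
      constructor
      · intro h1
        have h2 : ϑ ∈ TT n y := hfinT.mem_toFinset.1 (k1 h1)
        exact Finset.mem_coe.1 ((hP3 x' t ht' hiN ϑ h2).1
          ((hP3 x t ht hiN ϑ h2).2 (Finset.mem_coe.2 h1)))
      · intro h1
        have h2 : ϑ ∈ TT n y := hfinT.mem_toFinset.1 (k2 h1)
        exact Finset.mem_coe.1 ((hP3 x t ht hiN ϑ h2).1
          ((hP3 x' t ht' hiN ϑ h2).2 (Finset.mem_coe.2 h1)))
    exact Prod.ext e1 e2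
  refine ⟨T', hTT, ?_, ?_⟩
  · intro t ht htN
    have ht2 := ht
    rw [hT', Set.mem_iUnion] at ht2
    obtain ⟨x, hx⟩ := ht2
    refine hG _ _ (hP2 x) ?_
    rw [cdI_le_iff, T'.atI_T ht]
    rintro u ⟨hu, hc⟩
    rcases hc with h1 | h1
    · rw [hT', Set.mem_iUnion] at hu
      obtain ⟨x', hx'⟩ := hu
      have h2 : t ∈ (P x').1.T := by
        have h3 := (P x').1.down u hx' t.1 h1.1
        have h4 := h1.cut
        rw [h4]
        exact h3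
      rw [hdet x x' t hx h2 htN]
      exact hx'
    · have h3 := (P x).1.down t hx u.1 h1.1
      have h4 := h1.cut
      rw [h4]
      exact h3
  · intro s hs hsn π
    have hfinπ : (TT n y ∩ π).Finite := hfinT.subset Set.inter_subset_left
    have hmem : hfinπ.toFinset ∈ hfinT.toFinset.powerset := by
      rw [Finset.mem_powerset]
      intro ϑ hϑ
      exact hfinT.mem_toFinset.2 (hfinπ.mem_toFinset.1 hϑ).1
    obtain ⟨t, ht, htN⟩ :=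
      (P (⟨s, hs, hsn⟩, ⟨hfinπ.toFinset, hmem⟩)).exists_level_i hF N
    have hiN : Hi t.1 y.support := by
      rw [htN]
      exact hN
    refine ⟨t, ?_, htN, hext (⟨s, hs, hsn⟩, ⟨hfinπ.toFinset, hmem⟩) t ht htN, hiN, ?_⟩
    · rw [hT', Set.mem_iUnion]
      exact ⟨_, ht⟩
    · intro ϑ hϑ
      rw [hP3 (⟨s, hs, hsn⟩, ⟨hfinπ.toFinset, hmem⟩) t ht hiN ϑ hϑ, Finset.mem_coe,
        Set.Finite.mem_toFinset]
      exact ⟨fun h3 => h3.2, fun h3 => ⟨hϑ, h3⟩⟩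

theorem gf_i [Fact (IsIFil 𝔐 F)] (hK : ∃ a : K, a ≠ 0 ∧ a ≠ 1) (hU : IsSOUi 𝔐 U)
    (hF : IsPPlusi 𝔐 F) {ι : Type} [Cod 𝔐 ι]
    (Good : ι → CdI 𝔐 F → Prop) (hGood : Int 𝔐 (fun q : ι × CdI 𝔐 F => Good q.1 q.2))
    (nx : ι → Finset ℕ → ι) (hnx : IntF 𝔐 (fun q : ι × Finset ℕ => nx q.1 q.2))
    (hered : ∀ i p q, Good i p → q ≤ p → Good i q)
    (step : ∀ i p s, p.Stem s → Good i p → ∃ B ∈ U, ∃ S ∈ F, ∀ b ∈ B, ∀ y ∈ S, ∀ π : Set Typ,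
      ∃ q ≤ p, Good (nx i b) q ∧
        ∀ t ∈ q.1.T, Hi t.1 y.support → ∀ ϑ ∈ TT s.1 y, (ϑ ∈ t.2 ↔ ϑ ∈ π))
    (i₀ : ι) (p₀ : CdI 𝔐 F) (s₀ : Node) (hs : p₀.Stem s₀) (h₀ : Good i₀ p₀) :
    ∃ b, IntF 𝔐 b ∧ BlkF b ∧ fu b ∈ U ∧ ∃ q ≤ p₀, ∃ i : ℕ → ι, IntF 𝔐 i ∧ i 0 = i₀ ∧
      (∀ k, i (k + 1) = nx (i k) (b k)) ∧ ∀ k, ∃ Φ : Set (CdI 𝔐 F), Φ.Finite ∧
        (∀ r ∈ Φ, Good (i k) r) ∧ ∀ r ≤ q, ∃ φ ∈ Φ, ∃ s, s ≤ r ∧ s ≤ φ := by
  have hBF : IsBlockFilteri 𝔐 F := hF.toIsFulli.toIsBlockFilteri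
  have hVi : Int 𝔐 (fun q : ι × CdI 𝔐 F × ℕ =>
      ∀ s : Node, s ∈ q.2.1.1.T → s.1 = q.2.2 → Good q.1 (q.2.1.atI s)) := by
    refine int_all (int_imp ?_ (int_imp ?_ ?_))
    · exact cbi_memF (intF_snd' intF_id) (intF_fst' (intF_snd' (intF_fst' intF_id)))
    · exact int_eqF (intF_fst' (intF_snd' intF_id)) (intF_snd' (intF_snd' (intF_fst' intF_id)))
    · exact int_comp2 (R := fun (a : ι) (p : CdI 𝔐 F) => Good a p) hGood
        (intF_fst' (intF_fst' intF_id))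
        (intF_comp2 (F := fun (p : CdI 𝔐 F) (s : Node) => p.atI s) CdI.intF_atI
          (intF_fst' (intF_snd' (intF_fst' intF_id))) (intF_snd' intF_id))
  obtain ⟨b, y, i, T, m, R, hbi, -, hii, -, -, hb, hbU, hi0, hT0, hm0, hi, hT, hV, -, hR, -⟩ :=
    gfgen_i hK hU hF (fun i T n => ∀ s ∈ T.1.T, s.1 = n → Good i (T.atI s)) hVi nx hnx (by
      intro i T n hV
      have hch : ∀ s : Node, ∃ B ∈ U, ∃ S ∈ F, s ∈ T.1.T → s.1 = n → ∀ b ∈ B, ∀ y ∈ S,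
          ∀ π : Set Typ, ∃ q ≤ T.atI s, Good (nx i b) q ∧
            ∀ t ∈ q.1.T, Hi t.1 y.support → ∀ ϑ ∈ TT n y, (ϑ ∈ t.2 ↔ ϑ ∈ π) := by
        intro s
        by_cases h1 : s ∈ T.1.T ∧ s.1 = n
        · obtain ⟨B, hB, S, hS, h2⟩ := step i (T.atI s) s (T.stem_atI h1.1)
            (hV s h1.1 h1.2)
          rw [h1.2] at h2
          exact ⟨B, hB, S, hS, fun _ _ => h2⟩
        · exact ⟨Set.univ, Filter.univ_mem, Set.univ, Filter.univ_mem,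
            fun h2 h3 => absurd ⟨h2, h3⟩ h1⟩
      choose B hB S hS h2 using hch
      have hfin := T.1.level_finite n
      refine ⟨⋂ s ∈ {t ∈ T.1.T | t.1 = n}, B s, (Filter.biInter_mem hfin).2 fun s _ => hB s,
        ⋂ s ∈ {t ∈ T.1.T | t.1 = n}, S s, (Filter.biInter_mem hfin).2 fun s _ => hS s, ?_⟩
      intro b hb y hy
      have hN : Hi (n + mx y.support + 1) y.support := by
        intro j hj
        have h3 : j ≤ mx y.support := Finset.le_sup (f := id) hj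
        omega
      obtain ⟨T', hT', h4, h5⟩ := gf_step_i hBF T n (n + mx y.support + 1) y
        (by omega) hN (Good (nx i b)) (fun p q h3 h4 => hered _ p q h3 h4) (by
          intro s hs hsn π
          exact h2 s hs hsn b (Set.mem_iInter₂.1 hb s ⟨hs, hsn⟩) y
            (Set.mem_iInter₂.1 hy s ⟨hs, hsn⟩) π)
      exact ⟨T', hT', n + mx y.support + 1, by omega, hN, h4, h5⟩)
      i₀ p₀ s₀.1 (fun s _ _ => hered _ _ _ h₀ (p₀.atI_le s))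
  refine ⟨b, hbi, hb, hbU, R, hT0 ▸ hR 0, i, hii, hi0, hi, fun k => ?_⟩
  refine ⟨(fun s => (T k).atI s) '' {s ∈ (T k).1.T | s.1 = m k},
    ((T k).1.level_finite (m k)).image _, ?_, ?_⟩
  · rintro r ⟨s, ⟨hs1, hs2⟩, rfl⟩
    exact hV k s hs1 hs2
  · intro r hr
    obtain ⟨s, hs1, hs2, -, hs4, hs5⟩ :=
      (T k).predense_level_i hBF (m k) (hr.trans (hR k))
    exact ⟨_, ⟨s, ⟨hs1, hs2⟩, rfl⟩, r.atI s, hs4, hs5⟩

end Pool.Agent.SOUi
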