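import Pool.Agent.Lib_MP_a0d45a_int.L2Ci
import Pool.Agent.Lib_MP_a0d45a_int.GFi
import Pool.Agent.Lib_MP_a0d45a_int.HHDi
import Pool.Agent.Lib_MP_a0d45a_lc.Pres

/-!
# Piece PRESI (port of `Lib_MP_a0d45a_lc/Pres.lean`): `CdI F` preserves stable ordered-union ultrafilters,
inside the model
-/

set_option autoImplicit false

namespace Pool.Agent.SOUi

open Pool.Agent.SOU Pool.Agent.HMod

universe w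

variable {𝔐 : HM.{w}} {K : Type} [Field K] [DecidableEq K] [Countable K] [Std 𝔐 K]
  {F : Filter (ℕ →₀ K)} {U : Filter (Finset ℕ)}

theorem pres_of_HH_i [Fact (IsIFil 𝔐 F)] (hK : ∃ a : K, a ≠ 0 ∧ a ≠ 1) (hF : IsPPlusi 𝔐 F)
    (hU : IsSOUi 𝔐 U) {Z : Finset ℕ → Set (CdI 𝔐 F)}
    (hZ : Int 𝔐 (fun q : Finset ℕ × CdI 𝔐 F => q.2 ∈ Z q.1)) {p : CdI 𝔐 F}
    (h : HHI 𝔐 U Z p ∅) : ∃ q ≤ p, ∃ S ∈ U, ∀ b ∈ S, FrIn Z b q := by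
  have hstd : StdF 𝔐 := Std.toStdF (K := K)
  have hle : Int 𝔐 (fun q : CdI 𝔐 F × CdI 𝔐 F => q.1 ≤ q.2) := int_cdLe
  obtain ⟨s₀, hs₀⟩ := p.1.ne
  have hle' : p.atI s₀ ≤ p := CdI.atI_le p s₀
  have hs : (p.atI s₀).Stem s₀ := CdI.stem_atI p hs₀
  have hG : Int 𝔐 (fun q : Finset (Finset ℕ) × CdI 𝔐 F => HHI 𝔐 U Z q.2 q.1) :=
    int_swap (R := fun (x : CdI 𝔐 F) (y : Finset (Finset ℕ)) => HHI 𝔐 U Z x y)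
      (int_HHI hle hU hZ)
  obtain ⟨b, _, _, hbU, q, hq, i, _, hi0, hi1, hk⟩ :=
    gf_i hK hU hF (ι := Finset (Finset ℕ)) (fun C p => HHI 𝔐 U Z p C) hG extC hstd.extC
      (fun _ _ _ h1 h2 => HHI.mono hle hU hZ h1 h2)
      (fun C p s hs h => main_step_i hK hF hU hZ C p s hs h) ∅ (p.atI s₀) s₀ hs
      (HHI.mono hle hU hZ h hle')
  refine ⟨q, le_trans hq hle', fu b, hbU, fun τ hτ r hr => ?_⟩
  obtain ⟨k, hτk⟩ := mem_extC_iter b i hi0 hi1 τ hτ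
  obtain ⟨Φ, _, hΦ, hpre⟩ := hk k
  obtain ⟨φ, hφ, s, hsr, hsφ⟩ := hpre r hr
  obtain ⟨t, hts, htZ⟩ := (hΦ φ hφ).frIn hτk s hsφ
  exact ⟨t, le_trans hts hsr, htZ⟩

theorem pres_i [Fact (IsIFil 𝔐 F)] (hK : ∃ a : K, a ≠ 0 ∧ a ≠ 1) (hF : IsPPlusi 𝔐 F)
    (hU : IsSOUi 𝔐 U) {Z : Finset ℕ → Set (CdI 𝔐 F)}
    (hZi : Int 𝔐 (fun q : Finset ℕ × CdI 𝔐 F => q.2 ∈ Z q.1)) (hZ : OpenName Z) (p : CdI 𝔐 F) :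
    ∃ q ≤ p, ∃ S ∈ U, Int 𝔐 (fun b => b ∈ S) ∧
      ((∀ b ∈ S, FrIn Z b q) ∨ (∀ b ∈ S, FrOut Z b q)) := by
  have hstd : StdF 𝔐 := Std.toStdF (K := K)
  have hle : Int 𝔐 (fun q : CdI 𝔐 F × CdI 𝔐 F => q.1 ≤ q.2) := int_cdLe
  obtain ⟨r, hr, h | h⟩ := dichotomy_i hle hU hZi hZ p
  · obtain ⟨q, hq, S, hS, hb⟩ := pres_of_HH_i hK hF hU hZi h
    obtain ⟨T, hT, hTi, hTS⟩ := hU.fil.gen S hS
    exact ⟨q, le_trans hq hr, T, hT, hTi, Or.inl fun b hbT => hb b (hTS hbT)⟩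
  · obtain ⟨q, hq, S, hS, hb⟩ := pres_of_HH_i hK hF hU (int_compl hle hZi) h
    obtain ⟨T, hT, hTi, hTS⟩ := hU.fil.gen S hS
    exact ⟨q, le_trans hq hr, T, hT, hTi,
      Or.inr fun b hbT => (frIn_compl hZ).1 (hb b (hTS hbT))⟩

end Pool.Agent.SOUi
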