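import Pool.Agent.Lib_MP_a0d45a_int.FinUi

/-!
# Piece HINI: Hindman's theorem inside a model (Baumgartner's proof)

All sequences and sets are internal. For block sequences `A`, `B` write `B ≤ A` if `fu B ⊆ fu A`.
`X` is LARGE for `A` if `fu B` meets `X` for all internal block sequences `B ≤ A`.

(L1) If `X = X_1 ∪ ... ∪ X_n` on `fu A` is large for `A`, some `X_i` is large for some `B ≤ A` (if `X_1` is not large for
`A` there is `B ≤ A` with `fu B ∩ X_1 = ∅`, and `X_2 ∪ ... ∪ X_n` is large for `B`; induction).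

(L2) If `X` is large for `A` there are `k` and `B`, `fu B ⊆ fu (A_k, A_{k+1}, ...)`, such that for all `b ∈ fu B` there is `e` in
`fu (A_0, ..., A_{k-1})` with `e ∪ b ∈ X`. PROOF. Otherwise for all `k` and all `B` in `fu (A_k, ...)` there is `b ∈ fu B` such that
`e ∪ b ∉ X` for all `e ∈ fu (A_0, ..., A_{k-1})`. Choose recursively (`int_dc`) `d_n ∈ fu A` and `k_n` with `d_n ∈ fu (A_{k_n}, ..., A_{k_{n+1}-1})` and
`e ∪ d_n ∉ X` for all `e ∈ fu (A_0, ..., A_{k_n - 1})` (apply the assumption to `B =` the tail of `A` from `k_n`). Put `E_n = d_{2n} ∪ d_{2n+1}`.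
An element of `fu E` is `e ∪ d_m`, `m` its last index, with `e ≠ ∅` in `fu (A_0, ..., A_{k_m - 1})`; so it is not in `X`. So `E ≤ A` is a
block sequence with `fu E ∩ X = ∅`, contradiction.

(L3) If `X` is large for `A` there are `e ∈ fu A` and `B ≤ A`, `e < B 0`, such that `{b ∈ X | e ∪ b ∈ X}` is large for `B`. PROOF. Take `k`, `B` from
(L2). `X` is large for `B`, and on `fu B` it is the union of the finitely many sets `{b ∈ X | e ∪ b ∈ X}`, `e ∈ fu (A_0, ..., A_{k-1})`.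
Apply (L1).

(L4) THEOREM. By (L1) for `X = fu A = (fu A ∩ Z) ∪ (fu A ∩ Zᶜ)` there is a colour class `X_0` (`Z` or `Zᶜ`) and `A_0 ≤ A` such that `X_0` is large
for `A_0`. By (L3) and `int_dc` (states: pairs in `IFun 𝔐 ℕ (Finset ℕ) × ISet 𝔐 (Finset ℕ)`, and the element `e`) there are `A_n`, `X_n`, `e_n` with `X_n` large
for `A_n`, `e_n ∈ fu A_n`, `A_{n+1} ≤ A_n`, `e_n < A_{n+1} 0`, `X_{n+1} = {b ∈ X_n | e_n ∪ b ∈ X_n}`. By induction on `n`: if `b ∈ X_n` then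
`b ∈ X_0` and `e ∪ b ∈ X_0` for all `e ∈ fu (e_0, ..., e_{n-1})` (more precisely `e ∪ b ∈ X_i` for `e ∈ fu (e_i, ..., e_{n-1})`). The sequence
`(e_n, e_{n+1}, ...)` is `≤ A_n`, so `X_n` meets `fu (e_n, e_{n+1}, ...)`. So one can choose recursively (`int_dc`)
`n_0 = 0`, `h_i ∈ X_{n_i} ∩ fu (e_{n_i}, ..., e_{n_{i+1} - 1})`. Then `h` is a block sequence with `fu h ⊆ fu A ∩ X_0`:
an element of `fu h` is `e ∪ h_i` with `i` its last index, `e = ∅` or `e ∈ fu (e_0, ..., e_{n_i - 1})`, `h_i ∈ X_{n_i}`.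
-/

set_option autoImplicit false

namespace Pool.Agent.SOUi

open Pool.Agent.SOU Pool.Agent.HMod

universe w

variable {𝔐 : HM.{w}} [StdF 𝔐]

/-- largeness -/
def LargeI (𝔐 : HM.{w}) (X : Set (Finset ℕ)) (A : ℕ → Finset ℕ) : Prop :=
  ∀ B, IntF 𝔐 B → BlkF B → fu B ⊆ fu A → (fu B ∩ X).Nonempty

theorem int_LargeI : Int 𝔐 (fun q : ISet 𝔐 (Finset ℕ) × IFun 𝔐 ℕ (Finset ℕ) =>
    LargeI 𝔐 q.1.1 q.2.1) := by
  have h : Int 𝔐 (fun q : ISet 𝔐 (Finset ℕ) × IFun 𝔐 ℕ (Finset ℕ) =>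
      ∀ B : IFun 𝔐 ℕ (Finset ℕ), BlkF B.1 → (∀ b : Finset ℕ, b ∈ fu B.1 → b ∈ fu q.2.1) →
        ∃ b : Finset ℕ, b ∈ fu B.1 ∧ b ∈ q.1.1) := by
    refine int_all (int_imp (int_comp (p := fun A : IFun 𝔐 ℕ (Finset ℕ) => BlkF A.1) int_blkF
      (intF_snd' intF_id))
      (int_imp (int_all (int_imp ?_ ?_)) (int_ex (int_and ?_ ?_))))
    · exact int_comp2 (R := fun (X : IFun 𝔐 ℕ (Finset ℕ)) (b : Finset ℕ) => b ∈ fu X.1)
        int_fu_rel (intF_snd' (intF_fst' intF_id)) (intF_snd' intF_id)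
    · exact int_comp2 (R := fun (X : IFun 𝔐 ℕ (Finset ℕ)) (b : Finset ℕ) => b ∈ fu X.1)
        int_fu_rel (intF_snd' (intF_fst' (intF_fst' intF_id))) (intF_snd' intF_id)
    · exact int_comp2 (R := fun (X : IFun 𝔐 ℕ (Finset ℕ)) (b : Finset ℕ) => b ∈ fu X.1)
        int_fu_rel (intF_snd' (intF_fst' intF_id)) (intF_snd' intF_id)
    · exact HMod.int_memF (intF_snd' intF_id) (intF_fst' (intF_fst' (intF_fst' intF_id)))
  refine int_congr (fun q => ?_) h
  constructor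
  · intro h1 B hB hBb hBs
    obtain ⟨b, hb, hb'⟩ := h1 ⟨B, hB⟩ hBb (fun b hb => hBs hb)
    exact ⟨b, hb, hb'⟩
  · intro h1 B hBb hBs
    obtain ⟨b, hb, hb'⟩ := h1 B.1 B.2 hBb (fun b hb => hBs b hb)
    exact ⟨b, hb, hb'⟩

/-- largeness for a smaller sequence -/
theorem hini_large_mono {X : Set (Finset ℕ)} {A B : ℕ → Finset ℕ} (h : LargeI 𝔐 X A)
    (hBA : fu B ⊆ fu A) : LargeI 𝔐 X B :=
  fun C hC hCb hCs => h C hC hCb (hCs.trans hBA)

/-- the union of the entries with index in a finite set -/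
theorem hini_intF_biUnion {A : ℕ → Finset ℕ} (hA : IntF 𝔐 A) :
    IntF 𝔐 (fun J : Finset ℕ => J.biUnion A) := by
  refine intF_of_graph (R := fun (J b : Finset ℕ) => ∀ i : ℕ, (i ∈ b ↔ ∃ n : ℕ, n ∈ J ∧ i ∈ A n))
    (int_all (int_iff ?_ (int_ex (int_and ?_ ?_)))) ?_
  · exact int_memF (intF_snd' intF_id) (intF_snd' (intF_fst' intF_id))
  · exact int_memF (intF_snd' intF_id) (intF_fst' (intF_fst' (intF_fst' intF_id)))
  · exact int_memF (intF_snd' (intF_fst' intF_id)) (intF_comp hA (intF_snd' intF_id))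
  · intro J b
    constructor
    · intro h
      ext i
      rw [h, Finset.mem_biUnion]
    · rintro rfl i
      rw [Finset.mem_biUnion]

theorem hini_biU {α : Type*} [Cod 𝔐 α] {A : ℕ → Finset ℕ} (hA : IntF 𝔐 A) {f : α → Finset ℕ}
    (hf : IntF 𝔐 f) : IntF 𝔐 (fun a => (f a).biUnion A) :=
  intF_comp (g := fun J : Finset ℕ => J.biUnion A) (hini_intF_biUnion hA) hf

/-- entries of a union of unions -/
theorem hini_biUnion_last {J : ℕ → Finset ℕ} {K : Finset ℕ} (hK : K.Nonempty) :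
    K.biUnion J = (K.erase (K.max' hK)).biUnion J ∪ J (K.max' hK) := by
  have hins : insert (K.max' hK) (K.erase (K.max' hK)) = K := Finset.insert_erase (K.max'_mem hK)
  rw [Finset.union_comm, ← Finset.biUnion_insert, hins]

/-- (L1) -/
theorem large_union {A : ℕ → Finset ℕ} (hA : IntF 𝔐 A) (hAb : BlkF A) {ι : Type} (s : Finset ι)
    {X : ι → Set (Finset ℕ)} (hXi : ∀ i ∈ s, Int 𝔐 (fun b => b ∈ X i))
    (h : LargeI 𝔐 (⋃ i ∈ s, X i) A) :
    ∃ i ∈ s, ∃ B, IntF 𝔐 B ∧ BlkF B ∧ fu B ⊆ fu A ∧ LargeI 𝔐 (X i) B := by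
  classical
  clear hXi
  induction s using Finset.induction_on generalizing A with
  | empty =>
    obtain ⟨b, -, hb⟩ := h A hA hAb subset_rfl
    simp at hb
  | insert i s his ih =>
    by_cases hl : LargeI 𝔐 (X i) A
    · exact ⟨i, Finset.mem_insert_self i s, A, hA, hAb, subset_rfl, hl⟩
    · unfold LargeI at hl
      push Not at hl
      obtain ⟨B, hB, hBb, hBs, hBX⟩ := hl
      have h1 : LargeI 𝔐 (⋃ i ∈ s, X i) B := by
        intro C hC hCb hCs
        obtain ⟨c, hc, hc'⟩ := h C hC hCb (hCs.trans hBs)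
        refine ⟨c, hc, ?_⟩
        rw [Finset.set_biUnion_insert] at hc'
        rcases hc' with hc' | hc'
        · exact absurd (show c ∈ fu B ∩ X i from ⟨hCs hc, hc'⟩) (by rw [hBX]; exact fun h => h)
        · exact hc'
      obtain ⟨j, hj, B', hB', hBb', hBs', hL⟩ := ih hB hBb h1
      exact ⟨j, Finset.mem_insert_of_mem hj, B', hB', hBb', hBs'.trans hBs, hL⟩

/-- (L2) -/
theorem large_split {A : ℕ → Finset ℕ} (hA : IntF 𝔐 A) (hAb : BlkF A) {X : Set (Finset ℕ)}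
    (hX : Int 𝔐 (fun b => b ∈ X)) (h : LargeI 𝔐 X A) :
    ∃ k B, IntF 𝔐 B ∧ BlkF B ∧ fu B ⊆ fu (fun n => A (n + k)) ∧
      ∀ b ∈ fu B, ∃ I : Finset ℕ, I.Nonempty ∧ Hi k I ∧ I.biUnion A ∪ b ∈ X := by
  by_contra hcon
  push Not at hcon
  -- for the tails of `A`, in terms of index sets
  have h1 : ∀ k, ∃ J : Finset ℕ, J.Nonempty ∧ Lo k J ∧
      ∀ I : Finset ℕ, I.Nonempty → Hi k I → (I ∪ J).biUnion A ∉ X := by
    intro k
    obtain ⟨b, hb, hb'⟩ := hcon k (fun n => A (n + k)) (intF_tail hA k) (hAb.tail k) subset_rfl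
    obtain ⟨J, hJ, rfl⟩ := hb
    refine ⟨J.image (fun n => n + k), hJ.image _, ?_, ?_⟩
    · intro j hj
      obtain ⟨i, -, rfl⟩ := Finset.mem_image.1 hj
      exact Nat.le_add_left k i
    · intro I hI hIk
      have h2 := hb' I hI hIk
      have h3 : (I ∪ J.image (fun n => n + k)).biUnion A =
          I.biUnion A ∪ J.biUnion (fun n => A (n + k)) := by
        rw [Finset.union_biUnion, Finset.image_biUnion]
      rw [h3]
      exact h2
  have hRint : Int 𝔐 (fun q : ℕ × Finset ℕ × Finset ℕ => Bef q.2.1 q.2.2 ∧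
      ∀ I : Finset ℕ, I.Nonempty → Hi (mx q.2.1 + 1) I → ¬ ((I ∪ q.2.2).biUnion A ∈ X)) := by
    refine int_and (int_bef (intF_fst' (intF_snd' intF_id)) (intF_snd' (intF_snd' intF_id)))
      (int_all (int_imp (int_nonempty (intF_snd' intF_id)) (int_imp ?_ (int_not ?_))))
    · exact int_hi (intF_comp intF_succ (intF_comp StdF.mx
        (intF_fst' (intF_snd' (intF_fst' intF_id))))) (intF_snd' intF_id)
    · exact int_memC hX (hini_biU hA (intF_union (intF_snd' intF_id)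
        (intF_snd' (intF_snd' (intF_fst' intF_id)))))
  obtain ⟨a₀, ha₀, -, -⟩ := h1 0
  obtain ⟨J, hJ, -, hJ'⟩ := int_dc (𝔐 := 𝔐) (p := fun _ (b : Finset ℕ) => b.Nonempty)
    (R := fun _ (b c : Finset ℕ) => Bef b c ∧
      ∀ I : Finset ℕ, I.Nonempty → Hi (mx b + 1) I → ¬ ((I ∪ c).biUnion A ∈ X))
    (int_nonempty (intF_snd' intF_id)) hRint (a₀ := a₀) ha₀ (by
      intro n b _
      obtain ⟨c, hc, hc1, hc2⟩ := h1 (mx b + 1)
      refine ⟨c, hc, ?_, hc2⟩
      intro i hi j hj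
      have h4 := hc1 j hj
      have h5 := le_mx hi
      omega)
  have hJb : BlkF J := ⟨fun n => (hJ' n).1, fun n => (hJ' n).2.1⟩
  -- the sequence `E`
  have hdbl : IntF 𝔐 (fun n : ℕ => 2 * n) :=
    intF_comp2 (F := fun m n : ℕ => m * n) StdF.mul (intF_const 2) intF_id
  have hL : IntF 𝔐 (fun n => J (2 * n) ∪ J (2 * n + 1)) :=
    intF_union (intF_comp hJ hdbl) (intF_comp hJ (intF_comp intF_succ hdbl))
  have hE : IntF 𝔐 (fun n => (J (2 * n) ∪ J (2 * n + 1)).biUnion A) :=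
    hini_biU hA hL
  have hLne : ∀ n, (J (2 * n) ∪ J (2 * n + 1)).Nonempty := fun n =>
    (hJb.ne _).mono Finset.subset_union_left
  have hEb : BlkF (fun n => (J (2 * n) ∪ J (2 * n + 1)).biUnion A) := by
    constructor
    · intro n
      exact fu_ne hAb ⟨_, hLne n, rfl⟩
    · intro n i hi j hj
      obtain ⟨k, hk, hik⟩ := Finset.mem_biUnion.1 hi
      obtain ⟨l, hl, hjl⟩ := Finset.mem_biUnion.1 hj
      refine hAb.bef ?_ i hik j hjl
      rcases Finset.mem_union.1 hk with hk | hk <;> rcases Finset.mem_union.1 hl with hl | hl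
      · exact hJb.bef (by omega) k hk l hl
      · exact hJb.bef (by omega) k hk l hl
      · exact hJb.bef (by omega) k hk l hl
      · exact hJb.bef (by omega) k hk l hl
  have hEs : fu (fun n => (J (2 * n) ∪ J (2 * n + 1)).biUnion A) ⊆ fu A :=
    fu_mono (fun n => ⟨_, hLne n, rfl⟩)
  obtain ⟨c, hc, hcX⟩ := h _ hE hEb hEs
  obtain ⟨K, hK, rfl⟩ := hc
  -- split off the last index set
  set N := K.max' hK with hN
  have e1 : K.biUnion (fun n => (J (2 * n) ∪ J (2 * n + 1)).biUnion A) =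
      (((K.erase N).biUnion (fun n => J (2 * n) ∪ J (2 * n + 1)) ∪ J (2 * N)) ∪
        J (2 * N + 1)).biUnion A := by
    rw [← Finset.biUnion_biUnion, hini_biUnion_last hK, ← hN, Finset.union_assoc]
  rw [e1] at hcX
  refine (hJ' (2 * N)).2.2 _ ((hJb.ne (2 * N)).mono Finset.subset_union_right) ?_ hcX
  intro j hj
  rw [Nat.lt_succ_iff]
  rcases Finset.mem_union.1 hj with hj | hj
  · obtain ⟨n, hn, hjn⟩ := Finset.mem_biUnion.1 hj
    have hnN : n < N := by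
      have h4 := Finset.mem_erase.1 hn
      exact lt_of_le_of_ne (K.le_max' n h4.2) h4.1
    have h5 : mx (J (2 * N)) ∈ J (2 * N) := mx_mem (hJb.ne _)
    rcases Finset.mem_union.1 hjn with h4 | h4
    · exact (hJb.bef (by omega) j h4 _ h5).le
    · exact (hJb.bef (by omega) j h4 _ h5).le
  · exact le_mx hj

/-- (L3) -/
theorem large_step {A : ℕ → Finset ℕ} (hA : IntF 𝔐 A) (hAb : BlkF A) {X : Set (Finset ℕ)}
    (hX : Int 𝔐 (fun b => b ∈ X)) (h : LargeI 𝔐 X A) :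
    ∃ e ∈ fu A, ∃ B, IntF 𝔐 B ∧ BlkF B ∧ fu B ⊆ fu A ∧ Bef e (B 0) ∧
      LargeI 𝔐 {b | b ∈ X ∧ e ∪ b ∈ X} B := by
  classical
  obtain ⟨k, B, hB, hBb, hBs, hBX⟩ := large_split hA hAb hX h
  have htail : fu (fun n => A (n + k)) ⊆ fu A := fun b hb => ((mem_fu_tail hAb k).1 hb).1
  have hBA : fu B ⊆ fu A := hBs.trans htail
  have hint : ∀ e : Finset ℕ, Int 𝔐 (fun b : Finset ℕ => b ∈ {b | b ∈ X ∧ e ∪ b ∈ X}) := by
    intro e
    exact int_and hX (int_memC hX (intF_union (intF_const e) intF_id))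
  have hU : LargeI 𝔐 (⋃ I ∈ (Finset.range k).powerset.filter (fun I => I.Nonempty),
      {b | b ∈ X ∧ I.biUnion A ∪ b ∈ X}) B := by
    intro C hC hCb hCs
    obtain ⟨c, hc, hcX⟩ := h C hC hCb (hCs.trans hBA)
    obtain ⟨I, hI, hIk, hIX⟩ := hBX c (hCs hc)
    refine ⟨c, hc, ?_⟩
    simp only [Set.mem_iUnion]
    refine ⟨I, ?_, hcX, hIX⟩
    rw [Finset.mem_filter, Finset.mem_powerset]
    exact ⟨fun i hi => Finset.mem_range.2 (hIk i hi), hI⟩
  obtain ⟨I, hI, B', hB', hBb', hBs', hL⟩ := large_union hB hBb _ (fun I _ => hint _) hU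
  rw [Finset.mem_filter, Finset.mem_powerset] at hI
  refine ⟨I.biUnion A, ⟨I, hI.2, rfl⟩, B', hB', hBb', hBs'.trans hBA, ?_, hL⟩
  have h0 : B' 0 ∈ fu (fun n => A (n + k)) := hBs (hBs' (self_mem_fu B' 0))
  have h1 := ((mem_fu_tail hAb k).1 h0).2
  intro i hi j hj
  obtain ⟨n, hn, hin⟩ := Finset.mem_biUnion.1 hi
  exact h1 n (Finset.mem_range.1 (hI.1 hn)) i hin j hj

/-- the main part of (L4) -/
theorem hini_mono_of_large {A₀ : ℕ → Finset ℕ} (hA₀ : IntF 𝔐 A₀) (hAb₀ : BlkF A₀)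
    {X₀ : Set (Finset ℕ)} (hX₀ : Int 𝔐 (fun b => b ∈ X₀)) (hL₀ : LargeI 𝔐 X₀ A₀) :
    ∃ B, IntF 𝔐 B ∧ BlkF B ∧ fu B ⊆ fu A₀ ∧ fu B ⊆ X₀ := by
  classical
  -- first recursion: states (A, X, e)
  have hp : Int 𝔐 (fun q : ℕ × (IFun 𝔐 ℕ (Finset ℕ) × ISet 𝔐 (Finset ℕ) × Finset ℕ) =>
      BlkF q.2.1.1 ∧ LargeI 𝔐 q.2.2.1.1 q.2.1.1) := by
    refine int_and (int_comp (p := fun A : IFun 𝔐 ℕ (Finset ℕ) => BlkF A.1) int_blkF
      (intF_fst' (intF_snd' intF_id))) ?_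
    exact int_comp2 (R := fun (X : ISet 𝔐 (Finset ℕ)) (A : IFun 𝔐 ℕ (Finset ℕ)) =>
      LargeI 𝔐 X.1 A.1) int_LargeI (intF_fst' (intF_snd' (intF_snd' intF_id)))
      (intF_fst' (intF_snd' intF_id))
  have hR : Int 𝔐 (fun q : ℕ × (IFun 𝔐 ℕ (Finset ℕ) × ISet 𝔐 (Finset ℕ) × Finset ℕ) ×
      (IFun 𝔐 ℕ (Finset ℕ) × ISet 𝔐 (Finset ℕ) × Finset ℕ) =>
      q.2.2.2.2 ∈ fu q.2.1.1.1 ∧ (∀ b : Finset ℕ, b ∈ fu q.2.2.1.1 → b ∈ fu q.2.1.1.1) ∧
        Bef q.2.2.2.2 (q.2.2.1.1 0) ∧ ∀ b : Finset ℕ, (b ∈ q.2.2.2.1.1 ↔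
          (b ∈ q.2.1.2.1.1 ∧ q.2.2.2.2 ∪ b ∈ q.2.1.2.1.1))) := by
    refine int_and ?_ (int_and (int_all (int_imp ?_ ?_)) (int_and (int_bef ?_ ?_)
      (int_all (int_iff ?_ (int_and ?_ ?_)))))
    · exact int_comp2 (R := fun (X : IFun 𝔐 ℕ (Finset ℕ)) (b : Finset ℕ) => b ∈ fu X.1)
        int_fu_rel (intF_fst' (intF_fst' (intF_snd' intF_id)))
        (intF_snd' (intF_snd' (intF_snd' (intF_snd' intF_id))))
    · exact int_comp2 (R := fun (X : IFun 𝔐 ℕ (Finset ℕ)) (b : Finset ℕ) => b ∈ fu X.1)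
        int_fu_rel (intF_fst' (intF_snd' (intF_snd' (intF_fst' intF_id)))) (intF_snd' intF_id)
    · exact int_comp2 (R := fun (X : IFun 𝔐 ℕ (Finset ℕ)) (b : Finset ℕ) => b ∈ fu X.1)
        int_fu_rel (intF_fst' (intF_fst' (intF_snd' (intF_fst' intF_id)))) (intF_snd' intF_id)
    · exact intF_snd' (intF_snd' (intF_snd' (intF_snd' intF_id)))
    · exact intF_appF (intF_fst' (intF_snd' (intF_snd' intF_id))) (intF_const 0)
    · exact HMod.int_memF (intF_snd' intF_id)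
        (intF_fst' (intF_snd' (intF_snd' (intF_snd' (intF_fst' intF_id)))))
    · exact HMod.int_memF (intF_snd' intF_id)
        (intF_fst' (intF_snd' (intF_fst' (intF_snd' (intF_fst' intF_id)))))
    · exact HMod.int_memF (intF_union
        (intF_snd' (intF_snd' (intF_snd' (intF_snd' (intF_fst' intF_id))))) (intF_snd' intF_id))
        (intF_fst' (intF_snd' (intF_fst' (intF_snd' (intF_fst' intF_id)))))
  obtain ⟨f, hf, hf0, hf'⟩ := int_dc (𝔐 := 𝔐)
    (p := fun _ (x : IFun 𝔐 ℕ (Finset ℕ) × ISet 𝔐 (Finset ℕ) × Finset ℕ) =>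
      BlkF x.1.1 ∧ LargeI 𝔐 x.2.1.1 x.1.1)
    (R := fun _ (x y : IFun 𝔐 ℕ (Finset ℕ) × ISet 𝔐 (Finset ℕ) × Finset ℕ) =>
      y.2.2 ∈ fu x.1.1 ∧ (∀ b : Finset ℕ, b ∈ fu y.1.1 → b ∈ fu x.1.1) ∧
        Bef y.2.2 (y.1.1 0) ∧ ∀ b : Finset ℕ, (b ∈ y.2.1.1 ↔
          (b ∈ x.2.1.1 ∧ y.2.2 ∪ b ∈ x.2.1.1)))
    hp hR (a₀ := (⟨A₀, hA₀⟩, ⟨X₀, hX₀⟩, ∅)) ⟨hAb₀, hL₀⟩ (by
      rintro n ⟨A, X, e⟩ ⟨h1, h2⟩
      obtain ⟨e', he', B, hB, hBb, hBs, hbef, hlarge⟩ := large_step A.2 h1 X.2 h2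
      have hXe : Int 𝔐 (fun b : Finset ℕ => b ∈ {b | b ∈ X.1 ∧ e' ∪ b ∈ X.1}) :=
        int_and X.2 (int_memC X.2 (intF_union (intF_const e') intF_id))
      exact ⟨(⟨B, hB⟩, ⟨{b | b ∈ X.1 ∧ e' ∪ b ∈ X.1}, hXe⟩, e'), ⟨hBb, hlarge⟩, he',
        fun b hb => hBs hb, hbef, fun b => Iff.rfl⟩)
  -- the sequences `An`, `Xn`, `e`
  have hA0 : (f 0).1.1 = A₀ := by rw [hf0]
  have hX0 : (f 0).2.1.1 = X₀ := by rw [hf0]
  have he : IntF 𝔐 (fun n => (f (n + 1)).2.2) := intF_snd' (intF_snd' (intF_comp hf intF_succ))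
  have hXi : IntF 𝔐 (fun n => (f n).2.1) := intF_fst' (intF_snd' hf)
  set e : ℕ → Finset ℕ := fun n => (f (n + 1)).2.2 with hedef
  have he1 : ∀ n, e n ∈ fu (f n).1.1 := fun n => (hf' n).2.1
  have hAsub : ∀ n m, n ≤ m → fu (f m).1.1 ⊆ fu (f n).1.1 := by
    intro n m hnm
    induction m, hnm using Nat.le_induction with
    | base => exact subset_rfl
    | succ m _ ih =>
      intro b hb
      exact ih ((hf' m).2.2.1 b hb)
  have hbefA : ∀ n, ∀ b ∈ fu (f (n + 1)).1.1, Bef (e n) b := by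
    intro n b hb i hi j hj
    have hblk := (hf' (n + 1)).1.1
    obtain ⟨k, hk, -⟩ := mem_fu_block hb hj
    have h1 : Bef (e n) ((f (n + 1)).1.1 0) := (hf' n).2.2.2.1
    obtain ⟨l, hl⟩ := hblk.ne 0
    rcases Nat.eq_zero_or_pos k with rfl | hkpos
    · exact h1 i hi j hk
    · exact (h1 i hi l hl).trans (hblk.bef hkpos l hl j hk)
  have heb : BlkF e := by
    constructor
    · intro n
      exact fu_ne (hf' n).1.1 (he1 n)
    · intro n
      exact hbefA n (e (n + 1)) (he1 (n + 1))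
  have hXstep : ∀ n b, b ∈ (f (n + 1)).2.1.1 ↔ b ∈ (f n).2.1.1 ∧ e n ∪ b ∈ (f n).2.1.1 :=
    fun n b => (hf' n).2.2.2.2 b
  -- the main property of the sets `Xn`
  have hmain : ∀ n, ∀ I : Finset ℕ, Hi n I → ∀ b ∈ (f n).2.1.1, I.biUnion e ∪ b ∈ X₀ := by
    intro n
    induction n with
    | zero =>
      intro I hI b hb
      have hI0 : I = ∅ := by
        rw [Finset.eq_empty_iff_forall_notMem]
        intro i hi
        exact absurd (hI i hi) (Nat.not_lt_zero i)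
      rw [hI0, Finset.biUnion_empty, Finset.empty_union, ← hX0]
      exact hb
    | succ n ih =>
      intro I hI b hb
      have hb' := (hXstep n b).1 hb
      by_cases hn : n ∈ I
      · have hins : insert n (I.erase n) = I := Finset.insert_erase hn
        have h1 : I.biUnion e ∪ b = (I.erase n).biUnion e ∪ (e n ∪ b) := by
          rw [← Finset.union_assoc, Finset.union_comm ((I.erase n).biUnion e) (e n),
            ← Finset.biUnion_insert, hins]
        rw [h1]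
        refine ih (I.erase n) ?_ _ hb'.2
        intro j hj
        have h2 := Finset.mem_erase.1 hj
        have h3 := hI j h2.2
        have h4 := h2.1
        omega
      · refine ih I ?_ _ hb'.1
        intro j hj
        have h3 := hI j hj
        have h4 : j ≠ n := fun h => hn (h ▸ hj)
        omega
  -- `Xn` meets the finite unions of the tail of `e` from `n` on
  have hmeet : ∀ n, ∃ J : Finset ℕ, J.Nonempty ∧ Lo n J ∧ J.biUnion e ∈ (f n).2.1.1 := by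
    intro n
    have h1 : fu (fun j => e (j + n)) ⊆ fu (f n).1.1 := by
      apply fu_mono
      intro j
      exact hAsub n (j + n) (Nat.le_add_left n j) (he1 (j + n))
    obtain ⟨b, hb, hbX⟩ := (hf' n).1.2 _ (intF_tail he n) (heb.tail n) h1
    obtain ⟨J, hJ, rfl⟩ := hb
    refine ⟨J.image (fun j => j + n), hJ.image _, ?_, ?_⟩
    · intro j hj
      obtain ⟨i, -, rfl⟩ := Finset.mem_image.1 hj
      exact Nat.le_add_left n i
    · rw [Finset.image_biUnion]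
      exact hbX
  -- second recursion
  obtain ⟨a₀, ha₀, -, ha₀X⟩ := hmeet 0
  obtain ⟨J, hJ, hJ0, hJ'⟩ := int_dc (𝔐 := 𝔐) (p := fun _ (b : Finset ℕ) => b.Nonempty)
    (R := fun _ (b c : Finset ℕ) => Bef b c ∧ c.biUnion e ∈ (f (mx b + 1)).2.1.1)
    (int_nonempty (intF_snd' intF_id))
    (int_and (int_bef (intF_fst' (intF_snd' intF_id)) (intF_snd' (intF_snd' intF_id)))
      (HMod.int_memF (hini_biU he (intF_snd' (intF_snd' intF_id)))
        (intF_comp (g := fun n => (f n).2.1) hXi (intF_comp (g := fun n : ℕ => n + 1) intF_succ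
          (intF_comp StdF.mx (intF_fst' (intF_snd' intF_id)))))))
    (a₀ := a₀) ha₀ (by
      intro n b _
      obtain ⟨c, hc, hc1, hc2⟩ := hmeet (mx b + 1)
      refine ⟨c, hc, ?_, hc2⟩
      intro i hi j hj
      have h4 := hc1 j hj
      have h5 := le_mx hi
      omega)
  have hJb : BlkF J := ⟨fun n => (hJ' n).1, fun n => (hJ' n).2.1⟩
  have hBs : fu (fun n => (J n).biUnion e) ⊆ fu e := fu_mono (fun n => ⟨_, hJb.ne n, rfl⟩)
  have hes : fu e ⊆ fu A₀ := by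
    rw [← hA0]
    apply fu_mono
    intro n
    exact hAsub 0 n (Nat.zero_le n) (he1 n)
  refine ⟨fun n => (J n).biUnion e, hini_biU he hJ, ?_, hBs.trans hes, ?_⟩
  · constructor
    · intro n
      exact fu_ne heb ⟨_, hJb.ne n, rfl⟩
    · intro n i hi j hj
      obtain ⟨k, hk, hik⟩ := Finset.mem_biUnion.1 hi
      obtain ⟨l, hl, hjl⟩ := Finset.mem_biUnion.1 hj
      exact heb.bef (hJb.lt n k hk l hl) i hik j hjl
  · rintro c ⟨K, hK, rfl⟩
    set N := K.max' hK with hN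
    have e1 : K.biUnion (fun n => (J n).biUnion e) =
        ((K.erase N).biUnion J).biUnion e ∪ (J N).biUnion e := by
      rw [← Finset.biUnion_biUnion, hini_biUnion_last hK, ← hN, Finset.union_biUnion]
    rw [e1]
    rcases Nat.eq_zero_or_pos N with h0 | hpos
    · have hKe : K.erase N = ∅ := by
        rw [Finset.eq_empty_iff_forall_notMem]
        intro j hj
        have h4 := Finset.mem_erase.1 hj
        have h5 := K.le_max' j h4.2
        omega
      rw [hKe, Finset.biUnion_empty, Finset.biUnion_empty, Finset.empty_union, h0, hJ0, ← hX0]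
      exact ha₀X
    · obtain ⟨M, hM⟩ : ∃ M, N = M + 1 := ⟨N - 1, by omega⟩
      refine hmain (mx (J M) + 1) _ ?_ _ ?_
      · intro j hj
        rw [Nat.lt_succ_iff]
        obtain ⟨n, hn, hjn⟩ := Finset.mem_biUnion.1 hj
        have h4 := Finset.mem_erase.1 hn
        have h5 := K.le_max' n h4.2
        have hnM : n ≤ M := by
          have h6 := h4.1
          omega
        rcases hnM.lt_or_eq with h7 | h7
        · exact (hJb.bef h7 j hjn _ (mx_mem (hJb.ne M))).le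
        · rw [h7] at hjn
          exact le_mx hjn
      · have h6 := (hJ' M).2.2
        rw [hM]
        exact h6

/-- (L4) -/
theorem hindman_block_i {A : ℕ → Finset ℕ} (hA : IntF 𝔐 A) (hAb : BlkF A) (Z : Set (Finset ℕ))
    (hZ : Int 𝔐 (fun b => b ∈ Z)) :
    ∃ B, IntF 𝔐 B ∧ BlkF B ∧ fu B ⊆ fu A ∧ (fu B ⊆ Z ∨ fu B ⊆ Zᶜ) := by
  classical
  have hU : LargeI 𝔐 (⋃ i ∈ (Finset.univ : Finset Bool), (if i = true then Z else Zᶜ)) A := by
    intro B _ _ _
    refine ⟨B 0, self_mem_fu B 0, ?_⟩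
    simp only [Set.mem_iUnion]
    by_cases hz : B 0 ∈ Z
    · exact ⟨true, Finset.mem_univ _, by rw [if_pos rfl]; exact hz⟩
    · exact ⟨false, Finset.mem_univ _, by rw [if_neg Bool.false_ne_true]; exact hz⟩
  have hint : ∀ i ∈ (Finset.univ : Finset Bool),
      Int 𝔐 (fun b : Finset ℕ => b ∈ (if i = true then Z else Zᶜ)) := by
    intro i _
    cases i
    · exact int_congr (fun b => by rw [if_neg Bool.false_ne_true]; exact Iff.rfl) (int_not hZ)
    · exact int_congr (fun b => by rw [if_pos rfl]) hZ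
  obtain ⟨i, hi, A₀, hA₀, hAb₀, hAs₀, hL₀⟩ := large_union hA hAb _ hint hU
  suffices hmain : ∃ B, IntF 𝔐 B ∧ BlkF B ∧ fu B ⊆ fu A₀ ∧ fu B ⊆ (if i = true then Z else Zᶜ) by
    obtain ⟨B, hB, hBb, hBs, hBX⟩ := hmain
    refine ⟨B, hB, hBb, hBs.trans hAs₀, ?_⟩
    cases i
    · right
      rw [if_neg Bool.false_ne_true] at hBX
      exact hBX
    · left
      rw [if_pos rfl] at hBX
      exact hBX
  exact hini_mono_of_large hA₀ hAb₀ (hint i hi) hL₀

end Pool.Agent.SOUi
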