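import Pool.Agent.Lib_MP_a0d45a_int.FinUi

/-!
# Piece UTAILI (port of `Lib_MP_a0d45a_lc/UTail.lean`)
-/

set_option autoImplicit false

namespace Pool.Agent.SOUi

open Pool.Agent.SOU Pool.Agent.HMod

universe w

variable {𝔐 : HM.{w}} [StdF 𝔐] {U : Filter (Finset ℕ)} (hU : IsSOUi 𝔐 U)
include hU

theorem sou_ne_i : ∀ᶠ b in U, b.Nonempty := by
  obtain ⟨A, _, hA, hfu, _⟩ := hU.base Set.univ Filter.univ_mem
  filter_upwards [hfu] with b hb
  exact fu_ne hA hb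

theorem sou_tail_i (m : ℕ) : ∀ᶠ b in U, Lo m b := by
  rcases hU.ultra {b | Lo m b} (int_lo (intF_const m) intF_id) with h | h
  · exact h
  · exfalso
    obtain ⟨A, _, hA, _, hsub⟩ := hU.base _ h
    exact hsub (self_mem_fu A m) (hA.ge m)

theorem sou_bef_i (b : Finset ℕ) : ∀ᶠ c in U, Bef b c := by
  filter_upwards [sou_tail_i hU (mx b + 1)] with c hc i hi j hj
  have h1 := hc j hj
  have h2 := le_mx hi
  omega

/-- the dichotomy in the `∀ᶠ` form -/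
theorem sou_em {p : Finset ℕ → Prop} (hp : Int 𝔐 p) : (∀ᶠ b in U, p b) ∨ ∀ᶠ b in U, ¬ p b := by
  rcases hU.ultra {b | p b} hp with h | h
  · exact Or.inl h
  · exact Or.inr h

theorem sou_not_iff {p : Finset ℕ → Prop} (hp : Int 𝔐 p) :
    (¬ ∀ᶠ b in U, p b) ↔ ∀ᶠ b in U, ¬ p b := by
  constructor
  · intro h
    exact (sou_em hU hp).resolve_left h
  · intro h1 h2
    have := hU.ne
    obtain ⟨b, hb1, hb2⟩ := (h1.and h2).exists
    exact hb1 hb2

/-- one direction holds for all sets -/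
theorem sou_idem_mp {p : Finset ℕ → Prop} (h : ∀ᶠ b in U, p b) :
    ∀ᶠ b in U, ∀ᶠ c in U, p (b ∪ c) := by
  obtain ⟨A, _, _, hfu, hsub⟩ := hU.base {b | p b} h
  filter_upwards [hfu] with b hb
  filter_upwards [hfu] with c hc
  exact hsub (fu_union hb hc)

theorem sou_idem_i {p : Finset ℕ → Prop} (hp : Int 𝔐 p) :
    (∀ᶠ b in U, p b) ↔ ∀ᶠ b in U, ∀ᶠ c in U, p (b ∪ c) := by
  refine ⟨sou_idem_mp hU, fun h => ?_⟩
  by_contra hcon
  have := hU.ne
  have h1 : ∀ᶠ b in U, ¬ p b := (sou_not_iff hU hp).1 hcon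
  obtain ⟨b, hb1, hb2⟩ := (h.and (sou_idem_mp hU h1)).exists
  obtain ⟨c, hc1, hc2⟩ := (hb1.and hb2).exists
  exact hc2 hc1

theorem sou_base_i {p : Finset ℕ → Prop} (hp : ∀ᶠ b in U, p b) :
    ∃ A, IntF 𝔐 A ∧ BlkF A ∧ fu A ∈ U ∧ ∀ b ∈ fu A, p b := by
  obtain ⟨A, hi, hA, hfu, hsub⟩ := hU.base {b | p b} hp
  exact ⟨A, hi, hA, hfu, fun b hb => hsub hb⟩

theorem sou_base_i' {B : ℕ → Finset ℕ} (hB : fu B ∈ U) {p : Finset ℕ → Prop}
    (hp : ∀ᶠ b in U, p b) :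
    ∃ A, IntF 𝔐 A ∧ BlkF A ∧ fu A ∈ U ∧ fu A ⊆ fu B ∧ ∀ b ∈ fu A, p b := by
  have hB' : ∀ᶠ b in U, b ∈ fu B := hB
  obtain ⟨A, hi, hA, hfu, h⟩ := sou_base_i hU (hB'.and hp)
  exact ⟨A, hi, hA, hfu, fun b hb => (h b hb).1, fun b hb => (h b hb).2⟩

theorem sou_two_i {A : ℕ → Finset ℕ} (hA : fu A ∈ U) :
    ∀ᶠ x in U, ∃ b ∈ fu A, ∃ c ∈ fu A, Bef b c ∧ x = b ∪ c := by
  obtain ⟨B, hBi, _, hBU, hBA⟩ := hU.base _ hA
  have hB' : ∀ᶠ b in U, b ∈ fu B := hBU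
  have key : ∀ᶠ x in U, ∃ b, b ∈ fu B ∧ ∃ c, c ∈ fu B ∧ Bef b c ∧ x = b ∪ c := by
    rw [sou_idem_i hU]
    · filter_upwards [hB'] with b hb
      filter_upwards [hB', sou_bef_i hU b] with c hc hbc
      exact ⟨b, hb, c, hc, hbc, rfl⟩
    · refine int_ex (int_and ?_ (int_ex (int_and ?_ (int_and ?_ ?_))))
      · exact int_comp (int_fu hBi) (intF_snd' intF_id)
      · exact int_comp (int_fu hBi) (intF_snd' intF_id)
      · exact int_bef (intF_snd' (intF_fst' intF_id)) (intF_snd' intF_id)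
      · exact int_eqF (intF_fst' (intF_fst' intF_id))
          (intF_union (intF_snd' (intF_fst' intF_id)) (intF_snd' intF_id))
  filter_upwards [key] with x hx
  obtain ⟨b, hb, c, hc, h⟩ := hx
  exact ⟨b, hBA hb, c, hBA hc, h⟩

theorem sou_three_i {A : ℕ → Finset ℕ} (hA : fu A ∈ U) :
    ∀ᶠ x in U, ∃ b ∈ fu A, ∃ c ∈ fu A, ∃ d ∈ fu A, Bef b c ∧ Bef c d ∧ x = b ∪ c ∪ d := by
  obtain ⟨B, hBi, _, hBU, hBA⟩ := hU.base _ hA
  have hB' : ∀ᶠ b in U, b ∈ fu B := hBU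
  have key : ∀ᶠ x in U, ∃ b, b ∈ fu B ∧ ∃ c, c ∈ fu B ∧ ∃ d, d ∈ fu B ∧ Bef b c ∧ Bef c d ∧
      x = b ∪ c ∪ d := by
    rw [sou_idem_i hU]
    · filter_upwards [sou_two_i hU hBU] with x hx
      obtain ⟨b, hb, c, hc, hbc, rfl⟩ := hx
      filter_upwards [hB', sou_bef_i hU c] with d hd hcd
      exact ⟨b, hb, c, hc, d, hd, hbc, hcd, rfl⟩
    · refine int_ex (int_and ?_ (int_ex (int_and ?_ (int_ex (int_and ?_ (int_and ?_
        (int_and ?_ ?_)))))))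
      · exact int_comp (int_fu hBi) (intF_snd' intF_id)
      · exact int_comp (int_fu hBi) (intF_snd' intF_id)
      · exact int_comp (int_fu hBi) (intF_snd' intF_id)
      · exact int_bef (intF_snd' (intF_fst' (intF_fst' intF_id))) (intF_snd' (intF_fst' intF_id))
      · exact int_bef (intF_snd' (intF_fst' intF_id)) (intF_snd' intF_id)
      · exact int_eqF (intF_fst' (intF_fst' (intF_fst' intF_id)))
          (intF_union (intF_union (intF_snd' (intF_fst' (intF_fst' intF_id)))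
            (intF_snd' (intF_fst' intF_id))) (intF_snd' intF_id))
  filter_upwards [key] with x hx
  obtain ⟨b, hb, c, hc, d, hd, h⟩ := hx
  exact ⟨b, hBA hb, c, hBA hc, d, hBA hd, h⟩

theorem sou_fu_tail_i {A : ℕ → Finset ℕ} (hA : BlkF A) (h : fu A ∈ U) (k : ℕ) :
    fu (fun n => A (n + k)) ∈ U := by
  have h' : ∀ᶠ b in U, b ∈ fu A := h
  have hgoal : ∀ᶠ b in U, b ∈ fu (fun n => A (n + k)) := by
    have hall : ∀ᶠ b in U, ∀ n ∈ Finset.range k, Bef (A n) b :=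
      (Filter.eventually_all_finset (Finset.range k)).2 fun n _ => sou_bef_i hU (A n)
    filter_upwards [h', hall] with b hb hb'
    exact (mem_fu_tail hA k).2 ⟨hb, fun n hn => hb' n (Finset.mem_range.2 hn)⟩
  exact hgoal

theorem sou_mn_ne_i (m : ℕ) : ∀ᶠ b in U, mn b ≠ m := by
  filter_upwards [sou_tail_i hU (m + 1), sou_ne_i hU] with b hb hne h
  have := hb _ (mn_mem hne)
  omega

theorem sou_mx_ne_i (m : ℕ) : ∀ᶠ b in U, mx b ≠ m := by
  filter_upwards [sou_tail_i hU (m + 1), sou_ne_i hU] with b hb hne h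
  have := hb _ (mx_mem hne)
  omega

/-- images under internal functions decide internal sets -/
theorem sou_map_em {α : Type*} [Cod 𝔐 α] {f : Finset ℕ → α} (hf : IntF 𝔐 f) {p : α → Prop}
    (hp : Int 𝔐 p) : (∀ᶠ x in U.map f, p x) ∨ ∀ᶠ x in U.map f, ¬ p x := by
  rcases sou_em hU (int_comp hp hf) with h | h
  · exact Or.inl (Filter.eventually_map.2 h)
  · exact Or.inr (Filter.eventually_map.2 h)

end Pool.Agent.SOUi
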