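import Pool.Agent.Lib_MP_a0d45a_int.BFi
import Pool.Agent.Lib_MP_a0d45a_int.Hini
import Pool.Agent.Lib_MP_a0d45a_int.UTaili

/-!
# Piece USFI (port of `Lib_MP_a0d45a_lc/USF.lean`): the support ultrafilter
-/

set_option autoImplicit false

namespace Pool.Agent.SOUi

open Pool.Agent.SOU Pool.Agent.HMod

universe w

variable {𝔐 : HM.{w}} {K : Type} [Field K] [DecidableEq K] [Countable K] [Std 𝔐 K]
  {F : Filter (ℕ →₀ K)}

theorem usf_common_i (hF : IsBlockFilteri 𝔐 F) {X Y : ℕ → ℕ →₀ K} (hX : bs X ∈ F)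
    (hY : bs Y ∈ F) :
    ∃ Y₁, IntF 𝔐 Y₁ ∧ Blk Y₁ ∧ bs Y₁ ∈ F ∧ bs Y₁ ⊆ bs X ∧ bs Y₁ ⊆ bs Y := by
  obtain ⟨Y₁, h0, h1, h2, h3⟩ := hF.base _ (Filter.inter_mem hX hY)
  exact ⟨Y₁, h0, h1, h2, fun v hv => (h3 hv).1, fun v hv => (h3 hv).2⟩

theorem usf_lift_i {Y : ℕ → ℕ →₀ K} (hYi : IntF 𝔐 Y) (hY : Blk Y) {B : ℕ → Finset ℕ}
    (hBi : IntF 𝔐 B) (hB : BlkF B) (h : fu B ⊆ fu (sp Y)) :
    ∃ Z : ℕ → ℕ →₀ K, IntF 𝔐 Z ∧ Blk Z ∧ bs Z ⊆ bs Y ∧ ∀ v ∈ bs Z, v.support ∈ fu B := by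
  have h1 : ∀ n, ∃ v : ℕ →₀ K, v ∈ bs Y ∧ v.support = B n := by
    intro n
    obtain ⟨v, hv, hs⟩ := exists_supp_eq hY (h (self_mem_fu B n))
    exact ⟨v, hv, hs⟩
  obtain ⟨Z, hZi, hZ⟩ := int_cc (𝔐 := 𝔐) (R := fun n (v : ℕ →₀ K) => v ∈ bs Y ∧ v.support = B n)
    (int_and (int_comp (int_bs hYi) (intF_snd' intF_id))
      (int_eqF (intF_suppF (intF_snd' intF_id)) (intF_comp hBi (intF_fst' intF_id)))) h1
  have hsp : sp Z = B := funext fun n => (hZ n).2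
  have hblk : Blk Z := blk_of_blkF (by rw [hsp]; exact hB)
  refine ⟨Z, hZi, hblk, bs_mono fun n => (hZ n).1, fun v hv => ?_⟩
  have h2 := supp_mem_fu hblk hv
  rwa [hsp] at h2

theorem supp_ultra_i (hF : IsFulli 𝔐 F) (Z : Set (Finset ℕ)) (hZ : Int 𝔐 (fun b => b ∈ Z)) :
    (∀ᶠ v in F, v.support ∈ Z) ∨ (∀ᶠ v in F, v.support ∉ Z) := by
  have : StdF 𝔐 := Std.toStdF (K := K)
  by_cases hD : {v : ℕ →₀ K | v.support ∈ Z} ∈ F
  · exact Or.inl hD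
  · right
    have hDi : Int 𝔐 (fun v => v ∈ {v : ℕ →₀ K | v.support ∈ Z}) :=
      int_comp (p := fun b : Finset ℕ => b ∈ Z) (f := fun v : ℕ →₀ K => v.support) hZ
        (intF_suppF intF_id)
    obtain ⟨X, _, _, hXF, hno⟩ := full_blk_i' hF hDi hD
    have key : {v : ℕ →₀ K | v.support ∉ Z} ∈ F := by
      refine full_blk_i hF _ (int_not hDi) ?_
      intro Y _ _ hYF
      obtain ⟨Y₁, hY₁i, hY₁, _, hs1, hs2⟩ := usf_common_i hF.toIsBlockFilteri hXF hYF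
      obtain ⟨B, hBi, hB, hBY, hc⟩ := hindman_block_i (intF_sp hY₁i) hY₁.blkF Z hZ
      obtain ⟨Z', hZ'i, hZ', hZY, hsupp⟩ := usf_lift_i hY₁i hY₁ hBi hB hBY
      rcases hc with hc | hc
      · exact absurd (fun v hv => hc (hsupp v hv)) (hno Z' hZ'i hZ' (hZY.trans hs1))
      · exact ⟨Z', hZ'i, hZ', hZY.trans hs2, fun v hv => hc (hsupp v hv)⟩
    exact key

/-- the support ultrafilter is an internal filter (the image of an internal set under the support map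
is internal) -/
theorem US_fil_i (hF : IsIFil 𝔐 F) : IsIFil 𝔐 (F.map Finsupp.support) := by
  refine hF.map Std.supp fun S _ => ?_
  refine ⟨⟨Finsupp.support '' S.1, ?_⟩, rfl⟩
  exact int_ex (int_and (int_comp S.2 (intF_snd' intF_id))
    (int_eqF (intF_suppF (intF_snd' intF_id)) (intF_fst' intF_id)))

theorem US_sou_i (hF : IsPPlusi 𝔐 F) : IsSOUi 𝔐 (F.map Finsupp.support) := by
  have : StdF 𝔐 := Std.toStdF (K := K)
  have hne := hF.ne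
  have hbase : ∀ S : Set (Finset ℕ), S ∈ F.map Finsupp.support → ∃ X : ℕ → ℕ →₀ K,
      IntF 𝔐 X ∧ Blk X ∧ bs X ∈ F ∧ ∀ v ∈ bs X, v.support ∈ S := by
    intro S hS
    obtain ⟨X, hXi, hX, hXF, hsub⟩ := hF.base _ (Filter.mem_map.1 hS)
    exact ⟨X, hXi, hX, hXF, fun v hv => hsub hv⟩
  have hfu : ∀ X : ℕ → ℕ →₀ K, Blk X → bs X ∈ F → fu (sp X) ∈ F.map Finsupp.support := by
    intro X hX hXF
    exact Filter.mem_map.2 (Filter.mem_of_superset hXF (fun v hv => supp_mem_fu hX hv))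
  refine ⟨US_fil_i hF.fil, inferInstance, ?_, ?_, ?_⟩
  · intro S hS
    exact supp_ultra_i hF.toIsFulli S hS
  · intro S hS
    obtain ⟨X, hXi, hX, hXF, hs⟩ := hbase S hS
    refine ⟨sp X, intF_sp hXi, hX.blkF, hfu X hX hXF, ?_⟩
    intro b hb
    obtain ⟨v, hv, rfl⟩ := exists_supp_eq hX hb
    exact hs v hv
  · intro A hAi hA
    have h1 : ∀ n, ∃ X : IFun 𝔐 ℕ (ℕ →₀ K), Blk X.1 ∧ (∀ᶠ v in F, v ∈ bs X.1) ∧
        ∀ v : ℕ →₀ K, v ∈ bs X.1 → v.support ∈ fu (A n) := by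
      intro n
      obtain ⟨X, hXi, hX, hXF, hs⟩ := hbase _ (hA n).2
      exact ⟨⟨X, hXi⟩, hX, hXF, hs⟩
    have hR : Int 𝔐 (fun q : ℕ × IFun 𝔐 ℕ (ℕ →₀ K) => Blk q.2.1 ∧
        (∀ᶠ v in F, v ∈ bs q.2.1) ∧ ∀ v : ℕ →₀ K, v ∈ bs q.2.1 → v.support ∈ fu (A q.1)) := by
      refine int_and (int_comp (p := fun X : IFun 𝔐 ℕ (ℕ →₀ K) => Blk X.1) int_blk
        (intF_snd' intF_id)) (int_and ?_ (int_all (int_imp ?_ ?_)))
      · exact int_eventually (α := ℕ × IFun 𝔐 ℕ (ℕ →₀ K)) (β := ℕ →₀ K) hF.fil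
          (R := fun q v => v ∈ bs q.2.1)
          (int_comp2 (R := fun (X : IFun 𝔐 ℕ (ℕ →₀ K)) (v : ℕ →₀ K) => v ∈ bs X.1) int_bs_rel
            (intF_snd' (intF_fst' intF_id)) (intF_snd' intF_id))
      · exact int_comp2 (R := fun (X : IFun 𝔐 ℕ (ℕ →₀ K)) (v : ℕ →₀ K) => v ∈ bs X.1) int_bs_rel
            (intF_snd' (intF_fst' intF_id)) (intF_snd' intF_id)
      · exact int_fuF (A := fun q : (ℕ × IFun 𝔐 ℕ (ℕ →₀ K)) × (ℕ →₀ K) => A q.1.1)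
          (intF_comp2 (F := A) hAi (intF_fst' (intF_fst' (intF_fst' intF_id))) (intF_snd' intF_id))
          (intF_suppF (intF_snd' intF_id))
    obtain ⟨X, hXi, hX⟩ := int_cc (𝔐 := 𝔐) (R := fun n (X : IFun 𝔐 ℕ (ℕ →₀ K)) => Blk X.1 ∧
      (∀ᶠ v in F, v ∈ bs X.1) ∧ ∀ v : ℕ →₀ K, v ∈ bs X.1 → v.support ∈ fu (A n)) hR h1
    obtain ⟨Y, hYi, hY, hYF, hk⟩ := hF.pfil (fun n k => (X n).1 k)
      (intF_appF (intF_comp hXi (intF_fst' intF_id)) (intF_snd' intF_id))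
      (fun n => ⟨(hX n).1, (hX n).2.1⟩)
    refine ⟨sp Y, intF_sp hYi, hY.blkF, hfu Y hY hYF, ?_⟩
    intro n
    obtain ⟨k, hk⟩ := hk n
    refine ⟨k, ?_⟩
    intro b hb hlo
    obtain ⟨v, hv, rfl⟩ := exists_supp_eq hY hb
    exact (hX n).2.2 v (hk v hv hlo)

end Pool.Agent.SOUi
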