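import Pool.Agent.Lib_MP_a0d45a_int.USFi
import Pool.Agent.Lib_MP_a0d45a_lc.KillK

/-!
# Piece KILLKI (port of `Lib_MP_a0d45a_lc/KillK.lean`)
-/

set_option autoImplicit false

namespace Pool.Agent.SOUi

open Pool.Agent.SOU Pool.Agent.HMod

universe w

variable {𝔐 : HM.{w}} {K : Type} [Field K] [DecidableEq K] [Countable K] [Std 𝔐 K]

/-- the CLAIM in the proof of `killK`: if `F` has a base of internal blocks and its support filter
decides all internal sets, every full filter `G` of the model extending `F` is equal to `F` -/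
theorem eq_of_full_i (F G : Filter (ℕ →₀ K))
    (hb : ∀ S ∈ F, ∃ X, IntF 𝔐 X ∧ Blk X ∧ bs X ∈ F ∧ bs X ⊆ S)
    (hU : ∀ Z : Set (Finset ℕ), Int 𝔐 (fun b => b ∈ Z) →
      (∀ᶠ v in F, v.support ∈ Z) ∨ (∀ᶠ v in F, v.support ∉ Z))
    (hG : IsFulli 𝔐 G) (hGF : G ≤ F) : G = F := by
  have : StdF 𝔐 := Std.toStdF (K := K)
  have hne : G.NeBot := hG.ne
  have hsupp : ∀ Z : Set (Finset ℕ), Int 𝔐 (fun b => b ∈ Z) →
      (∀ᶠ v in G, v.support ∈ Z) → ∀ᶠ v in F, v.support ∈ Z := by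
    intro Z hZi hZ
    rcases hU Z hZi with h | h
    · exact h
    · exfalso
      have h3 : ∀ᶠ v in G, v.support ∉ Z := hGF h
      obtain ⟨v, hv1, hv2⟩ := (hZ.and h3).exists
      exact hv2 hv1
  have claim : ∀ Y, IntF 𝔐 Y → Blk Y → bs Y ∈ G → bs Y ∈ F := by
    intro Y hYi hY hYG
    have e1 : ∀ᶠ v in F, v.support ∈ fu (sp Y) :=
      hsupp _ (int_fu (intF_sp hYi))
        (Filter.mem_of_superset hYG (fun v hv => supp_mem_fu hY hv))
    obtain ⟨X, hXi, hX, hXF, hXs⟩ := hb _ e1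
    have hZi : Int 𝔐 (fun b : Finset ℕ =>
        b ∈ {b : Finset ℕ | ∀ j : ℕ, (X j).support ⊆ b → X j ∈ bs Y}) := by
      have h : Int 𝔐 (fun b : Finset ℕ => ∀ j : ℕ, (X j).support ⊆ b → X j ∈ bs Y) := by
        refine int_all (int_imp ?_ ?_)
        · exact int_comp2 (R := fun b c : Finset ℕ => b ⊆ c) StdF.sub
            (intF_suppF (intF_comp hXi (intF_snd' intF_id))) (intF_fst' intF_id)
        · exact int_comp (int_bs hYi) (intF_comp hXi (intF_snd' intF_id))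
      exact h
    have e2 : ∀ᶠ v in F, v.support ∈ {b : Finset ℕ | ∀ j : ℕ, (X j).support ⊆ b → X j ∈ bs Y} := by
      apply hsupp _ hZi
      filter_upwards [hGF hXF, hYG] with v hvX hvY
      intro j hj
      exact entry_mem hX hY hvX hvY j hj (hXs (self_mem_bs hX j))
    filter_upwards [hXF, e2] with v hvX hvZ using mem_of_entries hX hvX hvZ
  refine le_antisymm hGF ?_
  intro S hS
  obtain ⟨X, hXi, hX, hXG, hXS⟩ := hG.base S hS
  exact Filter.mem_of_superset (claim X hXi hX hXG) hXS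

theorem killK_i (F : Filter (ℕ →₀ K)) (hF : IsFulli 𝔐 F)
    (W : Set (ℕ →₀ K)) (hW : Int 𝔐 (fun v => v ∈ W))
    (h1 : ∀ X, IntF 𝔐 X → Blk X → bs X ∈ F → (bs X ∩ W).Nonempty)
    (h2 : ∀ X, IntF 𝔐 X → Blk X → bs X ∈ F → ∃ Z, IntF 𝔐 Z ∧ Blk Z ∧ bs Z ⊆ bs X ∧
      bs Z ⊆ Wᶜ) : False := by
  have hW' : Wᶜ ∈ F := full_blk_i hF Wᶜ (int_not hW) (fun X hXi hX hXF => by
    obtain ⟨Z, hZi, hZ, hZX, hZW⟩ := h2 X hXi hX hXF
    exact ⟨Z, hZi, hZ, hZX, hZW⟩)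
  obtain ⟨X, hXi, hX, hXF, hXW⟩ := hF.base _ hW'
  obtain ⟨v, hv1, hv2⟩ := h1 X hXi hX hXF
  exact hXW hv1 hv2

end Pool.Agent.SOUi
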