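import Pool.Agent.Lib_MP_a0d45a_int.Fus1i
import Pool.Agent.Lib_MP_a0d45a_lc.Dem

/-!
# Piece DEMI: demands (port of `Lib_MP_a0d45a_lc/Dem.lean`; `dem_first`, `dem_step`, `dem_iter` can be used)
-/

set_option autoImplicit false

namespace Pool.Agent.SOUi

open Pool.Agent.SOU Pool.Agent.HMod

universe w

variable {𝔐 : HM.{w}} {K : Type} [Field K] [DecidableEq K] [Countable K] [Std 𝔐 K]
  {F : Filter (ℕ →₀ K)}

theorem demi_int_SatD (K : Type) [Field K] [DecidableEq K] [Countable K] [Std 𝔐 K]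
    {Dem ρ : Set Typ} (hDem : Int 𝔐 (fun ϑ => ϑ ∈ Dem)) (hρ : Int 𝔐 (fun ϑ => ϑ ∈ ρ)) :
    Int 𝔐 (fun t : Node => SatD Dem ρ t) := by
  unfold SatD
  refine int_all (R := fun (t : Node) (ϑ : Typ) => ϑ ∈ Dem → ϑ ∈ TypB t.1 → (ϑ ∈ t.2 ↔ ϑ ∈ ρ)) ?_
  refine int_imp (int_comp hDem intF_snd) (int_imp ?_ (int_iff ?_ (int_comp hρ intF_snd)))
  · exact int_comp2 (R := fun (ϑ : Typ) (S : Finset Typ) => ϑ ∈ S) (Std.memT (K := K)) intF_snd
      (intF_comp (Std.TypB (K := K)) (intF_fst' intF_fst))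
  · exact int_comp2 (R := fun (ϑ : Typ) (S : Finset Typ) => ϑ ∈ S) (Std.memT (K := K)) intF_snd
      (intF_snd' intF_fst)

theorem demi_int_set {T : CdI 𝔐 F} {m : ℕ → ℕ} (hm : IntF 𝔐 m) {Dem ρ : Set Typ}
    (hDem : Int 𝔐 (fun ϑ => ϑ ∈ Dem)) (hρ : Int 𝔐 (fun ϑ => ϑ ∈ ρ)) :
    Int 𝔐 (fun t : Node => t ∈ {t : Node | t ∈ T.1.T ∧ ∃ t' ∈ T.1.T, ∃ i, t'.1 = m i ∧
      SatD Dem ρ t' ∧ Ext t t'}) := by
  refine int_and T.2 ?_
  refine int_ex (R := fun (t t' : Node) => t' ∈ T.1.T ∧ ∃ i, t'.1 = m i ∧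
      SatD Dem ρ t' ∧ Ext t t') ?_
  refine int_and (int_comp T.2 intF_snd) ?_
  refine int_ex (R := fun (q : Node × Node) (i : ℕ) => q.2.1 = m i ∧
      SatD Dem ρ q.2 ∧ Ext q.1 q.2) ?_
  refine int_and ?_ (int_and ?_ ?_)
  · exact int_eqF (intF_fst' (intF_snd' intF_fst)) (intF_comp hm intF_snd)
  · exact int_comp (demi_int_SatD K hDem hρ) (intF_snd' intF_fst)
  · exact int_comp2 (R := fun (s t : Node) => Ext s t) (Std.ext (K := K)) (intF_fst' intF_fst)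
      (intF_snd' intF_fst)

theorem demand_i (hF : IsBlockFilteri 𝔐 F) {T : CdI 𝔐 F} {m : ℕ → ℕ} {y : ℕ → ℕ →₀ K}
    (hm : IntF 𝔐 m) (hy : IntF 𝔐 y) (hT : Fused T.1 m y) (Dem ρ : Set Typ)
    (hDem : Int 𝔐 (fun ϑ => ϑ ∈ Dem)) (hρ : Int 𝔐 (fun ϑ => ϑ ∈ ρ))
    (h1 : ∀ ϑ ∈ Dem, ∃ i, ϑ ∈ TT (m i) (y i)) (h2 : ∀ j, ∀ᶠ v in F, ∀ ϑ ∈ TT (m j) v, ϑ ∉ Dem) :
    ∃ R : CdI 𝔐 F, R ≤ T ∧ (∀ t ∈ R.1.T, SatD Dem ρ t) ∧
      ∀ s ∈ T.1.T, s.1 = m 0 → s ∈ R.1.T := by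
  have hact : ∀ s ∈ {t : Node | t ∈ T.1.T ∧ ∃ t' ∈ T.1.T, ∃ i, t'.1 = m i ∧
        SatD Dem ρ t' ∧ Ext t t'},
      ∀ᶠ v in F, ∀ π : Set Typ,
        ∃ t ∈ {t : Node | t ∈ T.1.T ∧ ∃ t' ∈ T.1.T, ∃ i, t'.1 = m i ∧ SatD Dem ρ t' ∧ Ext t t'},
          Ext s t ∧ Pat s.1 v π t := by
    rintro s ⟨hs, s', hs', j, hs'j, hS', hss'⟩
    have hsh : StrictMono (fun n : ℕ => n + j) := fun a b h => Nat.add_lt_add_right h j
    have hX : Blk (fun n => y (n + j)) := hT.blk.comp hsh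
    have htail : ∀ᶠ v in F, v ∈ bs (fun n => y (n + j)) := bf_bs_tail_i hF hT.blk hT.mem j
    filter_upwards [htail, h2 j] with v hv hvD π
    obtain ⟨n, a, ha, w, hvw, hw, hB, _, _⟩ := bs_snoc hX hv
    -- `w` is below `m (n + j)`
    have hwhi : Hi (m (n + j)) w.support := by
      rcases hw with hw | hw
      · intro e he
        rw [hw, Finsupp.support_zero] at he
        exact absurd he (Finset.notMem_empty e)
      · intro e he
        obtain ⟨i, hi, _⟩ := mem_fu_block (supp_mem_fu hX hw) he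
        have hi' : e ∈ (y (i + j)).support := hi
        have hin : i < n := by
          by_contra hcon
          push Not at hcon
          rcases hcon.lt_or_eq with h3 | h3
          · obtain ⟨f, hf⟩ := hX.blkF.ne n
            have h4 : f < e := hX.blkF.bef h3 f hf e hi
            have h5 : e < f := hB e he f hf
            omega
          · subst h3
            exact lt_irrefl _ (hB e he e hi)
        have h6 : e < m (i + j + 1) := hT.hi (i + j) e hi'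
        have h7 : m (i + j + 1) ≤ m (n + j) := hT.mono.monotone (by omega)
        omega
    obtain ⟨u, hu, hu1, hs'u, huS⟩ := dem_iter hT Dem ρ h1 j hs' hs'j hS' n
    obtain ⟨t, ht, ht1, hut, htS, htP⟩ := dem_step hT Dem ρ h1 π (n + j) hu hu1 huS
    refine ⟨t, ⟨ht, t, ht, n + j + 1, ht1, htS, Ext.refl' (T.1.val t ht)⟩,
      (hss'.trans hs'u).trans hut, ?_, ?_⟩
    · intro e he
      rw [hvw] at he
      have h3 := Finsupp.support_add he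
      rw [Finset.mem_union] at h3
      rw [ht1]
      rcases h3 with h3 | h3
      · have h4 := hwhi e h3
        have h5 : m (n + j) < m (n + j + 1) := hT.mono (Nat.lt_succ_self _)
        omega
      · have h4 : e ∈ (y (n + j)).support := Finsupp.support_smul h3
        exact hT.hi (n + j) e h4
    · intro ϑ hϑ
      have hsj : s.1 ≤ m j := by
        rw [← hs'j]
        exact hss'.1
      have hjn : m j ≤ m (n + j) := hT.mono.monotone (by omega)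
      have hϑD : ϑ ∉ Dem := hvD ϑ (TT_mono hsj hϑ)
      have hϑT : ϑ ∈ TT (m (n + j)) (y (n + j)) := by
        rw [hvw] at hϑ
        exact TT_add_subset (hsj.trans hjn) hwhi ha hϑ
      rw [htP.2 ϑ hϑT]
      constructor
      · rintro (h | h)
        · exact absurd h.1 hϑD
        · exact h.2
      · intro h
        exact Or.inr ⟨hϑD, h⟩
  have hfirst : ∀ s ∈ T.1.T, s.1 = m 0 →
      s ∈ {t : Node | t ∈ T.1.T ∧ ∃ t' ∈ T.1.T, ∃ i, t'.1 = m i ∧ SatD Dem ρ t' ∧ Ext t t'} :=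
    fun s hs h0 => ⟨hs, s, hs, 0, h0, dem_first hT Dem ρ h1 h0, Ext.refl' (T.1.val s hs)⟩
  refine ⟨⟨⟨{t : Node | t ∈ T.1.T ∧ ∃ t' ∈ T.1.T, ∃ i, t'.1 = m i ∧ SatD Dem ρ t' ∧ Ext t t'},
    ?_, ?_, ?_, hact⟩, demi_int_set hm hDem hρ⟩, ?_, ?_, hfirst⟩
  · obtain ⟨s, hs, hs0⟩ := T.exists_level_i hF (m 0)
    exact ⟨s, hfirst s hs hs0⟩
  · intro s hs
    exact T.1.val s hs.1
  · rintro t ⟨ht, t', ht', i, hi, hS, hE⟩ n hn
    refine ⟨T.1.down t ht n hn, t', ht', i, hi, hS, ?_⟩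
    exact (cut_ext hn).trans hE
  · intro t ht
    exact ht.1
  · rintro t ⟨ht, t', ht', i, hi, hS, hE⟩ ϑ hϑ hB
    have h3 : ϑ ∈ t.2 ↔ ϑ ∈ t'.2 := by
      rw [← hE.2, Finset.mem_inter]
      exact ⟨fun h => h.1, fun h => ⟨h, hB⟩⟩
    rw [h3]
    exact hS ϑ hϑ (TypB_mono hE.1 hB)

end Pool.Agent.SOUi
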