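import Pool.Agent.Lib_MP_a0d45a_int.L2Ai
import Pool.Agent.Lib_MP_a0d45a_int.Demi
import Pool.Agent.Lib_MP_a0d45a_lc.Kill

/-!
# Piece KILLI: the generic set of vectors, inside the model (port of `Lib_MP_a0d45a_lc/Kill.lean`)
-/

set_option autoImplicit false

namespace Pool.Agent.SOUi

open Pool.Agent.SOU Pool.Agent.HMod

universe w

variable {𝔐 : HM.{w}} {K : Type} [Field K] [DecidableEq K] [Countable K]
  {F : Filter (ℕ →₀ K)}

/-- the name of the generic set of vectors -/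
def WNameI (𝔐 : HM.{w}) (F : Filter (ℕ →₀ K)) : (ℕ →₀ K) → Set (CdI 𝔐 F) :=
  fun v => {p | ∀ t ∈ p.1.T, Hi t.1 v.support → ty v ∈ t.2}

theorem WNameI_open : OpenName (WNameI 𝔐 F) := by
  intro v p hp q hq t ht h
  exact hp t (hq ht) h

variable [Std 𝔐 K]

theorem kill_in_i (hF : IsPPlusi 𝔐 F) {X : ℕ → ℕ →₀ K} (hX : bs X ∈ F) (p : CdI 𝔐 F) :
    ∃ q ≤ p, ∃ y ∈ bs X, q ∈ WNameI 𝔐 F y := by
  obtain ⟨s, hs⟩ := p.1.ne
  have : F.NeBot := hF.ne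
  have hev : ∀ᶠ y in F, y ∈ bs X := hX
  obtain ⟨y, hy1, hy2⟩ := ((p.1.act s hs).and hev).exists
  obtain ⟨t, ht, hst, hpat⟩ := hy1 Set.univ
  have hty : ty y ∈ t.2 := (hpat.2 (ty y) ty_mem_TT).2 (Set.mem_univ _)
  refine ⟨p.atI t, CdI.atI_le p t, y, hy2, ?_⟩
  intro t' ht' hhi
  rw [CdI.atI_T p ht] at ht'
  rcases ht'.2 with h | h
  · have h2 := h.2
    rw [← h2] at hty
    exact (Finset.mem_inter.1 hty).1
  · have h2 := h.2
    rw [← h2]
    exact Finset.mem_inter.2 ⟨hty, ty_mem_TypB hhi⟩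

/-- one of the two subsequences is avoided by the supports -/
private theorem kill_choose_i (hF : IsPPlusi 𝔐 F) {y : ℕ → ℕ →₀ K} (hyi : IntF 𝔐 y)
    (hy : Blk y) :
    ∃ f : ℕ → ℕ, IntF 𝔐 f ∧ StrictMono f ∧
      ∀ᶠ v in F, v.support ∉ fu (sp (fun n => y (f n))) := by
  have hstd : StdF 𝔐 := Std.toStdF (K := K)
  have : F.NeBot := hF.ne
  have hf0 : StrictMono (fun n : ℕ => 2 * n) := fun a b h => by
    show 2 * a < 2 * b
    omega
  have hf1 : StrictMono (fun n : ℕ => 2 * n + 1) := fun a b h => by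
    show 2 * a + 1 < 2 * b + 1
    omega
  have hi0 : IntF 𝔐 (fun n : ℕ => 2 * n) :=
    intF_comp2 (F := fun m n : ℕ => m * n) hstd.mul (intF_const 2) intF_id
  have hi1 : IntF 𝔐 (fun n : ℕ => 2 * n + 1) := intF_comp intF_succ hi0
  have hZ0 : Int 𝔐 (fun b => b ∈ fu (sp (fun n => y (2 * n)))) :=
    int_fu (intF_sp (intF_comp hyi hi0))
  rcases supp_ultra_i hF.toIsFulli (fu (sp (fun n => y (2 * n)))) hZ0 with h0 | h0
  · refine ⟨fun n => 2 * n + 1, hi1, hf1, ?_⟩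
    filter_upwards [h0] with v hv0 hv1
    obtain ⟨I, hI, hI2⟩ := hv0
    obtain ⟨J, hJ, hJ2⟩ := hv1
    have e0 : I.biUnion (sp (fun n => y (2 * n))) = (I.image (fun n => 2 * n)).biUnion (sp y) := by
      rw [Finset.image_biUnion]
      rfl
    have e1 : J.biUnion (sp (fun n => y (2 * n + 1))) =
        (J.image (fun n => 2 * n + 1)).biUnion (sp y) := by
      rw [Finset.image_biUnion]
      rfl
    have hJ2' : v.support = J.biUnion (sp (fun n => y (2 * n + 1))) := hJ2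
    have e2 : (I.image (fun n => 2 * n)).biUnion (sp y) =
        (J.image (fun n => 2 * n + 1)).biUnion (sp y) := by
      rw [← e0, ← e1, ← hI2, ← hJ2']
    have e3 := index_inj hy.blkF e2
    obtain ⟨i, hi⟩ := hI
    have hmem : 2 * i ∈ I.image (fun n => 2 * n) := Finset.mem_image_of_mem _ hi
    rw [e3] at hmem
    obtain ⟨j, -, hj⟩ := Finset.mem_image.1 hmem
    have hj' : 2 * j + 1 = 2 * i := hj
    omega
  · exact ⟨fun n => 2 * n, hi0, hf0, h0⟩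

theorem kill_out_i [Fact (IsIFil 𝔐 F)] (hK : ∃ a : K, a ≠ 0 ∧ a ≠ 1) (hF : IsPPlusi 𝔐 F)
    {X : ℕ → ℕ →₀ K} (hX : bs X ∈ F) (p : CdI 𝔐 F) :
    ∃ q ≤ p, ∃ Z, IntF 𝔐 Z ∧ Blk Z ∧ bs Z ⊆ bs X ∧ ∀ v ∈ bs Z, FrOut (WNameI 𝔐 F) v q := by
  have hstd : StdF 𝔐 := Std.toStdF (K := K)
  have hBF : IsBlockFilteri 𝔐 F := hF.toIsBlockFilteri
  obtain ⟨m, y, hmi, hyi, hm0, hf, hyX⟩ := exists_fused_i' hK hF p 0 hX
  obtain ⟨f, hfi, hfm, hfu⟩ := kill_choose_i hF hyi hf.blk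
  have hZi : IntF 𝔐 (fun n => y (f n)) := intF_comp hyi hfi
  have hZ : Blk (fun n => y (f n)) := hf.blk.comp hfm
  have hZy : bs (fun n => y (f n)) ⊆ bs y := bs_mono fun n => self_mem_bs hf.blk (f n)
  have h1 : ∀ ϑ ∈ {ϑ : Typ | ∃ v ∈ bs (fun n => y (f n)), ϑ = ty v}, ∃ i, ϑ ∈ TT (m i) (y i) := by
    rintro ϑ ⟨v, hv, rfl⟩
    obtain ⟨n, a, ha, w, hvw, hw, hb, -, -⟩ := bs_snoc hf.blk (hZy hv)
    exact ⟨n, w, a, kill_hi_of_bef hf hw hb, ha, by rw [hvw]⟩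
  have h2 : ∀ j, ∀ᶠ v in F, ∀ ϑ ∈ TT (m j) v,
      ϑ ∉ {ϑ : Typ | ∃ v ∈ bs (fun n => y (f n)), ϑ = ty v} := by
    intro j
    filter_upwards [bf_ne_i hBF, bf_tail_i hBF (m j), hfu] with v' hv0 hvlo hvfu ϑ hϑ hD
    obtain ⟨v, hv, rfl⟩ := hD
    obtain ⟨-, hfilt⟩ := TT_hi hvlo hϑ
    rw [ty_fst] at hfilt
    obtain ⟨I, -, hI⟩ := supp_mem_fu hZ hv
    apply hvfu
    have key : v'.support = (I.filter (fun n => j ≤ f n)).biUnion (sp (fun n => y (f n))) := by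
      rw [← hfilt, hI]
      ext i
      simp only [Finset.mem_filter, Finset.mem_biUnion]
      constructor
      · rintro ⟨⟨n, hn, hin⟩, hji⟩
        refine ⟨n, ⟨hn, ?_⟩, hin⟩
        by_contra hcon
        have hcon' : f n + 1 ≤ j := by omega
        have h3 : i < m (f n + 1) := hf.hi (f n) i hin
        have h4 : m (f n + 1) ≤ m j := hf.mono.monotone hcon'
        omega
      · rintro ⟨n, ⟨hn, hjn⟩, hin⟩
        refine ⟨⟨n, hn, hin⟩, ?_⟩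
        have h3 : m (f n) ≤ i := hf.lo (f n) i hin
        exact (hf.mono.monotone hjn).trans h3
    refine ⟨_, ?_, key⟩
    have hne : v'.support.Nonempty := by
      rw [Finsupp.support_nonempty_iff]
      exact hv0
    rw [key] at hne
    obtain ⟨i, hi⟩ := hne
    obtain ⟨n, hn, -⟩ := Finset.mem_biUnion.1 hi
    exact ⟨n, hn⟩
  have hDem : Int 𝔐 (fun ϑ : Typ => ϑ ∈ {ϑ : Typ | ∃ v ∈ bs (fun n => y (f n)), ϑ = ty v}) := by
    have h : Int 𝔐 (fun ϑ : Typ => ∃ v : ℕ →₀ K, v ∈ bs (fun n => y (f n)) ∧ ϑ = ty v) :=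
      int_ex (int_and (int_comp (int_bs hZi) (intF_snd' intF_id))
        (int_eqF (intF_fst' intF_id) (intF_comp (Std.ty (𝔐 := 𝔐) (K := K)) (intF_snd' intF_id))))
    exact h
  obtain ⟨R, hR, hsat, -⟩ := demand_i hBF hmi hyi hf _ ∅ hDem (int_const False) h1 h2
  refine ⟨R, hR, fun n => y (f n), hZi, hZ, hZy.trans hyX, ?_⟩
  intro v hv r hr hrW
  obtain ⟨t, ht, ht1⟩ := CdI.exists_level_i r hBF (mx v.support + 1)
  have hhi : Hi t.1 v.support := by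
    intro j hj
    rw [ht1]
    exact Nat.lt_succ_of_le (le_mx hj)
  have h5 : ty v ∈ t.2 := hrW t ht hhi
  have h6 := (hsat t (hr ht) (ty v) ⟨v, hv, rfl⟩ (ty_mem_TypB hhi)).1 h5
  exact h6

end Pool.Agent.SOUi
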