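import Pool.Agent.Lib_MP_a0d45a_int.GFgeni
import Pool.Agent.Lib_MP_a0d45a_int.USFi
import Pool.Agent.Lib_MP_a0d45a_lc.Prop

/-!
# Piece PROPI: `CdI F` is proper inside the model (port of `Lib_MP_a0d45a_lc/Prop.lean`)

`c : ℕ → CdI F` is an internal sequence whose range is closed under `p ↦ p.atI s`, `D n` are sets of indices, dense in the range. PROOF as
in stage A with `𝒮 = range c`; in `gfgen_i` take `ι = ℕ`, `nx k b = k + 1` and `V k T n` the conjunction of (i) for all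
`s ∈ T` with `s.1 = n`: `T.atI s ∈ 𝒮`, and (ii) `k = 0` or for all `r ≤ T` there is `m` with `D (k-1) m` and `c m` compatible with `r`.
(The finite predense sets of stage A are replaced by the weaker (ii), which is internal.)
-/

set_option autoImplicit false

namespace Pool.Agent.SOUi

open Pool.Agent.SOU Pool.Agent.HMod

universe w

variable {𝔐 : HM.{w}} {K : Type} [Field K] [DecidableEq K] [Countable K] [Std 𝔐 K]
  {F : Filter (ℕ →₀ K)}

theorem proper_i [Fact (IsIFil 𝔐 F)] (hK : ∃ a : K, a ≠ 0 ∧ a ≠ 1) (hF : IsPPlusi 𝔐 F)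
    (c : ℕ → CdI 𝔐 F) (hc : IntF 𝔐 c) (hcl : ∀ n, ∀ s ∈ (c n).1.T, ∃ m, c m = (c n).atI s)
    (D : ℕ → ℕ → Prop) (hDi : Int 𝔐 (fun q : ℕ × ℕ => D q.1 q.2))
    (hD : ∀ k n, ∃ m, c m ≤ c n ∧ D k m) (n₀ : ℕ) :
    ∃ q ≤ c n₀, ∀ k, ∀ r ≤ q, ∃ m, D k m ∧ ∃ s, s ≤ r ∧ s ≤ c m := by
  classical
  have hB : IsBlockFilteri 𝔐 F := hF.toIsFulli.toIsBlockFilteri
  have hUs : IsSOUi 𝔐 (F.map Finsupp.support) := US_sou_i hF
  let V : ℕ → CdI 𝔐 F → ℕ → Prop := fun k T n =>
    (∀ s : Node, s ∈ T.1.T → s.1 = n → ∃ j : ℕ, c j = T.atI s) ∧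
    (k = 0 ∨ ∀ r : CdI 𝔐 F, r ≤ T → ∃ m : ℕ, D (k - 1) m ∧ ∃ s : CdI 𝔐 F, s ≤ r ∧ s ≤ c m)
  have hV : Int 𝔐 (fun q : ℕ × CdI 𝔐 F × ℕ => V q.1 q.2.1 q.2.2) := by
    have hat : IntF 𝔐 (fun q : CdI 𝔐 F × Node => q.1.atI q.2) := CdI.intF_atI
    have hmem : Int 𝔐 (fun q : Node × CdI 𝔐 F => q.1 ∈ q.2.1.T) := int_cdMem
    have hle : Int 𝔐 (fun q : CdI 𝔐 F × CdI 𝔐 F => q.1 ≤ q.2) := int_cdLe
    have hsub : IntF 𝔐 (fun q : ℕ × ℕ => q.1 - q.2) := StdF.sub'
    refine int_and ?_ (int_or ?_ ?_)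
    · refine int_all (int_imp ?_ (int_imp ?_ (int_ex ?_)))
      · exact int_comp2 (R := fun (s : Node) (T : CdI 𝔐 F) => s ∈ T.1.T) hmem
          (intF_snd' intF_id) (intF_fst' (intF_snd' (intF_fst' intF_id)))
      · exact int_eqF (intF_fst' (intF_snd' intF_id)) (intF_snd' (intF_snd' (intF_fst' intF_id)))
      · exact int_eqF (intF_comp hc (intF_snd' intF_id))
          (intF_comp2 (F := fun (T : CdI 𝔐 F) (s : Node) => T.atI s) hat
            (intF_fst' (intF_snd' (intF_fst' (intF_fst' intF_id))))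
            (intF_snd' (intF_fst' intF_id)))
    · exact int_eqF (intF_fst' intF_id) (intF_const 0)
    · refine int_all (int_imp ?_ (int_ex (int_and ?_ (int_ex (int_and ?_ ?_)))))
      · exact int_comp2 (R := fun (r T : CdI 𝔐 F) => r ≤ T) hle
          (intF_snd' intF_id) (intF_fst' (intF_snd' (intF_fst' intF_id)))
      · exact int_comp2 (R := D) hDi
          (intF_comp2 (F := fun a b : ℕ => a - b) hsub
            (intF_fst' (intF_fst' (intF_fst' intF_id))) (intF_const 1))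
          (intF_snd' intF_id)
      · exact int_comp2 (R := fun (r T : CdI 𝔐 F) => r ≤ T) hle
          (intF_snd' intF_id) (intF_snd' (intF_fst' (intF_fst' intF_id)))
      · exact int_comp2 (R := fun (r T : CdI 𝔐 F) => r ≤ T) hle
          (intF_snd' intF_id) (intF_comp hc (intF_snd' (intF_fst' intF_id)))
  have hnx : IntF 𝔐 (fun q : ℕ × Finset ℕ => (fun (k : ℕ) (_ : Finset ℕ) => k + 1) q.1 q.2) :=
    intF_comp intF_succ (intF_fst' intF_id)
  have step : ∀ k T n, V k T n → ∃ B ∈ F.map Finsupp.support, ∃ S ∈ F, ∀ b ∈ B, ∀ y ∈ S,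
      ∃ T' ≤ T, ∃ N, n < N ∧
      Hi N y.support ∧ V (k + 1) T' N ∧ ∀ s ∈ T.1.T, s.1 = n → ∀ π : Set Typ,
        ∃ t ∈ T'.1.T, t.1 = N ∧ Ext s t ∧ Pat n y π t := by
    intro k T n hVk
    refine ⟨Set.univ, Filter.univ_mem, {y | ∀ s ∈ {t ∈ T.1.T | t.1 = n}, ∀ π : Set Typ,
      ∃ t ∈ (T.atI s).1.T, Ext s t ∧ Pat n y π t}, ?_, ?_⟩
    · have hfin : {t ∈ T.1.T | t.1 = n}.Finite := T.1.level_finite n
      change ∀ᶠ y in F, ∀ s ∈ {t ∈ T.1.T | t.1 = n}, ∀ π : Set Typ,
        ∃ t ∈ (T.atI s).1.T, Ext s t ∧ Pat n y π t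
      rw [Filter.eventually_all_finite hfin]
      intro s hs
      have hmem : s ∈ (T.atI s).1.T := (CdI.stem_atI T hs.1).1
      have h := (T.atI s).1.act s hmem
      rw [hs.2] at h
      exact h
    · intro b _ y hy
      have key : ∀ i : {x : Node × Set Typ // (x.1 ∈ T.1.T ∧ x.1.1 = n) ∧ x.2 ⊆ TT n y},
          ∃ (t : Node) (m : ℕ), t ∈ (T.atI i.1.1).1.T ∧ Ext i.1.1 t ∧ Pat n y i.1.2 t ∧
            c m ≤ (T.atI i.1.1).atI t ∧ D k m := by
        intro i
        obtain ⟨t, ht, hst, hpt⟩ := hy i.1.1 i.2.1 i.1.2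
        obtain ⟨j, hj⟩ := hVk.1 i.1.1 i.2.1.1 i.2.1.2
        have ht' := ht
        rw [← hj] at ht'
        obtain ⟨j', hj'⟩ := hcl j t ht'
        obtain ⟨m, hm, hmD⟩ := hD k j'
        refine ⟨t, m, ht, hst, hpt, ?_, hmD⟩
        rw [← hj, ← hj']
        exact hm
      choose tt mi h1 h2 h3 h5 h6 using key
      have hfin : Finite {x : Node × Set Typ // (x.1 ∈ T.1.T ∧ x.1.1 = n) ∧ x.2 ⊆ TT n y} := by
        have hf1 : {t ∈ T.1.T | t.1 = n}.Finite := T.1.level_finite n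
        have hf2 : {π : Set Typ | π ⊆ TT n y}.Finite := (TT_finite n y).finite_subsets
        exact ((hf1.prod hf2).subset (fun x hx => ⟨hx.1, hx.2⟩) :
          {x : Node × Set Typ | (x.1 ∈ T.1.T ∧ x.1.1 = n) ∧ x.2 ⊆ TT n y}.Finite).to_subtype
      obtain ⟨M, hM⟩ := (Set.finite_range (fun i => (tt i).1)).bddAbove
      have hM' : ∀ i, (tt i).1 ≤ M := fun i => hM ⟨i, rfl⟩
      obtain ⟨s₁, hs₁, hs₁n⟩ := CdI.exists_level_i T hB n
      obtain ⟨T', hT'⟩ := CdI.exists_union_fin_i (fun i => c (mi i))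
        ⟨(s₁, ∅), ⟨hs₁, hs₁n⟩, Set.empty_subset _⟩
      have hmx : ∃ L : ℕ, ∀ j ∈ y.support, j ≤ L := by
        obtain ⟨L, hL⟩ := (y.support : Set ℕ).toFinite.bddAbove
        exact ⟨L, fun j hj => hL hj⟩
      obtain ⟨L, hL⟩ := hmx
      have hnN : n < M + n + L + 1 := by omega
      have hext : ∀ i, ∀ u ∈ (c (mi i)).1.T, u.1 = M + n + L + 1 →
          Ext i.1.1 u ∧ Pat n y i.1.2 u := by
        intro i u hu huN
        have hu1 : u ∈ ((T.atI i.1.1).atI (tt i)).1.T := cdI_le_iff.1 (h5 i) hu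
        have hst := (CdI.stem_atI (T.atI i.1.1) (h1 i)).2 u hu1
        have hEx : Ext (tt i) u := by
          rcases hst with h | h
          · exact h
          · exfalso
            have := h.1
            have := hM' i
            omega
        refine ⟨(h2 i).trans hEx, (h3 i).ext ?_ hEx⟩
        have := (h2 i).1
        rw [i.2.1.2] at this
        exact this
      have huniq : ∀ i j, ∀ u : Node, u ∈ (c (mi i)).1.T → u ∈ (c (mi j)).1.T →
          u.1 = M + n + L + 1 → i = j := by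
        intro i j u hi hj huN
        obtain ⟨hi1, hi2⟩ := hext i u hi huN
        obtain ⟨hj1, hj2⟩ := hext j u hj huN
        apply Subtype.ext
        apply Prod.ext
        · rw [hi1.cut, hj1.cut, i.2.1.2, j.2.1.2]
        · ext ϑ
          constructor
          · intro hϑ
            have hT := i.2.2 hϑ
            exact (hj2.2 ϑ hT).1 ((hi2.2 ϑ hT).2 hϑ)
          · intro hϑ
            have hT := j.2.2 hϑ
            exact (hi2.2 ϑ hT).1 ((hj2.2 ϑ hT).2 hϑ)
      have hdown : ∀ i, ∀ u ∈ (c (mi i)).1.T, ∀ w : Node, Ext w u → w ∈ (c (mi i)).1.T := by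
        intro i u hu w hw
        have := (c (mi i)).1.down u hu w.1 hw.1
        rw [hw.2] at this
        exact this
      have hatu : ∀ i, ∀ u ∈ (c (mi i)).1.T, u.1 = M + n + L + 1 →
          T'.atI u = (c (mi i)).atI u := by
        intro i u hu huN
        have huT' : u ∈ T'.1.T := by
          rw [hT']
          exact Set.mem_iUnion.2 ⟨i, hu⟩
        apply cdI_ext
        rw [CdI.atI_T T' huT', CdI.atI_T (c (mi i)) hu]
        ext w
        constructor
        · rintro ⟨hw, hcw⟩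
          rw [hT'] at hw
          obtain ⟨j, hj⟩ := Set.mem_iUnion.1 hw
          refine ⟨?_, hcw⟩
          rcases hcw with hcw | hcw
          · have huj : u ∈ (c (mi j)).1.T := hdown j w hj u hcw
            rw [huniq i j u hu huj huN]
            exact hj
          · exact hdown i u hu w hcw
        · rintro ⟨hw, hcw⟩
          refine ⟨?_, hcw⟩
          rw [hT']
          exact Set.mem_iUnion.2 ⟨i, hw⟩
      refine ⟨T', ?_, M + n + L + 1, hnN, ?_, ⟨?_, Or.inr ?_⟩, ?_⟩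
      · rw [cdI_le_iff, hT']
        refine Set.iUnion_subset fun i => ?_
        exact cdI_le_iff.1 (((h5 i).trans (CdI.atI_le _ _)).trans (CdI.atI_le _ _))
      · intro j hj
        have := hL j hj
        omega
      · intro u hu huN
        rw [hT'] at hu
        obtain ⟨i, hi⟩ := Set.mem_iUnion.1 hu
        rw [hatu i u hi huN]
        exact hcl (mi i) u hi
      · intro r hr
        obtain ⟨u, hu, huN⟩ := CdI.exists_level_i r hB (M + n + L + 1)
        have huT' : u ∈ T'.1.T := cdI_le_iff.1 hr hu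
        have huT'' := huT'
        rw [hT'] at huT''
        obtain ⟨i, hi⟩ := Set.mem_iUnion.1 huT''
        refine ⟨mi i, by simpa using h6 i, r.atI u, CdI.atI_le r u, ?_⟩
        have h7 := CdI.atI_mono hr hu
        rw [hatu i u hi huN] at h7
        exact h7.trans (CdI.atI_le _ _)
      · intro s hs hsn π
        let i : {x : Node × Set Typ // (x.1 ∈ T.1.T ∧ x.1.1 = n) ∧ x.2 ⊆ TT n y} :=
          ⟨(s, π ∩ TT n y), ⟨hs, hsn⟩, Set.inter_subset_right⟩
        obtain ⟨u, hu, huN⟩ := CdI.exists_level_i (c (mi i)) hB (M + n + L + 1)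
        obtain ⟨he1, he2⟩ := hext i u hu huN
        refine ⟨u, ?_, huN, he1, he2.1, ?_⟩
        · rw [hT']
          exact Set.mem_iUnion.2 ⟨i, hu⟩
        · intro ϑ hϑ
          rw [he2.2 ϑ hϑ]
          exact ⟨fun h => h.1, fun h => ⟨h, hϑ⟩⟩
  obtain ⟨b, y, i, T, m, R, -, -, -, -, -, -, -, hi0, hT0, -, hik, -, hVk, -, hRk, -⟩ :=
    gfgen_i hK hUs hF V hV (fun k _ => k + 1) hnx step 0 (c n₀) 0
      ⟨fun s hs _ => hcl n₀ s hs, Or.inl rfl⟩
  have hi : ∀ k, i k = k := by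
    intro k
    induction k with
    | zero => exact hi0
    | succ k ih => rw [hik, ih]
  refine ⟨R, hT0 ▸ hRk 0, ?_⟩
  intro k r hr
  obtain ⟨-, h | h⟩ := hVk (k + 1)
  · rw [hi] at h
    exact absurd h (Nat.succ_ne_zero k)
  · rw [hi] at h
    obtain ⟨m', hm', s, hs1, hs2⟩ := h r (hr.trans (hRk (k + 1)))
    exact ⟨m', by simpa using hm', s, hs1, hs2⟩

end Pool.Agent.SOUi
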