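import Pool.Agent.Lib_MP_a0d45a_int.BFi
import Pool.Agent.Lib_MP_a0d45a_lc.CB

/-!
# Piece CBI: the conditions of the model (port of `Lib_MP_a0d45a_lc/CB.lean`)
-/

set_option autoImplicit false

namespace Pool.Agent.SOUi

open Pool.Agent.SOU Pool.Agent.HMod

universe w

variable {𝔐 : HM.{w}} {K : Type} [Field K] [DecidableEq K] [Countable K]
  {F : Filter (ℕ →₀ K)} {α : Type*} [Cod 𝔐 α]

/-- only the part of `π` in the finite set `TT m y` matters -/
theorem pat_fin {m : ℕ} {y : ℕ →₀ K} {p : Node → Prop} :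
    (∀ π : Finset Typ, ∃ t, p t ∧ Pat m y (π : Set Typ) t) ↔
      ∀ π : Set Typ, ∃ t, p t ∧ Pat m y π t := by
  constructor
  · intro h π
    have hfin : (TT m y ∩ π).Finite := (TT_finite m y).subset Set.inter_subset_left
    obtain ⟨t, ht, h1, h2⟩ := h hfin.toFinset
    refine ⟨t, ht, h1, fun ϑ hϑ => ?_⟩
    rw [h2 ϑ hϑ, Set.Finite.coe_toFinset]
    exact ⟨fun h3 => h3.2, fun h3 => ⟨hϑ, h3⟩⟩
  · intro h π
    exact h (π : Set Typ)

/-- `T` is (the tree of) a condition -/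
def IsCdT (F : Filter (ℕ →₀ K)) (T : Set Node) : Prop := ∃ p : Cd F, p.T = T

theorem cbi_pat_fin {T : Set Node} {s : Node} {y : ℕ →₀ K} :
    (∀ π : Finset Typ, ∃ t ∈ T, Ext s t ∧ Pat s.1 y (π : Set Typ) t) ↔
      ∀ π : Set Typ, ∃ t ∈ T, Ext s t ∧ Pat s.1 y π t := by
  have h := pat_fin (m := s.1) (y := y) (p := fun t => t ∈ T ∧ Ext s t)
  constructor
  · intro h1 π
    obtain ⟨t, ⟨h2, h3⟩, h4⟩ := h.1 (fun π' => by
      obtain ⟨t, h2, h3, h4⟩ := h1 π'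
      exact ⟨t, ⟨h2, h3⟩, h4⟩) π
    exact ⟨t, h2, h3, h4⟩
  · intro h1 π
    exact h1 (π : Set Typ)

theorem isCdT_iff {T : Set Node} : IsCdT F T ↔ T.Nonempty ∧ (∀ s ∈ T, s.2 ⊆ TypB s.1) ∧
    (∀ t ∈ T, ∀ m ≤ t.1, cut m t ∈ T) ∧ (∀ s ∈ T, ∀ᶠ y in F, ∀ π : Finset Typ, ∃ t ∈ T,
      Ext s t ∧ Pat s.1 y (π : Set Typ) t) := by
  constructor
  · rintro ⟨p, rfl⟩
    exact ⟨p.ne, p.val, p.down, fun s hs => (p.act s hs).mono fun y hy => cbi_pat_fin.2 hy⟩
  · rintro ⟨h1, h2, h3, h4⟩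
    exact ⟨{ T := T
             ne := h1
             val := h2
             down := h3
             act := fun s hs => (h4 s hs).mono fun y hy => cbi_pat_fin.1 hy }, rfl⟩

/-- the conditions of the model -/
def CdI (𝔐 : HM.{w}) (F : Filter (ℕ →₀ K)) : Type := {p : Cd F // Int 𝔐 (fun s => s ∈ p.T)}

instance : PartialOrder (CdI 𝔐 F) := inferInstanceAs (PartialOrder {p : Cd F // _})

theorem cdI_le_iff {p q : CdI 𝔐 F} : p ≤ q ↔ p.1.T ⊆ q.1.T := Iff.rfl

theorem cdI_ext {p q : CdI 𝔐 F} (h : p.1.T = q.1.T) : p = q := Subtype.ext (Cd.ext h)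

/-- the tree of a condition, as an internal set -/
def cdSet (p : CdI 𝔐 F) : ISet 𝔐 Node := ⟨p.1.T, p.2⟩

variable [Std 𝔐 K]

theorem int_isCdT (hF : IsIFil 𝔐 F) : Int 𝔐 (fun S : ISet 𝔐 Node => IsCdT F S.1) := by
  refine int_congr (fun S => (isCdT_iff (F := F) (T := S.1)).symm) ?_
  refine int_and ?_ (int_and ?_ (int_and ?_ ?_))
  · refine int_ex (R := fun (S : ISet 𝔐 Node) (x : Node) => x ∈ S.1) ?_
    exact HMod.int_memF (intF_snd' intF_id) (intF_fst' intF_id)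
  · refine int_all (R := fun (S : ISet 𝔐 Node) (s : Node) => s ∈ S.1 → s.2 ⊆ TypB s.1) (int_imp ?_ ?_)
    · exact HMod.int_memF (intF_snd' intF_id) (intF_fst' intF_id)
    · exact int_comp2 (R := fun a b : Finset Typ => a ⊆ b) (Std.subT (𝔐 := 𝔐) (K := K))
        (intF_snd' (intF_snd' intF_id))
        (intF_comp (Std.TypB (𝔐 := 𝔐) (K := K)) (intF_fst' (intF_snd' intF_id)))
  · refine int_all (R := fun (S : ISet 𝔐 Node) (t : Node) => t ∈ S.1 → ∀ m ≤ t.1, cut m t ∈ S.1)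
      (int_imp ?_ ?_)
    · exact HMod.int_memF (intF_snd' intF_id) (intF_fst' intF_id)
    · refine int_all (R := fun (q : ISet 𝔐 Node × Node) (m : ℕ) => m ≤ q.2.1 → cut m q.2 ∈ q.1.1)
        (int_imp ?_ ?_)
      · exact int_leF (intF_snd' intF_id) (intF_fst' (intF_snd' (intF_fst' intF_id)))
      · refine HMod.int_memF ?_ (intF_fst' (intF_fst' intF_id))
        exact intF_comp2 (F := fun (m : ℕ) (t : Node) => cut m t) (Std.cut (𝔐 := 𝔐) (K := K))
          (intF_snd' intF_id) (intF_snd' (intF_fst' intF_id))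
  · refine int_all (R := fun (S : ISet 𝔐 Node) (s : Node) => s ∈ S.1 → ∀ᶠ y in F,
      ∀ π : Finset Typ, ∃ t ∈ S.1, Ext s t ∧ Pat s.1 y (π : Set Typ) t) (int_imp ?_ ?_)
    · exact HMod.int_memF (intF_snd' intF_id) (intF_fst' intF_id)
    · refine int_eventually hF (R := fun (q : ISet 𝔐 Node × Node) (y : ℕ →₀ K) =>
        ∀ π : Finset Typ, ∃ t ∈ q.1.1, Ext q.2 t ∧ Pat q.2.1 y (π : Set Typ) t) ?_
      refine int_all (R := fun (q : (ISet 𝔐 Node × Node) × (ℕ →₀ K)) (π : Finset Typ) =>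
        ∃ t ∈ q.1.1.1, Ext q.1.2 t ∧ Pat q.1.2.1 q.2 (π : Set Typ) t) ?_
      refine int_ex (R := fun (q : ((ISet 𝔐 Node × Node) × (ℕ →₀ K)) × Finset Typ) (t : Node) =>
        t ∈ q.1.1.1.1 ∧ Ext q.1.1.2 t ∧ Pat q.1.1.2.1 q.1.2 (q.2 : Set Typ) t) ?_
      refine int_and ?_ (int_and ?_ ?_)
      · exact HMod.int_memF (intF_snd' intF_id) (intF_fst' (intF_fst' (intF_fst' (intF_fst' intF_id))))
      · exact int_comp2 (R := fun a b : Node => Ext a b) (Std.ext (𝔐 := 𝔐) (K := K))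
          (intF_snd' (intF_fst' (intF_fst' (intF_fst' intF_id)))) (intF_snd' intF_id)
      · refine int_comp (p := fun q : ℕ × (ℕ →₀ K) × Finset Typ × Node =>
          Pat q.1 q.2.1 (q.2.2.1 : Set Typ) q.2.2.2)
          (f := fun q : (((ISet 𝔐 Node × Node) × (ℕ →₀ K)) × Finset Typ) × Node =>
            (q.1.1.1.2.1, q.1.1.2, q.1.2, q.2)) (Std.pat (𝔐 := 𝔐) (K := K)) ?_
        exact intF_pair (intF_fst' (intF_snd' (intF_fst' (intF_fst' (intF_fst' intF_id)))))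
          (intF_pair (intF_snd' (intF_fst' (intF_fst' intF_id)))
            (intF_pair (intF_snd' (intF_fst' intF_id)) (intF_snd' intF_id)))

/-- conditions are coded by their trees -/
noncomputable instance instCodCdI [hF : Fact (IsIFil 𝔐 F)] : Cod 𝔐 (CdI 𝔐 F) where
  c p := Cod.c (cdSet p)
  inj := by
    intro p q h
    have h1 : cdSet p = cdSet q := Cod.inj (𝔐 := 𝔐) h
    exact cdI_ext (congrArg Subtype.val h1)
  dom := (int_isCdT hF.out).exact.choose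
  mem_dom := by
    intro x
    rw [(int_isCdT hF.out).exact.choose_spec x]
    constructor
    · rintro ⟨S, rfl, p, hp⟩
      have h1 : Int 𝔐 (fun s => s ∈ p.T) := by
        rw [hp]
        exact S.2
      refine ⟨⟨p, h1⟩, ?_⟩
      have h2 : cdSet (⟨p, h1⟩ : CdI 𝔐 F) = S := Subtype.ext hp
      rw [h2]
    · rintro ⟨p, rfl⟩
      exact ⟨cdSet p, rfl, p.1, rfl⟩

section
variable [hF : Fact (IsIFil 𝔐 F)]

theorem intF_cdT : IntF 𝔐 (fun p : CdI 𝔐 F => cdSet p) := by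
  exact intF_of_code fun _ => rfl

theorem int_cdMem : Int 𝔐 (fun q : Node × CdI 𝔐 F => q.1 ∈ q.2.1.T) := by
  exact HMod.int_memF (f := fun q : Node × CdI 𝔐 F => q.1) (S := fun q => cdSet q.2)
    (intF_fst' intF_id) (intF_comp intF_cdT (intF_snd' intF_id))

theorem cbi_memF {f : α → Node} {g : α → CdI 𝔐 F} (hf : IntF 𝔐 f) (hg : IntF 𝔐 g) :
    Int 𝔐 (fun a => f a ∈ (g a).1.T) :=
  int_comp2 (R := fun (s : Node) (p : CdI 𝔐 F) => s ∈ p.1.T) int_cdMem hf hg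

theorem int_cdLe : Int 𝔐 (fun q : CdI 𝔐 F × CdI 𝔐 F => q.1 ≤ q.2) := by
  refine int_congr (p := fun q : CdI 𝔐 F × CdI 𝔐 F => ∀ s : Node, s ∈ q.1.1.T → s ∈ q.2.1.T)
    (fun q => Iff.rfl) ?_
  refine int_all (R := fun (q : CdI 𝔐 F × CdI 𝔐 F) (s : Node) => s ∈ q.1.1.T → s ∈ q.2.1.T)
    (int_imp ?_ ?_)
  · exact cbi_memF (intF_snd' intF_id) (intF_fst' (intF_fst' intF_id))
  · exact cbi_memF (intF_snd' intF_id) (intF_snd' (intF_fst' intF_id))

/-- a map into the conditions is internal iff its family of trees is -/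
theorem intF_cd_iff {f : α → CdI 𝔐 F} :
    IntF 𝔐 f ↔ Int 𝔐 (fun q : α × Node => q.2 ∈ (f q.1).1.T) := by
  constructor
  · intro h
    exact cbi_memF (intF_snd' intF_id) (intF_comp h (intF_fst' intF_id))
  · intro h
    refine intF_of_graph (R := fun a (p : CdI 𝔐 F) => ∀ s : Node, (s ∈ (f a).1.T ↔ s ∈ p.1.T))
      (int_all (int_iff ?_ ?_)) ?_
    · exact int_comp2 (R := fun (a : α) (s : Node) => s ∈ (f a).1.T) h
        (intF_fst' (intF_fst' intF_id)) (intF_snd' intF_id)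
    · exact cbi_memF (intF_snd' intF_id) (intF_snd' (intF_fst' intF_id))
    · intro a p
      constructor
      · intro h1
        exact cdI_ext (Set.ext h1)
      · rintro rfl s
        exact Iff.rfl

/-- internal families of conditions -/
theorem exists_cdFam {T : α → Set Node} (h : ∀ a, IsCdT F (T a))
    (hT : Int 𝔐 (fun q : α × Node => q.2 ∈ T q.1)) :
    ∃ f : α → CdI 𝔐 F, IntF 𝔐 f ∧ ∀ a, (f a).1.T = T a := by
  choose p hp using h
  have h1 : ∀ a, Int 𝔐 (fun s => s ∈ (p a).T) := by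
    intro a
    rw [hp a]
    exact Int.slice (R := fun (a : α) (s : Node) => s ∈ T a) hT a
  refine ⟨fun a => ⟨p a, h1 a⟩, ?_, hp⟩
  rw [intF_cd_iff]
  refine int_congr (fun q => ?_) hT
  change q.2 ∈ T q.1 ↔ q.2 ∈ (p q.1).T
  rw [hp]

end

namespace CdI

variable (p q : CdI 𝔐 F)

theorem exists_ext_i (hF : IsBlockFilteri 𝔐 F) {s : Node} (hs : s ∈ p.1.T) (n : ℕ) (hn : s.1 ≤ n) :
    ∃ t ∈ p.1.T, t.1 = n ∧ Ext s t := by
  have hne : F.NeBot := hF.ne
  obtain ⟨y, ⟨hy1, hy2⟩, hy3⟩ :=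
    (((p.1.act s hs).and (bf_tail_i hF n)).and (bf_ne_i hF)).exists
  obtain ⟨t, ht, hst, hp, -⟩ := hy1 ∅
  obtain ⟨j, hj⟩ := Finsupp.support_nonempty_iff.2 hy3
  have hnt : n ≤ t.1 := ((hy2 j hj).trans_lt (hp j hj)).le
  exact ⟨SOU.cut n t, p.1.down t ht n hnt, rfl, hst.cut_mid hn hnt⟩

theorem exists_level_i (hF : IsBlockFilteri 𝔐 F) (n : ℕ) : ∃ t ∈ p.1.T, t.1 = n := by
  obtain ⟨t₀, ht₀⟩ := p.1.ne
  obtain ⟨t, ht, htn, -⟩ :=
    p.exists_ext_i hF (p.1.down t₀ ht₀ 0 (Nat.zero_le _)) n (Nat.zero_le _)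
  exact ⟨t, ht, htn⟩

theorem exists_at_i {s : Node} (hs : s ∈ p.1.T) :
    ∃ q : CdI 𝔐 F, q.1.T = p.1.atSet s := by
  have h0 : ∃ q : Cd F, q.T = p.1.atSet s := by
    refine ⟨{ T := p.1.atSet s
              ne := ⟨s, hs, Or.inl (Ext.refl' (p.1.val s hs))⟩
              val := fun t ht => p.1.val t ht.1
              down := ?_
              act := ?_ }, rfl⟩
    · rintro t ⟨ht, hst⟩ m hm
      refine ⟨p.1.down t ht m hm, ?_⟩
      rcases hst with h | h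
      · rcases le_total s.1 m with h1 | h1
        · exact Or.inl (h.cut_mid h1 hm)
        · exact Or.inr (ext_total (cut_ext hm) h h1)
      · exact Or.inr ((cut_ext hm).trans h)
    · rintro t ⟨ht, hst⟩
      rcases hst with h | h
      · refine (p.1.act t ht).mono fun y hy π => ?_
        obtain ⟨u, hu, h1, h2⟩ := hy π
        exact ⟨u, ⟨hu, Or.inl (h.trans h1)⟩, h1, h2⟩
      · refine (p.1.act s hs).mono fun y hy π => ?_
        obtain ⟨u, hu, h1, h2⟩ := hy π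
        exact ⟨u, ⟨hu, Or.inl h1⟩, h.trans h1, h2.1, fun ϑ hϑ => h2.2 ϑ (TT_mono h.1 hϑ)⟩
  obtain ⟨q, hq⟩ := h0
  have h1 : Int 𝔐 (fun t => t ∈ q.T) := by
    rw [hq]
    refine int_congr (p := fun t : Node => t ∈ p.1.T ∧ Cmp s t) (fun t => Iff.rfl) (int_and p.2 ?_)
    exact Int.slice (R := fun a b : Node => Cmp a b) (Std.cmp (𝔐 := 𝔐) (K := K)) s
  exact ⟨⟨q, h1⟩, hq⟩

/-- `p.atI s` (for `s ∈ p.1.T`; equal to `p` otherwise) -/
noncomputable def atI (s : Node) : CdI 𝔐 F :=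
  open Classical in if h : s ∈ p.1.T then (exists_at_i p h).choose else p

theorem atI_T {s : Node} (hs : s ∈ p.1.T) : (p.atI s).1.T = p.1.atSet s := by
  unfold atI
  rw [dif_pos hs]
  exact (exists_at_i p hs).choose_spec

theorem cbi_atI_T' {s : Node} (hs : s ∉ p.1.T) : p.atI s = p := by
  unfold atI
  rw [dif_neg hs]

theorem atI_le (s : Node) : p.atI s ≤ p := by
  by_cases h : s ∈ p.1.T
  · rw [cdI_le_iff, p.atI_T h]
    exact fun t ht => ht.1
  · rw [p.cbi_atI_T' h]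

theorem atI_atI {s t : Node} (hs : s ∈ p.1.T) (ht : t ∈ p.1.T) (h : Ext s t) :
    p.atI t ≤ p.atI s := by
  rw [cdI_le_iff, atI_T p hs, atI_T p ht]
  rintro u ⟨hu, htu⟩
  refine ⟨hu, ?_⟩
  rcases htu with h1 | h1
  · exact Or.inl (h.trans h1)
  · rcases le_total s.1 u.1 with h2 | h2
    · exact Or.inl (ext_total h h1 h2)
    · exact Or.inr (ext_total h1 h h2)

theorem atI_mono {p q : CdI 𝔐 F} (h : p ≤ q) {s : Node} (hs : s ∈ p.1.T) :
    p.atI s ≤ q.atI s := by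
  rw [cdI_le_iff, atI_T p hs, atI_T q (h hs)]
  rintro u ⟨hu, hsu⟩
  exact ⟨h hu, hsu⟩

theorem intF_atI [Fact (IsIFil 𝔐 F)] :
    IntF 𝔐 (fun q : CdI 𝔐 F × Node => q.1.atI q.2) := by
  rw [intF_cd_iff]
  refine int_congr (p := fun r : (CdI 𝔐 F × Node) × Node =>
    (r.1.2 ∈ r.1.1.1.T ∧ r.2 ∈ r.1.1.1.T ∧ Cmp r.1.2 r.2) ∨
      (¬ r.1.2 ∈ r.1.1.1.T ∧ r.2 ∈ r.1.1.1.T)) ?_ ?_
  · rintro ⟨⟨p, s⟩, t⟩
    change ((s ∈ p.1.T ∧ t ∈ p.1.T ∧ Cmp s t) ∨ (¬ s ∈ p.1.T ∧ t ∈ p.1.T)) ↔ t ∈ (p.atI s).1.T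
    by_cases hs : s ∈ p.1.T
    · rw [p.atI_T hs]
      constructor
      · rintro (h | h)
        · exact ⟨h.2.1, h.2.2⟩
        · exact absurd hs h.1
      · rintro ⟨h1, h2⟩
        exact Or.inl ⟨hs, h1, h2⟩
    · rw [p.cbi_atI_T' hs]
      constructor
      · rintro (h | h)
        · exact h.2.1
        · exact h.2
      · intro h
        exact Or.inr ⟨hs, h⟩
  · refine int_or (int_and ?_ (int_and ?_ ?_)) (int_and (int_not ?_) ?_)
    · exact cbi_memF (intF_snd' (intF_fst' intF_id)) (intF_fst' (intF_fst' intF_id))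
    · exact cbi_memF (intF_snd' intF_id) (intF_fst' (intF_fst' intF_id))
    · exact int_comp2 (R := fun a b : Node => Cmp a b) (Std.cmp (𝔐 := 𝔐) (K := K))
        (intF_snd' (intF_fst' intF_id)) (intF_snd' intF_id)
    · exact cbi_memF (intF_snd' (intF_fst' intF_id)) (intF_fst' (intF_fst' intF_id))
    · exact cbi_memF (intF_snd' intF_id) (intF_fst' (intF_fst' intF_id))

theorem cbi_union {ι : Sort*} (P : ι → Cd F) (i₀ : ι) : ∃ q : Cd F, q.T = ⋃ i, (P i).T := by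
  refine ⟨{ T := ⋃ i, (P i).T
            ne := ?_
            val := ?_
            down := ?_
            act := ?_ }, rfl⟩
  · obtain ⟨t, ht⟩ := (P i₀).ne
    exact ⟨t, Set.mem_iUnion.2 ⟨i₀, ht⟩⟩
  · intro s hs
    obtain ⟨i, hi⟩ := Set.mem_iUnion.1 hs
    exact (P i).val s hi
  · intro t ht m hm
    obtain ⟨i, hi⟩ := Set.mem_iUnion.1 ht
    exact Set.mem_iUnion.2 ⟨i, (P i).down t hi m hm⟩
  · intro s hs
    obtain ⟨i, hi⟩ := Set.mem_iUnion.1 hs
    refine ((P i).act s hi).mono fun y hy π => ?_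
    obtain ⟨t, ht, h1⟩ := hy π
    exact ⟨t, Set.mem_iUnion.2 ⟨i, ht⟩, h1⟩

/-- the union of a nonempty internal family of conditions is a condition -/
theorem exists_union_i [Fact (IsIFil 𝔐 F)] (P : α → CdI 𝔐 F) (hP : IntF 𝔐 P) (i₀ : α) :
    ∃ q : CdI 𝔐 F, q.1.T = ⋃ i, (P i).1.T := by
  obtain ⟨q, hq⟩ := cbi_union (fun i => (P i).1) i₀
  have h1 : Int 𝔐 (fun t => t ∈ q.T) := by
    rw [hq]
    refine int_congr (p := fun t : Node => ∃ i : α, t ∈ (P i).1.T)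
      (fun t => Set.mem_iUnion.symm) ?_
    refine int_ex (R := fun (t : Node) (i : α) => t ∈ (P i).1.T) ?_
    exact cbi_memF (intF_fst' intF_id) (intF_comp hP (intF_snd' intF_id))
  exact ⟨⟨q, h1⟩, hq⟩

theorem cbi_int_finite {β : Type*} [Cod 𝔐 β] {ι : Type*} [Finite ι] {R : ι → β → Prop}
    (h : ∀ i, Int 𝔐 (R i)) : Int 𝔐 (fun b => ∃ i, R i b) := by
  classical
  have := Fintype.ofFinite ι
  have h1 : ∀ s : Finset ι, Int 𝔐 (fun b => ∃ i ∈ s, R i b) := by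
    intro s
    induction s using Finset.induction_on with
    | empty =>
      refine int_congr (fun b => ?_) (int_const False)
      simp
    | insert x s hx ih =>
      refine int_congr (fun b => ?_) (int_or (h x) ih)
      simp
  refine int_congr (fun b => ?_) (h1 Finset.univ)
  simp

/-- the same for finite families (every finite family is internal) -/
theorem exists_union_fin_i {ι : Type} [Finite ι] (P : ι → CdI 𝔐 F) (i₀ : ι) :
    ∃ q : CdI 𝔐 F, q.1.T = ⋃ i, (P i).1.T := by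
  obtain ⟨q, hq⟩ := cbi_union (fun i => (P i).1) i₀
  have h1 : Int 𝔐 (fun t => t ∈ q.T) := by
    rw [hq]
    refine int_congr (p := fun t : Node => ∃ i : ι, t ∈ (P i).1.T)
      (fun t => Set.mem_iUnion.symm) ?_
    exact cbi_int_finite (fun i => (P i).2)
  exact ⟨⟨q, h1⟩, hq⟩

theorem predense_level_i (hF : IsBlockFilteri 𝔐 F) (n : ℕ) {r : CdI 𝔐 F} (hr : r ≤ p) :
    ∃ s ∈ p.1.T, s.1 = n ∧ s ∈ r.1.T ∧ r.atI s ≤ r ∧ r.atI s ≤ p.atI s := by
  obtain ⟨s, hs, hsn⟩ := r.exists_level_i hF n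
  exact ⟨s, hr hs, hsn, hs, r.atI_le s, atI_mono hr hs⟩

theorem exists_top_i (hF : IsBlockFilteri 𝔐 F) : ∃ q : CdI 𝔐 F, ∀ p : CdI 𝔐 F, p ≤ q := by
  classical
  have h0 : ∃ q : Cd F, q.T = {t : Node | t.2 ⊆ TypB t.1} := by
    refine ⟨{ T := {t | t.2 ⊆ TypB t.1}
              ne := ⟨(0, ∅), Finset.empty_subset _⟩
              val := fun s hs => hs
              down := fun t _ m _ => Finset.inter_subset_right
              act := ?_ }, rfl⟩
    intro s hs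
    filter_upwards [bf_tail_i hF s.1, bf_ne_i hF] with y hy1 hy2
    intro π
    have hs' : s.2 ⊆ TypB s.1 := hs
    have hfin : (TT s.1 y ∩ π).Finite := (TT_finite s.1 y).subset Set.inter_subset_left
    have hhi : Hi (max s.1 (mx y.support + 1)) y.support := by
      intro j hj
      exact lt_of_lt_of_le (Nat.lt_succ_of_le (le_mx hj)) (le_max_right _ _)
    have hsub : TT s.1 y ⊆ ↑(TypB (max s.1 (mx y.support + 1))) :=
      TT_subset_TypB (le_max_left _ _) hhi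
    have hnot : ∀ ϑ ∈ TT s.1 y, ϑ ∉ TypB s.1 := fun ϑ hϑ => TT_not_TypB hy2 hy1 hϑ
    refine ⟨(max s.1 (mx y.support + 1), s.2 ∪ hfin.toFinset), ?_, ⟨le_max_left _ _, ?_⟩, hhi, ?_⟩
    · change s.2 ∪ hfin.toFinset ⊆ TypB (max s.1 (mx y.support + 1))
      refine Finset.union_subset (hs'.trans (TypB_mono (le_max_left _ _))) ?_
      intro ϑ hϑ
      exact Finset.mem_coe.1 (hsub (hfin.mem_toFinset.1 hϑ).1)
    · change (s.2 ∪ hfin.toFinset) ∩ TypB s.1 = s.2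
      ext ϑ
      rw [Finset.mem_inter, Finset.mem_union, Set.Finite.mem_toFinset]
      constructor
      · rintro ⟨h1 | h1, h2⟩
        · exact h1
        · exact absurd h2 (hnot ϑ h1.1)
      · intro h1
        exact ⟨Or.inl h1, hs' h1⟩
    · intro ϑ hϑ
      change ϑ ∈ s.2 ∪ hfin.toFinset ↔ ϑ ∈ π
      rw [Finset.mem_union, Set.Finite.mem_toFinset]
      constructor
      · rintro (h1 | h1)
        · exact absurd (hs' h1) (hnot ϑ hϑ)
        · exact h1.2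
      · intro h1
        exact Or.inr ⟨hϑ, h1⟩
  obtain ⟨q, hq⟩ := h0
  have h1 : Int 𝔐 (fun t => t ∈ q.T) := by
    rw [hq]
    refine int_congr (p := fun t : Node => t.2 ⊆ TypB t.1) (fun t => Iff.rfl) ?_
    exact int_comp2 (R := fun a b : Finset Typ => a ⊆ b) (Std.subT (𝔐 := 𝔐) (K := K))
      (intF_snd' intF_id) (intF_comp (Std.TypB (𝔐 := 𝔐) (K := K)) (intF_fst' intF_id))
  refine ⟨⟨q, h1⟩, fun p => ?_⟩
  rw [cdI_le_iff]
  change p.1.T ⊆ q.T
  rw [hq]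
  exact p.1.val

/-- a condition with a stem: all nodes are comparable with `s` -/
def Stem (s : Node) : Prop := s ∈ p.1.T ∧ ∀ t ∈ p.1.T, Cmp s t

theorem int_stem [Fact (IsIFil 𝔐 F)] : Int 𝔐 (fun q : CdI 𝔐 F × Node => q.1.Stem q.2) := by
  refine int_congr (p := fun q : CdI 𝔐 F × Node => q.2 ∈ q.1.1.T ∧
    ∀ t : Node, t ∈ q.1.1.T → Cmp q.2 t) (fun q => Iff.rfl) (int_and ?_ ?_)
  · exact cbi_memF (intF_snd' intF_id) (intF_fst' intF_id)
  · refine int_all (R := fun (q : CdI 𝔐 F × Node) (t : Node) => t ∈ q.1.1.T → Cmp q.2 t)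
      (int_imp ?_ ?_)
    · exact cbi_memF (intF_snd' intF_id) (intF_fst' (intF_fst' intF_id))
    · exact int_comp2 (R := fun a b : Node => Cmp a b) (Std.cmp (𝔐 := 𝔐) (K := K))
        (intF_snd' (intF_fst' intF_id)) (intF_snd' intF_id)

theorem stem_atI {s : Node} (hs : s ∈ p.1.T) : (p.atI s).Stem s := by
  unfold Stem
  rw [atI_T p hs]
  exact ⟨⟨hs, Or.inl (Ext.refl' (p.1.val s hs))⟩, fun t ht => ht.2⟩

theorem Stem.mono_i {p q : CdI 𝔐 F} (hF : IsBlockFilteri 𝔐 F) {s : Node} (h : p.Stem s)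
    (hq : q ≤ p) : q.Stem s := by
  refine ⟨?_, fun t ht => h.2 t (hq ht)⟩
  obtain ⟨t, ht, hts⟩ := q.exists_level_i hF s.1
  have h2 : t = s := by
    refine Prod.ext hts ?_
    rcases h.2 t (hq ht) with h1 | h1
    · have h3 := h1.2
      rw [← hts, Finset.inter_eq_left.2 (q.1.val t ht)] at h3
      exact h3
    · have h3 := h1.2
      rw [hts, Finset.inter_eq_left.2 (p.1.val s h.1)] at h3
      exact h3.symm
  rw [← h2]
  exact ht

end CdI

end Pool.Agent.SOUi
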