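import Pool.Agent.Lib_MP_a0d45a_int.UTaili
import Pool.Agent.Lib_MP_a0d45a_lc.Forc

/-!
# Piece FORCI: forcing notions of the model, the property `HH` inside the model

`P` is a coded partial order with internal order relation. `FailI` is the least internal relation closed under the two
rules; all its properties follow from the definition:
* `int_FailI`: quantify over `ISet 𝔐 (P × Finset (Finset ℕ))`;
* `FailI` satisfies the rules (every closed internal relation contains the premises, hence the conclusion);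
* `failI_mono`, `HHI.mono`: the relation `R p C := ∀ p', p ≤ p' → FailI p' C` is internal and closed under the rules.
* `HHI.frIn`: if `τ ∈ C` and not `FrIn Z τ p`, there is `q ≤ p` with `∀ t ≤ q, t ∉ Z τ`, so the first rule applies.
* `HHI.next`: the set `{b | ∃ r ≤ p, HHI r (extC C b)}` is internal; if it is not in `U` its complement `S` is in `U`
  (`IsSOUi.ultra`), and the second rule applies with `q = p`.
-/

set_option autoImplicit false

namespace Pool.Agent.SOUi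

open Pool.Agent.SOU Pool.Agent.HMod

universe w

variable {𝔐 : HM.{w}} {P : Type} [PartialOrder P] [Cod 𝔐 P]

/-- a relation closed under the rules -/
def ClosedRel (𝔐 : HM.{w}) (U : Filter (Finset ℕ)) (Z : Finset ℕ → Set P)
    (R : P → Finset (Finset ℕ) → Prop) : Prop :=
  (∀ p q C τ, q ≤ p → τ ∈ C → FrOut Z τ q → R p C) ∧
  (∀ p q C S, q ≤ p → Int 𝔐 (fun b => b ∈ S) → S ∈ U →
    (∀ b ∈ S, ∀ r ≤ q, R r (extC C b)) → R p C)

/-- failure of the hereditary homogeneity, inside the model -/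
def FailI (𝔐 : HM.{w}) [Cod 𝔐 P] (U : Filter (Finset ℕ)) (Z : Finset ℕ → Set P) (p : P)
    (C : Finset (Finset ℕ)) : Prop :=
  ∀ R : P → Finset (Finset ℕ) → Prop, Int 𝔐 (fun x : P × Finset (Finset ℕ) => R x.1 x.2) →
    ClosedRel 𝔐 U Z R → R p C

/-- hereditary homogeneity -/
def HHI (𝔐 : HM.{w}) [Cod 𝔐 P] (U : Filter (Finset ℕ)) (Z : Finset ℕ → Set P) (p : P)
    (C : Finset (Finset ℕ)) : Prop := ¬ FailI 𝔐 U Z p C

variable {U : Filter (Finset ℕ)} {Z : Finset ℕ → Set P}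

/-- induction on `FailI` for internal relations -/
theorem failI_induct (R : P → Finset (Finset ℕ) → Prop)
    (hR : Int 𝔐 (fun x : P × Finset (Finset ℕ) => R x.1 x.2)) (hc : ClosedRel 𝔐 U Z R) {p : P}
    {C : Finset (Finset ℕ)} (h : FailI 𝔐 U Z p C) : R p C := h R hR hc

theorem failI_closed : ClosedRel 𝔐 U Z (FailI 𝔐 U Z) := by
  constructor
  · intro p q C τ hq hτ hfr R _ hc
    exact hc.1 p q C τ hq hτ hfr
  · intro p q C S hq hS hSU h R hR hc
    exact hc.2 p q C S hq hS hSU fun b hb r hr => h b hb r hr R hR hc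

variable [StdF 𝔐]

theorem int_frOut (hle : Int 𝔐 (fun q : P × P => q.1 ≤ q.2))
    (hZ : Int 𝔐 (fun q : Finset ℕ × P => q.2 ∈ Z q.1)) :
    Int 𝔐 (fun q : Finset ℕ × P => FrOut Z q.1 q.2) := by
  refine int_congr (p := fun q : Finset ℕ × P => ∀ r : P, r ≤ q.2 → ¬ r ∈ Z q.1)
    (fun q => Iff.rfl) ?_
  refine int_all (int_imp ?_ (int_not ?_))
  · exact int_comp2 (R := fun a b : P => a ≤ b) hle (intF_snd' intF_id)
      (intF_snd' (intF_fst' intF_id))
  · exact int_comp2 (R := fun (a : Finset ℕ) (b : P) => b ∈ Z a) hZ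
      (intF_fst' (intF_fst' intF_id)) (intF_snd' intF_id)

theorem int_frIn (hle : Int 𝔐 (fun q : P × P => q.1 ≤ q.2))
    (hZ : Int 𝔐 (fun q : Finset ℕ × P => q.2 ∈ Z q.1)) :
    Int 𝔐 (fun q : Finset ℕ × P => FrIn Z q.1 q.2) := by
  refine int_congr (p := fun q : Finset ℕ × P => ∀ r : P, r ≤ q.2 → ∃ t : P, t ≤ r ∧ t ∈ Z q.1)
    (fun q => Iff.rfl) ?_
  refine int_all (int_imp ?_ (int_ex (int_and ?_ ?_)))
  · exact int_comp2 (R := fun a b : P => a ≤ b) hle (intF_snd' intF_id)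
      (intF_snd' (intF_fst' intF_id))
  · exact int_comp2 (R := fun a b : P => a ≤ b) hle (intF_snd' intF_id)
      (intF_snd' (intF_fst' intF_id))
  · exact int_comp2 (R := fun (a : Finset ℕ) (b : P) => b ∈ Z a) hZ
      (intF_fst' (intF_fst' (intF_fst' intF_id))) (intF_snd' intF_id)

theorem int_compl (hle : Int 𝔐 (fun q : P × P => q.1 ≤ q.2))
    (hZ : Int 𝔐 (fun q : Finset ℕ × P => q.2 ∈ Z q.1)) :
    Int 𝔐 (fun q : Finset ℕ × P => q.2 ∈ compl' Z q.1) :=
  int_congr (p := fun q : Finset ℕ × P => FrOut Z q.1 q.2) (fun _ => Iff.rfl) (int_frOut hle hZ)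

/-- `extC` is internal -/
theorem intF_extCi {α : Type*} [Cod 𝔐 α] {f : α → Finset (Finset ℕ)} {g : α → Finset ℕ}
    (hf : IntF 𝔐 f) (hg : IntF 𝔐 g) : IntF 𝔐 (fun a => extC (f a) (g a)) :=
  intF_comp2 (F := fun (C : Finset (Finset ℕ)) (b : Finset ℕ) => extC C b)
    (intF_congr (fun _ => rfl) (StdF.extC (𝔐 := 𝔐))) hf hg

/-- quantifier over the internal relations -/
theorem failI_iff {p : P} {C : Finset (Finset ℕ)} : FailI 𝔐 U Z p C ↔
    ∀ R : ISet 𝔐 (P × Finset (Finset ℕ)),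
      ((∀ (p q : P) (C : Finset (Finset ℕ)) (τ : Finset ℕ), q ≤ p → τ ∈ C → FrOut Z τ q →
        (p, C) ∈ R.1) ∧
      (∀ (p q : P) (C : Finset (Finset ℕ)) (S : ISet 𝔐 (Finset ℕ)), q ≤ p → S.1 ∈ U →
        (∀ b : Finset ℕ, b ∈ S.1 → ∀ r : P, r ≤ q → (r, extC C b) ∈ R.1) → (p, C) ∈ R.1)) →
      (p, C) ∈ R.1 := by
  constructor
  · intro h R hR
    refine h (fun p C => (p, C) ∈ R.1) (int_congr (fun x => Iff.rfl) R.2) ⟨hR.1, ?_⟩
    intro p q C S hq hS hSU hb
    exact hR.2 p q C ⟨S, hS⟩ hq hSU hb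
  · intro h R hR hc
    refine h ⟨{x | R x.1 x.2}, hR⟩ ⟨hc.1, ?_⟩
    intro p q C S hq hSU hb
    exact hc.2 p q C S.1 hq S.2 hSU hb

theorem int_FailI (hle : Int 𝔐 (fun q : P × P => q.1 ≤ q.2)) (hU : IsSOUi 𝔐 U)
    (hZ : Int 𝔐 (fun q : Finset ℕ × P => q.2 ∈ Z q.1)) :
    Int 𝔐 (fun x : P × Finset (Finset ℕ) => FailI 𝔐 U Z x.1 x.2) := by
  refine int_congr (fun x => (failI_iff (𝔐 := 𝔐) (U := U) (Z := Z) (p := x.1) (C := x.2)).symm) ?_
  have hR : Int 𝔐 (fun R : ISet 𝔐 (P × Finset (Finset ℕ)) =>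
      ((∀ (p q : P) (C : Finset (Finset ℕ)) (τ : Finset ℕ), q ≤ p → τ ∈ C → FrOut Z τ q →
        (p, C) ∈ R.1) ∧
      (∀ (p q : P) (C : Finset (Finset ℕ)) (S : ISet 𝔐 (Finset ℕ)), q ≤ p → S.1 ∈ U →
        (∀ b : Finset ℕ, b ∈ S.1 → ∀ r : P, r ≤ q → (r, extC C b) ∈ R.1) → (p, C) ∈ R.1))) := by
    refine int_and (int_all (int_all (int_all (int_all (int_imp ?_ (int_imp ?_ (int_imp ?_ ?_)))))))
      (int_all (int_all (int_all (int_all (int_imp ?_ (int_imp ?_ (int_imp (int_all (int_imp ?_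
        (int_all (int_imp ?_ ?_)))) ?_)))))))
    · exact int_comp2 (R := fun a b : P => a ≤ b) hle
        (intF_snd' (intF_fst' (intF_fst' intF_id))) (intF_snd' (intF_fst' (intF_fst' (intF_fst' intF_id))))
    · exact int_comp2 (R := fun (a : Finset ℕ) (b : Finset (Finset ℕ)) => a ∈ b) StdF.memF
        (intF_snd' intF_id) (intF_snd' (intF_fst' intF_id))
    · exact int_comp2 (R := fun (a : Finset ℕ) (b : P) => FrOut Z a b) (int_frOut hle hZ)
        (intF_snd' intF_id) (intF_snd' (intF_fst' (intF_fst' intF_id)))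
    · exact HMod.int_memF (intF_pair (intF_snd' (intF_fst' (intF_fst' (intF_fst' intF_id))))
        (intF_snd' (intF_fst' intF_id))) (intF_fst' (intF_fst' (intF_fst' (intF_fst' intF_id))))
    · exact int_comp2 (R := fun a b : P => a ≤ b) hle
        (intF_snd' (intF_fst' (intF_fst' intF_id))) (intF_snd' (intF_fst' (intF_fst' (intF_fst' intF_id))))
    · exact int_comp (p := fun S : ISet 𝔐 (Finset ℕ) => S.1 ∈ U) hU.fil.def' (intF_snd' intF_id)
    · exact HMod.int_memF (intF_snd' intF_id) (intF_snd' (intF_fst' intF_id))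
    · exact int_comp2 (R := fun a b : P => a ≤ b) hle (intF_snd' intF_id)
        (intF_snd' (intF_fst' (intF_fst' (intF_fst' (intF_fst' intF_id)))))
    · exact HMod.int_memF (intF_pair (intF_snd' intF_id) (intF_extCi
        (intF_snd' (intF_fst' (intF_fst' (intF_fst' intF_id)))) (intF_snd' (intF_fst' intF_id))))
        (intF_fst' (intF_fst' (intF_fst' (intF_fst' (intF_fst' (intF_fst' intF_id))))))
    · exact HMod.int_memF (intF_pair (intF_snd' (intF_fst' (intF_fst' (intF_fst' intF_id))))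
        (intF_snd' (intF_fst' intF_id))) (intF_fst' (intF_fst' (intF_fst' (intF_fst' intF_id))))
  refine int_all (int_imp (int_comp hR (intF_snd' intF_id)) ?_)
  exact HMod.int_memF (intF_pair (intF_fst' (intF_fst' intF_id)) (intF_snd' (intF_fst' intF_id)))
    (intF_snd' intF_id)

theorem int_HHI (hle : Int 𝔐 (fun q : P × P => q.1 ≤ q.2)) (hU : IsSOUi 𝔐 U)
    (hZ : Int 𝔐 (fun q : Finset ℕ × P => q.2 ∈ Z q.1)) :
    Int 𝔐 (fun x : P × Finset (Finset ℕ) => HHI 𝔐 U Z x.1 x.2) :=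
  int_not (int_FailI hle hU hZ)

theorem failI_mono (hle : Int 𝔐 (fun q : P × P => q.1 ≤ q.2)) (hU : IsSOUi 𝔐 U)
    (hZ : Int 𝔐 (fun q : Finset ℕ × P => q.2 ∈ Z q.1)) {p q : P} {C : Finset (Finset ℕ)}
    (h : FailI 𝔐 U Z q C) (hq : q ≤ p) : FailI 𝔐 U Z p C := by
  refine failI_induct (fun p C => ∀ p' : P, p ≤ p' → FailI 𝔐 U Z p' C) ?_ ?_ h p hq
  · refine int_all (int_imp ?_ ?_)
    · exact int_comp2 (R := fun a b : P => a ≤ b) hle (intF_fst' (intF_fst' intF_id))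
        (intF_snd' intF_id)
    · exact int_comp2 (R := fun (a : P) (b : Finset (Finset ℕ)) => FailI 𝔐 U Z a b)
        (int_FailI hle hU hZ) (intF_snd' intF_id) (intF_snd' (intF_fst' intF_id))
  · constructor
    · intro p q C τ hq hτ hfr p' hp'
      exact failI_closed.1 p' q C τ (hq.trans hp') hτ hfr
    · intro p q C S hq hS hSU hb p' hp'
      exact failI_closed.2 p' q C S (hq.trans hp') hS hSU
        fun b hbS r hr => hb b hbS r hr r le_rfl

theorem HHI.mono (hle : Int 𝔐 (fun q : P × P => q.1 ≤ q.2)) (hU : IsSOUi 𝔐 U)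
    (hZ : Int 𝔐 (fun q : Finset ℕ × P => q.2 ∈ Z q.1)) {p q : P} {C : Finset (Finset ℕ)}
    (h : HHI 𝔐 U Z p C) (hq : q ≤ p) : HHI 𝔐 U Z q C := fun h' => h (failI_mono hle hU hZ h' hq)

theorem HHI.frIn {p : P} {C : Finset (Finset ℕ)} (h : HHI 𝔐 U Z p C) {τ : Finset ℕ}
    (hτ : τ ∈ C) : FrIn Z τ p := by
  intro r hr
  by_contra hcon
  exact h (failI_closed.1 p r C τ hr hτ fun t ht htz => hcon ⟨t, ht, htz⟩)

/-- the main property -/
theorem HHI.next (hle : Int 𝔐 (fun q : P × P => q.1 ≤ q.2)) (hU : IsSOUi 𝔐 U)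
    (hZ : Int 𝔐 (fun q : Finset ℕ × P => q.2 ∈ Z q.1)) {p : P} {C : Finset (Finset ℕ)}
    (h : HHI 𝔐 U Z p C) : ∀ᶠ b in U, ∃ r ≤ p, HHI 𝔐 U Z r (extC C b) := by
  have hi : Int 𝔐 (fun b : Finset ℕ => ∃ r : P, r ≤ p ∧ HHI 𝔐 U Z r (extC C b)) := by
    refine int_ex (int_and ?_ ?_)
    · exact int_comp2 (R := fun a b : P => a ≤ b) hle (intF_snd' intF_id) (intF_const p)
    · exact int_comp2 (R := fun (a : P) (b : Finset (Finset ℕ)) => HHI 𝔐 U Z a b)
        (int_HHI hle hU hZ) (intF_snd' intF_id)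
        (intF_extCi (intF_const C) (intF_fst' intF_id))
  rcases sou_em hU hi with h1 | h1
  · exact h1
  · exfalso
    refine h (failI_closed.2 p p C {b | ¬ ∃ r : P, r ≤ p ∧ HHI 𝔐 U Z r (extC C b)} le_rfl
      (int_not hi) h1 ?_)
    intro b hb r hr
    by_contra hf
    exact hb ⟨r, hr, hf⟩

end Pool.Agent.SOUi
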