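import Pool.Agent.Lib_MP_a0d45a_int.HHDi

/-!
# Piece HHDG: the dichotomy for coded preorders in any universe

The same statements and proofs as in `Forci.lean` and `HHDi.lean` (namespace `SOUi`), for a coded preorder `P : Type u`.
-/

set_option autoImplicit false

namespace Pool.Agent.SOUg

open Pool.Agent.SOU Pool.Agent.HMod Pool.Agent.SOUi

universe w u

section names

variable {P : Type u} [Preorder P]

/-- open names -/
def OpenName (Z : Finset ℕ → Set P) : Prop := ∀ τ, ∀ p ∈ Z τ, ∀ q ≤ p, q ∈ Z τ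

/-- `q` forces `τ ∈ Z` -/
def FrIn (Z : Finset ℕ → Set P) (τ : Finset ℕ) (q : P) : Prop := ∀ r ≤ q, ∃ t ≤ r, t ∈ Z τ

/-- `q` forces `τ ∉ Z` -/
def FrOut (Z : Finset ℕ → Set P) (τ : Finset ℕ) (q : P) : Prop := ∀ r ≤ q, r ∉ Z τ

/-- the complement of a name -/
def compl' (Z : Finset ℕ → Set P) : Finset ℕ → Set P := fun τ => {q | FrOut Z τ q}

theorem openName_compl {Z : Finset ℕ → Set P} : OpenName (compl' Z) := by
  intro τ p hp q hq r hr
  exact hp r (hr.trans hq)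

end names

variable {𝔐 : HM.{w}} {P : Type u} [Preorder P] [Cod 𝔐 P]

/-- a relation closed under the rules -/
def ClosedRel (𝔐 : HM.{w}) (U : Filter (Finset ℕ)) (Z : Finset ℕ → Set P)
    (R : P → Finset (Finset ℕ) → Prop) : Prop :=
  (∀ p q C τ, q ≤ p → τ ∈ C → FrOut Z τ q → R p C) ∧
  (∀ p q C S, q ≤ p → Int 𝔐 (fun b => b ∈ S) → S ∈ U →
    (∀ b ∈ S, ∀ r ≤ q, R r (extC C b)) → R p C)

/-- failure of the hereditary homogeneity, inside the model -/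
def FailI (𝔐 : HM.{w}) [Cod 𝔐 P] (U : Filter (Finset ℕ)) (Z : Finset ℕ → Set P) (p : P)
    (C : Finset (Finset ℕ)) : Prop :=
  ∀ R : P → Finset (Finset ℕ) → Prop, Int 𝔐 (fun x : P × Finset (Finset ℕ) => R x.1 x.2) →
    ClosedRel 𝔐 U Z R → R p C

/-- hereditary homogeneity -/
def HHI (𝔐 : HM.{w}) [Cod 𝔐 P] (U : Filter (Finset ℕ)) (Z : Finset ℕ → Set P) (p : P)
    (C : Finset (Finset ℕ)) : Prop := ¬ FailI 𝔐 U Z p C

variable {U : Filter (Finset ℕ)} {Z : Finset ℕ → Set P}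

/-- induction on `FailI` for internal relations -/
theorem failI_induct (R : P → Finset (Finset ℕ) → Prop)
    (hR : Int 𝔐 (fun x : P × Finset (Finset ℕ) => R x.1 x.2)) (hc : ClosedRel 𝔐 U Z R) {p : P}
    {C : Finset (Finset ℕ)} (h : FailI 𝔐 U Z p C) : R p C := h R hR hc

theorem failI_closed : ClosedRel 𝔐 U Z (FailI 𝔐 U Z) := by
  constructor
  · intro p q C τ hq hτ hfr R _ hc
    exact hc.1 p q C τ hq hτ hfr
  · intro p q C S hq hS hSU h R hR hc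
    exact hc.2 p q C S hq hS hSU fun b hb r hr => h b hb r hr R hR hc

variable [StdF 𝔐]

theorem int_frOut (hle : Int 𝔐 (fun q : P × P => q.1 ≤ q.2))
    (hZ : Int 𝔐 (fun q : Finset ℕ × P => q.2 ∈ Z q.1)) :
    Int 𝔐 (fun q : Finset ℕ × P => FrOut Z q.1 q.2) := by
  refine int_congr (p := fun q : Finset ℕ × P => ∀ r : P, r ≤ q.2 → ¬ r ∈ Z q.1)
    (fun q => Iff.rfl) ?_
  refine int_all (int_imp ?_ (int_not ?_))
  · exact int_comp2 (R := fun a b : P => a ≤ b) hle (intF_snd' intF_id)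
      (intF_snd' (intF_fst' intF_id))
  · exact int_comp2 (R := fun (a : Finset ℕ) (b : P) => b ∈ Z a) hZ
      (intF_fst' (intF_fst' intF_id)) (intF_snd' intF_id)

theorem int_frIn (hle : Int 𝔐 (fun q : P × P => q.1 ≤ q.2))
    (hZ : Int 𝔐 (fun q : Finset ℕ × P => q.2 ∈ Z q.1)) :
    Int 𝔐 (fun q : Finset ℕ × P => FrIn Z q.1 q.2) := by
  refine int_congr (p := fun q : Finset ℕ × P => ∀ r : P, r ≤ q.2 → ∃ t : P, t ≤ r ∧ t ∈ Z q.1)
    (fun q => Iff.rfl) ?_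
  refine int_all (int_imp ?_ (int_ex (int_and ?_ ?_)))
  · exact int_comp2 (R := fun a b : P => a ≤ b) hle (intF_snd' intF_id)
      (intF_snd' (intF_fst' intF_id))
  · exact int_comp2 (R := fun a b : P => a ≤ b) hle (intF_snd' intF_id)
      (intF_snd' (intF_fst' intF_id))
  · exact int_comp2 (R := fun (a : Finset ℕ) (b : P) => b ∈ Z a) hZ
      (intF_fst' (intF_fst' (intF_fst' intF_id))) (intF_snd' intF_id)

theorem int_compl (hle : Int 𝔐 (fun q : P × P => q.1 ≤ q.2))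
    (hZ : Int 𝔐 (fun q : Finset ℕ × P => q.2 ∈ Z q.1)) :
    Int 𝔐 (fun q : Finset ℕ × P => q.2 ∈ compl' Z q.1) :=
  int_congr (p := fun q : Finset ℕ × P => FrOut Z q.1 q.2) (fun _ => Iff.rfl) (int_frOut hle hZ)

/-- `extC` is internal -/
theorem intF_extCi {α : Type*} [Cod 𝔐 α] {f : α → Finset (Finset ℕ)} {g : α → Finset ℕ}
    (hf : IntF 𝔐 f) (hg : IntF 𝔐 g) : IntF 𝔐 (fun a => extC (f a) (g a)) :=
  intF_comp2 (F := fun (C : Finset (Finset ℕ)) (b : Finset ℕ) => extC C b)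
    (intF_congr (fun _ => rfl) (StdF.extC (𝔐 := 𝔐))) hf hg

/-- quantifier over the internal relations -/
theorem failI_iff {p : P} {C : Finset (Finset ℕ)} : FailI 𝔐 U Z p C ↔
    ∀ R : ISet 𝔐 (P × Finset (Finset ℕ)),
      ((∀ (p q : P) (C : Finset (Finset ℕ)) (τ : Finset ℕ), q ≤ p → τ ∈ C → FrOut Z τ q →
        (p, C) ∈ R.1) ∧
      (∀ (p q : P) (C : Finset (Finset ℕ)) (S : ISet 𝔐 (Finset ℕ)), q ≤ p → S.1 ∈ U →
        (∀ b : Finset ℕ, b ∈ S.1 → ∀ r : P, r ≤ q → (r, extC C b) ∈ R.1) → (p, C) ∈ R.1)) →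
      (p, C) ∈ R.1 := by
  constructor
  · intro h R hR
    refine h (fun p C => (p, C) ∈ R.1) (int_congr (fun x => Iff.rfl) R.2) ⟨hR.1, ?_⟩
    intro p q C S hq hS hSU hb
    exact hR.2 p q C ⟨S, hS⟩ hq hSU hb
  · intro h R hR hc
    refine h ⟨{x | R x.1 x.2}, hR⟩ ⟨hc.1, ?_⟩
    intro p q C S hq hSU hb
    exact hc.2 p q C S.1 hq S.2 hSU hb

theorem int_FailI (hle : Int 𝔐 (fun q : P × P => q.1 ≤ q.2)) (hU : IsSOUi 𝔐 U)
    (hZ : Int 𝔐 (fun q : Finset ℕ × P => q.2 ∈ Z q.1)) :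
    Int 𝔐 (fun x : P × Finset (Finset ℕ) => FailI 𝔐 U Z x.1 x.2) := by
  refine int_congr (fun x => (failI_iff (𝔐 := 𝔐) (U := U) (Z := Z) (p := x.1) (C := x.2)).symm) ?_
  have hR : Int 𝔐 (fun R : ISet 𝔐 (P × Finset (Finset ℕ)) =>
      ((∀ (p q : P) (C : Finset (Finset ℕ)) (τ : Finset ℕ), q ≤ p → τ ∈ C → FrOut Z τ q →
        (p, C) ∈ R.1) ∧
      (∀ (p q : P) (C : Finset (Finset ℕ)) (S : ISet 𝔐 (Finset ℕ)), q ≤ p → S.1 ∈ U →
        (∀ b : Finset ℕ, b ∈ S.1 → ∀ r : P, r ≤ q → (r, extC C b) ∈ R.1) → (p, C) ∈ R.1))) := by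
    refine int_and (int_all (int_all (int_all (int_all (int_imp ?_ (int_imp ?_ (int_imp ?_ ?_)))))))
      (int_all (int_all (int_all (int_all (int_imp ?_ (int_imp ?_ (int_imp (int_all (int_imp ?_
        (int_all (int_imp ?_ ?_)))) ?_)))))))
    · exact int_comp2 (R := fun a b : P => a ≤ b) hle
        (intF_snd' (intF_fst' (intF_fst' intF_id))) (intF_snd' (intF_fst' (intF_fst' (intF_fst' intF_id))))
    · exact int_comp2 (R := fun (a : Finset ℕ) (b : Finset (Finset ℕ)) => a ∈ b) StdF.memF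
        (intF_snd' intF_id) (intF_snd' (intF_fst' intF_id))
    · exact int_comp2 (R := fun (a : Finset ℕ) (b : P) => FrOut Z a b) (int_frOut hle hZ)
        (intF_snd' intF_id) (intF_snd' (intF_fst' (intF_fst' intF_id)))
    · exact HMod.int_memF (intF_pair (intF_snd' (intF_fst' (intF_fst' (intF_fst' intF_id))))
        (intF_snd' (intF_fst' intF_id))) (intF_fst' (intF_fst' (intF_fst' (intF_fst' intF_id))))
    · exact int_comp2 (R := fun a b : P => a ≤ b) hle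
        (intF_snd' (intF_fst' (intF_fst' intF_id))) (intF_snd' (intF_fst' (intF_fst' (intF_fst' intF_id))))
    · exact int_comp (p := fun S : ISet 𝔐 (Finset ℕ) => S.1 ∈ U) hU.fil.def' (intF_snd' intF_id)
    · exact HMod.int_memF (intF_snd' intF_id) (intF_snd' (intF_fst' intF_id))
    · exact int_comp2 (R := fun a b : P => a ≤ b) hle (intF_snd' intF_id)
        (intF_snd' (intF_fst' (intF_fst' (intF_fst' (intF_fst' intF_id)))))
    · exact HMod.int_memF (intF_pair (intF_snd' intF_id) (intF_extCi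
        (intF_snd' (intF_fst' (intF_fst' (intF_fst' intF_id)))) (intF_snd' (intF_fst' intF_id))))
        (intF_fst' (intF_fst' (intF_fst' (intF_fst' (intF_fst' (intF_fst' intF_id))))))
    · exact HMod.int_memF (intF_pair (intF_snd' (intF_fst' (intF_fst' (intF_fst' intF_id))))
        (intF_snd' (intF_fst' intF_id))) (intF_fst' (intF_fst' (intF_fst' (intF_fst' intF_id))))
  refine int_all (int_imp (int_comp hR (intF_snd' intF_id)) ?_)
  exact HMod.int_memF (intF_pair (intF_fst' (intF_fst' intF_id)) (intF_snd' (intF_fst' intF_id)))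
    (intF_snd' intF_id)

theorem int_HHI (hle : Int 𝔐 (fun q : P × P => q.1 ≤ q.2)) (hU : IsSOUi 𝔐 U)
    (hZ : Int 𝔐 (fun q : Finset ℕ × P => q.2 ∈ Z q.1)) :
    Int 𝔐 (fun x : P × Finset (Finset ℕ) => HHI 𝔐 U Z x.1 x.2) :=
  int_not (int_FailI hle hU hZ)

theorem failI_mono (hle : Int 𝔐 (fun q : P × P => q.1 ≤ q.2)) (hU : IsSOUi 𝔐 U)
    (hZ : Int 𝔐 (fun q : Finset ℕ × P => q.2 ∈ Z q.1)) {p q : P} {C : Finset (Finset ℕ)}
    (h : FailI 𝔐 U Z q C) (hq : q ≤ p) : FailI 𝔐 U Z p C := by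
  refine failI_induct (fun p C => ∀ p' : P, p ≤ p' → FailI 𝔐 U Z p' C) ?_ ?_ h p hq
  · refine int_all (int_imp ?_ ?_)
    · exact int_comp2 (R := fun a b : P => a ≤ b) hle (intF_fst' (intF_fst' intF_id))
        (intF_snd' intF_id)
    · exact int_comp2 (R := fun (a : P) (b : Finset (Finset ℕ)) => FailI 𝔐 U Z a b)
        (int_FailI hle hU hZ) (intF_snd' intF_id) (intF_snd' (intF_fst' intF_id))
  · constructor
    · intro p q C τ hq hτ hfr p' hp'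
      exact failI_closed.1 p' q C τ (hq.trans hp') hτ hfr
    · intro p q C S hq hS hSU hb p' hp'
      exact failI_closed.2 p' q C S (hq.trans hp') hS hSU
        fun b hbS r hr => hb b hbS r hr r le_rfl

theorem HHI.mono (hle : Int 𝔐 (fun q : P × P => q.1 ≤ q.2)) (hU : IsSOUi 𝔐 U)
    (hZ : Int 𝔐 (fun q : Finset ℕ × P => q.2 ∈ Z q.1)) {p q : P} {C : Finset (Finset ℕ)}
    (h : HHI 𝔐 U Z p C) (hq : q ≤ p) : HHI 𝔐 U Z q C := fun h' => h (failI_mono hle hU hZ h' hq)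

theorem HHI.frIn {p : P} {C : Finset (Finset ℕ)} (h : HHI 𝔐 U Z p C) {τ : Finset ℕ}
    (hτ : τ ∈ C) : FrIn Z τ p := by
  intro r hr
  by_contra hcon
  exact h (failI_closed.1 p r C τ hr hτ fun t ht htz => hcon ⟨t, ht, htz⟩)

/-- the main property -/
theorem HHI.next (hle : Int 𝔐 (fun q : P × P => q.1 ≤ q.2)) (hU : IsSOUi 𝔐 U)
    (hZ : Int 𝔐 (fun q : Finset ℕ × P => q.2 ∈ Z q.1)) {p : P} {C : Finset (Finset ℕ)}
    (h : HHI 𝔐 U Z p C) : ∀ᶠ b in U, ∃ r ≤ p, HHI 𝔐 U Z r (extC C b) := by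
  have hi : Int 𝔐 (fun b : Finset ℕ => ∃ r : P, r ≤ p ∧ HHI 𝔐 U Z r (extC C b)) := by
    refine int_ex (int_and ?_ ?_)
    · exact int_comp2 (R := fun a b : P => a ≤ b) hle (intF_snd' intF_id) (intF_const p)
    · exact int_comp2 (R := fun (a : P) (b : Finset (Finset ℕ)) => HHI 𝔐 U Z a b)
        (int_HHI hle hU hZ) (intF_snd' intF_id)
        (intF_extCi (intF_const C) (intF_fst' intF_id))
  rcases sou_em hU hi with h1 | h1
  · exact h1
  · exfalso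
    refine h (failI_closed.2 p p C {b | ¬ ∃ r : P, r ≤ p ∧ HHI 𝔐 U Z r (extC C b)} le_rfl
      (int_not hi) h1 ?_)
    intro b hb r hr
    by_contra hf
    exact hb ⟨r, hr, hf⟩


/-- the sequence cut at `n` -/
def cutG (g : IFun 𝔐 ℕ P) (n : ℕ) : ℕ → P := fun i => g.1 (min i n)

theorem intF_cutG : ∃ c : IFun 𝔐 ℕ P → ℕ → IFun 𝔐 ℕ P,
    IntF 𝔐 (fun q : IFun 𝔐 ℕ P × ℕ => c q.1 q.2) ∧ ∀ g n i, (c g n).1 i = g.1 (min i n) := by
  classical
  have hmin : IntF 𝔐 (fun q : ℕ × ℕ => min q.1 q.2) := by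
    refine intF_congr (fun q => ?_) (intF_ite (𝔐 := 𝔐) (p := fun q : ℕ × ℕ => q.1 ≤ q.2)
      (f := fun q => q.1) (g := fun q => q.2) (int_leF intF_fst intF_snd) intF_fst intF_snd)
    by_cases h : q.1 ≤ q.2
    · simp [h]
    · have h' : q.2 ≤ q.1 := by omega
      simp [h, h']
  have h1 : IntF 𝔐 (fun q : (IFun 𝔐 ℕ P × ℕ) × ℕ => q.1.1.1 (min q.2 q.1.2)) :=
    intF_appF (intF_fst' (intF_fst' intF_id))
      (intF_comp2 (F := fun a b : ℕ => min a b) hmin (intF_snd' intF_id)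
        (intF_snd' (intF_fst' intF_id)))
  refine ⟨fun g n => mkF (F := fun (q : IFun 𝔐 ℕ P × ℕ) (i : ℕ) => q.1.1 (min i q.2)) h1 (g, n),
    intF_mkF (F := fun (q : IFun 𝔐 ℕ P × ℕ) (i : ℕ) => q.1.1 (min i q.2)) h1,
    fun g n i => rfl⟩

/-- strategies -/
abbrev Strat (𝔐 : HM.{w}) (P : Type u) [Cod 𝔐 P] : Type _ :=
  IFun 𝔐 (IFun 𝔐 ℕ P × ℕ) (ISet 𝔐 P)

/-- `g` is decreasing and generic for the strategy -/
def GenI (𝔻 : Strat 𝔐 P) (g : IFun 𝔐 ℕ P) : Prop :=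
  Antitone g.1 ∧ ∀ (n k : ℕ) (f : IFun 𝔐 ℕ P), (∀ i, f.1 i = g.1 (min i n)) →
    ∃ m, g.1 m ∈ (𝔻.1 (f, k)).1 ∨ ∀ r ≤ g.1 m, r ∉ (𝔻.1 (f, k)).1

/-- the value of a name along a sequence -/
def ValI (Z : Finset ℕ → Set P) (g : ℕ → P) : Set (Finset ℕ) := {b | ∃ n, g n ∈ Z b}

theorem exists_genI (hle : Int 𝔐 (fun q : P × P => q.1 ≤ q.2)) (𝔻 : Strat 𝔐 P) (p : P) :
    ∃ g : IFun 𝔐 ℕ P, g.1 0 ≤ p ∧ GenI 𝔻 g := by
  classical
  obtain ⟨c, hc, hc'⟩ := intF_cutG (𝔐 := 𝔐) (P := P)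
  have hp : Int 𝔐 (fun q : ℕ × IFun 𝔐 ℕ P =>
      (∀ a b : ℕ, a ≤ b → q.2.1 b ≤ q.2.1 a) ∧ ∀ j : ℕ, q.1 ≤ j → q.2.1 j = q.2.1 q.1) := by
    refine int_and (int_all (int_all (int_imp ?_ ?_))) (int_all (int_imp ?_ ?_))
    · exact int_leF (intF_snd' (intF_fst' intF_id)) (intF_snd' intF_id)
    · exact int_comp2 (R := fun a b : P => a ≤ b) hle
        (intF_appF (intF_snd' (intF_fst' (intF_fst' intF_id))) (intF_snd' intF_id))
        (intF_appF (intF_snd' (intF_fst' (intF_fst' intF_id))) (intF_snd' (intF_fst' intF_id)))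
    · exact int_leF (intF_fst' (intF_fst' intF_id)) (intF_snd' intF_id)
    · exact int_eqF (intF_appF (intF_snd' (intF_fst' intF_id)) (intF_snd' intF_id))
        (intF_appF (intF_snd' (intF_fst' intF_id)) (intF_fst' (intF_fst' intF_id)))
  have hD : Int 𝔐 (fun q : (P × IFun 𝔐 ℕ P) × ℕ × ℕ =>
      q.1.1 ∈ (𝔻.1 (c q.1.2 q.2.1, q.2.2)).1) := by
    refine HMod.int_memF (f := fun q : (P × IFun 𝔐 ℕ P) × ℕ × ℕ => q.1.1)
      (S := fun q : (P × IFun 𝔐 ℕ P) × ℕ × ℕ => 𝔻.1 (c q.1.2 q.2.1, q.2.2))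
      (intF_fst' (intF_fst' intF_id)) ?_
    refine intF_comp 𝔻.2 (intF_pair ?_ (intF_snd' (intF_snd' intF_id)))
    exact intF_comp2 (F := fun (a : IFun 𝔐 ℕ P) (b : ℕ) => c a b) hc
      (intF_snd' (intF_fst' intF_id)) (intF_fst' (intF_snd' intF_id))
  have hR : Int 𝔐 (fun q : ℕ × IFun 𝔐 ℕ P × IFun 𝔐 ℕ P =>
      (∀ j : ℕ, j ≤ q.1 → q.2.2.1 j = q.2.1.1 j) ∧ ∀ i k : ℕ, Nat.pair i k = q.1 →
        (q.2.2.1 (q.1 + 1) ∈ (𝔻.1 (c q.2.1 i, k)).1 ∨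
          ∀ r : P, r ≤ q.2.1.1 q.1 → ¬ r ∈ (𝔻.1 (c q.2.1 i, k)).1)) := by
    refine int_and (int_all (int_imp ?_ ?_)) (int_all (int_all (int_imp ?_ (int_or ?_
      (int_all (int_imp ?_ (int_not ?_)))))))
    · exact int_leF (intF_snd' intF_id) (intF_fst' (intF_fst' intF_id))
    · exact int_eqF (intF_appF (intF_snd' (intF_snd' (intF_fst' intF_id))) (intF_snd' intF_id))
        (intF_appF (intF_fst' (intF_snd' (intF_fst' intF_id))) (intF_snd' intF_id))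
    · exact int_eqF (intF_comp2 (F := fun a b : ℕ => Nat.pair a b) intF_natPair
        (intF_snd' (intF_fst' intF_id)) (intF_snd' intF_id))
        (intF_fst' (intF_fst' (intF_fst' intF_id)))
    · exact int_comp2 (R := fun (a : P × IFun 𝔐 ℕ P) (b : ℕ × ℕ) =>
        a.1 ∈ (𝔻.1 (c a.2 b.1, b.2)).1) hD
        (intF_pair (intF_appF (intF_snd' (intF_snd' (intF_fst' (intF_fst' intF_id))))
          (intF_comp intF_succ (intF_fst' (intF_fst' (intF_fst' intF_id)))))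
          (intF_fst' (intF_snd' (intF_fst' (intF_fst' intF_id)))))
        (intF_pair (intF_snd' (intF_fst' intF_id)) (intF_snd' intF_id))
    · exact int_comp2 (R := fun a b : P => a ≤ b) hle (intF_snd' intF_id)
        (intF_appF (intF_fst' (intF_snd' (intF_fst' (intF_fst' (intF_fst' intF_id)))))
          (intF_fst' (intF_fst' (intF_fst' (intF_fst' intF_id)))))
    · exact int_comp2 (R := fun (a : P × IFun 𝔐 ℕ P) (b : ℕ × ℕ) =>
        a.1 ∈ (𝔻.1 (c a.2 b.1, b.2)).1) hD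
        (intF_pair (intF_snd' intF_id)
          (intF_fst' (intF_snd' (intF_fst' (intF_fst' (intF_fst' intF_id))))))
        (intF_pair (intF_snd' (intF_fst' (intF_fst' intF_id))) (intF_snd' (intF_fst' intF_id)))
  obtain ⟨F, hF, hF0, hFn⟩ := int_dc (𝔐 := 𝔐) (α := IFun 𝔐 ℕ P)
    (p := fun n f => (∀ a b : ℕ, a ≤ b → f.1 b ≤ f.1 a) ∧ ∀ j : ℕ, n ≤ j → f.1 j = f.1 n)
    (R := fun n f f' => (∀ j : ℕ, j ≤ n → f'.1 j = f.1 j) ∧ ∀ i k : ℕ, Nat.pair i k = n →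
        (f'.1 (n + 1) ∈ (𝔻.1 (c f i, k)).1 ∨
          ∀ r : P, r ≤ f.1 n → ¬ r ∈ (𝔻.1 (c f i, k)).1)) hp hR
    (a₀ := ⟨fun _ => p, intF_const p⟩) ⟨fun _ _ _ => le_rfl, fun _ _ => rfl⟩ (by
      rintro n f ⟨h1, h2⟩
      by_cases hr : ∃ r : P, r ≤ f.1 n ∧ r ∈ (𝔻.1 (c f n.unpair.1, n.unpair.2)).1
      · obtain ⟨r, hr1, hr2⟩ := hr
        have hi : IntF 𝔐 (fun j : ℕ => if j ≤ n then f.1 j else r) :=
          intF_congr (fun j => by congr) (intF_ite (𝔐 := 𝔐) (p := fun j : ℕ => j ≤ n)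
            (f := f.1) (g := fun _ => r) (int_leF intF_id (intF_const n)) f.2 (intF_const r))
        refine ⟨⟨fun j : ℕ => if j ≤ n then f.1 j else r, hi⟩, ⟨?_, ?_⟩, ?_, ?_⟩
        · intro a b hab
          change (if b ≤ n then f.1 b else r) ≤ (if a ≤ n then f.1 a else r)
          by_cases hb : b ≤ n
          · have ha : a ≤ n := hab.trans hb
            rw [if_pos hb, if_pos ha]
            exact h1 a b hab
          · rw [if_neg hb]
            by_cases ha : a ≤ n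
            · rw [if_pos ha]
              exact hr1.trans (h1 a n ha)
            · rw [if_neg ha]
        · intro j hj
          change (if j ≤ n then f.1 j else r) = (if n + 1 ≤ n then f.1 (n + 1) else r)
          rw [if_neg (by omega), if_neg (by omega)]
        · intro j hj
          change (if j ≤ n then f.1 j else r) = f.1 j
          rw [if_pos hj]
        · intro i k hik
          left
          change (if n + 1 ≤ n then f.1 (n + 1) else r) ∈ (𝔻.1 (c f i, k)).1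
          rw [if_neg (by omega)]
          rw [← hik, Nat.unpair_pair] at hr2
          exact hr2
      · refine ⟨f, ⟨h1, ?_⟩, fun j _ => rfl, ?_⟩
        · intro j hj
          rw [h2 j (by omega), h2 (n + 1) (by omega)]
        · intro i k hik
          right
          intro r hr1 hr2
          refine hr ⟨r, hr1, ?_⟩
          rw [← hik, Nat.unpair_pair]
          exact hr2)
  have hstab : ∀ n m : ℕ, n ≤ m → (F m).1 n = (F n).1 n := by
    intro n m hnm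
    induction m, hnm using Nat.le_induction with
    | base => rfl
    | succ m hm ih => rw [(hFn m).2.1 n hm, ih]
  refine ⟨⟨fun n => (F n).1 n, intF_appF hF intF_id⟩, ?_, ?_, ?_⟩
  · change (F 0).1 0 ≤ p
    rw [hF0]
  · refine antitone_nat_of_succ_le fun n => ?_
    change (F (n + 1)).1 (n + 1) ≤ (F n).1 n
    rw [← hstab n (n + 1) (Nat.le_succ n)]
    exact (hFn (n + 1)).1.1 n (n + 1) (Nat.le_succ n)
  · intro n k f hf
    have hle' : n ≤ Nat.pair n k := Nat.left_le_pair n k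
    have hfc : f = c (F (Nat.pair n k)) n := by
      apply IFun.ext'
      intro i
      rw [hf, hc']
      exact (hstab (min i n) (Nat.pair n k) ((min_le_right i n).trans hle')).symm
    rcases (hFn (Nat.pair n k)).2.2 n k rfl with h | h
    · refine ⟨Nat.pair n k + 1, Or.inl ?_⟩
      rw [hfc]
      exact h
    · refine ⟨Nat.pair n k, Or.inr ?_⟩
      rw [hfc]
      exact h

/-- strategies from families of sets of conditions indexed by a type with an internal injection to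
`ℕ` -/
theorem exists_strat {ι : Type} [Cod 𝔐 ι] {cd : ι → ℕ} (hcd : IntF 𝔐 cd)
    (hinj : Function.Injective cd) {W : ι → IFun 𝔐 ℕ P → P → Prop}
    (hW : Int 𝔐 (fun q : (ι × IFun 𝔐 ℕ P) × P => W q.1.1 q.1.2 q.2)) :
    ∃ 𝔻 : Strat 𝔐 P, ∀ g : IFun 𝔐 ℕ P, GenI 𝔻 g → Antitone g.1 ∧
      ∀ (j : ι) (n : ℕ) (f : IFun 𝔐 ℕ P), (∀ i, f.1 i = g.1 (min i n)) →
        ∃ m, W j f (g.1 m) ∨ ∀ r ≤ g.1 m, ¬ W j f r := by
  have h1 : Int 𝔐 (fun q : (IFun 𝔐 ℕ P × ℕ) × P => ∃ j : ι, cd j = q.1.2 ∧ W j q.1.1 q.2) := by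
    refine int_ex (int_and ?_ ?_)
    · exact int_eqF (intF_comp hcd (intF_snd' intF_id)) (intF_snd' (intF_fst' (intF_fst' intF_id)))
    · exact int_comp2 (R := fun (a : ι × IFun 𝔐 ℕ P) (b : P) => W a.1 a.2 b) hW
        (intF_pair (intF_snd' intF_id) (intF_fst' (intF_fst' (intF_fst' intF_id))))
        (intF_snd' (intF_fst' intF_id))
  refine ⟨⟨mkS (R := fun (q : IFun 𝔐 ℕ P × ℕ) (r : P) => ∃ j : ι, cd j = q.2 ∧ W j q.1 r) h1,
    intF_mkS (R := fun (q : IFun 𝔐 ℕ P × ℕ) (r : P) => ∃ j : ι, cd j = q.2 ∧ W j q.1 r) h1⟩, ?_⟩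
  rintro g ⟨hg, hg'⟩
  refine ⟨hg, fun j n f hf => ?_⟩
  have key : ∀ r : P, r ∈ (mkS (R := fun (q : IFun 𝔐 ℕ P × ℕ) (r : P) =>
      ∃ j : ι, cd j = q.2 ∧ W j q.1 r) h1 (f, cd j)).1 ↔ W j f r := by
    intro r
    rw [mem_mkS]
    constructor
    · rintro ⟨j', h2, h3⟩
      rw [← hinj h2]
      exact h3
    · intro h2
      exact ⟨j, rfl, h2⟩
  obtain ⟨m, hm⟩ := hg' n (cd j) f hf
  refine ⟨m, ?_⟩
  rcases hm with hm | hm
  · exact Or.inl ((key _).1 hm)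
  · exact Or.inr fun r hr h2 => hm r hr ((key _).2 h2)

/-- `QI p C` -/
def QI (𝔐 : HM.{w}) [Cod 𝔐 P] (U : Filter (Finset ℕ)) (Z : Finset ℕ → Set P) (p : P)
    (C : Finset (Finset ℕ)) : Prop :=
  ∃ 𝔻 : Strat 𝔐 P, ∀ g : IFun 𝔐 ℕ P, GenI 𝔻 g → (∃ n, g.1 n ≤ p) →
    ¬ ∃ A' : IFun 𝔐 ℕ (Finset ℕ), BlkF A'.1 ∧ fu A'.1 ∈ U ∧ (∀ τ ∈ C, τ ∈ ValI Z g.1) ∧
      ∀ x ∈ fu A'.1, x ∈ ValI Z g.1 ∧ ∀ τ ∈ C, τ ∪ x ∈ ValI Z g.1

/-- `𝔻` is a witness for `QI p C` -/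
def QW (𝔐 : HM.{w}) [Cod 𝔐 P] (U : Filter (Finset ℕ)) (Z : Finset ℕ → Set P) (𝔻 : Strat 𝔐 P)
    (p : P) (C : Finset (Finset ℕ)) : Prop :=
  ∀ g : IFun 𝔐 ℕ P, GenI 𝔻 g → (∃ n, g.1 n ≤ p) →
    ¬ ∃ A' : IFun 𝔐 ℕ (Finset ℕ), BlkF A'.1 ∧ fu A'.1 ∈ U ∧ (∀ τ ∈ C, τ ∈ ValI Z g.1) ∧
      ∀ x ∈ fu A'.1, x ∈ ValI Z g.1 ∧ ∀ τ ∈ C, τ ∪ x ∈ ValI Z g.1

theorem int_GenI (hle : Int 𝔐 (fun q : P × P => q.1 ≤ q.2)) :
    Int 𝔐 (fun q : Strat 𝔐 P × IFun 𝔐 ℕ P => GenI q.1 q.2) := by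
  have hmin : IntF 𝔐 (fun q : ℕ × ℕ => min q.1 q.2) := by
    refine intF_congr (fun q => ?_) (intF_ite (𝔐 := 𝔐) (p := fun q : ℕ × ℕ => q.1 ≤ q.2)
      (f := fun q => q.1) (g := fun q => q.2) (int_leF intF_fst intF_snd) intF_fst intF_snd)
    by_cases h : q.1 ≤ q.2
    · simp [h]
    · have h' : q.2 ≤ q.1 := by omega
      simp [h, h']
  refine int_congr (p := fun q : Strat 𝔐 P × IFun 𝔐 ℕ P =>
    (∀ a b : ℕ, a ≤ b → q.2.1 b ≤ q.2.1 a) ∧ ∀ (n k : ℕ) (f : IFun 𝔐 ℕ P),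
      (∀ i : ℕ, f.1 i = q.2.1 (min i n)) → ∃ m : ℕ, q.2.1 m ∈ (q.1.1 (f, k)).1 ∨
        ∀ r : P, r ≤ q.2.1 m → ¬ r ∈ (q.1.1 (f, k)).1) (fun q => Iff.rfl) ?_
  refine int_and (int_all (int_all (int_imp ?_ ?_))) (int_all (int_all (int_all (int_imp
    (int_all ?_) (int_ex (int_or ?_ (int_all (int_imp ?_ (int_not ?_)))))))))
  · exact int_leF (intF_snd' (intF_fst' intF_id)) (intF_snd' intF_id)
  · exact int_comp2 (R := fun a b : P => a ≤ b) hle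
      (intF_appF (intF_snd' (intF_fst' (intF_fst' intF_id))) (intF_snd' intF_id))
      (intF_appF (intF_snd' (intF_fst' (intF_fst' intF_id))) (intF_snd' (intF_fst' intF_id)))
  · exact int_eqF (intF_appF (intF_snd' (intF_fst' intF_id)) (intF_snd' intF_id))
      (intF_appF (intF_snd' (intF_fst' (intF_fst' (intF_fst' (intF_fst' intF_id)))))
        (intF_comp2 (F := fun a b : ℕ => min a b) hmin (intF_snd' intF_id)
          (intF_snd' (intF_fst' (intF_fst' (intF_fst' intF_id))))))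
  · exact HMod.int_memF (intF_appF (intF_snd' (intF_fst' (intF_fst' (intF_fst' (intF_fst'
      intF_id))))) (intF_snd' intF_id))
      (intF_appF (intF_fst' (intF_fst' (intF_fst' (intF_fst' (intF_fst' intF_id)))))
        (intF_pair (intF_snd' (intF_fst' intF_id)) (intF_snd' (intF_fst' (intF_fst' intF_id)))))
  · exact int_comp2 (R := fun a b : P => a ≤ b) hle (intF_snd' intF_id)
      (intF_appF (intF_snd' (intF_fst' (intF_fst' (intF_fst' (intF_fst' (intF_fst' intF_id))))))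
        (intF_snd' (intF_fst' intF_id)))
  · exact HMod.int_memF (intF_snd' intF_id)
      (intF_appF (intF_fst' (intF_fst' (intF_fst' (intF_fst' (intF_fst' (intF_fst' intF_id))))))
        (intF_pair (intF_snd' (intF_fst' (intF_fst' intF_id)))
          (intF_snd' (intF_fst' (intF_fst' (intF_fst' intF_id))))))

theorem int_ValI (hZ : Int 𝔐 (fun q : Finset ℕ × P => q.2 ∈ Z q.1)) :
    Int 𝔐 (fun q : IFun 𝔐 ℕ P × Finset ℕ => q.2 ∈ ValI Z q.1.1) := by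
  refine int_congr (p := fun q : IFun 𝔐 ℕ P × Finset ℕ => ∃ n : ℕ, q.1.1 n ∈ Z q.2)
    (fun q => Iff.rfl) (int_ex ?_)
  exact int_comp2 (R := fun (a : Finset ℕ) (b : P) => b ∈ Z a) hZ (intF_snd' (intF_fst' intF_id))
    (intF_appF (intF_fst' (intF_fst' intF_id)) (intF_snd' intF_id))

theorem int_QW (hle : Int 𝔐 (fun q : P × P => q.1 ≤ q.2)) (hU : IsSOUi 𝔐 U)
    (hZ : Int 𝔐 (fun q : Finset ℕ × P => q.2 ∈ Z q.1)) :
    Int 𝔐 (fun x : Strat 𝔐 P × P × Finset (Finset ℕ) => QW 𝔐 U Z x.1 x.2.1 x.2.2) := by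
  have hV := int_ValI (𝔐 := 𝔐) hZ
  have hfuU : Int 𝔐 (fun A : IFun 𝔐 ℕ (Finset ℕ) => fu A.1 ∈ U) :=
    int_eventually hU.fil (R := fun (A : IFun 𝔐 ℕ (Finset ℕ)) (b : Finset ℕ) => b ∈ fu A.1)
      int_fu_rel
  refine int_congr (p := fun x : Strat 𝔐 P × P × Finset (Finset ℕ) =>
    ∀ g : IFun 𝔐 ℕ P, GenI x.1 g → (∃ n : ℕ, g.1 n ≤ x.2.1) →
    ¬ ∃ A' : IFun 𝔐 ℕ (Finset ℕ), BlkF A'.1 ∧ fu A'.1 ∈ U ∧
      (∀ τ : Finset ℕ, τ ∈ x.2.2 → τ ∈ ValI Z g.1) ∧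
      ∀ y : Finset ℕ, y ∈ fu A'.1 → (y ∈ ValI Z g.1 ∧
        ∀ τ : Finset ℕ, τ ∈ x.2.2 → τ ∪ y ∈ ValI Z g.1)) (fun q => Iff.rfl) ?_
  refine int_all (int_imp ?_ (int_imp (int_ex ?_) (int_not (int_ex (int_and ?_ (int_and ?_
    (int_and (int_all (int_imp ?_ ?_)) (int_all (int_imp ?_ (int_and ?_
      (int_all (int_imp ?_ ?_))))))))))))
  · exact int_comp2 (R := fun (a : Strat 𝔐 P) (b : IFun 𝔐 ℕ P) => GenI a b) (int_GenI hle)
      (intF_fst' (intF_fst' intF_id)) (intF_snd' intF_id)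
  · exact int_comp2 (R := fun a b : P => a ≤ b) hle
      (intF_appF (intF_snd' (intF_fst' intF_id)) (intF_snd' intF_id))
      (intF_fst' (intF_snd' (intF_fst' (intF_fst' intF_id))))
  · exact int_comp (p := fun A : IFun 𝔐 ℕ (Finset ℕ) => BlkF A.1) int_blkF (intF_snd' intF_id)
  · exact int_comp (p := fun A : IFun 𝔐 ℕ (Finset ℕ) => fu A.1 ∈ U) hfuU (intF_snd' intF_id)
  · exact int_comp2 (R := fun (a : Finset ℕ) (b : Finset (Finset ℕ)) => a ∈ b) StdF.memF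
      (intF_snd' intF_id) (intF_snd' (intF_snd' (intF_fst' (intF_fst' (intF_fst' intF_id)))))
  · exact int_comp2 (R := fun (g : IFun 𝔐 ℕ P) (b : Finset ℕ) => b ∈ ValI Z g.1) hV
      (intF_snd' (intF_fst' (intF_fst' intF_id))) (intF_snd' intF_id)
  · exact int_comp2 (R := fun (A : IFun 𝔐 ℕ (Finset ℕ)) (b : Finset ℕ) => b ∈ fu A.1)
      int_fu_rel (intF_snd' (intF_fst' intF_id)) (intF_snd' intF_id)
  · exact int_comp2 (R := fun (g : IFun 𝔐 ℕ P) (b : Finset ℕ) => b ∈ ValI Z g.1) hV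
      (intF_snd' (intF_fst' (intF_fst' intF_id))) (intF_snd' intF_id)
  · exact int_comp2 (R := fun (a : Finset ℕ) (b : Finset (Finset ℕ)) => a ∈ b) StdF.memF
      (intF_snd' intF_id)
      (intF_snd' (intF_snd' (intF_fst' (intF_fst' (intF_fst' (intF_fst' intF_id))))))
  · exact int_comp2 (R := fun (g : IFun 𝔐 ℕ P) (b : Finset ℕ) => b ∈ ValI Z g.1) hV
      (intF_snd' (intF_fst' (intF_fst' (intF_fst' intF_id))))
      (intF_union (intF_snd' intF_id) (intF_snd' (intF_fst' intF_id)))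

theorem int_QI (hle : Int 𝔐 (fun q : P × P => q.1 ≤ q.2)) (hU : IsSOUi 𝔐 U)
    (hZ : Int 𝔐 (fun q : Finset ℕ × P => q.2 ∈ Z q.1)) :
    Int 𝔐 (fun x : P × Finset (Finset ℕ) => QI 𝔐 U Z x.1 x.2) := by
  refine int_congr (p := fun x : P × Finset (Finset ℕ) => ∃ 𝔻 : Strat 𝔐 P, QW 𝔐 U Z 𝔻 x.1 x.2)
    (fun x => Iff.rfl) (int_ex ?_)
  exact int_comp3 (R := fun (a : Strat 𝔐 P) (b : P) (c : Finset (Finset ℕ)) => QW 𝔐 U Z a b c)
    (int_QW hle hU hZ) (intF_snd' intF_id) (intF_fst' (intF_fst' intF_id))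
    (intF_snd' (intF_fst' intF_id))

/-- the second rule -/
theorem qi_step (hle : Int 𝔐 (fun q : P × P => q.1 ≤ q.2)) (hU : IsSOUi 𝔐 U)
    (hZ : Int 𝔐 (fun q : Finset ℕ × P => q.2 ∈ Z q.1)) {q : P}
    {C : Finset (Finset ℕ)} {S : Set (Finset ℕ)} (hSU : S ∈ U)
    (hS : ∀ b ∈ S, ∀ r ≤ q, ∃ r' ≤ r, QI 𝔐 U Z r' (extC C b)) : QI 𝔐 U Z q C := by
  obtain ⟨c, hc, hc'⟩ := intF_cutG (𝔐 := 𝔐) (P := P)
  have : Nonempty (Strat 𝔐 P) := ⟨⟨fun _ => ⟨∅, int_const False⟩, intF_const _⟩⟩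
  have hrel : Int 𝔐 (fun x : (P × Finset ℕ) × Strat 𝔐 P => QW 𝔐 U Z x.2 x.1.1 (extC C x.1.2)) :=
    int_comp3 (R := fun (a : Strat 𝔐 P) (b : P) (c : Finset (Finset ℕ)) => QW 𝔐 U Z a b c)
      (int_QW hle hU hZ) (intF_snd' intF_id) (intF_fst' (intF_fst' intF_id))
      (intF_extCi (intF_const C) (intF_snd' (intF_fst' intF_id)))
  obtain ⟨dd, hdd, hdd'⟩ := int_choice' (𝔐 := 𝔐)
    (R := fun (x : P × Finset ℕ) (𝔻 : Strat 𝔐 P) => QW 𝔐 U Z 𝔻 x.1 (extC C x.2)) hrel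
  have hW1 : Int 𝔐 (fun x : ((Bool × ℕ × ℕ × ℕ × Finset ℕ) × IFun 𝔐 ℕ P) × P =>
      x.2 ∈ ((dd (x.1.2.1 x.1.1.2.1, x.1.1.2.2.2.2)).1
        (c x.1.2 x.1.1.2.2.1, x.1.1.2.2.2.1)).1) := by
    refine HMod.int_memF (intF_snd' intF_id) (intF_appF (intF_comp hdd (intF_pair
      (intF_appF (intF_snd' (intF_fst' intF_id)) (intF_fst' (intF_snd' (intF_fst' (intF_fst'
        intF_id)))))
      (intF_snd' (intF_snd' (intF_snd' (intF_snd' (intF_fst' (intF_fst' intF_id)))))))) (intF_pair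
        (intF_comp2 (F := fun (a : IFun 𝔐 ℕ P) (b : ℕ) => c a b) hc
          (intF_snd' (intF_fst' intF_id))
          (intF_fst' (intF_snd' (intF_snd' (intF_fst' (intF_fst' intF_id))))))
        (intF_fst' (intF_snd' (intF_snd' (intF_snd' (intF_fst' (intF_fst' intF_id))))))))
  have hW2 : Int 𝔐 (fun x : ((Bool × ℕ × ℕ × ℕ × Finset ℕ) × IFun 𝔐 ℕ P) × P =>
      QI 𝔐 U Z x.2 (extC C x.1.1.2.2.2.2)) :=
    int_comp2 (R := fun (a : P) (b : Finset (Finset ℕ)) => QI 𝔐 U Z a b) (int_QI hle hU hZ)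
      (intF_snd' intF_id) (intF_extCi (intF_const C)
        (intF_snd' (intF_snd' (intF_snd' (intF_snd' (intF_fst' (intF_fst' intF_id)))))))
  have hW : Int 𝔐 (fun x : ((Bool × ℕ × ℕ × ℕ × Finset ℕ) × IFun 𝔐 ℕ P) × P =>
      (x.1.1.1 = true ∧ x.2 ∈ ((dd (x.1.2.1 x.1.1.2.1, x.1.1.2.2.2.2)).1
        (c x.1.2 x.1.1.2.2.1, x.1.1.2.2.2.1)).1) ∨
      (x.1.1.1 = false ∧ QI 𝔐 U Z x.2 (extC C x.1.1.2.2.2.2))) := by
    refine int_or (int_and ?_ hW1) (int_and ?_ hW2)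
    · exact int_eqF (intF_fst' (intF_fst' (intF_fst' intF_id))) (intF_const true)
    · exact int_eqF (intF_fst' (intF_fst' (intF_fst' intF_id))) (intF_const false)
  obtain ⟨𝔻, h𝔻⟩ := exists_strat (𝔐 := 𝔐) (P := P) (ι := Bool × ℕ × ℕ × ℕ × Finset ℕ)
    (cd := BL.code.{w}) (BL.int.{w} 𝔐) BL.inj.{w}
    (W := fun j f r => (j.1 = true ∧ r ∈ ((dd (f.1 j.2.1, j.2.2.2.2)).1
        (c f j.2.2.1, j.2.2.2.1)).1) ∨ (j.1 = false ∧ QI 𝔐 U Z r (extC C j.2.2.2.2))) hW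
  refine ⟨𝔻, ?_⟩
  rintro g hg ⟨n₀, hn₀⟩ ⟨A', hA', hfu, hCv, hxv⟩
  obtain ⟨hanti, hdec⟩ := h𝔻 g hg
  have := hU.ne
  obtain ⟨b, hbA, hbS⟩ := Filter.nonempty_of_mem (Filter.inter_mem hfu hSU)
  obtain ⟨m, hm⟩ := hdec (false, 0, 0, 0, b) 0 (c g 0) (hc' g 0)
  have hmE : QI 𝔐 U Z (g.1 m) (extC C b) := by
    rcases hm with (⟨h, _⟩ | ⟨_, h⟩) | h
    · exact absurd h (by simp)
    · exact h
    · exfalso
      obtain ⟨r', hr', hq'⟩ := hS b hbS (g.1 (max m n₀)) ((hanti (le_max_right m n₀)).trans hn₀)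
      exact h r' (hr'.trans (hanti (le_max_left m n₀))) (Or.inr ⟨rfl, hq'⟩)
  have hwit := hdd' (g.1 m, b) hmE
  have hgen : GenI (dd (g.1 m, b)) g := by
    refine ⟨hanti, fun n k f hf => ?_⟩
    obtain ⟨m', hm'⟩ := hdec (true, m, n, k, b) (max m n) (c g (max m n)) (hc' g (max m n))
    have e1 : (c g (max m n)).1 m = g.1 m := by
      rw [hc', min_eq_left (le_max_left m n)]
    have e2 : c (c g (max m n)) n = f := by
      apply IFun.ext'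
      intro i
      rw [hc', hc', hf]
      rw [min_eq_left ((min_le_right i n).trans (le_max_right m n))]
    refine ⟨m', ?_⟩
    have key : ∀ r : P, (((true, m, n, k, b) : Bool × ℕ × ℕ × ℕ × Finset ℕ).1 = true ∧
        r ∈ ((dd ((c g (max m n)).1 m, b)).1 (c (c g (max m n)) n, k)).1 ∨
        ((true, m, n, k, b) : Bool × ℕ × ℕ × ℕ × Finset ℕ).1 = false ∧
          QI 𝔐 U Z r (extC C b)) ↔ r ∈ ((dd (g.1 m, b)).1 (f, k)).1 := by
      intro r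
      rw [e1, e2]
      simp
    rcases hm' with h | h
    · exact Or.inl ((key _).1 h)
    · exact Or.inr fun r hr h2 => h r hr ((key r).2 h2)
  refine hwit g hgen ⟨m, le_rfl⟩ ⟨A', hA', hfu, ?_, ?_⟩
  · intro τ hτ
    have hτ' : τ ∈ extC C b := hτ
    unfold extC at hτ'
    rcases Finset.mem_union.1 hτ' with h | h
    · rcases Finset.mem_union.1 h with h | h
      · exact hCv τ h
      · rw [Finset.mem_singleton.1 h]
        exact (hxv b hbA).1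
    · obtain ⟨σ, hσ, rfl⟩ := Finset.mem_image.1 h
      exact (hxv b hbA).2 σ hσ
  · intro x hx
    refine ⟨(hxv x hx).1, ?_⟩
    intro τ hτ
    have hτ' : τ ∈ extC C b := hτ
    unfold extC at hτ'
    rcases Finset.mem_union.1 hτ' with h | h
    · rcases Finset.mem_union.1 h with h | h
      · exact (hxv x hx).2 τ h
      · rw [Finset.mem_singleton.1 h]
        exact (hxv _ (fu_union hbA hx)).1
    · obtain ⟨σ, hσ, rfl⟩ := Finset.mem_image.1 h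
      rw [Finset.union_assoc]
      exact (hxv _ (fu_union hbA hx)).2 σ hσ

theorem fail_QI (hle : Int 𝔐 (fun q : P × P => q.1 ≤ q.2)) (hU : IsSOUi 𝔐 U)
    (hZ : Int 𝔐 (fun q : Finset ℕ × P => q.2 ∈ Z q.1)) (hZo : OpenName Z) {p : P}
    {C : Finset (Finset ℕ)} (h : FailI 𝔐 U Z p C) : ∃ p' ≤ p, QI 𝔐 U Z p' C := by
  refine failI_induct (fun p C => ∃ p' : P, p' ≤ p ∧ QI 𝔐 U Z p' C) ?_ ?_ h
  · refine int_ex (int_and ?_ ?_)
    · exact int_comp2 (R := fun a b : P => a ≤ b) hle (intF_snd' intF_id)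
        (intF_fst' (intF_fst' intF_id))
    · exact int_comp2 (R := fun (a : P) (b : Finset (Finset ℕ)) => QI 𝔐 U Z a b)
        (int_QI hle hU hZ) (intF_snd' intF_id) (intF_snd' (intF_fst' intF_id))
  · constructor
    · intro p q C τ hq hτ hfr
      refine ⟨q, hq, ⟨fun _ => ⟨∅, int_const False⟩, intF_const _⟩, ?_⟩
      rintro g ⟨hg, _⟩ ⟨n, hn⟩ ⟨A', _, _, h1, _⟩
      obtain ⟨m, hm⟩ := h1 τ hτ
      exact hfr (g.1 (max m n)) ((hg (le_max_right m n)).trans hn)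
        (hZo τ (g.1 m) hm _ (hg (le_max_left m n)))
    · intro p q C S hq _ hSU hb
      exact ⟨q, hq, qi_step hle hU hZ hSU hb⟩

theorem dichotomy_i (hle : Int 𝔐 (fun q : P × P => q.1 ≤ q.2)) (hU : IsSOUi 𝔐 U)
    (hZ : Int 𝔐 (fun q : Finset ℕ × P => q.2 ∈ Z q.1)) (hZo : OpenName Z) (p : P) :
    ∃ r ≤ p, HHI 𝔐 U Z r ∅ ∨ HHI 𝔐 U (compl' Z) r ∅ := by
  by_contra hcon
  have hf1 : ∀ r ≤ p, FailI 𝔐 U Z r ∅ := by
    intro r hr
    by_contra h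
    exact hcon ⟨r, hr, Or.inl h⟩
  have hf2 : ∀ r ≤ p, FailI 𝔐 U (compl' Z) r ∅ := by
    intro r hr
    by_contra h
    exact hcon ⟨r, hr, Or.inr h⟩
  have hZc := int_compl (𝔐 := 𝔐) hle hZ
  obtain ⟨p₁, hp₁, 𝔻₁, h𝔻₁⟩ := fail_QI hle hU hZ hZo (hf1 p le_rfl)
  obtain ⟨p₂, hp₂, 𝔻₂, h𝔻₂⟩ := fail_QI hle hU hZc openName_compl (hf2 p₁ hp₁)
  have hW : Int 𝔐 (fun x : ((Bool × Bool × ℕ × Finset ℕ) × IFun 𝔐 ℕ P) × P =>
      (x.1.1.1 = true ∧ x.1.1.2.1 = true ∧ x.2 ∈ (𝔻₁.1 (x.1.2, x.1.1.2.2.1)).1) ∨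
      (x.1.1.1 = true ∧ x.1.1.2.1 = false ∧ x.2 ∈ (𝔻₂.1 (x.1.2, x.1.1.2.2.1)).1) ∨
      (x.1.1.1 = false ∧ (x.2 ∈ Z x.1.1.2.2.2 ∨ x.2 ∈ compl' Z x.1.1.2.2.2))) := by
    refine int_or (int_and ?_ (int_and ?_ ?_)) (int_or (int_and ?_ (int_and ?_ ?_))
      (int_and ?_ (int_or ?_ ?_)))
    · exact int_eqF (intF_fst' (intF_fst' (intF_fst' intF_id))) (intF_const true)
    · exact int_eqF (intF_fst' (intF_snd' (intF_fst' (intF_fst' intF_id)))) (intF_const true)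
    · exact HMod.int_memF (intF_snd' intF_id) (intF_comp 𝔻₁.2 (intF_pair
        (intF_snd' (intF_fst' intF_id))
        (intF_fst' (intF_snd' (intF_snd' (intF_fst' (intF_fst' intF_id)))))))
    · exact int_eqF (intF_fst' (intF_fst' (intF_fst' intF_id))) (intF_const true)
    · exact int_eqF (intF_fst' (intF_snd' (intF_fst' (intF_fst' intF_id)))) (intF_const false)
    · exact HMod.int_memF (intF_snd' intF_id) (intF_comp 𝔻₂.2 (intF_pair
        (intF_snd' (intF_fst' intF_id))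
        (intF_fst' (intF_snd' (intF_snd' (intF_fst' (intF_fst' intF_id)))))))
    · exact int_eqF (intF_fst' (intF_fst' (intF_fst' intF_id))) (intF_const false)
    · exact int_comp2 (R := fun (a : Finset ℕ) (b : P) => b ∈ Z a) hZ
        (intF_snd' (intF_snd' (intF_snd' (intF_fst' (intF_fst' intF_id))))) (intF_snd' intF_id)
    · exact int_comp2 (R := fun (a : Finset ℕ) (b : P) => b ∈ compl' Z a) hZc
        (intF_snd' (intF_snd' (intF_snd' (intF_fst' (intF_fst' intF_id))))) (intF_snd' intF_id)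
  obtain ⟨𝔻, h𝔻⟩ := exists_strat (𝔐 := 𝔐) (P := P) (ι := Bool × Bool × ℕ × Finset ℕ)
    (cd := BL.code.{w}) (BL.int.{w} 𝔐) BL.inj.{w}
    (W := fun j f r => (j.1 = true ∧ j.2.1 = true ∧ r ∈ (𝔻₁.1 (f, j.2.2.1)).1) ∨
      (j.1 = true ∧ j.2.1 = false ∧ r ∈ (𝔻₂.1 (f, j.2.2.1)).1) ∨
      (j.1 = false ∧ (r ∈ Z j.2.2.2 ∨ r ∈ compl' Z j.2.2.2))) hW
  obtain ⟨g, hg0, hg⟩ := exists_genI (𝔐 := 𝔐) hle 𝔻 p₂
  obtain ⟨hanti, hdec⟩ := h𝔻 g hg
  have hg1 : GenI 𝔻₁ g := by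
    refine ⟨hanti, fun n k f hf => ?_⟩
    obtain ⟨m, hm⟩ := hdec (true, true, k, ∅) n f hf
    refine ⟨m, ?_⟩
    rcases hm with h | h
    · left
      simpa using h
    · right
      intro r hr h2
      exact h r hr (Or.inl ⟨rfl, rfl, h2⟩)
  have hg2 : GenI 𝔻₂ g := by
    refine ⟨hanti, fun n k f hf => ?_⟩
    obtain ⟨m, hm⟩ := hdec (true, false, k, ∅) n f hf
    refine ⟨m, ?_⟩
    rcases hm with h | h
    · left
      simpa using h
    · right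
      intro r hr h2
      exact h r hr (Or.inr (Or.inl ⟨rfl, rfl, h2⟩))
  obtain ⟨c, hc, hc'⟩ := intF_cutG (𝔐 := 𝔐) (P := P)
  have hg3 : ∀ b : Finset ℕ, ∃ m, g.1 m ∈ Z b ∨ g.1 m ∈ compl' Z b := by
    intro b
    obtain ⟨m, hm⟩ := hdec (false, false, 0, b) 0 (c g 0) (hc' g 0)
    refine ⟨m, ?_⟩
    rcases hm with h | h
    · simpa using h
    · exfalso
      by_cases h1 : g.1 m ∈ compl' Z b
      · exact h (g.1 m) le_rfl (Or.inr (Or.inr ⟨rfl, Or.inr h1⟩))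
      · have h2 : ∃ t ≤ g.1 m, t ∈ Z b := by
          by_contra h3
          exact h1 fun t ht htz => h3 ⟨t, ht, htz⟩
        obtain ⟨t, ht, htz⟩ := h2
        exact h t ht (Or.inr (Or.inr ⟨rfl, Or.inl htz⟩))
  have hXi : Int 𝔐 (fun b : Finset ℕ => b ∈ ValI Z g.1) :=
    int_comp2 (R := fun (g : IFun 𝔐 ℕ P) (b : Finset ℕ) => b ∈ ValI Z g.1) (int_ValI hZ)
      (intF_const g) intF_id
  rcases hU.ultra (ValI Z g.1) hXi with h | h
  · obtain ⟨A, hAi, hA, hfu, hsub⟩ := hU.base _ h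
    refine h𝔻₁ g hg1 ⟨0, hg0.trans hp₂⟩ ⟨⟨A, hAi⟩, hA, hfu, ?_, ?_⟩
    · intro τ hτ
      exact absurd hτ (Finset.notMem_empty τ)
    · intro x hx
      exact ⟨hsub hx, fun τ hτ => absurd hτ (Finset.notMem_empty τ)⟩
  · obtain ⟨A, hAi, hA, hfu, hsub⟩ := hU.base _ h
    refine h𝔻₂ g hg2 ⟨0, hg0⟩ ⟨⟨A, hAi⟩, hA, hfu, ?_, ?_⟩
    · intro τ hτ
      exact absurd hτ (Finset.notMem_empty τ)
    · intro x hx
      refine ⟨?_, fun τ hτ => absurd hτ (Finset.notMem_empty τ)⟩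
      obtain ⟨m, hm | hm⟩ := hg3 x
      · exact absurd (show x ∈ ValI Z g.1 from ⟨m, hm⟩) (hsub hx)
      · exact ⟨m, hm⟩

end Pool.Agent.SOUg
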