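import Pool.Agent.Lib_MP_a0d45a_int.UTaili
import Pool.Agent.Lib_MP_a0d45a_lc.UGap

/-!
# Piece UGAPI (port of `Lib_MP_a0d45a_lc/UGap.lean`)

The proof is the one of the file `UGap.lean` (parity argument); the sequence `a` is internal by `int_rec'`, the
sets `N b` are `{k : b meets [a k, a (k+1))}`: take `N b` as a finite set of numbers bounded by `mx b + 1`, so that `b ↦ N b` is internal
(its graph is definable from membership).
-/

set_option autoImplicit false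

namespace Pool.Agent.SOUi

open Pool.Agent.SOU Pool.Agent.HMod

universe w

section Aux

variable {𝔐 : HM.{w}} [StdF 𝔐] {α : Type*} [Cod 𝔐 α]

theorem ugi_add {f g : α → ℕ} (hf : IntF 𝔐 f) (hg : IntF 𝔐 g) : IntF 𝔐 (fun a => f a + g a) :=
  intF_comp2 (F := fun m n : ℕ => m + n) StdF.add hf hg

theorem ugi_mem {f : α → ℕ} {g : α → Finset ℕ} (hf : IntF 𝔐 f) (hg : IntF 𝔐 g) :
    Int 𝔐 (fun a => f a ∈ g a) := int_comp2 (R := fun (i : ℕ) (b : Finset ℕ) => i ∈ b) StdF.mem hf hg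

theorem ugi_sum {h : ℕ → ℕ} (hh : IntF 𝔐 h) :
    IntF 𝔐 (fun n : ℕ => ∑ i ∈ Finset.range (n + 1), h i) := by
  refine int_rec_of (g := fun n y => y + h (n + 1)) ?_ fun n => Finset.sum_range_succ h (n + 1)
  exact ugi_add intF_snd (intF_comp hh (intF_comp intF_succ intF_fst))

theorem ugi_H {h : ℕ → ℕ} (hh : IntF 𝔐 h) : IntF 𝔐 (ugH h) :=
  ugi_add intF_succ (ugi_sum hh)

theorem ugi_A {h : ℕ → ℕ} (hh : IntF 𝔐 h) : IntF 𝔐 (ugA h) := by
  refine int_rec_of (g := fun _ y => ugH h y) ?_ fun n => rfl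
  exact intF_comp (ugi_H hh) intF_snd

theorem ugi_I {h : ℕ → ℕ} (hh : IntF 𝔐 h) : IntF 𝔐 (ugI h) := by
  refine intF_of_graph (R := fun i k : ℕ => ugA h k ≤ i ∧ i < ugA h (k + 1)) ?_ ?_
  · exact int_and (int_leF (intF_comp (ugi_A hh) intF_snd) intF_fst)
      (int_ltF intF_fst (intF_comp (ugi_A hh) (intF_comp intF_succ intF_snd)))
  · intro i k
    constructor
    · rintro ⟨h1, h2⟩
      have h3 := ugI_ge h h1
      have h4 := (ugA_strict h).lt_iff_lt.1 ((ugI_le h i).trans_lt h2)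
      omega
    · rintro rfl
      exact ⟨ugI_le h i, ugI_lt h i⟩

/-- images of finite sets of numbers under an internal function -/
theorem ugi_image {f : ℕ → ℕ} (hf : IntF 𝔐 f) : IntF 𝔐 (fun b : Finset ℕ => b.image f) := by
  refine intF_of_graph (R := fun b c : Finset ℕ => ∀ k : ℕ, (∃ i : ℕ, i ∈ b ∧ f i = k) ↔ k ∈ c)
    ?_ ?_
  · refine int_all (int_iff (int_ex (int_and ?_ ?_)) ?_)
    · exact ugi_mem intF_snd (intF_fst' (intF_fst' intF_fst))
    · exact int_eqF (intF_comp hf intF_snd) (intF_snd' intF_fst)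
    · exact ugi_mem intF_snd (intF_snd' intF_fst)
  · intro b c
    constructor
    · intro h
      ext k
      rw [Finset.mem_image]
      exact h k
    · rintro rfl k
      rw [Finset.mem_image]

theorem ugi_adj : IntF 𝔐 ugAdj := by
  refine intF_of_graph (R := fun b c : Finset ℕ => ∀ k : ℕ, (k ∈ b ∧ k + 1 ∈ b) ↔ k ∈ c) ?_ ?_
  · refine int_all (int_iff (int_and ?_ ?_) ?_)
    · exact ugi_mem intF_snd (intF_fst' intF_fst)
    · exact ugi_mem (intF_comp intF_succ intF_snd) (intF_fst' intF_fst)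
    · exact ugi_mem intF_snd (intF_snd' intF_fst)
  · intro b c
    constructor
    · intro h
      ext k
      rw [ugAdj, Finset.mem_filter]
      exact h k
    · rintro rfl k
      rw [ugAdj, Finset.mem_filter]

theorem ugi_even {f : α → Finset ℕ} (hf : IntF 𝔐 f) : Int 𝔐 (fun a => Even (f a).card) :=
  int_ex (R := fun (a : α) (r : ℕ) => (f a).card = r + r)
    (int_eqF (intF_comp StdF.card (intF_comp hf intF_fst)) (ugi_add intF_snd intF_snd))

end Aux

/-- the same for the ultrafilters of the model that are only assumed to have a base of sets `⟨A⟩`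
(`stable` is not used in the proof): this is the form needed for generated ultrafilters -/
theorem gap_lemma_base {𝔐 : HM.{w}} [StdF 𝔐] {U : Filter (Finset ℕ)} (fil : IsIFil 𝔐 U)
    (ne : U.NeBot)
    (ultra : ∀ S : Set (Finset ℕ), Int 𝔐 (fun b => b ∈ S) → S ∈ U ∨ Sᶜ ∈ U)
    (base : ∀ S ∈ U, ∃ A, IntF 𝔐 A ∧ BlkF A ∧ fu A ∈ U ∧ fu A ⊆ S) {h : ℕ → ℕ}
    (hh : IntF 𝔐 h) {S : Set (Finset ℕ)} (hS : S ∈ U) :
    ∃ A, IntF 𝔐 A ∧ BlkF A ∧ fu A ∈ U ∧ fu A ⊆ S ∧
      ∀ n, ∀ i ∈ A n, ∀ j ∈ A (n + 1), h i < j := by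
  classical
  let N : Finset ℕ → Finset ℕ := fun b => b.image (ugI h)
  have hNi : IntF 𝔐 N := ugi_image (ugi_I hh)
  have hdec : ∀ p : Finset ℕ → Prop, Int 𝔐 p → ∃ T ∈ U, (∀ b ∈ T, p b) ∨ (∀ b ∈ T, ¬ p b) := by
    intro p hp
    rcases ultra {b | p b} hp with h1 | h1
    · exact ⟨{b | p b}, h1, Or.inl fun b hb => hb⟩
    · exact ⟨{b | p b}ᶜ, h1, Or.inr fun b hb => hb⟩
  obtain ⟨T1, hT1, hT1'⟩ := hdec (fun b => Even (N b).card) (ugi_even hNi)
  obtain ⟨T2, hT2, hT2'⟩ := hdec (fun b => Even (ugAdj (N b)).card)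
    (ugi_even (intF_comp ugi_adj hNi))
  have hT : S ∩ (T1 ∩ T2) ∈ U := Filter.inter_mem hS (Filter.inter_mem hT1 hT2)
  obtain ⟨A, hAi, hA, hAU, hAS⟩ := base _ hT
  have hNu : ∀ b c : Finset ℕ, N (b ∪ c) = N b ∪ N c := fun b c => Finset.image_union _ _
  -- a far element
  obtain ⟨n, hn⟩ : ∃ n, ∀ x ∈ N (A 0), ∀ y ∈ N (A n), x + 1 < y := by
    refine ⟨ugA h (ugI h (mx (A 0)) + 2), ?_⟩
    intro x hx y hy
    obtain ⟨i, hi, rfl⟩ := Finset.mem_image.1 hx
    obtain ⟨j, hj, rfl⟩ := Finset.mem_image.1 hy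
    have h1 := ugI_mono h (le_mx hi)
    have h2 := ugI_ge h (hA.ge _ j hj)
    omega
  have m0 := self_mem_fu A 0
  have mn' := self_mem_fu A n
  have mu := fu_union m0 mn'
  have e1 : ∀ b ∈ fu A, Even (N b).card := by
    rcases hT1' with h1 | h1
    · exact fun b hb => h1 b (hAS hb).2.1
    · exfalso
      have a1 := h1 _ (hAS m0).2.1
      have a2 := h1 _ (hAS mn').2.1
      have a3 := h1 _ (hAS mu).2.1
      rw [hNu, ug_card_far (fun x hx y hy => by have := hn x hx y hy; omega)] at a3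
      rw [Nat.not_even_iff_odd] at a1 a2
      exact a3 (a1.add_odd a2)
  have e2 : ∀ b ∈ fu A, Even (ugAdj (N b)).card := by
    rcases hT2' with h1 | h1
    · exact fun b hb => h1 b (hAS hb).2.2
    · exfalso
      have a1 := h1 _ (hAS m0).2.2
      have a2 := h1 _ (hAS mn').2.2
      have a3 := h1 _ (hAS mu).2.2
      rw [hNu, ug_adj_far hn] at a3
      rw [Nat.not_even_iff_odd] at a1 a2
      exact a3 (a1.add_odd a2)
  refine ⟨A, hAi, hA, hAU, fun b hb => (hAS hb).1, ?_⟩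
  intro n i hi j hj
  have k1 := self_mem_fu A n
  have k2 := self_mem_fu A (n + 1)
  have k3 := fu_union k1 k2
  have hbe := hA.lt n
  have hle : ∀ x ∈ N (A n), ∀ y ∈ N (A (n + 1)), x ≤ y := by
    intro x hx y hy
    obtain ⟨i, hi, rfl⟩ := Finset.mem_image.1 hx
    obtain ⟨j, hj, rfl⟩ := Finset.mem_image.1 hy
    exact ugI_mono h (hbe i hi j hj).le
  have hlt : ∀ x ∈ N (A n), ∀ y ∈ N (A (n + 1)), x < y := by
    intro x hx y hy
    refine lt_of_le_of_ne (hle x hx y hy) ?_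
    rintro rfl
    have a1 := e1 _ k1
    have a2 := e1 _ k2
    have a3 := e1 _ k3
    have a4 := ug_card_meet hle hx hy
    rw [hNu] at a3
    have a5 := a1.add a2
    rw [← a4] at a5
    exact (Nat.not_even_iff_odd.2 a3.add_one) a5
  have hmi : ugI h i ∈ N (A n) := Finset.mem_image_of_mem _ hi
  have hmj : ugI h j ∈ N (A (n + 1)) := Finset.mem_image_of_mem _ hj
  have h1 := hlt _ hmi _ hmj
  refine ugI_gap h ?_
  by_contra hc
  have h2 : ugI h j = ugI h i + 1 := by omega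
  rw [h2] at hmj
  have a1 := e2 _ k1
  have a2 := e2 _ k2
  have a3 := e2 _ k3
  rw [hNu, ug_adj_next hlt hmi hmj] at a3
  exact (Nat.not_even_iff_odd.2 (a1.add a2).add_one) a3

theorem gap_lemma_i {𝔐 : HM.{w}} [StdF 𝔐] {U : Filter (Finset ℕ)} (hU : IsSOUi 𝔐 U) {h : ℕ → ℕ}
    (hh : IntF 𝔐 h) {S : Set (Finset ℕ)} (hS : S ∈ U) :
    ∃ A, IntF 𝔐 A ∧ BlkF A ∧ fu A ∈ U ∧ fu A ⊆ S ∧
      ∀ n, ∀ i ∈ A n, ∀ j ∈ A (n + 1), h i < j :=
  gap_lemma_base hU.fil hU.ne hU.ultra hU.base hh hS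

end Pool.Agent.SOUi
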