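import Pool.Agent.Lib_MP_a0d45a_int.USFi
import Pool.Agent.Lib_MP_a0d45a_int.UGapi

/-!
# Piece FDIAGI (port of `Lib_MP_a0d45a_lc/FDiag.lean`)
-/

set_option autoImplicit false

namespace Pool.Agent.SOUi

open Pool.Agent.SOU Pool.Agent.HMod

universe w

variable {𝔐 : HM.{w}} {K : Type} [Field K] [DecidableEq K] [Countable K] [Std 𝔐 K]
  {F : Filter (ℕ →₀ K)}

/-- internal choice of block sequences inside an internal sequence of sets of the filter -/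
theorem fdi_choose (hF : IsPPlusi 𝔐 F) (S : ℕ → Set (ℕ →₀ K))
    (hSi : Int 𝔐 (fun q : ℕ × (ℕ →₀ K) => q.2 ∈ S q.1)) (hS : ∀ n, S n ∈ F) :
    ∃ X : ℕ → IFun 𝔐 ℕ (ℕ →₀ K), IntF 𝔐 X ∧
      ∀ n, Blk (X n).1 ∧ bs (X n).1 ∈ F ∧ ∀ v : ℕ →₀ K, v ∈ bs (X n).1 → v ∈ S n := by
  have h1 : ∀ n, ∃ X : IFun 𝔐 ℕ (ℕ →₀ K), Blk X.1 ∧ (∀ᶠ v in F, v ∈ bs X.1) ∧
      ∀ v : ℕ →₀ K, v ∈ bs X.1 → v ∈ S n := by
    intro n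
    obtain ⟨X, hXi, hX, hXF, hs⟩ := hF.base (S n) (hS n)
    exact ⟨⟨X, hXi⟩, hX, hXF, fun v hv => hs hv⟩
  have hR : Int 𝔐 (fun q : ℕ × IFun 𝔐 ℕ (ℕ →₀ K) => Blk q.2.1 ∧
      (∀ᶠ v in F, v ∈ bs q.2.1) ∧ ∀ v : ℕ →₀ K, v ∈ bs q.2.1 → v ∈ S q.1) := by
    refine int_and (int_comp (p := fun X : IFun 𝔐 ℕ (ℕ →₀ K) => Blk X.1) int_blk
      (intF_snd' intF_id)) (int_and ?_ (int_all (int_imp ?_ ?_)))
    · exact int_eventually (α := ℕ × IFun 𝔐 ℕ (ℕ →₀ K)) (β := ℕ →₀ K) hF.fil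
        (R := fun q v => v ∈ bs q.2.1)
        (int_comp2 (R := fun (X : IFun 𝔐 ℕ (ℕ →₀ K)) (v : ℕ →₀ K) => v ∈ bs X.1) int_bs_rel
          (intF_snd' (intF_fst' intF_id)) (intF_snd' intF_id))
    · exact int_comp2 (R := fun (X : IFun 𝔐 ℕ (ℕ →₀ K)) (v : ℕ →₀ K) => v ∈ bs X.1) int_bs_rel
          (intF_snd' (intF_fst' intF_id)) (intF_snd' intF_id)
    · exact int_comp2 (R := fun (n : ℕ) (v : ℕ →₀ K) => v ∈ S n) hSi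
        (intF_fst' (intF_fst' intF_id)) (intF_snd' intF_id)
  obtain ⟨X, hXi, hX⟩ := int_cc (𝔐 := 𝔐) (R := fun n (X : IFun 𝔐 ℕ (ℕ →₀ K)) => Blk X.1 ∧
    (∀ᶠ v in F, v ∈ bs X.1) ∧ ∀ v : ℕ →₀ K, v ∈ bs X.1 → v ∈ S n) hR h1
  exact ⟨X, hXi, hX⟩

theorem F_gap_i (hF : IsPPlusi 𝔐 F) (h : ℕ → ℕ) (hh : IntF 𝔐 h) {S : Set (ℕ →₀ K)}
    (hS : S ∈ F) :
    ∃ Y, IntF 𝔐 Y ∧ Blk Y ∧ bs Y ∈ F ∧ bs Y ⊆ S ∧
      ∀ v ∈ bs Y, ∀ w ∈ bs Y, Bef v.support w.support → ∀ j ∈ w.support, h (mx v.support) < j := by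
  have : StdF 𝔐 := Std.toStdF (K := K)
  have hSOU : IsSOUi 𝔐 (F.map Finsupp.support) := US_sou_i hF
  obtain ⟨A, hAi, hA, hAU, -, hg⟩ := gap_lemma_i hSOU hh (S := Set.univ) Filter.univ_mem
  have h1 : ∀ᶠ v in F, v.support ∈ fu A := Filter.mem_map.1 hAU
  obtain ⟨Y, hYi, hY, hYF, hYp⟩ := bf_base_i hF.toIsBlockFilteri
    (p := fun v => v ∈ S ∧ v.support ∈ fu A) (Filter.Eventually.and hS h1)
  refine ⟨Y, hYi, hY, hYF, fun v hv => (hYp v hv).1, ?_⟩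
  intro v hv w hw hvw
  exact fu_gap hA hg (hYp v hv).2 (hYp w hw).2 hvw

theorem F_diag_i (hF : IsPPlusi 𝔐 F) (S : ℕ → Set (ℕ →₀ K))
    (hSi : Int 𝔐 (fun q : ℕ × (ℕ →₀ K) => q.2 ∈ S q.1)) (hS : ∀ n, S n ∈ F) :
    ∃ Y, IntF 𝔐 Y ∧ Blk Y ∧ bs Y ∈ F ∧ bs Y ⊆ S 0 ∧
      ∀ v ∈ bs Y, ∀ w ∈ bs Y, Bef v.support w.support → w ∈ S (mx v.support + 1) := by
  have : StdF 𝔐 := Std.toStdF (K := K)
  obtain ⟨X, hXi, hX⟩ := fdi_choose hF S hSi hS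
  obtain ⟨Y', hY'i, hY', hYF', hk⟩ := hF.pfil (fun n k => (X n).1 k)
    (intF_appF (intF_comp hXi (intF_fst' intF_id)) (intF_snd' intF_id))
    (fun n => ⟨(hX n).1, (hX n).2.1⟩)
  have hR : Int 𝔐 (fun q : ℕ × ℕ => ∀ v : ℕ →₀ K, v ∈ bs Y' → (∀ j : ℕ, j ∈ v.support → q.2 < j) →
      v ∈ bs (X q.1).1) := by
    refine int_all (int_imp ?_ (int_imp (int_all (int_imp ?_ ?_)) ?_))
    · exact int_comp (p := fun v : ℕ →₀ K => v ∈ bs Y') (int_bs hY'i) (intF_snd' intF_id)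
    · exact int_comp2 (R := fun (i : ℕ) (b : Finset ℕ) => i ∈ b) StdF.mem (intF_snd' intF_id)
        (intF_suppF (intF_snd' (intF_fst' intF_id)))
    · exact int_ltF (intF_snd' (intF_fst' (intF_fst' intF_id))) (intF_snd' intF_id)
    · exact int_comp2 (R := fun (X : IFun 𝔐 ℕ (ℕ →₀ K)) (v : ℕ →₀ K) => v ∈ bs X.1) int_bs_rel
        (intF_comp hXi (intF_fst' (intF_fst' intF_id))) (intF_snd' intF_id)
  obtain ⟨k, hki, hk'⟩ := int_cc (𝔐 := 𝔐) (R := fun n k : ℕ => ∀ v : ℕ →₀ K, v ∈ bs Y' →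
    (∀ j : ℕ, j ∈ v.support → k < j) → v ∈ bs (X n).1) hR (fun n => by
      obtain ⟨k, hk⟩ := hk n
      exact ⟨k, hk⟩)
  obtain ⟨Y, hYi, hY, hYF, hYS, hgap⟩ := F_gap_i hF (fun i => k (i + 1))
    (intF_comp hki intF_succ) (S := bs Y' ∩ S 0) (Filter.inter_mem hYF' (hS 0))
  refine ⟨Y, hYi, hY, hYF, fun v hv => (hYS hv).2, ?_⟩
  intro v hv w hw hvw
  exact (hX _).2.2 w (hk' (mx v.support + 1) w (hYS hw).1 (hgap v hv w hw hvw))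

theorem F_pseudo_i (hF : IsPPlusi 𝔐 F) (S : ℕ → Set (ℕ →₀ K))
    (hSi : Int 𝔐 (fun q : ℕ × (ℕ →₀ K) => q.2 ∈ S q.1)) (hS : ∀ n, S n ∈ F) :
    ∃ Y, IntF 𝔐 Y ∧ Blk Y ∧ bs Y ∈ F ∧ ∀ n, ∃ k, ∀ v ∈ bs Y, Lo k v.support → v ∈ S n := by
  obtain ⟨X, hXi, hX⟩ := fdi_choose hF S hSi hS
  obtain ⟨Y, hYi, hY, hYF, hk⟩ := hF.pfil (fun n k => (X n).1 k)
    (intF_appF (intF_comp hXi (intF_fst' intF_id)) (intF_snd' intF_id))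
    (fun n => ⟨(hX n).1, (hX n).2.1⟩)
  refine ⟨Y, hYi, hY, hYF, fun n => ?_⟩
  obtain ⟨k, hk⟩ := hk n
  exact ⟨k + 1, fun v hv hlo => (hX n).2.2 v (hk v hv (fun j hj => hlo j hj))⟩

omit [Field K] [DecidableEq K] [Countable K] [Std 𝔐 K] in
theorem U_pseudo_i [StdF 𝔐] {U : Filter (Finset ℕ)} (hU : IsSOUi 𝔐 U) (S : ℕ → Set (Finset ℕ))
    (hSi : Int 𝔐 (fun q : ℕ × Finset ℕ => q.2 ∈ S q.1)) (hS : ∀ n, S n ∈ U) :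
    ∃ A, IntF 𝔐 A ∧ BlkF A ∧ fu A ∈ U ∧ ∀ n, ∃ k, ∀ b ∈ fu A, Lo k b → b ∈ S n := by
  have h1 : ∀ n, ∃ A : IFun 𝔐 ℕ (Finset ℕ), BlkF A.1 ∧ (∀ᶠ b in U, b ∈ fu A.1) ∧
      ∀ b : Finset ℕ, b ∈ fu A.1 → b ∈ S n := by
    intro n
    obtain ⟨A, hAi, hA, hAU, hs⟩ := hU.base (S n) (hS n)
    exact ⟨⟨A, hAi⟩, hA, hAU, fun b hb => hs hb⟩
  have hR : Int 𝔐 (fun q : ℕ × IFun 𝔐 ℕ (Finset ℕ) => BlkF q.2.1 ∧
      (∀ᶠ b in U, b ∈ fu q.2.1) ∧ ∀ b : Finset ℕ, b ∈ fu q.2.1 → b ∈ S q.1) := by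
    refine int_and (int_comp (p := fun X : IFun 𝔐 ℕ (Finset ℕ) => BlkF X.1) int_blkF
      (intF_snd' intF_id)) (int_and ?_ (int_all (int_imp ?_ ?_)))
    · exact int_eventually (α := ℕ × IFun 𝔐 ℕ (Finset ℕ)) (β := Finset ℕ) hU.fil
        (R := fun q b => b ∈ fu q.2.1)
        (int_comp2 (R := fun (X : IFun 𝔐 ℕ (Finset ℕ)) (b : Finset ℕ) => b ∈ fu X.1) int_fu_rel
          (intF_snd' (intF_fst' intF_id)) (intF_snd' intF_id))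
    · exact int_comp2 (R := fun (X : IFun 𝔐 ℕ (Finset ℕ)) (b : Finset ℕ) => b ∈ fu X.1) int_fu_rel
          (intF_snd' (intF_fst' intF_id)) (intF_snd' intF_id)
    · exact int_comp2 (R := fun (n : ℕ) (b : Finset ℕ) => b ∈ S n) hSi
        (intF_fst' (intF_fst' intF_id)) (intF_snd' intF_id)
  obtain ⟨A, hAi, hA⟩ := int_cc (𝔐 := 𝔐) (R := fun n (A : IFun 𝔐 ℕ (Finset ℕ)) => BlkF A.1 ∧
    (∀ᶠ b in U, b ∈ fu A.1) ∧ ∀ b : Finset ℕ, b ∈ fu A.1 → b ∈ S n) hR h1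
  obtain ⟨B, hBi, hB, hBU, hk⟩ := hU.stable (fun n k => (A n).1 k)
    (intF_appF (intF_comp hAi (intF_fst' intF_id)) (intF_snd' intF_id))
    (fun n => ⟨(hA n).1, (hA n).2.1⟩)
  refine ⟨B, hBi, hB, hBU, fun n => ?_⟩
  obtain ⟨k, hk⟩ := hk n
  exact ⟨k + 1, fun b hb hlo => (hA n).2.2 b (hk b hb (fun j hj => hlo j hj))⟩

end Pool.Agent.SOUi
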