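import Pool.Agent.Lib_MP_a0d45a_int.FDiagi
import Pool.Agent.Lib_MP_a0d45a_int.UDiagi
import Pool.Agent.Lib_MP_a0d45a_lc.Cuts

/-!
# Piece CUTSI: common cuts (port of `Lib_MP_a0d45a_lc/Cuts.lean`)
-/

set_option autoImplicit false

namespace Pool.Agent.SOUi

open Pool.Agent.SOU Pool.Agent.HMod

universe w

variable {𝔐 : HM.{w}} {K : Type} [Field K] [DecidableEq K] [Countable K] [Std 𝔐 K]
  {F : Filter (ℕ →₀ K)} {U : Filter (Finset ℕ)}

theorem common_cuts_i (hU : IsSOUi 𝔐 U) (hF : IsPPlusi 𝔐 F) (a : ℕ → ℕ) (hai : IntF 𝔐 a)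
    (ha : StrictMono a) {A : ℕ → Finset ℕ} (hAi : IntF 𝔐 A) (hA : BlkF A) (hAU : fu A ∈ U)
    {Y : ℕ → ℕ →₀ K} (hYi : IntF 𝔐 Y) (hY : Blk Y) (hYF : bs Y ∈ F) :
    ∃ (b : ℕ → Finset ℕ) (y : ℕ → ℕ →₀ K) (j : ℕ → ℕ), IntF 𝔐 b ∧ IntF 𝔐 y ∧ IntF 𝔐 j ∧
      StrictMono j ∧ BlkF b ∧ Blk y ∧
      fu b ∈ U ∧ bs y ∈ F ∧ (∀ l, b l ∈ fu A) ∧ (∀ l, y l ∈ bs Y) ∧
      (∀ l, Lo (a (j l + 1)) (b l)) ∧ (∀ l, Hi (a (j (l + 1))) (b l)) ∧
      (∀ l, Lo (a (j l + 1)) (y l).support) ∧ (∀ l, Hi (a (j (l + 1))) (y l).support) := by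
  classical
  have : StdF 𝔐 := Std.toStdF (K := K)
  have hs2 : IntF 𝔐 (fun n : ℕ => n + 2) := intF_comp intF_succ intF_succ
  -- step 1
  obtain ⟨A₁, hA₁i, hA₁, hA₁U, hA₁S, hA₁g⟩ := gap_lemma_i hU (h := fun x => a (x + 2))
    (intF_comp hai hs2)
    (S := fu A ∩ {b | Lo (a 1) b}) (Filter.inter_mem hAU (sou_tail_i hU (a 1)))
  -- step 2
  obtain ⟨Y₁, hY₁i, hY₁, hY₁F, hY₁S, hY₁g⟩ := F_gap_i hF (fun x => mx (A₁ (x + 2)))
    (intF_comp StdF.mx (intF_comp hA₁i hs2))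
    (S := bs Y ∩ {v | Lo (a 1) v.support})
    (Filter.inter_mem hYF (bf_tail_i hF.toIsFulli.toIsBlockFilteri (a 1)))
  have hYne : ∀ l, (Y₁ l).support.Nonempty := fun l => Finsupp.support_nonempty_iff.2 (hY₁.ne l)
  let x : ℕ → ℕ := fun l => mx (Y₁ l).support
  let n : ℕ → ℕ := fun l => x l + 1
  let z : ℕ → ℕ := fun l => mx (A₁ (n l))
  let j : ℕ → ℕ := fun l => Nat.casesOn l 0 (fun l => z l + 1)
  have hj0 : j 0 = 0 := rfl
  have hjs : ∀ l, j (l + 1) = z l + 1 := fun l => rfl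
  have hxi : IntF 𝔐 x := intF_comp StdF.mx (intF_suppF hY₁i)
  have hni : IntF 𝔐 n := intF_comp intF_succ hxi
  have hzi : IntF 𝔐 z := intF_comp StdF.mx (intF_comp hA₁i hni)
  have hji : IntF 𝔐 j := int_rec_of (g := fun k _ => z k + 1)
    (intF_comp intF_succ (intF_comp hzi intF_fst)) hjs
  have hx : ∀ l, x l < x (l + 1) := fun l =>
    hY₁.lt l _ (mx_mem (hYne l)) _ (mx_mem (hYne (l + 1)))
  have hnm : StrictMono n := strictMono_nat_of_lt_succ fun l => Nat.add_lt_add_right (hx l) 1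
  have hzm : ∀ l, z l < z (l + 1) := fun l =>
    hA₁.bef (hnm (Nat.lt_succ_self l)) _ (mx_mem (hA₁.ne _)) _ (mx_mem (hA₁.ne _))
  have hjm : StrictMono j := by
    refine strictMono_nat_of_lt_succ fun l => ?_
    cases l with
    | zero => exact Nat.succ_pos _
    | succ l => exact Nat.add_lt_add_right (hzm l) 1
  have ham : ∀ k, k ≤ a k := fun k => ha.le_apply
  -- elements of `A₁ k`, `k ≤ n l`, are below `a (j (l+1))`
  have hup : ∀ l k, k ≤ n l → Hi (a (j (l + 1))) (A₁ k) := by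
    intro l k hk i hi
    have h1 : i ≤ z l := by
      rcases lt_or_eq_of_le hk with h | h
      · exact (hA₁.bef h i hi _ (mx_mem (hA₁.ne _))).le
      · subst h
        exact le_mx hi
    rw [hjs]
    have := ham (z l + 1)
    omega
  -- elements of `A₁ k`, `n l < k`, are above `a (j (l+1) + 1)`
  have hlo : ∀ l k, n l < k → Lo (a (j (l + 1) + 1)) (A₁ k) := by
    intro l k hk i hi
    rw [hjs]
    have h0 := fu_gap hA₁ (h := fun x => a (x + 2)) hA₁g (self_mem_fu A₁ (n l))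
      (self_mem_fu A₁ k) (hA₁.bef hk) i hi
    exact h0.le
  have hlo0 : ∀ k, Lo (a 1) (A₁ k) := fun k => (hA₁S (self_mem_fu A₁ k)).2
  -- the window of `k`
  have hex : ∀ k, ∃ l, k ≤ n l := fun k => ⟨k, hnm.le_apply⟩
  let w : ℕ → ℕ := fun k => Nat.find (hex k)
  have hw : ∀ k, k ≤ n (w k) := fun k => Nat.find_spec (hex k)
  have hwHi : ∀ k, Hi (a (j (w k + 1))) (A₁ k) := fun k => hup _ _ (hw k)
  have hwLo : ∀ k, Lo (a (j (w k) + 1)) (A₁ k) := by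
    intro k
    rcases Nat.eq_zero_or_pos (w k) with h | h
    · rw [h]
      exact hlo0 k
    · obtain ⟨l, hl⟩ := Nat.exists_eq_succ_of_ne_zero h.ne'
      have h1 : n l < k := by
        have := Nat.find_min (hex k) (m := l) (by
          change l < w k
          omega)
        omega
      rw [hl]
      exact hlo l k h1
  let W : ℕ → ℕ → Prop := fun l i => a (j l + 1) ≤ i ∧ i < a (j (l + 1))
  have hWk : ∀ k, ∀ i ∈ A₁ k, W (w k) i := fun k i hi => ⟨hwLo k i hi, hwHi k i hi⟩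
  have hWlt : ∀ l l', l < l' → ∀ i i', W l i → W l' i' → i < i' := by
    intro l l' hll i i' h1 h2
    have h3 : a (j (l + 1)) ≤ a (j l' + 1) :=
      ha.monotone ((hjm.monotone (Nat.succ_le_of_lt hll)).trans (Nat.le_succ _))
    exact lt_of_lt_of_le (h1.2.trans_le h3) h2.1
  have hWu : ∀ l l' i, W l i → W l' i → l = l' := by
    intro l l' i h1 h2
    rcases lt_trichotomy l l' with h | h | h
    · exact absurd (hWlt l l' h i i h1 h2) (lt_irrefl i)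
    · exact h
    · exact absurd (hWlt l' l h i i h2 h1) (lt_irrefl i)
  -- step 3
  obtain ⟨A₂, hA₂i, hA₂, hA₂U, hA₂S, hA₂g⟩ := gap_lemma_i hU (h := fun x => a (j x))
    (intF_comp hai hji) hA₁U
  have huniq : ∀ l m m', (∃ i ∈ A₂ m, W l i) → (∃ i ∈ A₂ m', W l i) → ¬ m < m' := by
    rintro l m m' ⟨i, hi, hi1, hi2⟩ ⟨i', hi', hi1', hi2'⟩ hmm
    have h0 := fu_gap hA₂ (h := fun x => a (j x)) hA₂g (self_mem_fu A₂ m)
      (self_mem_fu A₂ m') (hA₂.bef hmm) i' hi'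
    have h1 : l + 1 ≤ i := by
      have h2 := ham (j l + 1)
      have h3 : l ≤ j l := hjm.le_apply
      omega
    have h2 : i ≤ mx (A₂ m) := le_mx hi
    have h3 : a (j (l + 1)) ≤ a (j (mx (A₂ m))) :=
      ha.monotone (hjm.monotone (h1.trans h2))
    have h4 : a (j (mx (A₂ m))) < i' := h0
    omega
  have hb : ∀ l, ∃ b : Finset ℕ, b.Nonempty ∧ b ∈ fu A₁ ∧ (∀ i : ℕ, i ∈ b → W l i) ∧
      ∀ m : ℕ, (∃ i : ℕ, i ∈ A₂ m ∧ W l i) → ∀ i : ℕ, (i ∈ b ↔ (i ∈ A₂ m ∧ W l i)) := by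
    intro l
    by_cases h : ∃ m, ∃ i ∈ A₂ m, W l i
    · obtain ⟨m, i, hi, hiW⟩ := h
      refine ⟨(A₂ m).filter (W l), ⟨i, Finset.mem_filter.2 ⟨hi, hiW⟩⟩, ?_,
        fun i' hi' => (Finset.mem_filter.1 hi').2, ?_⟩
      · obtain ⟨I, hI, hIA⟩ := hA₂S (self_mem_fu A₂ m)
        refine ⟨I.filter (fun k => w k = l), ?_, ?_⟩
        · rw [hIA] at hi
          obtain ⟨k, hk, hik⟩ := Finset.mem_biUnion.1 hi
          exact ⟨k, Finset.mem_filter.2 ⟨hk, hWu _ _ i (hWk k i hik) hiW⟩⟩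
        · ext i'
          rw [Finset.mem_filter, hIA, Finset.mem_biUnion, Finset.mem_biUnion]
          constructor
          · rintro ⟨⟨k, hk, hik⟩, h1⟩
            exact ⟨k, Finset.mem_filter.2 ⟨hk, hWu _ _ i' (hWk k i' hik) h1⟩, hik⟩
          · rintro ⟨k, hk, hik⟩
            obtain ⟨hk1, hk2⟩ := Finset.mem_filter.1 hk
            subst hk2
            exact ⟨⟨k, hk1, hik⟩, hWk k i' hik⟩
      · intro m' hm'
        have h1 := huniq l m m' ⟨i, hi, hiW⟩ hm'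
        have h2 := huniq l m' m hm' ⟨i, hi, hiW⟩
        have h3 : m = m' := by omega
        rw [h3]
        exact fun i => Finset.mem_filter
    · refine ⟨A₁ (n l), hA₁.ne _, self_mem_fu A₁ _, ?_, fun m hm => absurd ⟨m, hm⟩ h⟩
      intro i hi
      refine ⟨?_, hup l _ le_rfl i hi⟩
      cases l with
      | zero => exact hlo0 _ i hi
      | succ l => exact hlo l _ (hnm (Nat.lt_succ_self l)) i hi
  have hWi : Int 𝔐 (fun q : ℕ × ℕ => W q.1 q.2) := by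
    refine int_and (int_leF ?_ intF_snd) (int_ltF intF_snd ?_)
    · exact intF_comp hai (intF_comp intF_succ (intF_comp hji intF_fst))
    · exact intF_comp hai (intF_comp hji (intF_comp intF_succ intF_fst))
  have hRi : Int 𝔐 (fun q : ℕ × Finset ℕ => q.2.Nonempty ∧ q.2 ∈ fu A₁ ∧
      (∀ i : ℕ, i ∈ q.2 → W q.1 i) ∧
      ∀ m : ℕ, (∃ i : ℕ, i ∈ A₂ m ∧ W q.1 i) → ∀ i : ℕ, (i ∈ q.2 ↔ (i ∈ A₂ m ∧ W q.1 i))) := by
    refine int_and (int_nonempty intF_snd) (int_and (int_comp (int_fu hA₁i) intF_snd)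
      (int_and (int_all (int_imp ?_ ?_)) (int_all (int_imp (int_ex (int_and ?_ ?_))
        (int_all (int_iff ?_ (int_and ?_ ?_)))))))
    · exact int_memF (intF_snd' intF_id) (intF_snd' (intF_fst' intF_id))
    · exact int_comp2 (R := W) hWi (intF_fst' (intF_fst' intF_id)) (intF_snd' intF_id)
    · exact int_memF (intF_snd' intF_id) (intF_comp hA₂i (intF_snd' (intF_fst' intF_id)))
    · exact int_comp2 (R := W) hWi (intF_fst' (intF_fst' (intF_fst' intF_id))) (intF_snd' intF_id)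
    · exact int_memF (intF_snd' intF_id) (intF_snd' (intF_fst' (intF_fst' intF_id)))
    · exact int_memF (intF_snd' intF_id) (intF_comp hA₂i (intF_snd' (intF_fst' intF_id)))
    · exact int_comp2 (R := W) hWi (intF_fst' (intF_fst' (intF_fst' intF_id))) (intF_snd' intF_id)
  obtain ⟨b, hbi, hb'⟩ := int_cc (R := fun (l : ℕ) (b : Finset ℕ) => b.Nonempty ∧ b ∈ fu A₁ ∧
      (∀ i : ℕ, i ∈ b → W l i) ∧
      ∀ m : ℕ, (∃ i : ℕ, i ∈ A₂ m ∧ W l i) → ∀ i : ℕ, (i ∈ b ↔ (i ∈ A₂ m ∧ W l i))) hRi hb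
  have hbne : ∀ l, (b l).Nonempty := fun l => (hb' l).1
  have hbA : ∀ l, b l ∈ fu A₁ := fun l => (hb' l).2.1
  have hbW : ∀ l, ∀ i ∈ b l, W l i := fun l => (hb' l).2.2.1
  have hbeq : ∀ l m, (∃ i : ℕ, i ∈ A₂ m ∧ W l i) → ∀ i : ℕ, (i ∈ b l ↔ (i ∈ A₂ m ∧ W l i)) :=
    fun l => (hb' l).2.2.2
  have hbB : BlkF b := ⟨hbne, fun l i hi i' hi' =>
    hWlt l (l + 1) (Nat.lt_succ_self l) i i' (hbW l i hi) (hbW (l + 1) i' hi')⟩
  refine ⟨b, Y₁, j, hbi, hY₁i, hji, hjm, hbB, hY₁, ?_, hY₁F, fun l => (hA₁S (hbA l)).1,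
    fun l => (hY₁S (self_mem_bs hY₁ l)).1, fun l i hi => (hbW l i hi).1,
    fun l i hi => (hbW l i hi).2, ?_, ?_⟩
  · refine Filter.mem_of_superset hA₂U (fu_mono fun m => ?_)
    obtain ⟨I, hI, hIA⟩ := hA₂S (self_mem_fu A₂ m)
    refine ⟨I.image w, hI.image w, ?_⟩
    have hmeet : ∀ k ∈ I, ∃ i ∈ A₂ m, W (w k) i := by
      intro k hk
      obtain ⟨i, hi⟩ := hA₁.ne k
      refine ⟨i, ?_, hWk k i hi⟩
      rw [hIA]
      exact Finset.mem_biUnion.2 ⟨k, hk, hi⟩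
    ext i
    rw [Finset.mem_biUnion]
    constructor
    · intro hi
      have hi' := hi
      rw [hIA] at hi'
      obtain ⟨k, hk, hik⟩ := Finset.mem_biUnion.1 hi'
      refine ⟨w k, Finset.mem_image_of_mem w hk, ?_⟩
      exact (hbeq (w k) m (hmeet k hk) i).2 ⟨hi, hWk k i hik⟩
    · rintro ⟨l, hl, hil⟩
      obtain ⟨k, hk, rfl⟩ := Finset.mem_image.1 hl
      exact ((hbeq (w k) m (hmeet k hk) i).1 hil).1
  · intro l
    cases l with
    | zero => exact (hY₁S (self_mem_bs hY₁ 0)).2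
    | succ l =>
      intro i hi
      have h1 := hY₁g (Y₁ l) (self_mem_bs hY₁ l) (Y₁ (l + 1)) (self_mem_bs hY₁ (l + 1))
        (fun i hi i' hi' => hY₁.lt l i hi i' hi') i hi
      have h2 : a (j (l + 1) + 1) ≤ mx (A₁ (x l + 2)) :=
        hlo l (x l + 2) (Nat.lt_succ_self _) _ (mx_mem (hA₁.ne _))
      exact h2.trans h1.le
  · intro l i hi
    have h1 : i ≤ x l := le_mx hi
    have h2 : n l ≤ z l := hA₁.ge (n l) _ (mx_mem (hA₁.ne _))
    rw [hjs]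
    have := ham (z l + 1)
    change x l + 1 ≤ z l at h2
    omega

end Pool.Agent.SOUi
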