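import Pool.Agent.Lib_MP_a0d45a_int.Gamei
import Pool.Agent.Lib_MP_a0d45a_int.Fus1i
import Pool.Agent.Lib_MP_a0d45a_lc.GFgen

/-!
# Piece GFGENI: fusion along a play (port of `Lib_MP_a0d45a_lc/GFgen.lean`; `Pat_congr` can be used)

States: the triples `(i, T, n)` with `V i T n`, coded by `codSub`. The function `next` is chosen by
`int_choice'` as a function of `(i, T, n)`, `b` and the type of `y`.
-/

set_option autoImplicit false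

namespace Pool.Agent.SOUi

open Pool.Agent.SOU Pool.Agent.HMod

universe w

variable {𝔐 : HM.{w}} {K : Type} [Field K] [DecidableEq K] [Countable K] [Std 𝔐 K]
  {F : Filter (ℕ →₀ K)} {U : Filter (Finset ℕ)}

/-- one step of the fusion -/
def gfgR (T T' : CdI 𝔐 F) (n N : ℕ) (y : ℕ →₀ K) : Prop :=
  T' ≤ T ∧ n < N ∧ Hi N y.support ∧ ∀ s : Node, s ∈ T.1.T → s.1 = n → ∀ π : Finset Typ,
    ∃ t : Node, (t ∈ T'.1.T ∧ t.1 = N ∧ Ext s t) ∧ Pat n y (π : Set Typ) t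

omit [Std 𝔐 K] [Countable K] in
theorem gfgR_of {T T' : CdI 𝔐 F} {n N : ℕ} {y : ℕ →₀ K} (h1 : T' ≤ T) (h2 : n < N)
    (h3 : Hi N y.support) (h4 : ∀ s ∈ T.1.T, s.1 = n → ∀ π : Set Typ,
      ∃ t ∈ T'.1.T, t.1 = N ∧ Ext s t ∧ Pat n y π t) : gfgR T T' n N y := by
  refine ⟨h1, h2, h3, ?_⟩
  intro s hs hsn π
  obtain ⟨t, ht, ht1, ht2, ht3⟩ := h4 s hs hsn (π : Set Typ)
  exact ⟨t, ⟨ht, ht1, ht2⟩, ht3⟩

omit [Std 𝔐 K] in
theorem gfgR_pat {T T' : CdI 𝔐 F} {n N : ℕ} {y : ℕ →₀ K} (h : gfgR T T' n N y)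
    {s : Node} (hs : s ∈ T.1.T) (hsn : s.1 = n) (π : Set Typ) :
      ∃ t ∈ T'.1.T, t.1 = N ∧ Ext s t ∧ Pat n y π t := by
  obtain ⟨t, ⟨ht, ht1, ht2⟩, ht3⟩ := pat_fin.1 (h.2.2.2 s hs hsn) π
  exact ⟨t, ht, ht1, ht2, ht3⟩

theorem gfg_int [Fact (IsIFil 𝔐 F)] {α : Type*} [Cod 𝔐 α] {T T' : α → CdI 𝔐 F} {n N : α → ℕ}
    {y : α → ℕ →₀ K} (hT : IntF 𝔐 T) (hT' : IntF 𝔐 T') (hn : IntF 𝔐 n) (hN : IntF 𝔐 N)
    (hy : IntF 𝔐 y) : Int 𝔐 (fun a => gfgR (T a) (T' a) (n a) (N a) (y a)) := by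
  have : StdF 𝔐 := Std.toStdF (K := K)
  unfold gfgR
  refine int_and ?_ (int_and (int_ltF hn hN) (int_and ?_ ?_))
  · exact int_comp2 (R := fun p q : CdI 𝔐 F => p ≤ q) int_cdLe hT' hT
  · exact int_comp2 (R := fun (n : ℕ) (b : Finset ℕ) => Hi n b) StdF.hi hN
      (intF_comp (Std.supp (K := K)) hy)
  · refine int_all (R := fun a (s : Node) => s ∈ (T a).1.T → s.1 = n a → ∀ π : Finset Typ,
      ∃ t : Node, (t ∈ (T' a).1.T ∧ t.1 = N a ∧ Ext s t) ∧ Pat (n a) (y a) (π : Set Typ) t) ?_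
    refine int_imp ?_ (int_imp ?_ ?_)
    · exact int_comp2 (R := fun (s : Node) (p : CdI 𝔐 F) => s ∈ p.1.T) int_cdMem intF_snd
        (intF_comp hT intF_fst)
    · exact int_eqF (intF_fst' intF_snd) (intF_comp hn intF_fst)
    · refine int_all (R := fun (q : α × Node) (π : Finset Typ) =>
        ∃ t : Node, (t ∈ (T' q.1).1.T ∧ t.1 = N q.1 ∧ Ext q.2 t) ∧
          Pat (n q.1) (y q.1) (π : Set Typ) t) ?_
      refine int_ex (R := fun (q : (α × Node) × Finset Typ) (t : Node) =>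
        (t ∈ (T' q.1.1).1.T ∧ t.1 = N q.1.1 ∧ Ext q.1.2 t) ∧
          Pat (n q.1.1) (y q.1.1) (q.2 : Set Typ) t) ?_
      have h1 : IntF 𝔐 (fun q : ((α × Node) × Finset Typ) × Node => q.1.1.1) :=
        intF_fst' (intF_fst' intF_fst)
      refine int_and (int_and ?_ (int_and ?_ ?_)) ?_
      · exact int_comp2 (R := fun (s : Node) (p : CdI 𝔐 F) => s ∈ p.1.T) int_cdMem intF_snd
          (intF_comp hT' h1)
      · exact int_eqF (intF_fst' intF_snd) (intF_comp hN h1)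
      · exact int_comp2 (R := fun (s t : Node) => Ext s t) (Std.ext (K := K))
          (intF_snd' (intF_fst' intF_fst)) intF_snd
      · exact int_comp (f := fun q : ((α × Node) × Finset Typ) × Node =>
          (n q.1.1.1, y q.1.1.1, q.1.2, q.2)) (Std.pat (K := K))
          (intF_pair (intF_comp hn h1) (intF_pair (intF_comp hy h1)
            (intF_pair (intF_snd' intF_fst) intF_snd)))

theorem gfgen_i [Fact (IsIFil 𝔐 F)] (hK : ∃ a : K, a ≠ 0 ∧ a ≠ 1) (hU : IsSOUi 𝔐 U)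
    (hF : IsPPlusi 𝔐 F) {ι : Type} [Cod 𝔐 ι]
    (V : ι → CdI 𝔐 F → ℕ → Prop) (hV : Int 𝔐 (fun q : ι × CdI 𝔐 F × ℕ => V q.1 q.2.1 q.2.2))
    (nx : ι → Finset ℕ → ι) (hnx : IntF 𝔐 (fun q : ι × Finset ℕ => nx q.1 q.2))
    (step : ∀ i T n, V i T n → ∃ B ∈ U, ∃ S ∈ F, ∀ b ∈ B, ∀ y ∈ S, ∃ T' ≤ T, ∃ N, n < N ∧
      Hi N y.support ∧ V (nx i b) T' N ∧ ∀ s ∈ T.1.T, s.1 = n → ∀ π : Set Typ,
        ∃ t ∈ T'.1.T, t.1 = N ∧ Ext s t ∧ Pat n y π t)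
    (i₀ : ι) (T₀ : CdI 𝔐 F) (n₀ : ℕ) (h₀ : V i₀ T₀ n₀) :
    ∃ (b : ℕ → Finset ℕ) (y : ℕ → ℕ →₀ K) (i : ℕ → ι) (T : ℕ → CdI 𝔐 F) (m : ℕ → ℕ)
      (R : CdI 𝔐 F), IntF 𝔐 b ∧ IntF 𝔐 y ∧ IntF 𝔐 i ∧ IntF 𝔐 T ∧ IntF 𝔐 m ∧
      BlkF b ∧ fu b ∈ U ∧ i 0 = i₀ ∧ T 0 = T₀ ∧ m 0 = n₀ ∧ (∀ k, i (k + 1) = nx (i k) (b k)) ∧
      (∀ k, T (k + 1) ≤ T k) ∧ (∀ k, V (i k) (T k) (m k)) ∧ Fused R.1 m y ∧ (∀ k, R ≤ T k) ∧
      ∀ k, ∀ s ∈ (T k).1.T, s.1 = m k → s ∈ R.1.T := by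
  classical
  have : StdF 𝔐 := Std.toStdF (K := K)
  have hBF : IsBlockFilteri 𝔐 F := hF.toIsFulli.toIsBlockFilteri
  let St : Type := {x : ι × CdI 𝔐 F × ℕ // V x.1 x.2.1 x.2.2}
  let iSt : Cod 𝔐 St := codSub hV
  have hval : IntF 𝔐 (fun σ : St => σ.1) := intF_val hV
  have : Nonempty St := ⟨⟨(i₀, T₀, n₀), h₀⟩⟩
  -- the sets of the strategy
  obtain ⟨f, hf, hfR⟩ : ∃ f : St → ISet 𝔐 (Finset ℕ) × ISet 𝔐 (ℕ →₀ K), IntF 𝔐 f ∧
      ∀ σ : St, (f σ).1.1 ∈ U ∧ (f σ).2.1 ∈ F ∧ ∀ (b : Finset ℕ) (y : ℕ →₀ K), b ∈ (f σ).1.1 →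
        y ∈ (f σ).2.1 → ∃ τ : St, τ.1.1 = nx σ.1.1 b ∧
          gfgR σ.1.2.1 τ.1.2.1 σ.1.2.2 τ.1.2.2 y := by
    refine int_choice (R := fun (σ : St) (Q : ISet 𝔐 (Finset ℕ) × ISet 𝔐 (ℕ →₀ K)) =>
      Q.1.1 ∈ U ∧ Q.2.1 ∈ F ∧ ∀ (b : Finset ℕ) (y : ℕ →₀ K), b ∈ Q.1.1 →
        y ∈ Q.2.1 → ∃ τ : St, τ.1.1 = nx σ.1.1 b ∧
          gfgR σ.1.2.1 τ.1.2.1 σ.1.2.2 τ.1.2.2 y) ?_ ?_
    · refine int_and ?_ (int_and ?_ ?_)
      · exact int_comp (p := fun S : ISet 𝔐 (Finset ℕ) => S.1 ∈ U) hU.fil.def' (intF_fst' intF_snd)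
      · exact int_comp (p := fun S : ISet 𝔐 (ℕ →₀ K) => S.1 ∈ F) hBF.fil.def' (intF_snd' intF_snd)
      · refine int_all (R := fun (q : St × ISet 𝔐 (Finset ℕ) × ISet 𝔐 (ℕ →₀ K)) (b : Finset ℕ) =>
          ∀ y : ℕ →₀ K, b ∈ q.2.1.1 → y ∈ q.2.2.1 → ∃ τ : St, τ.1.1 = nx q.1.1.1 b ∧
          gfgR q.1.1.2.1 τ.1.2.1 q.1.1.2.2 τ.1.2.2 y) ?_
        refine int_all (R := fun (q : (St × ISet 𝔐 (Finset ℕ) × ISet 𝔐 (ℕ →₀ K)) × Finset ℕ)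
          (y : ℕ →₀ K) =>
          q.2 ∈ q.1.2.1.1 → y ∈ q.1.2.2.1 → ∃ τ : St, τ.1.1 = nx q.1.1.1.1 q.2 ∧
          gfgR q.1.1.1.2.1 τ.1.2.1 q.1.1.1.2.2 τ.1.2.2 y) ?_
        refine int_imp ?_ (int_imp ?_ ?_)
        · exact Pool.Agent.HMod.int_memF (f := fun q : ((St × ISet 𝔐 (Finset ℕ) × ISet 𝔐 (ℕ →₀ K)) × Finset ℕ) ×
            (ℕ →₀ K) => q.1.2) (S := fun q => q.1.1.2.1) (intF_snd' intF_fst)
            (intF_fst' (intF_snd' (intF_fst' intF_fst)))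
        · exact Pool.Agent.HMod.int_memF (f := fun q : ((St × ISet 𝔐 (Finset ℕ) × ISet 𝔐 (ℕ →₀ K)) × Finset ℕ) ×
            (ℕ →₀ K) => q.2) (S := fun q => q.1.1.2.2) intF_snd
            (intF_snd' (intF_snd' (intF_fst' intF_fst)))
        · refine int_ex (R := fun (q : ((St × ISet 𝔐 (Finset ℕ) × ISet 𝔐 (ℕ →₀ K)) × Finset ℕ) ×
            (ℕ →₀ K)) (τ : St) => τ.1.1 = nx q.1.1.1.1.1 q.1.2 ∧
            gfgR q.1.1.1.1.2.1 τ.1.2.1 q.1.1.1.1.2.2 τ.1.2.2 q.2) ?_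
          have hτ : IntF 𝔐 (fun q : (((St × ISet 𝔐 (Finset ℕ) × ISet 𝔐 (ℕ →₀ K)) × Finset ℕ) ×
            (ℕ →₀ K)) × St => q.2.1) := intF_comp hval intF_snd
          have hσ : IntF 𝔐 (fun q : (((St × ISet 𝔐 (Finset ℕ) × ISet 𝔐 (ℕ →₀ K)) × Finset ℕ) ×
            (ℕ →₀ K)) × St => q.1.1.1.1.1) :=
              intF_comp hval (intF_fst' (intF_fst' (intF_fst' intF_fst)))
          refine int_and ?_ ?_
          · exact int_eqF (intF_fst' hτ) (intF_comp2 hnx (intF_fst' hσ)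
              (intF_snd' (intF_fst' intF_fst)))
          · exact gfg_int (intF_fst' (intF_snd' hσ)) (intF_fst' (intF_snd' hτ))
              (intF_snd' (intF_snd' hσ)) (intF_snd' (intF_snd' hτ)) (intF_snd' intF_fst)
    · intro σ
      obtain ⟨B, hB, S, hS, h⟩ := step σ.1.1 σ.1.2.1 σ.1.2.2 σ.2
      obtain ⟨B', hB', hBi, hBB⟩ := hU.fil.gen B hB
      obtain ⟨S', hS', hSi, hSS⟩ := hBF.fil.gen S hS
      refine ⟨(⟨B', hBi⟩, ⟨S', hSi⟩), hB', hS', ?_⟩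
      intro b y hb hy
      obtain ⟨T', h1, N, h2, h3, h4, h5⟩ := h b (hBB hb) y (hSS hy)
      exact ⟨⟨(nx σ.1.1 b, T', N), h4⟩, rfl, gfgR_of h1 h2 h3 h5⟩
  -- the next state, as a function of the type only
  obtain ⟨nxt, hnxt, hnxtR⟩ := int_choice' (𝔐 := 𝔐) (R := fun (q : St × Finset ℕ × Typ) (τ : St) =>
    τ.1.1 = nx q.1.1.1 q.2.1 ∧ ∃ y' : ℕ →₀ K, y' ≠ 0 ∧ ty y' = q.2.2 ∧
      Lo q.1.1.2.2 y'.support ∧ gfgR q.1.1.2.1 τ.1.2.1 q.1.1.2.2 τ.1.2.2 y') (by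
    refine int_and ?_ ?_
    · exact int_eqF (intF_fst' (intF_comp hval intF_snd)) (intF_comp2 hnx
        (intF_fst' (intF_comp hval (intF_fst' intF_fst))) (intF_fst' (intF_snd' intF_fst)))
    · refine int_ex (R := fun (q : (St × Finset ℕ × Typ) × St) (y' : ℕ →₀ K) =>
        y' ≠ 0 ∧ ty y' = q.1.2.2 ∧ Lo q.1.1.1.2.2 y'.support ∧
          gfgR q.1.1.1.2.1 q.2.1.2.1 q.1.1.1.2.2 q.2.1.2.2 y') ?_
      have hσ : IntF 𝔐 (fun q : ((St × Finset ℕ × Typ) × St) × (ℕ →₀ K) => q.1.1.1.1) :=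
        intF_comp hval (intF_fst' (intF_fst' intF_fst))
      have hτ : IntF 𝔐 (fun q : ((St × Finset ℕ × Typ) × St) × (ℕ →₀ K) => q.1.2.1) :=
        intF_comp hval (intF_snd' intF_fst)
      refine int_and ?_ (int_and ?_ (int_and ?_ ?_))
      · exact int_not (int_eqF intF_snd (intF_const 0))
      · exact int_eqF (intF_comp (Std.ty (K := K)) intF_snd)
          (intF_snd' (intF_snd' (intF_fst' intF_fst)))
      · exact int_comp2 (R := fun (n : ℕ) (b : Finset ℕ) => Lo n b) StdF.lo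
          (intF_snd' (intF_snd' hσ)) (intF_comp (Std.supp (K := K)) intF_snd)
      · exact gfg_int (intF_fst' (intF_snd' hσ)) (intF_fst' (intF_snd' hτ))
              (intF_snd' (intF_snd' hσ)) (intF_snd' (intF_snd' hτ)) intF_snd)
  obtain ⟨b, y, σ, hbi, hyi, hσi, hσ0, hσs, hbA, hyX, hbl, hyl, hb, hy, hbU, hyF⟩ :=
    game_i hU hF (fun σ : St => (f σ).1.1) (fun σ : St => (f σ).2.1 ∩ {y | y ≠ 0})
      (fun σ : St => σ.1.2.2) (fun σ b y => nxt (σ, b, ty y))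
      (Pool.Agent.HMod.int_memF (f := fun q : St × Finset ℕ => q.2) (S := fun q => (f q.1).1) intF_snd
        (intF_fst' (intF_comp hf intF_fst)))
      (int_and (Pool.Agent.HMod.int_memF (f := fun q : St × (ℕ →₀ K) => q.2) (S := fun q => (f q.1).2) intF_snd
        (intF_snd' (intF_comp hf intF_fst)))
        (int_not (int_eqF intF_snd (intF_const 0))))
      (intF_snd' (intF_snd' hval))
      (intF_comp hnxt (intF_pair intF_fst (intF_pair (intF_fst' intF_snd)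
        (intF_comp (Std.ty (K := K)) (intF_snd' intF_snd)))))
      (fun σ => (hfR σ).1) (fun σ => Filter.inter_mem (hfR σ).2.1 hBF.nz) (by
        intro σ N
        refine Set.Finite.subset (Set.Finite.image (fun q : Finset ℕ × Typ => nxt (σ, q.1, q.2))
          (((Finset.range N).powerset ×ˢ TypB N).finite_toSet)) ?_
        rintro τ ⟨b, y, h1, h2, rfl⟩
        refine ⟨(b, ty y), ?_, rfl⟩
        rw [Finset.mem_coe, Finset.mem_product]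
        refine ⟨?_, ty_mem_TypB h2⟩
        rw [Finset.mem_powerset]
        intro j hj
        exact Finset.mem_range.2 (h1 j hj)) (⟨(i₀, T₀, n₀), h₀⟩ : St)
  -- the properties of the play
  have hplay : ∀ k, (σ (k + 1)).1.1 = nx (σ k).1.1 (b k) ∧ (σ (k + 1)).1.2.1 ≤ (σ k).1.2.1 ∧
      (σ k).1.2.2 < (σ (k + 1)).1.2.2 ∧ Hi (σ (k + 1)).1.2.2 (y k).support ∧
      ∀ s ∈ (σ k).1.2.1.1.T, s.1 = (σ k).1.2.2 → ∀ π : Set Typ,
        ∃ t ∈ (σ (k + 1)).1.2.1.1.T, t.1 = (σ (k + 1)).1.2.2 ∧ Ext s t ∧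
          Pat (σ k).1.2.2 (y k) π t := by
    intro k
    obtain ⟨τ, h4, h5⟩ := (hfR (σ k)).2.2 (b k) (y k) (hbA k) (hyX k).1
    have hyne : y k ≠ 0 := (hyX k).2
    obtain ⟨g1, y', g2, g3, g4, g5⟩ := hnxtR (σ k, b k, ty (y k))
      ⟨τ, h4, y k, hyne, rfl, hyl k, h5⟩
    have hsup : y'.support = (y k).support := by
      have h2 := congrArg Prod.fst g3
      rwa [ty_fst, ty_fst] at h2
    have hs : σ (k + 1) = nxt (σ k, b k, ty (y k)) := hσs k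
    rw [hs]
    refine ⟨g1, g5.1, g5.2.1, hsup ▸ g5.2.2.1, ?_⟩
    intro s hsT hsn π
    obtain ⟨t, ht1, ht2, ht3, ht4⟩ := gfgR_pat g5 hsT hsn π
    exact ⟨t, ht1, ht2, ht3, (Pat_congr hK g2 hyne g4 g3).1 ht4⟩
  have hv : IntF 𝔐 (fun k => (σ k).1) := intF_comp hval hσi
  obtain ⟨R, hR1, hR2, hR3⟩ := fusion_i hBF (fun k => (σ k).1.2.1) (intF_fst' (intF_snd' hv))
    (fun k => (σ k).1.2.2) y
    (fun k => (hplay k).2.1) (strictMono_nat_of_lt_succ fun k => (hplay k).2.2.1) hy hyF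
    (fun k => hyl k) (fun k => (hplay k).2.2.2.1) (fun k => (hplay k).2.2.2.2)
  refine ⟨b, y, fun k => (σ k).1.1, fun k => (σ k).1.2.1, fun k => (σ k).1.2.2, R, hbi, hyi,
    intF_fst' hv, intF_fst' (intF_snd' hv), intF_snd' (intF_snd' hv), hb, hbU,
    congrArg (fun τ : St => τ.1.1) hσ0, congrArg (fun τ : St => τ.1.2.1) hσ0,
    congrArg (fun τ : St => τ.1.2.2) hσ0, fun k => (hplay k).1, fun k => (hplay k).2.1,
    fun k => (σ k).2, hR1, ?_, hR3⟩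
  intro k
  change R.1.T ⊆ (σ k).1.2.1.1.T
  rw [hR2]
  exact Set.iInter_subset _ k

end Pool.Agent.SOUi
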