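import Pool.Agent.Lib_MP_a0d45a_int.Cutsi
import Pool.Agent.Lib_MP_a0d45a_lc.Game

/-!
# Piece GAMEI: the combined game (port of `Lib_MP_a0d45a_lc/Game.lean`)

The finite sets `R N` of reachable states are given by an internal function `ℕ → ISet 𝔐 St`
(`int_rec'`); finiteness and the bounds are proved as in stage A. The resulting sequences are defined
by recursion from internal data, so they are internal (`int_rec_of` or `int_rec'` on
`St`, with `b`, `y` internal).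
-/

set_option autoImplicit false

namespace Pool.Agent.SOUi

open Pool.Agent.SOU Pool.Agent.HMod

universe w

variable {𝔐 : HM.{w}} {K : Type} [Field K] [DecidableEq K] [Countable K] [Std 𝔐 K]
  {F : Filter (ℕ →₀ K)} {U : Filter (Finset ℕ)}

/-- `τ` is in `S` or reachable from `S` by one move below `N` -/
def gmRel {St : Type} (next : St → Finset ℕ → (ℕ →₀ K) → St) (N : ℕ) (S : Set St) (τ : St) :
    Prop :=
  τ ∈ S ∨ ∃ σ, σ ∈ S ∧ ∃ (b : Finset ℕ) (y : ℕ →₀ K), Hi N b ∧ Hi N (Finsupp.support y) ∧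
    τ = next σ b y

theorem gm_int {St : Type} [Cod 𝔐 St] {next : St → Finset ℕ → (ℕ →₀ K) → St}
    (hnext : IntF 𝔐 (fun q : St × Finset ℕ × (ℕ →₀ K) => next q.1 q.2.1 q.2.2)) :
    Int 𝔐 (fun q : (ℕ × ISet 𝔐 St) × St => gmRel next q.1.1 q.1.2.1 q.2) := by
  refine int_or ?_ (int_ex (int_and ?_ (int_ex (int_ex (int_and ?_ (int_and ?_ ?_))))))
  · exact HMod.int_memF intF_snd (intF_snd' (intF_fst' intF_id))
  · exact HMod.int_memF (intF_snd' intF_id) (intF_snd' (intF_fst' (intF_fst' intF_id)))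
  · exact int_hi (intF_fst' (intF_fst' (intF_fst' (intF_fst' (intF_fst' intF_id)))))
      (intF_snd' (intF_fst' intF_id))
  · exact int_hi (intF_fst' (intF_fst' (intF_fst' (intF_fst' (intF_fst' intF_id)))))
      (intF_suppF (intF_snd' intF_id))
  · exact int_eqF (intF_snd' (intF_fst' (intF_fst' (intF_fst' intF_id))))
      (intF_comp hnext (intF_pair (intF_snd' (intF_fst' (intF_fst' intF_id)))
        (intF_pair (intF_snd' (intF_fst' intF_id)) (intF_snd' intF_id))))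

/-- the singleton of the first state -/
def gm0 {St : Type} [Cod 𝔐 St] (σ₀ : St) : ISet 𝔐 St :=
  ⟨{σ₀}, int_of_finite (Set.finite_singleton σ₀)⟩

/-- the internal set of the states reachable from `σ₀` by at most `n` moves below `N` -/
noncomputable def gmR {St : Type} [Cod 𝔐 St] {next : St → Finset ℕ → (ℕ →₀ K) → St}
    (hnext : IntF 𝔐 (fun q : St × Finset ℕ × (ℕ →₀ K) => next q.1 q.2.1 q.2.2)) (σ₀ : St)
    (N n : ℕ) : ISet 𝔐 St :=
  Nat.rec (gm0 σ₀)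
    (fun _ S => mkS (R := fun (q : ℕ × ISet 𝔐 St) τ => gmRel next q.1 q.2.1 τ) (gm_int hnext)
      (N, S)) n

section
variable {St : Type} [Cod 𝔐 St] {next : St → Finset ℕ → (ℕ →₀ K) → St}
  (hnext : IntF 𝔐 (fun q : St × Finset ℕ × (ℕ →₀ K) => next q.1 q.2.1 q.2.2)) (σ₀ : St)

theorem gmR_int : IntF 𝔐 (fun q : ℕ × ℕ => gmR hnext σ₀ q.1 q.2) := by
  have h1 : IntF 𝔐 (fun q : ℕ × ℕ × ISet 𝔐 St =>
      mkS (R := fun (q : ℕ × ISet 𝔐 St) τ => gmRel next q.1 q.2.1 τ) (gm_int hnext)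
        (q.1, q.2.2)) :=
    intF_comp (intF_mkS (R := fun (q : ℕ × ISet 𝔐 St) τ => gmRel next q.1 q.2.1 τ)
      (gm_int hnext)) (intF_pair intF_fst (intF_snd' intF_snd))
  exact int_rec (a₀ := fun _ : ℕ => (gm0 σ₀ : ISet 𝔐 St))
    (g := fun N _ S => mkS (R := fun (q : ℕ × ISet 𝔐 St) τ => gmRel next q.1 q.2.1 τ)
      (gm_int hnext) (N, S)) (intF_const _) h1

theorem gmR_zero (N : ℕ) : (gmR hnext σ₀ N 0).1 = {σ₀} := rfl

theorem gmR_succ (N n : ℕ) :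
    (gmR hnext σ₀ N (n + 1)).1 = {τ | gmRel next N (gmR hnext σ₀ N n).1 τ} := rfl

theorem gmR_finite
    (hfin : ∀ σ N, {τ | ∃ b y, Hi N b ∧ Hi N (Finsupp.support y) ∧ τ = next σ b y}.Finite)
    (N n : ℕ) : (gmR hnext σ₀ N n).1.Finite := by
  induction n with
  | zero => exact Set.finite_singleton _
  | succ n ih =>
    refine (ih.union (ih.biUnion fun σ _ => hfin σ N)).subset ?_
    rintro τ (h | ⟨σ, hσ, h⟩)
    · exact Or.inl h
    · exact Or.inr (Set.mem_iUnion₂.2 ⟨σ, hσ, h⟩)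

theorem gmR_mono (N : ℕ) {m n : ℕ} (h : m ≤ n) :
    (gmR hnext σ₀ N m).1 ⊆ (gmR hnext σ₀ N n).1 := by
  induction h with
  | refl => exact subset_rfl
  | step _ ih => exact ih.trans fun τ hτ => Or.inl hτ

theorem gmR_mem (N : ℕ) (b : ℕ → Finset ℕ) (y : ℕ → ℕ →₀ K) (σ : ℕ → St) (h0 : σ 0 = σ₀)
    (hs : ∀ k, σ (k + 1) = next (σ k) (b k) (y k)) (l : ℕ)
    (hb : ∀ i < l, Hi N (b i)) (hy : ∀ i < l, Hi N (y i).support) :
    σ l ∈ (gmR hnext σ₀ N l).1 := by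
  induction l with
  | zero => exact h0
  | succ l ih =>
    exact Or.inr ⟨σ l, ih (fun i hi => hb i (by omega)) (fun i hi => hy i (by omega)), b l, y l,
      hb l (by omega), hy l (by omega), hs l⟩

end

theorem game_i (hU : IsSOUi 𝔐 U) (hF : IsPPlusi 𝔐 F) {St : Type} [Cod 𝔐 St]
    (A : St → Set (Finset ℕ)) (X : St → Set (ℕ →₀ K)) (lev : St → ℕ)
    (next : St → Finset ℕ → (ℕ →₀ K) → St)
    (hAi : Int 𝔐 (fun q : St × Finset ℕ => q.2 ∈ A q.1))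
    (hXi : Int 𝔐 (fun q : St × (ℕ →₀ K) => q.2 ∈ X q.1))
    (hlev : IntF 𝔐 lev)
    (hnext : IntF 𝔐 (fun q : St × Finset ℕ × (ℕ →₀ K) => next q.1 q.2.1 q.2.2))
    (hA : ∀ σ, A σ ∈ U) (hX : ∀ σ, X σ ∈ F)
    (hfin : ∀ σ N, {τ | ∃ b y, Hi N b ∧ Hi N (Finsupp.support y) ∧ τ = next σ b y}.Finite)
    (σ₀ : St) :
    ∃ (b : ℕ → Finset ℕ) (y : ℕ → ℕ →₀ K) (σ : ℕ → St), IntF 𝔐 b ∧ IntF 𝔐 y ∧ IntF 𝔐 σ ∧
      σ 0 = σ₀ ∧
      (∀ k, σ (k + 1) = next (σ k) (b k) (y k)) ∧ (∀ k, b k ∈ A (σ k)) ∧ (∀ k, y k ∈ X (σ k)) ∧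
      (∀ k, Lo (lev (σ k)) (b k)) ∧ (∀ k, Lo (lev (σ k)) (y k).support) ∧
      BlkF b ∧ Blk y ∧ fu b ∈ U ∧ bs y ∈ F := by
  have hRi : IntF 𝔐 (fun N : ℕ => gmR hnext σ₀ N N) :=
    intF_comp (gmR_int hnext σ₀) (intF_pair intF_id intF_id)
  have hRf : ∀ N, (gmR hnext σ₀ N N).1.Finite := fun N => gmR_finite hnext σ₀ hfin N N
  -- the sets
  have hAi' : Int 𝔐 (fun q : ℕ × Finset ℕ => q.2 ∈ {b | ∀ σ, σ ∈ (gmR hnext σ₀ q.1 q.1).1 →
      b ∈ A σ}) := by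
    refine int_all (int_imp ?_ ?_)
    · exact HMod.int_memF (intF_snd' intF_id) (intF_comp hRi (intF_fst' (intF_fst' intF_id)))
    · exact int_comp hAi (intF_pair (intF_snd' intF_id) (intF_snd' (intF_fst' intF_id)))
  have hXi' : Int 𝔐 (fun q : ℕ × (ℕ →₀ K) => q.2 ∈ {v | ∀ σ, σ ∈ (gmR hnext σ₀ q.1 q.1).1 →
      v ∈ X σ}) := by
    refine int_all (int_imp ?_ ?_)
    · exact HMod.int_memF (intF_snd' intF_id) (intF_comp hRi (intF_fst' (intF_fst' intF_id)))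
    · exact int_comp hXi (intF_pair (intF_snd' intF_id) (intF_snd' (intF_fst' intF_id)))
  obtain ⟨A₁, hA₁i, hA₁, hA₁U, hk⟩ := U_pseudo_i (𝔐 := 𝔐) hU
    (fun N => {b | ∀ σ, σ ∈ (gmR hnext σ₀ N N).1 → b ∈ A σ}) hAi' (fun N => by
      have h1 := (Filter.biInter_mem (hRf N)).2 fun σ (_ : σ ∈ (gmR hnext σ₀ N N).1) => hA σ
      refine Filter.mem_of_superset h1 ?_
      intro b hb σ hσ
      exact Set.mem_iInter₂.1 hb σ hσ)
  obtain ⟨Y₁, hY₁i, hY₁, hY₁F, hk'⟩ := F_pseudo_i (𝔐 := 𝔐) hF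
    (fun N => {v | ∀ σ, σ ∈ (gmR hnext σ₀ N N).1 → v ∈ X σ}) hXi' (fun N => by
      have h1 := (Filter.biInter_mem (hRf N)).2 fun σ (_ : σ ∈ (gmR hnext σ₀ N N).1) => hX σ
      refine Filter.mem_of_superset h1 ?_
      intro b hb σ hσ
      exact Set.mem_iInter₂.1 hb σ hσ)
  obtain ⟨k, hki, hk⟩ := int_cc (𝔐 := 𝔐) (R := fun n k : ℕ => ∀ b, b ∈ fu A₁ → Lo k b →
      b ∈ {b | ∀ σ, σ ∈ (gmR hnext σ₀ n n).1 → b ∈ A σ}) (by
    refine int_all (int_imp ?_ (int_imp ?_ ?_))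
    · exact int_comp (int_fu hA₁i) (intF_snd' intF_id)
    · exact int_lo (intF_snd' (intF_fst' intF_id)) (intF_snd' intF_id)
    · exact int_comp hAi' (intF_pair (intF_fst' (intF_fst' intF_id)) (intF_snd' intF_id))) hk
  obtain ⟨k', hki', hk'⟩ := int_cc (𝔐 := 𝔐) (R := fun n k : ℕ => ∀ v, v ∈ bs Y₁ →
      Lo k (Finsupp.support v) → v ∈ {v | ∀ σ, σ ∈ (gmR hnext σ₀ n n).1 → v ∈ X σ}) (by
    refine int_all (int_imp ?_ (int_imp ?_ ?_))
    · exact int_comp (int_bs hY₁i) (intF_snd' intF_id)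
    · exact int_lo (intF_snd' (intF_fst' intF_id)) (intF_suppF (intF_snd' intF_id))
    · exact int_comp hXi' (intF_pair (intF_fst' (intF_fst' intF_id)) (intF_snd' intF_id))) hk'
  obtain ⟨g, hgi, hg⟩ := int_cc (𝔐 := 𝔐) (R := fun n g : ℕ => ∀ σ,
      σ ∈ (gmR hnext σ₀ n n).1 → lev σ ≤ g) (by
    refine int_all (int_imp ?_ ?_)
    · exact HMod.int_memF (intF_snd' intF_id) (intF_comp hRi (intF_fst' (intF_fst' intF_id)))
    · exact int_leF (intF_comp hlev (intF_snd' intF_id)) (intF_snd' (intF_fst' intF_id))) (by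
    intro N
    obtain ⟨g, hg⟩ := ((hRf N).image lev).bddAbove
    exact ⟨g, fun σ hσ => hg ⟨σ, hσ, rfl⟩⟩)
  obtain ⟨a, ha0, has⟩ : ∃ a : ℕ → ℕ, a 0 = 0 ∧
      ∀ i, a (i + 1) = a i + 1 + k (a i) + k' (a i) + g (a i) :=
    ⟨fun i => Nat.rec 0 (fun _ x => x + 1 + k x + k' x + g x) i, rfl, fun _ => rfl⟩
  have hadd : ∀ {f h : ℕ → ℕ}, IntF 𝔐 f → IntF 𝔐 h → IntF 𝔐 (fun n => f n + h n) :=
    fun hf hh => intF_comp2 (F := fun m n => m + n) (StdF.add) hf hh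
  have hai : IntF 𝔐 a := by
    have h1 : IntF 𝔐 (fun x : ℕ => x + 1 + k x + k' x + g x) :=
      hadd (hadd (hadd (hadd intF_id (intF_const 1)) hki) hki') hgi
    exact int_rec_of (g := fun _ x => x + 1 + k x + k' x + g x)
      (intF_comp (g := fun x : ℕ => x + 1 + k x + k' x + g x) h1 intF_snd) has
  have ha : StrictMono a := strictMono_nat_of_lt_succ fun i => by rw [has i]; omega
  obtain ⟨b, y, j, hbi, hyi, hji, hj, hb, hy, hbU, hyF, hbA, hyY, hb1, hb2, hy1, hy2⟩ :=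
    common_cuts_i hU hF a hai ha hA₁i hA₁ hA₁U hY₁i hY₁ hY₁F
  obtain ⟨σ, hσ0, hσs⟩ : ∃ σ : ℕ → St, σ 0 = σ₀ ∧ ∀ n, σ (n + 1) = next (σ n) (b n) (y n) :=
    ⟨fun n => Nat.rec σ₀ (fun n s => next s (b n) (y n)) n, rfl, fun _ => rfl⟩
  have hσi : IntF 𝔐 σ :=
    int_rec_of (g := fun n s => next s (b n) (y n))
      (intF_comp hnext (intF_pair intF_snd (intF_pair (intF_comp hbi intF_fst)
        (intF_comp hyi intF_fst)))) hσs
  have hmem : ∀ l, σ l ∈ (gmR hnext σ₀ (a (j l)) (a (j l))).1 := by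
    intro l
    have h1 : σ l ∈ (gmR hnext σ₀ (a (j l)) l).1 := by
      refine gmR_mem hnext σ₀ (a (j l)) b y σ hσ0 hσs l ?_ ?_
      · intro i hi x hx
        exact lt_of_lt_of_le (hb2 i x hx) (ha.monotone (hj.monotone (by omega)))
      · intro i hi x hx
        exact lt_of_lt_of_le (hy2 i x hx) (ha.monotone (hj.monotone (by omega)))
    exact gmR_mono hnext σ₀ _ ((hj.le_apply).trans ha.le_apply) h1
  refine ⟨b, y, σ, hbi, hyi, hσi, hσ0, hσs, ?_, ?_, ?_, ?_, hb, hy, hbU, hyF⟩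
  · intro l
    have h2 := hk (a (j l)) (b l) (hbA l) (fun x hx => le_trans (by rw [has]; omega) (hb1 l x hx))
    exact h2 (σ l) (hmem l)
  · intro l
    have h2 := hk' (a (j l)) (y l) (hyY l)
      (fun x hx => le_trans (by rw [has]; omega) (hy1 l x hx))
    exact h2 (σ l) (hmem l)
  · intro l x hx
    have h3 := hg (a (j l)) (σ l) (hmem l)
    exact le_trans (by rw [has]; omega) (hb1 l x hx)
  · intro l x hx
    have h3 := hg (a (j l)) (σ l) (hmem l)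
    exact le_trans (by rw [has]; omega) (hy1 l x hx)

end Pool.Agent.SOUi
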