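import Pool.Agent.Lib_MP_a0d45a_int.GFgeni
import Pool.Agent.Lib_MP_a0d45a_int.USFi
import Pool.Agent.Lib_MP_a0d45a_lc.L2A

/-!
# Piece L2AI (port of `Lib_MP_a0d45a_lc/L2A.lean`)
-/

set_option autoImplicit false

namespace Pool.Agent.SOUi

open Pool.Agent.SOU Pool.Agent.HMod

universe w

variable {𝔐 : HM.{w}} {K : Type} [Field K] [DecidableEq K] [Countable K] [Std 𝔐 K]
  {F : Filter (ℕ →₀ K)}

/-- the extension property of a level -/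
private def LTwoAi_E (T : CdI 𝔐 F) (n : ℕ) (y : ℕ →₀ K) (N : ℕ) : Prop :=
  n < N ∧ Hi N y.support ∧ ∀ s ∈ T.1.T, s.1 = n → ∀ π : Set Typ,
    ∃ t ∈ T.1.T, t.1 = N ∧ Ext s t ∧ Pat n y π t

omit [Std 𝔐 K] in
private theorem LTwoAi_patN {T : CdI 𝔐 F} {n N : ℕ} {y : ℕ →₀ K} {s : Node} :
    (∀ π : Finset Typ, ∃ t : Node, (t ∈ T.1.T ∧ t.1 = N ∧ Ext s t) ∧ Pat n y (π : Set Typ) t) ↔
      ∀ π : Set Typ, ∃ t ∈ T.1.T, t.1 = N ∧ Ext s t ∧ Pat n y π t := by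
  rw [pat_fin]
  constructor
  · intro h π
    obtain ⟨t, ⟨h1, h2, h3⟩, h4⟩ := h π
    exact ⟨t, h1, h2, h3, h4⟩
  · intro h π
    obtain ⟨t, h1, h2, h3, h4⟩ := h π
    exact ⟨t, ⟨h1, h2, h3⟩, h4⟩

omit [Std 𝔐 K] in
private theorem LTwoAi_patX {T : CdI 𝔐 F} {n : ℕ} {y : ℕ →₀ K} {s : Node} :
    (∀ π : Finset Typ, ∃ t : Node, (t ∈ T.1.T ∧ Ext s t) ∧ Pat n y (π : Set Typ) t) ↔
      ∀ π : Set Typ, ∃ t ∈ T.1.T, Ext s t ∧ Pat n y π t := by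
  rw [pat_fin]
  constructor
  · intro h π
    obtain ⟨t, ⟨h1, h3⟩, h4⟩ := h π
    exact ⟨t, h1, h3, h4⟩
  · intro h π
    obtain ⟨t, h1, h3, h4⟩ := h π
    exact ⟨t, ⟨h1, h3⟩, h4⟩

omit [Countable K] in
private theorem LTwoAi_pat_inter {n : ℕ} {y : ℕ →₀ K} {π : Set Typ} {t : Node} :
    Pat n y (π ∩ TT n y) t ↔ Pat n y π t := by
  unfold Pat
  constructor
  · rintro ⟨h1, h2⟩
    refine ⟨h1, fun ϑ hϑ => (h2 ϑ hϑ).trans ?_⟩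
    exact ⟨fun h => h.1, fun h => ⟨h, hϑ⟩⟩
  · rintro ⟨h1, h2⟩
    refine ⟨h1, fun ϑ hϑ => (h2 ϑ hϑ).trans ?_⟩
    exact ⟨fun h => ⟨h, hϑ⟩, fun h => h.1⟩

/-- the extension property is internal -/
private theorem LTwoAi_int_E (T : CdI 𝔐 F) :
    Int 𝔐 (fun q : ℕ × (ℕ →₀ K) × ℕ => LTwoAi_E T q.1 q.2.1 q.2.2) := by
  have : StdF 𝔐 := Std.toStdF (K := K)
  have h : Int 𝔐 (fun q : ℕ × (ℕ →₀ K) × ℕ => q.1 < q.2.2 ∧ Hi q.2.2 q.2.1.support ∧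
      ∀ s : Node, s ∈ T.1.T → s.1 = q.1 → ∀ π : Finset Typ, ∃ t : Node,
        (t ∈ T.1.T ∧ t.1 = q.2.2 ∧ Ext s t) ∧ Pat q.1 q.2.1 (π : Set Typ) t) := by
    refine int_and ?_ (int_and ?_ (int_all (int_imp ?_ (int_imp ?_ (int_all (int_ex (int_and
      (int_and ?_ (int_and ?_ ?_)) ?_)))))))
    · exact int_ltF intF_fst (intF_snd' intF_snd)
    · exact int_hi (intF_snd' intF_snd) (intF_comp (Std.supp (𝔐 := 𝔐) (K := K))
        (intF_fst' intF_snd))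
    · exact int_comp T.2 intF_snd
    · exact int_eqF (intF_fst' intF_snd) (intF_fst' intF_fst)
    · exact int_comp T.2 intF_snd
    · exact int_eqF (intF_fst' intF_snd) (intF_snd' (intF_snd' (intF_fst' (intF_fst' intF_fst))))
    · exact int_comp2 (R := fun s t : Node => Ext s t) (Std.ext (K := K))
        (intF_snd' (intF_fst' intF_fst)) intF_snd
    · exact int_comp (Std.pat (𝔐 := 𝔐) (K := K)) (intF_pair
        (intF_fst' (intF_fst' (intF_fst' intF_fst)))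
        (intF_pair (intF_fst' (intF_snd' (intF_fst' (intF_fst' intF_fst))))
          (intF_pair (intF_snd' intF_fst) intF_snd)))
  refine int_congr (fun q => ?_) h
  unfold LTwoAi_E
  refine and_congr Iff.rfl (and_congr Iff.rfl ?_)
  exact forall_congr' fun s => forall_congr' fun _ => forall_congr' fun _ => LTwoAi_patN

private theorem LTwoAi_int_X (T : CdI 𝔐 F) {S : Set (ℕ →₀ K)} (hS : Int 𝔐 (fun v => v ∈ S)) :
    Int 𝔐 (fun q : ℕ × (ℕ →₀ K) => q.2 ∈ {y : ℕ →₀ K | y ∈ S ∧ y ≠ 0 ∧ Lo q.1 y.support ∧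
      ∀ s ∈ T.1.T, s.1 = q.1 → ∀ π : Set Typ, ∃ t ∈ T.1.T, Ext s t ∧ Pat q.1 y π t}) := by
  have : StdF 𝔐 := Std.toStdF (K := K)
  have h : Int 𝔐 (fun q : ℕ × (ℕ →₀ K) => q.2 ∈ S ∧ q.2 ≠ 0 ∧ Lo q.1 q.2.support ∧
      ∀ s : Node, s ∈ T.1.T → s.1 = q.1 → ∀ π : Finset Typ, ∃ t : Node,
        (t ∈ T.1.T ∧ Ext s t) ∧ Pat q.1 q.2 (π : Set Typ) t) := by
    refine int_and ?_ (int_and ?_ (int_and ?_ (int_all (int_imp ?_ (int_imp ?_ (int_all (int_ex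
      (int_and (int_and ?_ ?_) ?_))))))))
    · exact int_comp hS intF_snd
    · exact int_not (int_eqF intF_snd (intF_const 0))
    · exact int_lo intF_fst (intF_comp (Std.supp (𝔐 := 𝔐) (K := K)) intF_snd)
    · exact int_comp T.2 intF_snd
    · exact int_eqF (intF_fst' intF_snd) (intF_fst' intF_fst)
    · exact int_comp T.2 intF_snd
    · exact int_comp2 (R := fun s t : Node => Ext s t) (Std.ext (K := K))
        (intF_snd' (intF_fst' intF_fst)) intF_snd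
    · exact int_comp (Std.pat (𝔐 := 𝔐) (K := K)) (intF_pair
        (intF_fst' (intF_fst' (intF_fst' intF_fst)))
        (intF_pair (intF_snd' (intF_fst' (intF_fst' intF_fst)))
          (intF_pair (intF_snd' intF_fst) intF_snd)))
  refine int_congr (fun q => ?_) h
  refine and_congr Iff.rfl (and_congr Iff.rfl (and_congr Iff.rfl ?_))
  exact forall_congr' fun s => forall_congr' fun _ => forall_congr' fun _ => LTwoAi_patX

private theorem LTwoAi_exists_N (hF : IsBlockFilteri 𝔐 F) (T : CdI 𝔐 F) (n : ℕ) (y : ℕ →₀ K)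
    (h : ∀ s ∈ T.1.T, s.1 = n → ∀ π : Set Typ, ∃ t ∈ T.1.T, Ext s t ∧ Pat n y π t) :
    ∃ N, LTwoAi_E T n y N := by
  classical
  -- finitely many pairs
  have hfinP : (𝒫 (TT n y)).Finite := (TT_finite n y).finite_subsets
  have hfin : ({t ∈ T.1.T | t.1 = n} ×ˢ (𝒫 (TT n y))).Finite :=
    (T.1.level_finite n).prod hfinP
  -- choose the extensions
  have hch : ∀ p : Node × Set Typ, ∃ N : ℕ, p ∈ {t ∈ T.1.T | t.1 = n} ×ˢ (𝒫 (TT n y)) →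
      ∃ t ∈ T.1.T, t.1 = N ∧ Ext p.1 t ∧ Pat n y p.2 t := by
    intro p
    by_cases hp : p ∈ {t ∈ T.1.T | t.1 = n} ×ˢ (𝒫 (TT n y))
    · obtain ⟨t, ht, h1, h2⟩ := h p.1 hp.1.1 hp.1.2 p.2
      exact ⟨t.1, fun _ => ⟨t, ht, rfl, h1, h2⟩⟩
    · exact ⟨0, fun h => absurd h hp⟩
  choose g hg using hch
  obtain ⟨M, hM⟩ := (hfin.image g).bddAbove
  refine ⟨M + n + mx y.support + 1, by omega, ?_, ?_⟩
  · intro j hj
    have := le_mx hj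
    omega
  · intro s hs hsn π
    have hp : (s, π ∩ TT n y) ∈ {t ∈ T.1.T | t.1 = n} ×ˢ (𝒫 (TT n y)) :=
      ⟨⟨hs, hsn⟩, Set.inter_subset_right⟩
    obtain ⟨t, ht, h1, h2, h3⟩ := hg _ hp
    have hle : g (s, π ∩ TT n y) ≤ M := hM ⟨_, hp, rfl⟩
    obtain ⟨u, hu, hu1, hu2⟩ := T.exists_ext_i hF ht (M + n + mx y.support + 1) (by omega)
    refine ⟨u, hu, hu1, h2.trans hu2, ?_⟩
    have h4 : Pat n y π t := LTwoAi_pat_inter.mp h3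
    exact h4.ext (by rw [← hsn]; exact h2.1) hu2

theorem exists_fused_i [Fact (IsIFil 𝔐 F)] (hK : ∃ a : K, a ≠ 0 ∧ a ≠ 1) (hF : IsPPlusi 𝔐 F)
    (T : CdI 𝔐 F) (n₀ : ℕ) {S₀ : Set (ℕ →₀ K)} (hS : S₀ ∈ F) :
    ∃ (m : ℕ → ℕ) (y : ℕ → ℕ →₀ K), IntF 𝔐 m ∧ IntF 𝔐 y ∧ m 0 = n₀ ∧ Fused T.1 m y ∧
      ∀ k, y k ∈ S₀ := by
  have hstd : StdF 𝔐 := Std.toStdF (K := K)
  have hBF : IsBlockFilteri 𝔐 F := hF.toIsFulli.toIsBlockFilteri
  obtain ⟨T₀, hT₀, hT₀i, hT₀S⟩ := hBF.fil.gen S₀ hS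
  have hU : IsSOUi 𝔐 (F.map Finsupp.support) := US_sou_i hF
  -- the next state
  have hQi : Int 𝔐 (fun q : (ℕ × Typ) × ℕ => ∃ y' : ℕ →₀ K, y' ≠ 0 ∧ Lo q.1.1 y'.support ∧
      ty y' = q.1.2 ∧ LTwoAi_E T q.1.1 y' q.2) := by
    refine int_ex (int_and ?_ (int_and ?_ (int_and ?_ ?_)))
    · exact int_not (int_eqF intF_snd (intF_const 0))
    · exact int_lo (intF_fst' (intF_fst' intF_fst)) (intF_comp (Std.supp (𝔐 := 𝔐) (K := K)) intF_snd)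
    · exact int_eqF (intF_comp (Std.ty (𝔐 := 𝔐) (K := K)) intF_snd) (intF_snd' (intF_fst' intF_fst))
    · exact int_comp3 (R := fun n y N => LTwoAi_E T n y N) (LTwoAi_int_E T)
        (intF_fst' (intF_fst' intF_fst)) intF_snd (intF_snd' intF_fst)
  obtain ⟨nxt, hnxti, hnxt⟩ := int_choice' (𝔐 := 𝔐) (α := ℕ × Typ) (β := ℕ)
    (R := fun p N => ∃ y' : ℕ →₀ K, y' ≠ 0 ∧ Lo p.1 y'.support ∧
      ty y' = p.2 ∧ LTwoAi_E T p.1 y' N) hQi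
  have hX : ∀ n, {y : ℕ →₀ K | y ∈ T₀ ∧ y ≠ 0 ∧ Lo n y.support ∧
      ∀ s ∈ T.1.T, s.1 = n → ∀ π : Set Typ, ∃ t ∈ T.1.T, Ext s t ∧ Pat n y π t} ∈ F := by
    intro n
    have h1 : ∀ᶠ y in F, ∀ s ∈ {t ∈ T.1.T | t.1 = n}, ∀ π : Set Typ,
        ∃ t ∈ T.1.T, Ext s t ∧ Pat n y π t := by
      rw [Filter.eventually_all_finite (T.1.level_finite n)]
      rintro s ⟨hs, hsn⟩
      have := T.1.act s hs
      rw [hsn] at this
      exact this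
    filter_upwards [h1, hT₀, bf_ne_i hBF, bf_tail_i hBF n] with y a1 a2 a3 a4
    exact ⟨a2, a3, a4, fun s hs hsn => a1 s ⟨hs, hsn⟩⟩
  obtain ⟨b, y, σ, -, hyi, hσi, hσ0, hσ, -, hyX, -, hlev, -, hblk, -, hmem⟩ :=
    game_i (𝔐 := 𝔐) hU hF (St := ℕ) (fun _ => Set.univ)
      (fun n => {y : ℕ →₀ K | y ∈ T₀ ∧ y ≠ 0 ∧ Lo n y.support ∧
        ∀ s ∈ T.1.T, s.1 = n → ∀ π : Set Typ, ∃ t ∈ T.1.T, Ext s t ∧ Pat n y π t})
      (fun n => n) (fun n _ y => nxt (n, ty y))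
      (int_congr (fun _ => ⟨fun _ => Set.mem_univ _, fun _ => trivial⟩) (int_const True))
      (LTwoAi_int_X T hT₀i) intF_id
      (intF_comp hnxti (intF_pair intF_fst
        (intF_comp (Std.ty (𝔐 := 𝔐) (K := K)) (intF_snd' intF_snd))))
      (fun _ => Filter.univ_mem) hX
      (by
        intro n N
        apply ((TypB N).finite_toSet.image (fun η => nxt (n, η))).subset
        rintro τ ⟨b, y, -, hy, rfl⟩
        exact ⟨ty y, ty_mem_TypB hy, rfl⟩) n₀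
  have hE : ∀ k, LTwoAi_E T (σ k) (y k) (σ (k + 1)) := by
    intro k
    obtain ⟨h1, h2, h3, h4⟩ := hyX k
    obtain ⟨N, hN⟩ := LTwoAi_exists_N hBF T (σ k) (y k) h4
    have hQ := hnxt (σ k, ty (y k)) ⟨N, y k, h2, h3, rfl, hN⟩
    rw [← hσ k] at hQ
    obtain ⟨y', hy'0, hy'lo, hty, e1, e2, e3⟩ := hQ
    have hty' : ty y' = ty (y k) := hty
    have hsupp : y'.support = (y k).support := by
      have := congrArg Prod.fst hty'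
      rwa [ty_fst, ty_fst] at this
    refine ⟨e1, by rw [← hsupp]; exact e2, ?_⟩
    intro s hs hsn π
    obtain ⟨t, ht, ht1, ht2, ht3⟩ := e3 s hs hsn π
    exact ⟨t, ht, ht1, ht2, (Pat_congr hK hy'0 h2 hy'lo hty').mp ht3⟩
  refine ⟨σ, y, hσi, hyi, hσ0, ⟨strictMono_nat_of_lt_succ fun k => (hE k).1, hblk, hmem,
    hlev, fun k => (hE k).2.1, fun k => (hE k).2.2⟩, fun k => hT₀S (hyX k).1⟩

/-- with `⟨y⟩ ⊆ ⟨X⟩`: `bs_mono` -/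
theorem exists_fused_i' [Fact (IsIFil 𝔐 F)] (hK : ∃ a : K, a ≠ 0 ∧ a ≠ 1) (hF : IsPPlusi 𝔐 F)
    (T : CdI 𝔐 F) (n₀ : ℕ) {X : ℕ → ℕ →₀ K} (hX : bs X ∈ F) :
    ∃ (m : ℕ → ℕ) (y : ℕ → ℕ →₀ K), IntF 𝔐 m ∧ IntF 𝔐 y ∧ m 0 = n₀ ∧ Fused T.1 m y ∧
      bs y ⊆ bs X := by
  obtain ⟨m, y, h1, h2, h3, h4, h5⟩ := exists_fused_i hK hF T n₀ hX
  exact ⟨m, y, h1, h2, h3, h4, bs_mono h5⟩

end Pool.Agent.SOUi
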