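import Pool.Agent.Lib_MP_a0d45a_int.NHi
import Pool.Agent.Lib_MP_a0d45a_int.Demi
import Pool.Agent.Lib_MP_a0d45a_int.UDiagi
import Pool.Agent.Lib_MP_a0d45a_lc.L2B

/-!
# Piece L2BI (port of `Lib_MP_a0d45a_lc/L2B.lean`)

`nh_i'` has to be used uniformly: by `int_choice` the sets `B j τ`, `S j τ` are chosen as internal functions of `(j, τ)` (the
relation `(∀ b ∈ B, ∀ y ∈ S, ty y ≠ η_{j,τ} b) ∧ B ∈ U ∧ S ∈ F` on `ISet 𝔐 (Finset ℕ) × ISet 𝔐 (ℕ →₀ K)` is internal).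
-/

set_option autoImplicit false

namespace Pool.Agent.SOUi

open Pool.Agent.SOU Pool.Agent.HMod

universe w

variable {𝔐 : HM.{w}} {K : Type} [Field K] [DecidableEq K] [Countable K] [Std 𝔐 K]
  {F : Filter (ℕ →₀ K)} {U : Filter (Finset ℕ)}

private theorem l2bi_intF_eta {z : Finset ℕ → ℕ →₀ K} (hz : IntF 𝔐 z) :
    IntF 𝔐 (fun q : (ℕ × Finset ℕ) × Finset ℕ =>
      ty ((z (q.1.2 ∪ q.2)).filter (fun i => q.1.1 ≤ i))) :=
  intF_comp (g := fun v : ℕ →₀ K => ty v) Std.ty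
    (intF_comp (g := fun q : ℕ × (ℕ →₀ K) => q.2.filter (fun i => q.1 ≤ i)) Std.from_
      (intF_pair (intF_fst' intF_fst) (intF_comp hz
        (intF_comp (g := fun q : Finset ℕ × Finset ℕ => q.1 ∪ q.2)
          (StdF.union (𝔐 := 𝔐) (self := Std.toStdF (K := K)))
          (intF_pair (intF_snd' intF_fst) intF_snd)))))

private theorem l2bi_choice (hK : ∃ a : K, a ≠ 0 ∧ a ≠ 1) (hF : IsPPlusi 𝔐 F) (hU : IsSOUi 𝔐 U)
    (z : Finset ℕ → ℕ →₀ K) (hz : IntF 𝔐 z) :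
    ∃ Bs : ℕ → Finset ℕ → Set (Finset ℕ), ∃ Ss : ℕ → Finset ℕ → Set (ℕ →₀ K),
      Int 𝔐 (fun q : (ℕ × Finset ℕ) × Finset ℕ => q.2 ∈ Bs q.1.1 q.1.2) ∧
      (∀ j τ, Bs j τ ∈ U) ∧ (∀ j τ, Ss j τ ∈ F) ∧
      ∀ j τ, ∀ c ∈ Bs j τ, ∀ y ∈ Ss j τ, ty y ≠ ty ((z (τ ∪ c)).filter (fun i => j ≤ i)) := by
  have hη := l2bi_intF_eta hz
  have hR : Int 𝔐 (fun q : (ℕ × Finset ℕ) × (ISet 𝔐 (Finset ℕ) × ISet 𝔐 (ℕ →₀ K)) =>
      q.2.1.1 ∈ U ∧ q.2.2.1 ∈ F ∧ ∀ c : Finset ℕ, c ∈ q.2.1.1 → ∀ y : ℕ →₀ K, y ∈ q.2.2.1 →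
        ¬ (ty y = ty ((z (q.1.2 ∪ c)).filter (fun i => q.1.1 ≤ i)))) := by
    refine int_and ?_ (int_and ?_ (int_all (int_imp ?_ (int_all (int_imp ?_ (int_not ?_))))))
    · exact int_comp (p := fun S : ISet 𝔐 (Finset ℕ) => S.1 ∈ U) hU.fil.def'
        (intF_fst' (intF_snd' intF_id))
    · exact int_comp (p := fun S : ISet 𝔐 (ℕ →₀ K) => S.1 ∈ F) hF.fil.def'
        (intF_snd' (intF_snd' intF_id))
    · exact HMod.int_memF (intF_snd' intF_id) (intF_fst' (intF_snd' (intF_fst' intF_id)))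
    · exact HMod.int_memF (intF_snd' intF_id) (intF_snd' (intF_snd' (intF_fst' (intF_fst' intF_id))))
    · exact int_eqF (intF_comp (g := fun v : ℕ →₀ K => ty v) Std.ty (intF_snd' intF_id))
        (intF_comp (g := fun q : (ℕ × Finset ℕ) × Finset ℕ =>
          ty ((z (q.1.2 ∪ q.2)).filter (fun i => q.1.1 ≤ i))) hη
          (intF_pair (intF_fst' (intF_fst' (intF_fst' intF_id))) (intF_snd' (intF_fst' intF_id))))
  obtain ⟨f, hf, h⟩ := int_choice (𝔐 := 𝔐)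
    (R := fun (a : ℕ × Finset ℕ) (s : ISet 𝔐 (Finset ℕ) × ISet 𝔐 (ℕ →₀ K)) =>
      s.1.1 ∈ U ∧ s.2.1 ∈ F ∧ ∀ c : Finset ℕ, c ∈ s.1.1 → ∀ y : ℕ →₀ K, y ∈ s.2.1 →
        ¬ (ty y = ty ((z (a.2 ∪ c)).filter (fun i => a.1 ≤ i)))) hR (by
      rintro ⟨j, τ⟩
      obtain ⟨B, hB, hBi, S, hS, hSi, h⟩ := nh_i' hK hF hU
        (fun c => ty ((z (τ ∪ c)).filter (fun i => j ≤ i)))
        (intF_comp (g := fun q : (ℕ × Finset ℕ) × Finset ℕ =>
          ty ((z (q.1.2 ∪ q.2)).filter (fun i => q.1.1 ≤ i))) hη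
          (f := fun c : Finset ℕ => ((j, τ), c)) (intF_pair (intF_const (j, τ)) intF_id))
      exact ⟨(⟨B, hBi⟩, ⟨S, hSi⟩), hB, hS, h⟩)
  refine ⟨fun j τ => (f (j, τ)).1.1, fun j τ => (f (j, τ)).2.1, ?_, fun j τ => (h (j, τ)).1,
    fun j τ => (h (j, τ)).2.1, fun j τ => (h (j, τ)).2.2⟩
  exact HMod.int_memF (intF_snd' intF_id) (intF_fst' (intF_comp hf (intF_fst' intF_id)))

theorem avoid_types_i (hK : ∃ a : K, a ≠ 0 ∧ a ≠ 1) (hF : IsPPlusi 𝔐 F) (hU : IsSOUi 𝔐 U)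
    (z : Finset ℕ → ℕ →₀ K) (hz : IntF 𝔐 z) {B : Set (Finset ℕ)} (hB : B ∈ U) :
    ∃ A, IntF 𝔐 A ∧ BlkF A ∧ fu A ∈ U ∧ fu A ⊆ B ∧
      ∀ n, ∀ᶠ y in F, ∀ b ∈ fu A, ty y ≠ ty ((z b).filter (fun i => n ≤ i)) := by
  have hStdF : StdF 𝔐 := Std.toStdF (K := K)
  obtain ⟨Bs, Ss, hBi, hBs, hSs, hne⟩ := l2bi_choice hK hF hU z hz
  obtain ⟨T, hTU, hTi, hTB⟩ := hU.fil.gen B hB
  have hSmem : ∀ n : ℕ, {x | x ∈ T ∧ ∀ j < n + 1, ∀ τ : Finset ℕ, τ ⊆ Finset.range n →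
      x ∈ Bs j τ} ∈ U := by
    intro n
    have h1 : ∀ᶠ x in U, ∀ j ∈ Finset.range (n + 1), ∀ τ ∈ (Finset.range n).powerset,
        x ∈ Bs j τ := by
      rw [Filter.eventually_all_finset]
      intro j _
      rw [Filter.eventually_all_finset]
      intro τ _
      exact hBs j τ
    filter_upwards [hTU, h1] with x hx1 hx2
    exact ⟨hx1, fun j hj τ hτ => hx2 j (Finset.mem_range.2 hj) τ (Finset.mem_powerset.2 hτ)⟩
  obtain ⟨A, hAi, hA, hAU, hA0, hAd⟩ := diag_i hU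
    (fun n => {x | x ∈ T ∧ ∀ j < n + 1, ∀ τ : Finset ℕ, τ ⊆ Finset.range n → x ∈ Bs j τ}) (by
      refine int_and (int_comp hTi (intF_snd' intF_id)) ?_
      refine int_ball (f := fun q : ℕ × Finset ℕ => q.1 + 1) ?_
        (intF_comp intF_succ (intF_fst' intF_id))
      refine int_ballS (f := fun q : (ℕ × Finset ℕ) × ℕ => q.1.1) ?_ (intF_fst' (intF_fst' intF_id))
      exact int_comp hBi (intF_pair (intF_pair (intF_snd' (intF_fst' intF_id)) (intF_snd' intF_id))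
        (intF_snd' (intF_fst' (intF_fst' intF_id))))) hSmem
  refine ⟨A, hAi, hA, hAU, fun b hb => hTB (hA0 hb).1, ?_⟩
  intro j
  have hmxmono : ∀ n, n < j + 1 → mx (A n) ≤ mx (A j) := by
    intro n hn
    rcases Nat.lt_succ_iff_lt_or_eq.1 hn with h | h
    · have h1 := (hA.bef h).mx_lt (hA.ne n) (mx_mem (hA.ne j))
      omega
    · rw [h]
  have hjm : j ≤ mx (A j) := hA.ge j _ (mx_mem (hA.ne j))
  have ev1 : ∀ᶠ y in F, ∀ τ ∈ (Finset.range (mx (A j) + 1)).powerset, y ∈ Ss j τ := by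
    have h0 : (⋂ τ ∈ (Finset.range (mx (A j) + 1)).powerset, Ss j τ) ∈ F := by
      rw [Filter.biInter_finset_mem]
      intro τ _
      exact hSs j τ
    filter_upwards [h0] with y hy τ hτ
    exact Set.mem_iInter₂.1 hy τ hτ
  have ev2 : ∀ᶠ y in F, y ≠ 0 := bf_ne_i hF.toIsBlockFilteri
  have ev3 : ∀ᶠ y in F, Lo ((Finset.range (mx (A j) + 1)).powerset.sup
      (fun τ => mx (z τ).support + 1)) y.support := bf_tail_i hF.toIsBlockFilteri _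
  filter_upwards [ev1, ev2, ev3] with y hy1 hy2 hy3
  intro b hb
  obtain ⟨τ, c, hbc, hτ, hc⟩ := fu_split hA hb (j + 1)
  have hτsub : τ ∈ (Finset.range (mx (A j) + 1)).powerset := by
    rw [Finset.mem_powerset]
    intro i hi
    rw [Finset.mem_range]
    rcases hτ with h | ⟨_, n, hn, hmx⟩
    · rw [h] at hi
      exact absurd hi (Finset.notMem_empty i)
    · have h1 := le_mx hi
      have h2 := hmxmono n hn
      omega
  rcases hc with hc | hc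
  · -- `b = τ` is one of finitely many sets
    rw [hc, Finset.union_empty] at hbc
    rw [hbc]
    intro heq
    have hsupp : y.support = ((z τ).filter (fun i => j ≤ i)).support := by
      have h1 := congrArg Prod.fst heq
      rwa [ty_fst, ty_fst] at h1
    have hyne : y.support.Nonempty := Finsupp.support_nonempty_iff.2 hy2
    obtain ⟨i, hi⟩ := hyne
    have hi2 : i ∈ (z τ).support := by
      rw [hsupp, Finsupp.support_filter] at hi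
      exact (Finset.mem_filter.1 hi).1
    have h3 := hy3 i hi
    have h4 := le_mx hi2
    have h5 : mx (z τ).support + 1 ≤ (Finset.range (mx (A j) + 1)).powerset.sup
        (fun τ => mx (z τ).support + 1) :=
      Finset.le_sup (f := fun τ => mx (z τ).support + 1) hτsub
    omega
  · obtain ⟨hcA, hcB⟩ := (mem_fu_tail hA (j + 1)).1 hc
    have h1 := hAd (A j) (self_mem_fu A j) c hcA (hcB j (Nat.lt_succ_self j))
    have h2 : c ∈ Bs j τ := h1.2 j (by omega) τ (Finset.mem_powerset.1 hτsub)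
    rw [hbc]
    exact hne j τ c h2 y (hy1 τ hτsub)

omit [Countable K] in
private theorem l2bi_hi {T : Cd F} {m : ℕ → ℕ} {y : ℕ → ℕ →₀ K} (hT : Fused T m y) {w : ℕ →₀ K}
    {n : ℕ} (hw : w = 0 ∨ w ∈ bs y) (hb : Bef w.support (y n).support) : Hi (m n) w.support := by
  intro i hi
  rcases hw with h | h
  · rw [h] at hi
    exact absurd hi (by simp)
  · obtain ⟨k, hk1, hk2⟩ := mem_fu_block (supp_mem_fu hT.blk h) hi
    have hblk := hT.blk.blkF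
    have hkn : k < n := by
      by_contra hcon
      have hcon' : n ≤ k := not_lt.1 hcon
      obtain ⟨l, hl⟩ := Finsupp.support_nonempty_iff.2 (hT.blk.ne n)
      rcases Nat.eq_or_lt_of_le hcon' with h1 | h1
      · subst h1
        exact lt_irrefl _ (hb i hi i hk1)
      · have h2 : l < i := hblk.bef h1 l hl i hk1
        have h3 : i < l := hb i hi l hl
        omega
    have h4 : i < m (k + 1) := hT.hi k i hk1
    have h5 : m (k + 1) ≤ m n := hT.mono.monotone hkn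
    omega

omit [Countable K] in
private theorem l2bi_lo {T : Cd F} {m : ℕ → ℕ} {y : ℕ → ℕ →₀ K} (hT : Fused T m y) {w : ℕ →₀ K}
    (hw : w ∈ bs y) : Lo (m 0) w.support := by
  intro i hi
  obtain ⟨k, hk1, hk2⟩ := mem_fu_block (supp_mem_fu hT.blk hw) hi
  have h1 : m k ≤ i := hT.lo k i hk1
  have h2 : m 0 ≤ m k := hT.mono.monotone (Nat.zero_le k)
  omega

theorem prescribe_i (hK : ∃ a : K, a ≠ 0 ∧ a ≠ 1) (hF : IsPPlusi 𝔐 F) (hU : IsSOUi 𝔐 U)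
    {T : CdI 𝔐 F} {m : ℕ → ℕ} {y : ℕ → ℕ →₀ K} (hm : IntF 𝔐 m) (hy : IntF 𝔐 y)
    (hT : Fused T.1 m y) (z : Finset ℕ → ℕ →₀ K) (hzi : IntF 𝔐 z)
    {B : Set (Finset ℕ)} (hB : B ∈ U) (hz : ∀ b ∈ B, z b ∈ bs y)
    (Λ : Finset (Option (Typ × Bool))) :
    ∃ A, IntF 𝔐 A ∧ BlkF A ∧ fu A ∈ U ∧ fu A ⊆ B ∧ ∃ R ≤ T, (∀ s ∈ T.1.T, s.1 = m 0 → s ∈ R.1.T) ∧
      ∀ b ∈ fu A, ∀ t ∈ R.1.T, Hi t.1 (z b).support → ∀ ϑ ∈ TT (m 0) (z b),
        (ϑ ∈ t.2 ↔ ϑ ∈ lab (ty (z b)) '' (Λ : Set (Option (Typ × Bool)))) := by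
  have hStdF : StdF 𝔐 := Std.toStdF (K := K)
  obtain ⟨A, hAi, hA, hAU, hAB, hAt⟩ := avoid_types_i hK hF hU z hzi hB
  have hTTi : Int 𝔐 (fun q : Typ × Finset ℕ => q.1 ∈ TT (m 0) (z q.2)) :=
    int_comp (p := fun q : ℕ × (ℕ →₀ K) × Typ => q.2.2 ∈ TT q.1 q.2.1) Std.TT
      (f := fun q : Typ × Finset ℕ => (m 0, z q.2, q.1))
      (intF_pair (intF_const (m 0)) (intF_pair (intF_comp hzi intF_snd) intF_fst))
  have hlabi : Int 𝔐 (fun q : Typ × Finset ℕ =>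
      q.1 ∈ lab (ty (z q.2)) '' (Λ : Set (Option (Typ × Bool)))) :=
    int_comp (p := fun q : Finset (Option (Typ × Bool)) × (ℕ →₀ K) × Typ =>
      q.2.2 ∈ lab (SOU.ty q.2.1) '' (q.1 : Set (Option (Typ × Bool)))) Std.lab
      (f := fun q : Typ × Finset ℕ => (Λ, z q.2, q.1))
      (intF_pair (intF_const Λ) (intF_pair (intF_comp hzi intF_snd) intF_fst))
  have hfui : Int 𝔐 (fun q : Typ × Finset ℕ => q.2 ∈ fu A) :=
    int_comp (p := fun b : Finset ℕ => b ∈ fu A) (int_fu hAi) intF_snd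
  obtain ⟨R, hR, hsat, hlev⟩ := demand_i hF.toIsBlockFilteri hm hy hT
    {ϑ | ∃ b : Finset ℕ, b ∈ fu A ∧ ϑ ∈ TT (m 0) (z b)}
    {ϑ | ∃ b : Finset ℕ, b ∈ fu A ∧ ϑ ∈ TT (m 0) (z b) ∧
      ϑ ∈ lab (ty (z b)) '' (Λ : Set (Option (Typ × Bool)))}
    (int_ex (int_and hfui hTTi)) (int_ex (int_and hfui (int_and hTTi hlabi))) (by
      rintro ϑ ⟨b, hb, hϑ⟩
      obtain ⟨n, a, ha, w, hv, hw, hbef, _, _⟩ := bs_snoc hT.blk (hz b (hAB hb))
      refine ⟨n, ?_⟩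
      rw [hv] at hϑ
      exact TT_add_subset (hT.mono.monotone (Nat.zero_le n)) (l2bi_hi hT hw hbef) ha hϑ) (by
      intro j
      filter_upwards [bf_tail_i hF.toIsBlockFilteri (m j), hAt (m j)] with v hv2 hv3
      rintro ϑ hϑ ⟨b, hb, hϑ'⟩
      exact hv3 b hb (TT_inter (hT.mono.monotone (Nat.zero_le j)) hv2 hϑ hϑ'))
  refine ⟨A, hAi, hA, hAU, hAB, R, hR, hlev, ?_⟩
  intro b hb t ht hi ϑ hϑ
  have hlob : Lo (m 0) (z b).support := l2bi_lo hT (hz b (hAB hb))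
  have hm0 : m 0 ≤ t.1 := by
    obtain ⟨i, hi1⟩ := Finsupp.support_nonempty_iff.2 (bs_ne_zero (hz b (hAB hb)))
    have h1 := hlob i hi1
    have h2 := hi i hi1
    omega
  have hTyp : ϑ ∈ TypB t.1 := TT_subset_TypB hm0 hi hϑ
  have h3 := hsat t ht ϑ ⟨b, hb, hϑ⟩ hTyp
  rw [h3]
  constructor
  · rintro ⟨b', hb', hϑ', hlab⟩
    have hlob' : Lo (m 0) (z b').support := l2bi_lo hT (hz b' (hAB hb'))
    have h4 : ty (z b) = ty ((z b').filter (fun i => m 0 ≤ i)) :=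
      TT_inter le_rfl hlob hϑ hϑ'
    have h5 : (z b').filter (fun i => m 0 ≤ i) = z b' := by
      rw [Finsupp.filter_eq_self_iff]
      intro i hi'
      exact hlob' i (Finsupp.mem_support_iff.2 hi')
    rw [h5] at h4
    rw [h4]
    exact hlab
  · intro hlab
    exact ⟨b, hb, hϑ, hlab⟩

end Pool.Agent.SOUi
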