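import Pool.Agent.Lib_MP_a0d45a_int.L2Ai
import Pool.Agent.Lib_MP_a0d45a_int.L2Bi
import Pool.Agent.Lib_MP_a0d45a_int.Forci
import Pool.Agent.Lib_MP_a0d45a_lc.L2C

/-!
# Piece L2CI: the main lemma (port of `Lib_MP_a0d45a_lc/L2C.lean`)

`Lab K s.1` is finite, so its subsets are given by `Finset`s `Λ`; `Bad b y Λ` is internal in `(b, y)`.
-/

set_option autoImplicit false

namespace Pool.Agent.SOUi

open Pool.Agent.SOU Pool.Agent.HMod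

universe w

variable {𝔐 : HM.{w}} {K : Type} [Field K] [DecidableEq K] [Countable K] [Std 𝔐 K]
  {F : Filter (ℕ →₀ K)} {U : Filter (Finset ℕ)}

/-- there is a condition below `p` with the property for `extC C b` and the pattern of `Λ` at `v` -/
def L2Q (𝔐 : HM.{w}) [Std 𝔐 K] [Fact (IsIFil 𝔐 F)] (U : Filter (Finset ℕ))
    (Z : Finset ℕ → Set (CdI 𝔐 F))
    (C : Finset (Finset ℕ)) (p : CdI 𝔐 F) (n : ℕ) (Λ : Finset (Option (Typ × Bool)))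
    (b : Finset ℕ) (v : ℕ →₀ K) : Prop :=
  ∃ q : CdI 𝔐 F, q ≤ p ∧ (HHI 𝔐 U Z q (extC C b) ∧ ∀ t : Node, t ∈ q.1.T → (Hi t.1 v.support →
    ∀ ϑ : Typ, ϑ ∈ TT n v → (ϑ ∈ t.2 ↔ ϑ ∈ lab (ty v) '' (Λ : Set (Option (Typ × Bool))))))

theorem int_L2Q [Fact (IsIFil 𝔐 F)] (hU : IsSOUi 𝔐 U) {Z : Finset ℕ → Set (CdI 𝔐 F)}
    (hZ : Int 𝔐 (fun q : Finset ℕ × CdI 𝔐 F => q.2 ∈ Z q.1)) (C : Finset (Finset ℕ))
    (p : CdI 𝔐 F) (n : ℕ) (Λ : Finset (Option (Typ × Bool))) :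
    Int 𝔐 (fun x : Finset ℕ × (ℕ →₀ K) => L2Q 𝔐 U Z C p n Λ x.1 x.2) := by
  have hS : StdF 𝔐 := Std.toStdF K
  refine int_ex (int_and ?_ (int_and ?_ (int_all (int_imp ?_ (int_imp ?_ (int_all
    (int_imp ?_ (int_iff ?_ ?_))))))))
  · exact int_comp2 (R := fun q p : CdI 𝔐 F => q ≤ p) int_cdLe (intF_snd' intF_id) (intF_const p)
  · refine int_comp2 (R := fun (q : CdI 𝔐 F) (D : Finset (Finset ℕ)) => HHI 𝔐 U Z q D)
      (int_HHI int_cdLe hU hZ) (intF_snd' intF_id) ?_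
    exact intF_comp2 (F := fun (D : Finset (Finset ℕ)) (b : Finset ℕ) =>
      D ∪ {b} ∪ D.image (fun τ => τ ∪ b)) hS.extC (intF_const C) (intF_fst' (intF_fst' intF_id))
  · exact int_comp2 (R := fun (t : Node) (q : CdI 𝔐 F) => t ∈ q.1.T) int_cdMem
      (intF_snd' intF_id) (intF_snd' (intF_fst' intF_id))
  · exact int_hi (intF_fst' (intF_snd' intF_id))
      (intF_suppF (intF_snd' (intF_fst' (intF_fst' intF_id))))
  · exact int_comp3 (R := fun (m : ℕ) (v : ℕ →₀ K) (ϑ : Typ) => ϑ ∈ TT m v) (Std.TT)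
      (intF_const n) (intF_snd' (intF_fst' (intF_fst' (intF_fst' intF_id)))) (intF_snd' intF_id)
  · exact int_comp2 (R := fun (ϑ : Typ) (T : Finset Typ) => ϑ ∈ T) (Std.memT K)
      (intF_snd' intF_id) (intF_snd' (intF_snd' (intF_fst' intF_id)))
  · exact int_comp3 (R := fun (Λ : Finset (Option (Typ × Bool))) (v : ℕ →₀ K) (ϑ : Typ) =>
      ϑ ∈ lab (ty v) '' (Λ : Set (Option (Typ × Bool)))) (Std.lab)
      (intF_const Λ) (intF_snd' (intF_fst' (intF_fst' (intF_fst' intF_id)))) (intF_snd' intF_id)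

theorem main_step_i [Fact (IsIFil 𝔐 F)] (hK : ∃ a : K, a ≠ 0 ∧ a ≠ 1) (hF : IsPPlusi 𝔐 F)
    (hU : IsSOUi 𝔐 U) {Z : Finset ℕ → Set (CdI 𝔐 F)}
    (hZ : Int 𝔐 (fun q : Finset ℕ × CdI 𝔐 F => q.2 ∈ Z q.1)) (C : Finset (Finset ℕ))
    (p : CdI 𝔐 F) (s : Node) (hs : p.Stem s) (h : HHI 𝔐 U Z p C) :
    ∃ B ∈ U, ∃ S ∈ F, ∀ b ∈ B, ∀ y ∈ S, ∀ π : Set Typ, ∃ q ≤ p, HHI 𝔐 U Z q (extC C b) ∧
      ∀ t ∈ q.1.T, Hi t.1 y.support → ∀ ϑ ∈ TT s.1 y, (ϑ ∈ t.2 ↔ ϑ ∈ π) := by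
  classical
  have hne : U.NeBot := hU.ne
  by_contra hcon
  have hBF : IsBlockFilteri 𝔐 F := hF.toIsFulli.toIsBlockFilteri
  have h1 : ∀ B ∈ U, ∀ S ∈ F, ∃ b ∈ B, ∃ y ∈ S,
      ∃ Λ : Finset (Option (Typ × Bool)), Λ ∈ (Lab_finite (K := K) s.1).toFinset.powerset ∧
        ¬ L2Q 𝔐 U Z C p s.1 Λ b y := by
    intro B hB S hS
    by_contra hno
    apply hcon
    refine ⟨B, hB, S ∩ ({y | y ≠ 0} ∩ {y | Lo s.1 y.support}),
      Filter.inter_mem hS (Filter.inter_mem (bf_ne_i hBF) (bf_tail_i hBF s.1)), ?_⟩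
    intro b hb y hy π
    obtain ⟨Λ, hΛ, hΛ2⟩ := exists_label hK hy.2.1 hy.2.2 π
    have hfin : Λ.Finite := (Lab_finite (K := K) s.1).subset hΛ
    have hcoe : ((hfin.toFinset : Finset (Option (Typ × Bool))) : Set (Option (Typ × Bool))) = Λ :=
      hfin.coe_toFinset
    by_contra hq
    apply hno
    refine ⟨b, hb, y, hy.1, hfin.toFinset, ?_, ?_⟩
    · rw [Finset.mem_powerset]
      intro x hx
      rw [Set.Finite.mem_toFinset] at hx ⊢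
      exact hΛ hx
    · rintro ⟨q, hqp, hq1, hq2⟩
      apply hq
      refine ⟨q, hqp, hq1, ?_⟩
      intro t ht hhi ϑ hϑ
      rw [hΛ2 ϑ hϑ, ← hcoe]
      exact hq2 t ht hhi ϑ hϑ
  have h2 : ∃ Λ : Finset (Option (Typ × Bool)), ∀ B ∈ U, ∀ S ∈ F,
      ∃ b ∈ B, ∃ y ∈ S, ¬ L2Q 𝔐 U Z C p s.1 Λ b y := by
    by_contra hno
    push Not at hno
    choose B hB S hS hBS using hno
    have hfin : {Λ : Finset (Option (Typ × Bool)) |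
        Λ ∈ (Lab_finite (K := K) s.1).toFinset.powerset}.Finite :=
      Finset.finite_toSet _
    obtain ⟨b, hb, y, hy, Λ, hΛ, hbad⟩ := h1
      (⋂ Λ ∈ {Λ : Finset (Option (Typ × Bool)) |
        Λ ∈ (Lab_finite (K := K) s.1).toFinset.powerset}, B Λ)
      ((Filter.biInter_mem hfin).2 fun Λ _ => hB Λ)
      (⋂ Λ ∈ {Λ : Finset (Option (Typ × Bool)) |
        Λ ∈ (Lab_finite (K := K) s.1).toFinset.powerset}, S Λ)
      ((Filter.biInter_mem hfin).2 fun Λ _ => hS Λ)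
    exact hbad (hBS Λ b (Set.mem_iInter₂.1 hb Λ hΛ) y (Set.mem_iInter₂.1 hy Λ hΛ))
  obtain ⟨Λ, hΛ⟩ := h2
  obtain ⟨m, y, hmi, hyi, hm0, hfus, -⟩ := exists_fused_i hK hF p s.1 (S₀ := {y | y ≠ 0})
    (bf_ne_i hBF)
  have hR : Int 𝔐 (fun x : Finset ℕ × (ℕ →₀ K) => x.2 ∈ bs y ∧ ¬ L2Q 𝔐 U Z C p s.1 Λ x.1 x.2) :=
    int_and (int_comp (p := fun v => v ∈ bs y) (int_bs hyi) intF_snd)
      (int_not (int_L2Q hU hZ C p s.1 Λ))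
  have hBi : Int 𝔐 (fun b : Finset ℕ => ∃ v : ℕ →₀ K, v ∈ bs y ∧ ¬ L2Q 𝔐 U Z C p s.1 Λ b v) :=
    int_ex hR
  have hB : {b : Finset ℕ | ∃ v : ℕ →₀ K, v ∈ bs y ∧ ¬ L2Q 𝔐 U Z C p s.1 Λ b v} ∈ U := by
    rcases hU.ultra _ hBi with hB | hB
    · exact hB
    · exfalso
      obtain ⟨b, hb, v, hv, hbad⟩ := hΛ _ hB _ hfus.mem
      exact hb ⟨v, hv, hbad⟩
  obtain ⟨z, hzi, hz⟩ := int_choice' (R := fun (b : Finset ℕ) (v : ℕ →₀ K) =>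
    v ∈ bs y ∧ ¬ L2Q 𝔐 U Z C p s.1 Λ b v) hR
  obtain ⟨A, -, hA, hAU, hAB, R, hRp, -, hRR⟩ := prescribe_i hK hF hU hmi hyi hfus z hzi hB
    (fun b hb => (hz b hb).1) Λ
  have hHR : HHI 𝔐 U Z R C := HHI.mono int_cdLe hU hZ h hRp
  obtain ⟨b, hbA, q, hqR, hq⟩ := (Filter.nonempty_of_mem (Filter.inter_mem hAU
    (HHI.next int_cdLe hU hZ hHR)))
  refine (hz b (hAB hbA)).2 ⟨q, le_trans hqR hRp, hq, ?_⟩
  intro t ht hhi ϑ hϑ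
  have hϑ' : ϑ ∈ TT (m 0) (z b) := by
    rw [hm0]
    exact hϑ
  exact hRR b hbA t (hqR ht) hhi ϑ hϑ'

end Pool.Agent.SOUi
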