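import Pool.Agent.Lib_MP_a0d45a_int.Thini
import Pool.Agent.Lib_MP_a0d45a_int.RKEi

/-!
# Piece NHI (port of `Lib_MP_a0d45a_lc/NH.lean`)
-/

set_option autoImplicit false

namespace Pool.Agent.SOUi

open Pool.Agent.SOU Pool.Agent.HMod

universe w

variable {𝔐 : HM.{w}} {K : Type} [Field K] [DecidableEq K] [Countable K] [Std 𝔐 K]
  {F : Filter (ℕ →₀ K)}

theorem nh_i (hK : ∃ a : K, a ≠ 0 ∧ a ≠ 1) (hF : IsPPlusi 𝔐 F) {U : Filter (Finset ℕ)}
    (hU : IsSOUi 𝔐 U) (η : Finset ℕ → Typ) (hη : IntF 𝔐 η) :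
    ∃ B ∈ U, ∃ S ∈ F, ∀ b ∈ B, ∀ y ∈ S, ty y ≠ η b := by
  classical
  have hV : IsSOUi 𝔐 (F.map Finsupp.support) := US_sou_i hF
  have hmem : ∀ S : Set (Finset ℕ), S ∈ F.map Finsupp.support →
      {y : ℕ →₀ K | y.support ∈ S} ∈ F := fun S hS => hS
  have hf : IntF 𝔐 (fun b : Finset ℕ => (η b).1) := intF_fst' hη
  have hty : ∀ (b : Finset ℕ) (y : ℕ →₀ K), ty y = η b → y.support = (η b).1 := by
    intro b y h
    rw [← h]
    rfl
  by_cases hfe : U.map (fun b => (η b).1) = F.map Finsupp.support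
  · obtain ⟨B₀, hB₀, hinj₀⟩ := rk_injective_i hU hV hf hfe
    obtain ⟨B, hB, hBi, hBB⟩ := hU.fil.gen B₀ hB₀
    obtain ⟨ν, hνi, hν⟩ := int_choice' (𝔐 := 𝔐)
      (R := fun (a : Finset ℕ) (t : Typ) => ∃ b, (b ∈ B ∧ (η b).1 = a) ∧ t = η b)
      (int_ex (int_and (int_and (int_comp hBi intF_snd)
        (int_eqF (intF_fst' (intF_comp hη intF_snd)) (intF_comp intF_fst intF_fst)))
        (int_eqF (intF_comp intF_snd intF_fst) (intF_comp hη intF_snd))))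
    refine ⟨B, hB, _, thin_i hK hF.toIsFulli ν hνi, ?_⟩
    intro b hb y hy h
    have hs := hty b y h
    apply hy
    obtain ⟨b', ⟨hb', hbs⟩, hν'⟩ := hν y.support ⟨η b, b, ⟨hb, hs.symm⟩, rfl⟩
    have h2 : b' = b := hinj₀ _ (hBB hb') b (hBB hb) (hbs.trans hs)
    rw [hν', h2]
    exact h
  · have hmap : IsIFil 𝔐 (U.map (fun b => (η b).1)) := by
      refine hU.fil.map hf fun S _ => ?_
      refine ⟨⟨(fun b => (η b).1) '' S.1, ?_⟩, rfl⟩
      have h1 : Int 𝔐 (fun a : Finset ℕ => ∃ b, b ∈ S.1 ∧ (η b).1 = a) :=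
        int_ex (int_and (int_comp S.2 intF_snd) (int_eqF (intF_fst' (intF_comp hη intF_snd)) intF_fst))
      exact h1
    have hZ : ∃ Z : Set (Finset ℕ), (∀ᶠ b in U, (η b).1 ∉ Z) ∧ {y : ℕ →₀ K | y.support ∈ Z} ∈ F := by
      by_contra hno
      push Not at hno
      apply hfe
      refine hmap.ext' hV.fil fun S => ?_
      constructor
      · intro hS
        by_contra hS'
        rcases hV.ultra S.1 S.2 with h1 | h1
        · exact hS' h1
        · refine hno S.1ᶜ ?_ h1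
          have hS2 : ∀ᶠ b in U, (η b).1 ∈ S.1 := hS
          filter_upwards [hS2] with b hb hb'
          exact hb' hb
      · intro hS
        by_contra hS'
        have hint : Int 𝔐 (fun b => b ∈ {b : Finset ℕ | (η b).1 ∈ S.1}) :=
          int_comp (p := fun a => a ∈ S.1) (f := fun b => (η b).1) S.2 hf
        rcases hU.ultra _ hint with h1 | h1
        · exact hS' h1
        · exact hno S.1 h1 hS
    obtain ⟨Z, hZU, hZV⟩ := hZ
    refine ⟨_, hZU, _, hZV, ?_⟩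
    intro b hb y hy h
    apply hb
    rw [← hty b y h]
    exact hy

/-- the sets can be taken internal (by `base`) -/
theorem nh_i' (hK : ∃ a : K, a ≠ 0 ∧ a ≠ 1) (hF : IsPPlusi 𝔐 F) {U : Filter (Finset ℕ)}
    (hU : IsSOUi 𝔐 U) (η : Finset ℕ → Typ) (hη : IntF 𝔐 η) :
    ∃ B ∈ U, Int 𝔐 (fun b => b ∈ B) ∧ ∃ S ∈ F, Int 𝔐 (fun v => v ∈ S) ∧
      ∀ b ∈ B, ∀ y ∈ S, ty y ≠ η b := by
  obtain ⟨B, hB, S, hS, h⟩ := nh_i hK hF hU η hη
  obtain ⟨B', hB', hBi, hBB⟩ := hU.fil.gen B hB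
  obtain ⟨S', hS', hSi, hSS⟩ := hF.fil.gen S hS
  exact ⟨B', hB', hBi, S', hS', hSi, fun b hb y hy => h b (hBB hb) y (hSS hy)⟩

end Pool.Agent.SOUi
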