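import Pool.Agent.Lib_MP_a0d45a_int.RKIi
import Pool.Agent.Lib_MP_a0d45a_lc.RKA

/-!
# Piece RKAI (port of `Lib_MP_a0d45a_lc/RKA.lean`)
-/

set_option autoImplicit false

namespace Pool.Agent.SOUi

open Pool.Agent.SOU Pool.Agent.HMod

universe w

theorem rkai_ballS {U : Filter (Finset ℕ)} {n : ℕ} {R : Finset ℕ → Finset ℕ → Prop}
    (h : ∀ p, ∀ᶠ e in U, R p e) : ∀ᶠ e in U, ∀ p, p ⊆ Finset.range n → R p e :=
  ((Filter.eventually_all_finset (Finset.range n).powerset).2 (fun p _ => h p)).mono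
    (fun _ he p hp => he p (Finset.mem_powerset.2 hp))

theorem rk_det_i {𝔐 : HM.{w}} [StdF 𝔐] {U : Filter (Finset ℕ)} (hU : IsSOUi 𝔐 U) {β : Type*}
    [Cod 𝔐 β] {h : Finset ℕ → β} (hh : IntF 𝔐 h) (ha : ¬ CaseAi U h) (hb : ¬ CaseBi U h) :
    ∃ S ∈ U, ∀ x ∈ S, ∀ y ∈ S, h x = h y → mn x = mn y ∧ mx x = mx y := by
  classical
  haveI := hU.ne
  by_cases h3 : CaseIIIi U h
  swap
  · obtain ⟨A, _, _, hAU, hinj⟩ := rk_inj_i hU hh ha hb h3
    refine ⟨fu A, hAU, fun x hx y hy hxy => ?_⟩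
    rw [hinj x hx y hy hxy]
    exact ⟨rfl, rfl⟩
  -- the equivalence relation
  let E : Finset ℕ → Finset ℕ → Prop := fun p q => ∀ᶠ e in U, h (p ∪ e) = h (q ∪ e)
  have iE : Int 𝔐 (fun q : Finset ℕ × Finset ℕ => E q.1 q.2) := by
    refine int_eventually hU.fil (R := fun (q : Finset ℕ × Finset ℕ) e =>
      h (q.1 ∪ e) = h (q.2 ∪ e)) ?_
    refine int_eqF (intF_comp hh (intF_union ?_ ?_)) (intF_comp hh (intF_union ?_ ?_))
    · exact intF_fst' (intF_fst' intF_id)
    · exact intF_snd' intF_id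
    · exact intF_snd' (intF_fst' intF_id)
    · exact intF_snd' intF_id
  have Esymm : ∀ {p q}, E p q → E q p := fun {p q} hpq => by
    filter_upwards [hpq] with e he using he.symm
  have Etrans : ∀ {p q r}, E p q → E q r → E p r := fun {p q r} h1 h2 => by
    filter_upwards [h1, h2] with e he1 he2 using he1.trans he2
  have Eneg : ∀ {p q}, ¬ E p q → ∀ᶠ e in U, h (p ∪ e) ≠ h (q ∪ e) := by
    intro p q h1
    refine (sou_not_iff hU (p := fun e => h (p ∪ e) = h (q ∪ e)) ?_).1 h1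
    exact int_eqF (intF_comp hh (intF_union (intF_const p) intF_id))
      (intF_comp hh (intF_union (intF_const q) intF_id))
  let Kp : Finset ℕ → Prop := fun b => ∀ᶠ x in U, ∀ᶠ x' in U, E (b ∪ x) (b ∪ x')
  have iK : Int 𝔐 (fun b => Kp b) := by
    refine int_eventually hU.fil (R := fun (b : Finset ℕ) x => ∀ᶠ x' in U, E (b ∪ x) (b ∪ x')) ?_
    refine int_eventually hU.fil (R := fun (q : Finset ℕ × Finset ℕ) x' =>
      E (q.1 ∪ q.2) (q.1 ∪ x')) ?_
    refine int_comp2 (R := E) iE (intF_union ?_ ?_) (intF_union ?_ ?_)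
    · exact intF_fst' (intF_fst' intF_id)
    · exact intF_snd' (intF_fst' intF_id)
    · exact intF_fst' (intF_fst' intF_id)
    · exact intF_snd' intF_id
  have hK : ∀ᶠ b in U, Kp b := h3
  have hk : ∀ b, ∃ k, Kp b → ∀ᶠ x in U, E (b ∪ x) k := by
    intro b
    by_cases hb : Kp b
    · obtain ⟨x, hx⟩ := hb.exists
      exact ⟨b ∪ x, fun _ => hx.mono (fun x' hx' => Esymm hx')⟩
    · exact ⟨∅, fun hb' => absurd hb' hb⟩
  have ik : Int 𝔐 (fun q : Finset ℕ × Finset ℕ => Kp q.1 → ∀ᶠ x in U, E (q.1 ∪ x) q.2) := by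
    refine int_imp (int_comp iK intF_fst) ?_
    refine int_eventually hU.fil (R := fun (q : Finset ℕ × Finset ℕ) x => E (q.1 ∪ x) q.2) ?_
    refine int_comp2 (R := E) iE (intF_union ?_ ?_) ?_
    · exact intF_fst' (intF_fst' intF_id)
    · exact intF_snd' intF_id
    · exact intF_snd' (intF_fst' intF_id)
  obtain ⟨k, hki, hk⟩ := int_choice (R := fun (b k : Finset ℕ) =>
    Kp b → ∀ᶠ x in U, E (b ∪ x) k) ik hk
  -- separation
  have hB : ∀ᶠ b in U, ∀ᶠ b' in U, ¬ E b b' := by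
    have h1 : ∀ᶠ b in U, ¬ ∀ᶠ b' in U, E b b' :=
      (sou_not_iff hU (p := fun b => ∀ᶠ b' in U, E b b') (int_eventually hU.fil iE)).1 hb
    filter_upwards [h1] with b hb'
    exact (sou_not_iff hU (p := fun b' => E b b') (iE.slice b)).1 hb'
  have hKK : ∀ᶠ b in U, ∀ᶠ b' in U, ¬ E (k b) (k b') := by
    have h1 := sou_idem_mp hU hB
    filter_upwards [h1, hK] with b hb1 hb2
    obtain ⟨c, hc1, hc2⟩ := (hb1.and (hk b hb2)).exists
    have h2 := sou_idem_mp hU hc1
    filter_upwards [h2, hK] with b' hb1' hb2'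
    obtain ⟨c', hc1', hc2'⟩ := (hb1'.and (hk b' hb2')).exists
    exact fun hE => hc1' (Etrans hc2 (Etrans hE (Esymm hc2')))
  let NC : Finset ℕ → Prop := fun b => ∀ r : β, ∀ᶠ c in U, h (b ∪ c) ≠ r
  have iNC : Int 𝔐 (fun b => NC b) := by
    refine int_all (R := fun (b : Finset ℕ) (r : β) => ∀ᶠ c in U, h (b ∪ c) ≠ r) ?_
    refine int_eventually hU.fil (R := fun (q : Finset ℕ × β) c => h (q.1 ∪ c) ≠ q.2) ?_
    refine int_not (int_eqF (intF_comp hh (intF_union ?_ ?_)) ?_)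
    · exact intF_fst' (intF_fst' intF_id)
    · exact intF_snd' intF_id
    · exact intF_snd' (intF_fst' intF_id)
  have hNC : ∀ᶠ b in U, NC b := by
    have i1 : Int 𝔐 (fun q : Finset ℕ × Finset ℕ => ∀ᶠ c' in U, h (q.1 ∪ q.2) = h (q.1 ∪ c')) := by
      refine int_eventually hU.fil (R := fun (q : Finset ℕ × Finset ℕ) c' =>
        h (q.1 ∪ q.2) = h (q.1 ∪ c')) ?_
      refine int_eqF (intF_comp hh (intF_union ?_ ?_)) (intF_comp hh (intF_union ?_ ?_))
      · exact intF_fst' (intF_fst' intF_id)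
      · exact intF_snd' (intF_fst' intF_id)
      · exact intF_fst' (intF_fst' intF_id)
      · exact intF_snd' intF_id
    have h1 : ∀ᶠ b in U, ¬ ∀ᶠ c in U, ∀ᶠ c' in U, h (b ∪ c) = h (b ∪ c') :=
      (sou_not_iff hU (p := fun b => ∀ᶠ c in U, ∀ᶠ c' in U, h (b ∪ c) = h (b ∪ c'))
        (int_eventually hU.fil i1)).1 ha
    filter_upwards [h1] with b hb1
    have h2 : ∀ᶠ c in U, ¬ ∀ᶠ c' in U, h (b ∪ c) = h (b ∪ c') :=
      (sou_not_iff hU (p := fun c => ∀ᶠ c' in U, h (b ∪ c) = h (b ∪ c'))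
        (Int.slice (R := fun b c : Finset ℕ => ∀ᶠ c' in U, h (b ∪ c) = h (b ∪ c')) i1 b)).1 hb1
    intro r
    refine (sou_not_iff hU (p := fun c => h (b ∪ c) = r)
      (int_eqF (intF_comp hh (intF_union (intF_const b) intF_id)) (intF_const r))).1 ?_
    intro h4
    obtain ⟨c, hc1, hc2⟩ := (h2.and h4).exists
    apply hc1
    filter_upwards [h4] with c' hc'
    rw [hc2, hc']
  -- the sets for the diagonalisation
  let P : ℕ → Finset ℕ → Prop := fun n e =>
    (∀ p, p ⊆ Finset.range n → ∀ q, q ⊆ Finset.range n → ¬ E p q → h (p ∪ e) ≠ h (q ∪ e)) ∧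
    (∀ q, q ⊆ Finset.range n → ∀ x, x ⊆ Finset.range n → NC q → h (q ∪ e) ≠ h x) ∧
    (Kp e ∧ NC e ∧ ∀ᶠ b' in U, ¬ E (k e) (k b')) ∧
    (∀ b, b ⊆ Finset.range n → Kp b → E (b ∪ e) (k b)) ∧
    (∀ b, b ⊆ Finset.range n → (∀ᶠ b' in U, ¬ E (k b) (k b')) → ¬ E (k b) (k e))
  have iF : Int 𝔐 (fun b : Finset ℕ => ∀ᶠ b' in U, ¬ E (k b) (k b')) := by
    refine int_eventually hU.fil (R := fun (b : Finset ℕ) b' => ¬ E (k b) (k b')) ?_
    exact int_not (int_comp2 (R := E) iE (intF_comp hki intF_fst) (intF_comp hki intF_snd))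
  have iP : Int 𝔐 (fun q : ℕ × Finset ℕ => P q.1 q.2) := by
    refine int_and ?_ (int_and ?_ (int_and ?_ (int_and ?_ ?_)))
    · refine int_ballS (R := fun (a : ℕ × Finset ℕ) p => ∀ q, q ⊆ Finset.range a.1 →
        ¬ E p q → h (p ∪ a.2) ≠ h (q ∪ a.2)) ?_ intF_fst
      refine int_ballS (R := fun (a : (ℕ × Finset ℕ) × Finset ℕ) q =>
        ¬ E a.2 q → h (a.2 ∪ a.1.2) ≠ h (q ∪ a.1.2)) ?_ (intF_fst' (intF_fst' intF_id))
      refine int_imp (int_not (int_comp2 (R := E) iE ?_ ?_))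
        (int_not (int_eqF (intF_comp hh (intF_union ?_ ?_)) (intF_comp hh (intF_union ?_ ?_))))
      · exact intF_snd' (intF_fst' intF_id)
      · exact intF_snd' intF_id
      · exact intF_snd' (intF_fst' intF_id)
      · exact intF_snd' (intF_fst' (intF_fst' intF_id))
      · exact intF_snd' intF_id
      · exact intF_snd' (intF_fst' (intF_fst' intF_id))
    · refine int_ballS (R := fun (a : ℕ × Finset ℕ) q => ∀ x, x ⊆ Finset.range a.1 →
        NC q → h (q ∪ a.2) ≠ h x) ?_ intF_fst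
      refine int_ballS (R := fun (a : (ℕ × Finset ℕ) × Finset ℕ) x =>
        NC a.2 → h (a.2 ∪ a.1.2) ≠ h x) ?_ (intF_fst' (intF_fst' intF_id))
      refine int_imp (int_comp iNC ?_)
        (int_not (int_eqF (intF_comp hh (intF_union ?_ ?_)) (intF_comp hh ?_)))
      · exact intF_snd' (intF_fst' intF_id)
      · exact intF_snd' (intF_fst' intF_id)
      · exact intF_snd' (intF_fst' (intF_fst' intF_id))
      · exact intF_snd' intF_id
    · exact int_and (int_comp iK intF_snd) (int_and (int_comp iNC intF_snd) (int_comp (p := fun b : Finset ℕ => ∀ᶠ b' in U, ¬ E (k b) (k b')) iF intF_snd))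
    · refine int_ballS (R := fun (a : ℕ × Finset ℕ) b => Kp b → E (b ∪ a.2) (k b)) ?_ intF_fst
      refine int_imp (int_comp iK intF_snd) (int_comp2 (R := E) iE (intF_union ?_ ?_)
        (intF_comp hki intF_snd))
      · exact intF_snd
      · exact intF_snd' (intF_fst' intF_id)
    · refine int_ballS (R := fun (a : ℕ × Finset ℕ) b =>
        (∀ᶠ b' in U, ¬ E (k b) (k b')) → ¬ E (k b) (k a.2)) ?_ intF_fst
      exact int_imp (int_comp (p := fun b : Finset ℕ => ∀ᶠ b' in U, ¬ E (k b) (k b')) iF intF_snd) (int_not (int_comp2 (R := E) iE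
        (intF_comp hki intF_snd) (intF_comp hki (intF_snd' (intF_fst' intF_id)))))
  have hP : ∀ n, {e | P n e} ∈ U := by
    intro n
    have q1 : ∀ᶠ e in U, ∀ p, p ⊆ Finset.range n → ∀ q, q ⊆ Finset.range n →
        ¬ E p q → h (p ∪ e) ≠ h (q ∪ e) := by
      refine rkai_ballS fun p => rkai_ballS fun q => ?_
      by_cases hpq : E p q
      · exact Filter.Eventually.of_forall fun e he => absurd hpq he
      · filter_upwards [Eneg hpq] with e he _ using he
    have q2 : ∀ᶠ e in U, ∀ q, q ⊆ Finset.range n → ∀ x, x ⊆ Finset.range n →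
        NC q → h (q ∪ e) ≠ h x := by
      refine rkai_ballS fun q => rkai_ballS fun x => ?_
      by_cases hq : NC q
      · filter_upwards [hq (h x)] with e he _ using he
      · exact Filter.Eventually.of_forall fun e he => absurd he hq
    have q4 : ∀ᶠ e in U, ∀ b, b ⊆ Finset.range n → Kp b → E (b ∪ e) (k b) := by
      refine rkai_ballS fun b => ?_
      by_cases hb' : Kp b
      · filter_upwards [hk b hb'] with e he _ using he
      · exact Filter.Eventually.of_forall fun e he => absurd he hb'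
    have q5 : ∀ᶠ e in U, ∀ b, b ⊆ Finset.range n →
        (∀ᶠ b' in U, ¬ E (k b) (k b')) → ¬ E (k b) (k e) := by
      refine rkai_ballS fun b => ?_
      by_cases hb' : ∀ᶠ b' in U, ¬ E (k b) (k b')
      · filter_upwards [hb'] with e he _ using he
      · exact Filter.Eventually.of_forall fun e he => absurd he hb'
    filter_upwards [q1, q2, hK, hNC, hKK, q4, q5] with e h1 h2 h3 h4 h5 h6 h7
    exact ⟨h1, h2, ⟨h3, h4, h5⟩, h6, h7⟩
  obtain ⟨A, hAi, hA, hAU, hA0, hAd⟩ := diag_i hU (fun n => {e | P n e}) iP hP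
  refine ⟨_, sou_three_i hU hAU, ?_⟩
  -- facts about entries
  have hS3 : ∀ b ∈ fu A, Kp b ∧ NC b ∧ ∀ᶠ b' in U, ¬ E (k b) (k b') :=
    fun b hb => (hA0 hb).2.2.1
  have hpr : ∀ j, 0 < j → P (mx (A (j - 1)) + 1) (A j) := by
    intro j hj
    have := hAd (A (j - 1)) (self_mem_fu A _) (A j) (self_mem_fu A j) (hA.bef (by omega))
    exact this
  -- comparison of the last entries
  have last_lt : ∀ {i j m i' j' m'}, m ∈ fu A → Bef (A i) m → Bef m (A j) →
      m' ∈ fu A → Bef (A i') m' → Bef m' (A j') →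
      h (A i ∪ m ∪ A j) = h (A i' ∪ m' ∪ A j') → ¬ j < j' := by
    intro i j m i' j' m' hm h1 h2 hm' h1' h2' hxy hjj
    have hb1 : Bef (A i') (A j') := Bef.trans' h1' h2' (fu_ne hA hm')
    have hq : A i' ∪ m' ∈ fu A := fu_union (self_mem_fu A i') hm'
    have hb2 : Bef (A i' ∪ m') (A j') := Bef.union_left hb1 h2'
    obtain ⟨hj0, hqs⟩ := rka_below hA hq hb2
    have hb3 : Bef (A i) (A j) := Bef.trans' h1 h2 (fu_ne hA hm)
    have hx : A i ∪ m ∪ A j ∈ fu A :=
      fu_union (fu_union (self_mem_fu A i) hm) (self_mem_fu A j)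
    have hb4 : Bef (A i ∪ m ∪ A j) (A j') := by
      have e1 : Bef (A j) (A j') := hA.bef hjj
      exact Bef.union_left (Bef.union_left (Bef.trans' hb3 e1 (hA.ne j))
        (Bef.trans' h2 e1 (hA.ne j))) e1
    obtain ⟨_, hxs⟩ := rka_below hA hx hb4
    exact (hpr j' hj0).2.1 _ hqs _ hxs (hS3 _ hq).2.1 hxy.symm
  have first_lt : ∀ {i j m i' m'}, m ∈ fu A → Bef (A i) m → Bef m (A j) →
      m' ∈ fu A → Bef (A i') m' → Bef m' (A j) →
      h (A i ∪ m ∪ A j) = h (A i' ∪ m' ∪ A j) → ¬ i < i' := by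
    intro i j m i' m' hm h1 h2 hm' h1' h2' hxy hii
    have hsub : ∀ i, A i ⊆ Finset.range (mx (A i) + 1) := by
      intro i t ht
      rw [Finset.mem_range]
      have := le_mx ht
      omega
    have g1 : E (A i ∪ m) (k (A i)) :=
      (hAd (A i) (self_mem_fu A i) m hm h1).2.2.2.1 _ (hsub i)
        (hS3 _ (self_mem_fu A i)).1
    have g2 : E (A i' ∪ m') (k (A i')) :=
      (hAd (A i') (self_mem_fu A i') m' hm' h1').2.2.2.1 _ (hsub i')
        (hS3 _ (self_mem_fu A i')).1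
    have g3 : ¬ E (k (A i)) (k (A i')) :=
      (hAd (A i) (self_mem_fu A i) (A i') (self_mem_fu A i') (hA.bef hii)).2.2.2.2 _
        (hsub i) (hS3 _ (self_mem_fu A i)).2.2
    have g4 : ¬ E (A i ∪ m) (A i' ∪ m') := fun hE => g3 (Etrans (Esymm g1) (Etrans hE g2))
    have hb1 : Bef (A i) (A j) := Bef.trans' h1 h2 (fu_ne hA hm)
    have hb1' : Bef (A i') (A j) := Bef.trans' h1' h2' (fu_ne hA hm')
    obtain ⟨hj0, hs⟩ := rka_below hA (fu_union (self_mem_fu A i) hm) (Bef.union_left hb1 h2)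
    obtain ⟨_, hs'⟩ := rka_below hA (fu_union (self_mem_fu A i') hm') (Bef.union_left hb1' h2')
    exact (hpr j hj0).1 _ hs _ hs' g4 hxy
  intro x hx y hy hxy
  obtain ⟨i, j, m, hm, h1, h2, rfl⟩ := rka_shape hA hx
  obtain ⟨i', j', m', hm', h1', h2', rfl⟩ := rka_shape hA hy
  have hjj : j = j' := by
    have a1 := last_lt hm h1 h2 hm' h1' h2' hxy
    have a2 := last_lt hm' h1' h2' hm h1 h2 hxy.symm
    omega
  subst hjj
  have hii : i = i' := by
    have a1 := first_lt hm h1 h2 hm' h1' h2' hxy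
    have a2 := first_lt hm' h1' h2' hm h1 h2 hxy.symm
    omega
  subst hii
  have f1 : Bef (A i) (A j) := Bef.trans' h1 h2 (fu_ne hA hm)
  refine ⟨?_, ?_⟩
  · rw [Finset.union_assoc, Finset.union_assoc, rka_mn_union (hA.ne i) (Bef.union_right h1 f1),
      rka_mn_union (hA.ne i) (Bef.union_right h1' f1)]
  · rw [rka_mx_union (hA.ne j) (Bef.union_left f1 h2),
      rka_mx_union (hA.ne j) (Bef.union_left f1 h2')]

end Pool.Agent.SOUi
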