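import Pool.Agent.Lib_MP_a0d45a_int.RKi
import Pool.Agent.Lib_MP_a0d45a_lc.RKB

/-!
# Piece RKBI (port of `Lib_MP_a0d45a_lc/RKB.lean`)
-/

set_option autoImplicit false

namespace Pool.Agent.SOUi

open Pool.Agent.SOU Pool.Agent.HMod

universe w

variable {𝔐 : HM.{w}} [StdF 𝔐] {U : Filter (Finset ℕ)} (hU : IsSOUi 𝔐 U) {β : Type*}
    [Cod 𝔐 β] {h : Finset ℕ → β} (hh : IntF 𝔐 h)
include hU hh

theorem caseA_mn_i (ha : CaseAi U h) :
    ∃ S ∈ U, ∀ x ∈ S, ∀ y ∈ S, mn x = mn y → h x = h y := by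
  classical
  have hv : ∀ b : Finset ℕ, ∃ v : β,
      (∀ᶠ c in U, ∀ᶠ c' in U, h (b ∪ c) = h (b ∪ c')) → ∀ᶠ c in U, h (b ∪ c) = v := by
    intro b
    by_cases hb : ∀ᶠ c in U, ∀ᶠ c' in U, h (b ∪ c) = h (b ∪ c')
    · haveI := hU.ne
      obtain ⟨c, hc⟩ := hb.exists
      exact ⟨h (b ∪ c), fun _ => hc.mono (fun c' hc' => hc'.symm)⟩
    · exact ⟨h ∅, fun hb' => absurd hb' hb⟩
  have hi1 : Int 𝔐 (fun q : Finset ℕ × β => (∀ᶠ c in U, ∀ᶠ c' in U, h (q.1 ∪ c) = h (q.1 ∪ c')) →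
      ∀ᶠ c in U, h (q.1 ∪ c) = q.2) := by
    refine int_imp ?_ ?_
    · refine int_eventually hU.fil (R := fun (q : Finset ℕ × β) c =>
        ∀ᶠ c' in U, h (q.1 ∪ c) = h (q.1 ∪ c')) ?_
      refine int_eventually hU.fil (R := fun (q : (Finset ℕ × β) × Finset ℕ) c' =>
        h (q.1.1 ∪ q.2) = h (q.1.1 ∪ c')) ?_
      refine int_eqF (intF_comp hh (intF_union ?_ ?_)) (intF_comp hh (intF_union ?_ ?_))
      · exact intF_fst' (intF_fst' (intF_fst' intF_id))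
      · exact intF_snd' (intF_fst' intF_id)
      · exact intF_fst' (intF_fst' (intF_fst' intF_id))
      · exact intF_snd' intF_id
    · refine int_eventually hU.fil (R := fun (q : Finset ℕ × β) c => h (q.1 ∪ c) = q.2) ?_
      refine int_eqF (intF_comp hh (intF_union ?_ ?_)) ?_
      · exact intF_fst' (intF_fst' intF_id)
      · exact intF_snd' intF_id
      · exact intF_snd' (intF_fst' intF_id)
  obtain ⟨v, hvi, hv⟩ := int_choice (R := fun (b : Finset ℕ) (v : β) =>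
    (∀ᶠ c in U, ∀ᶠ c' in U, h (b ∪ c) = h (b ∪ c')) → ∀ᶠ c in U, h (b ∪ c) = v) hi1 hv
  have hi2 : Int 𝔐 (fun q : Finset ℕ × Finset ℕ => h (q.1 ∪ q.2) = v q.1) :=
    int_eqF (intF_comp hh (intF_union (intF_fst' intF_id) (intF_snd' intF_id)))
      (intF_comp hvi (intF_fst' intF_id))
  obtain ⟨A, hAi, hA, hAU, hR⟩ := diag2_i hU (R := fun b c => h (b ∪ c) = v b) hi2
    (ha.mono (fun b hb => hv b hb))
  refine ⟨_, sou_two_i hU hAU, ?_⟩
  have key : ∀ x ∈ {x | ∃ b ∈ fu A, ∃ c ∈ fu A, Bef b c ∧ x = b ∪ c},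
      ∃ n, mn x = mn (A n) ∧ h x = v (A n) := by
    rintro x ⟨b, hb, c, hc, hbc, rfl⟩
    obtain ⟨n, b', hb', h1, h2⟩ := rkb_first hA hb
    have h3 : A n ⊆ b := by rw [h2]; exact Finset.subset_union_left
    have h4 : Bef (A n) (b' ∪ c) :=
      Bef.union_right h1 (rkb_bef_mono hbc h3 subset_rfl)
    have h5 : b ∪ c = A n ∪ (b' ∪ c) := by rw [h2, Finset.union_assoc]
    refine ⟨n, ?_, ?_⟩
    · rw [h5]; exact rkb_mn_union (hA.ne n) h4
    · rw [h5]; exact hR _ (self_mem_fu A n) _ (rkb_fu_union' hb' hc) h4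
  intro x hx y hy hxy
  obtain ⟨n, h1, h2⟩ := key x hx
  obtain ⟨m, h3, h4⟩ := key y hy
  have h5 : n = m := mn_inj hA (by rw [← h1, ← h3, hxy])
  rw [h2, h4, h5]

theorem caseB_mx_i (hb : CaseBi U h) :
    ∃ S ∈ U, ∀ x ∈ S, ∀ y ∈ S, mx x = mx y → h x = h y := by
  have hi1 : Int 𝔐 (fun q : Finset ℕ × Finset ℕ × Finset ℕ =>
      h (q.1 ∪ q.2.2) = h (q.2.1 ∪ q.2.2)) := by
    refine int_eqF (intF_comp hh (intF_union ?_ ?_)) (intF_comp hh (intF_union ?_ ?_))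
    · exact intF_fst' intF_id
    · exact intF_snd' (intF_snd' intF_id)
    · exact intF_fst' (intF_snd' intF_id)
    · exact intF_snd' (intF_snd' intF_id)
  obtain ⟨A, hAi, hA, hAU, hR⟩ := diag3_i hU (R := fun b b' c => h (b ∪ c) = h (b' ∪ c)) hi1 hb
  have hT : BlkF (fun n => A (n + 1)) := hA.tail 1
  have hTU : fu (fun n => A (n + 1)) ∈ U := sou_fu_tail_i hU hA hAU 1
  refine ⟨_, sou_two_i hU hTU, ?_⟩
  have key : ∀ x ∈ {x | ∃ b ∈ fu (fun n => A (n + 1)), ∃ c ∈ fu (fun n => A (n + 1)),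
      Bef b c ∧ x = b ∪ c}, ∃ n, mx x = mx (A n) ∧ h x = h (A 0 ∪ A n) := by
    rintro x ⟨b, hb, c, hc, hbc, rfl⟩
    obtain ⟨n, c', hc', h1, h2⟩ := rkb_last hT hc
    have h3 : A (n + 1) ⊆ c := by rw [h2]; exact Finset.subset_union_right
    have h3' : c' ⊆ c := by rw [h2]; exact Finset.subset_union_left
    have h4 : Bef (b ∪ c') (A (n + 1)) :=
      Bef.union_left (rkb_bef_mono hbc subset_rfl h3) h1
    have h5 : b ∪ c = (b ∪ c') ∪ A (n + 1) := by rw [h2, Finset.union_assoc]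
    have h6 : b ∪ c' ∈ fu (fun n => A (n + 1)) := by
      rw [Finset.union_comm]; exact rkb_fu_union' hc' hb
    have h7 := (mem_fu_tail hA 1).1 h6
    refine ⟨n + 1, ?_, ?_⟩
    · rw [h5]; exact rkb_mx_union (hA.ne _) h4
    · rw [h5]
      exact (hR _ (self_mem_fu A 0) _ h7.1 _ (self_mem_fu A (n + 1)) (h7.2 0 (by norm_num)) h4).symm
  intro x hx y hy hxy
  obtain ⟨n, h1, h2⟩ := key x hx
  obtain ⟨m, h3, h4⟩ := key y hy
  have h5 : n = m := mx_inj hA (by rw [← h1, ← h3, hxy])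
  rw [h2, h4, h5]

theorem case3_mnmx_i (h3 : CaseIIIi U h) :
    ∃ S ∈ U, ∀ x ∈ S, ∀ y ∈ S, mn x = mn y → mx x = mx y → h x = h y := by
  have hi1 : Int 𝔐 (fun q : Finset ℕ × Finset ℕ × Finset ℕ × Finset ℕ =>
      h (q.1 ∪ q.2.1 ∪ q.2.2.2) = h (q.1 ∪ q.2.2.1 ∪ q.2.2.2)) := by
    refine int_eqF (intF_comp hh (intF_union (intF_union ?_ ?_) ?_))
      (intF_comp hh (intF_union (intF_union ?_ ?_) ?_))
    · exact intF_fst' intF_id
    · exact intF_fst' (intF_snd' intF_id)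
    · exact intF_snd' (intF_snd' (intF_snd' intF_id))
    · exact intF_fst' intF_id
    · exact intF_fst' (intF_snd' (intF_snd' intF_id))
    · exact intF_snd' (intF_snd' (intF_snd' intF_id))
  obtain ⟨A', hAi', hA', hAU', hR⟩ := diag4_i hU
    (R := fun x0 x1 x2 x3 => h (x0 ∪ x1 ∪ x3) = h (x0 ∪ x2 ∪ x3)) hi1 h3
  obtain ⟨A, hAi, hA, hAU, hAA, hg⟩ := gap_lemma_i hU (h := fun i => mx (A' (i + 1)))
    (intF_comp StdF.mx (intF_comp hAi' intF_succ)) hAU'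
  refine ⟨_, sou_three_i hU hAU, ?_⟩
  -- the entry after `A i`
  let r : ℕ → Finset ℕ := fun i => A' (mx (A i) + 1)
  have hr1 : ∀ i, Bef (A i) (r i) := by
    intro i a ha b hb
    have h1 : mx (A i) + 1 ≤ b := hA'.ge _ b hb
    have h2 : a ≤ mx (A i) := le_mx ha
    omega
  have hr2 : ∀ i, Bef (r i) (A (i + 1)) := by
    intro i a ha b hb
    have h1 := hg i (mx (A i)) (mx_mem (hA.ne i)) b hb
    have h2 : a ≤ mx (A' (mx (A i) + 1)) := le_mx ha
    have h1' : mx (A' (mx (A i) + 1)) < b := h1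
    omega
  have key : ∀ x ∈ {x | ∃ b ∈ fu A, ∃ c ∈ fu A, ∃ d ∈ fu A, Bef b c ∧ Bef c d ∧ x = b ∪ c ∪ d},
      ∃ i j, mn x = mn (A i) ∧ mx x = mx (A j) ∧ h x = h (A i ∪ r i ∪ A j) := by
    rintro x ⟨b, hb, c, hc, d, hd, hbc, hcd, rfl⟩
    obtain ⟨i, b', hb', h1, h2⟩ := rkb_first hA hb
    obtain ⟨j, d', hd', h3, h4⟩ := rkb_last hA hd
    have hbd : Bef b d := Bef.trans' hbc hcd (fu_ne hA hc)
    have e1 : A i ⊆ b := by rw [h2]; exact Finset.subset_union_left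
    have e2 : b' ⊆ b := by rw [h2]; exact Finset.subset_union_right
    have e3 : A j ⊆ d := by rw [h4]; exact Finset.subset_union_right
    have e4 : d' ⊆ d := by rw [h4]; exact Finset.subset_union_left
    have hm : b' ∪ c ∪ d' ∈ fu A := by
      rw [Finset.union_comm (b' ∪ c) d']
      exact rkb_fu_union' hd' (rkb_fu_union' hb' hc)
    have f1 : Bef (A i) (b' ∪ c ∪ d') :=
      Bef.union_right (Bef.union_right h1 (rkb_bef_mono hbc e1 subset_rfl))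
        (rkb_bef_mono hbd e1 e4)
    have f2 : Bef (b' ∪ c ∪ d') (A j) :=
      Bef.union_left (Bef.union_left (rkb_bef_mono hbd e2 e3) (rkb_bef_mono hcd subset_rfl e3)) h3
    have hx : b ∪ c ∪ d = A i ∪ (b' ∪ c ∪ d') ∪ A j := by
      rw [h2, h4]; ac_rfl
    have f3 : Bef (A i) (A j) := Bef.trans' f1 f2 (fu_ne hA hm)
    have f4 : Bef (r i) (b' ∪ c ∪ d') := by
      intro a ha k hk
      obtain ⟨n, hn, hn2⟩ := mem_fu_block hm hk
      have h5 : i < n := fu_index_gt hA hm f1 hn2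
      rcases Nat.lt_or_ge (i + 1) n with h6 | h6
      · obtain ⟨e, he⟩ := hA.ne (i + 1)
        exact (hr2 i a ha e he).trans (hA.bef h6 e he k hn)
      · have h7 : n = i + 1 := by omega
        subst h7
        exact hr2 i a ha k hn
    refine ⟨i, j, ?_, ?_, ?_⟩
    · rw [hx, Finset.union_assoc]
      exact rkb_mn_union (hA.ne i) (Bef.union_right f1 f3)
    · rw [hx]
      exact rkb_mx_union (hA.ne j) (Bef.union_left f3 f2)
    · rw [hx]
      exact (hR _ (hAA (self_mem_fu A i)) _ (self_mem_fu A' _) _ (hAA hm) _ (hAA (self_mem_fu A j))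
        (hr1 i) f4 f2).symm
  intro x hx y hy hxy hxy'
  obtain ⟨i, j, h1, h2, h3⟩ := key x hx
  obtain ⟨i', j', h1', h2', h3'⟩ := key y hy
  have h5 : i = i' := mn_inj hA (by rw [← h1, ← h1', hxy])
  have h6 : j = j' := mx_inj hA (by rw [← h2, ← h2', hxy'])
  rw [h3, h3', h5, h6]

end Pool.Agent.SOUi
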