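import Pool.Agent.Lib_MP_a0d45a_int.RKAi
import Pool.Agent.Lib_MP_a0d45a_int.RKBi

/-!
# Piece RKDI (port of `Lib_MP_a0d45a_lc/RKD.lean`)
-/

set_option autoImplicit false

namespace Pool.Agent.SOUi

open Pool.Agent.SOU Pool.Agent.HMod

universe w

/-- a function determined on an internal set `S` by `f` factors through `f` on `S`, by an internal
function -/
theorem rkdi_choice {𝔐 : HM.{w}} {α β γ : Type*} [Cod 𝔐 α] [Cod 𝔐 β] [Cod 𝔐 γ] [Nonempty γ]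
    {f : α → β} {g : α → γ} (hf : IntF 𝔐 f) (hg : IntF 𝔐 g) {S : Set α}
    (hi : Int 𝔐 (fun x => x ∈ S))
    (hS : ∀ x ∈ S, ∀ y ∈ S, f x = f y → g x = g y) :
    ∃ p : β → γ, IntF 𝔐 p ∧ ∀ x ∈ S, p (f x) = g x := by
  obtain ⟨p, hp, hp'⟩ := int_choice' (𝔐 := 𝔐) (α := β) (β := γ)
    (R := fun b c => ∃ x : α, x ∈ S ∧ f x = b ∧ g x = c) (by
      refine int_ex (int_and ?_ (int_and ?_ ?_))
      · exact int_comp (p := fun x => x ∈ S) hi (intF_snd' intF_id)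
      · exact int_eqF (intF_comp hf (intF_snd' intF_id)) (intF_fst' (intF_fst' intF_id))
      · exact int_eqF (intF_comp hg (intF_snd' intF_id)) (intF_snd' (intF_fst' intF_id)))
  refine ⟨p, hp, fun x hx => ?_⟩
  obtain ⟨y, hy, h1, h2⟩ := hp' (f x) ⟨g x, x, hx, rfl, rfl⟩
  rw [← h2]
  exact hS y hy x hx h1

/-- transfer of statements along equal images -/
theorem rkdi_transfer {U V : Filter (Finset ℕ)} {h μ : Finset ℕ → ℕ}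
    (hh : U.map h = V.map μ) (Q : ℕ → Prop) :
    (∀ᶠ x in U, Q (h x)) ↔ ∀ᶠ b in V, Q (μ b) := by
  have h1 : {n | Q n} ∈ U.map h ↔ {n | Q n} ∈ V.map μ := by rw [hh]
  exact h1

theorem rk_case_i {𝔐 : HM.{w}} [StdF 𝔐] {U V : Filter (Finset ℕ)} (hU : IsSOUi 𝔐 U)
    (hV : IsSOUi 𝔐 V) {h : Finset ℕ → ℕ} (hh : IntF 𝔐 h)
    (μ : Finset ℕ → ℕ) (hμ : μ = mn ∨ μ = mx) (he : U.map h = V.map μ) :
    CaseAi U h ∨ CaseBi U h := by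
  by_contra hc
  rw [not_or] at hc
  have := hU.ne
  obtain ⟨S, hS, hdet⟩ := rk_det_i hU hh hc.1 hc.2
  obtain ⟨A₀, hA₀i, -, hA₀U, hA₀S⟩ := hU.base S hS
  obtain ⟨p, hpi, hp⟩ := rkdi_choice (𝔐 := 𝔐) (f := h) (g := mn) (S := fu A₀) hh StdF.mn
    (int_fu hA₀i) (fun x hx y hy hxy => (hdet x (hA₀S hx) y (hA₀S hy) hxy).1)
  have hsel : (∃ r, ∀ᶠ b in V, p (μ b) = r) ∨
      ∃ A, IntF 𝔐 A ∧ BlkF A ∧ fu A ∈ V ∧
        ∀ b ∈ fu A, ∀ c ∈ fu A, p (μ b) = p (μ c) → μ b = μ c := by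
    rcases hμ with rfl | rfl
    · exact sel_mn_i hV hpi
    · exact sel_mx_i hV hpi
  have htr := rkdi_transfer he
  rcases hsel with ⟨r, hr⟩ | ⟨A, -, -, hAV, hA⟩
  · have h1 : ∀ᶠ x in U, p (h x) = r := (htr (fun n => p n = r)).2 hr
    have h2 : ∀ᶠ x in U, x ∈ fu A₀ := hA₀U
    obtain ⟨x, hx1, hx2, hx3⟩ := (h1.and (h2.and (sou_mn_ne_i hU r))).exists
    exact hx3 ((hp x hx2).symm.trans hx1)
  · have h1 : ∀ᶠ b in V, μ b ∈ μ '' fu A := by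
      have h0 : ∀ᶠ b in V, b ∈ fu A := hAV
      exact h0.mono fun b hb => ⟨b, hb, rfl⟩
    have h2 : ∀ᶠ x in U, h x ∈ μ '' fu A :=
      (htr (fun n => n ∈ μ '' fu A)).2 h1
    have h3 : ∀ᶠ x in U, x ∈ fu A₀ := hA₀U
    obtain ⟨b, hb, c, hc, hmn, hmx⟩ := not_mn_det_mx_i hU
      (S := {x | x ∈ fu A₀ ∧ h x ∈ μ '' fu A}) (h3.and h2)
    obtain ⟨hbS, b', hb', hbb⟩ := hb
    obtain ⟨hcS, c', hc', hcc⟩ := hc
    apply hmx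
    refine (hdet b (hA₀S hbS) c (hA₀S hcS) ?_).2
    rw [← hbb, ← hcc]
    apply hA b' hb' c' hc'
    rw [hbb, hcc, hp b hbS, hp c hcS, hmn]

theorem rk_case_i' {𝔐 : HM.{w}} [StdF 𝔐] {U V : Filter (Finset ℕ)} (hU : IsSOUi 𝔐 U)
    (hV : IsSOUi 𝔐 V) {h : Finset ℕ → ℕ} (hh : IntF 𝔐 h)
    (μ : Finset ℕ → ℕ) (hμ : μ = mn ∨ μ = mx) (he : U.map h = V.map μ) :
    ∃ S ∈ U, (∀ x ∈ S, ∀ y ∈ S, (h x = h y ↔ mn x = mn y)) ∨
      (∀ x ∈ S, ∀ y ∈ S, (h x = h y ↔ mx x = mx y)) := by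
  have := hU.ne
  have := hV.ne
  have htr := rkdi_transfer he
  have key : ∀ ν : Finset ℕ → ℕ, ν = mn ∨ ν = mx →
      (∃ S ∈ U, ∀ x ∈ S, ∀ y ∈ S, ν x = ν y → h x = h y) →
      ∃ S ∈ U, ∀ x ∈ S, ∀ y ∈ S, (h x = h y ↔ ν x = ν y) := by
    rintro ν hν ⟨S, hS, hdet⟩
    obtain ⟨A₀, hA₀i, -, hA₀U, hA₀S⟩ := hU.base S hS
    have hνi : IntF 𝔐 ν := by
      rcases hν with rfl | rfl
      · exact StdF.mn
      · exact StdF.mx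
    obtain ⟨g, hgi, hg⟩ := rkdi_choice (𝔐 := 𝔐) (f := ν) (g := h) (S := fu A₀) hνi hh
      (int_fu hA₀i) (fun x hx y hy hxy => hdet x (hA₀S hx) y (hA₀S hy) hxy)
    have hsel : (∃ r, ∀ᶠ b in U, g (ν b) = r) ∨
        ∃ A, IntF 𝔐 A ∧ BlkF A ∧ fu A ∈ U ∧
          ∀ b ∈ fu A, ∀ c ∈ fu A, g (ν b) = g (ν c) → ν b = ν c := by
      rcases hν with rfl | rfl
      · exact sel_mn_i hU hgi
      · exact sel_mx_i hU hgi
    have hS' : ∀ᶠ x in U, x ∈ fu A₀ := hA₀U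
    rcases hsel with ⟨r, hr⟩ | ⟨A, -, -, hAU, hA⟩
    · exfalso
      have h1 : ∀ᶠ x in U, h x = r := by
        filter_upwards [hS', hr] with x hx1 hx2
        rw [← hg x hx1, hx2]
      have h2 : ∀ᶠ b in V, μ b = r := (htr (fun n => n = r)).1 h1
      rcases hμ with rfl | rfl
      · obtain ⟨b, hb1, hb2⟩ := (h2.and (sou_mn_ne_i hV r)).exists
        exact hb2 hb1
      · obtain ⟨b, hb1, hb2⟩ := (h2.and (sou_mx_ne_i hV r)).exists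
        exact hb2 hb1
    · have hA' : ∀ᶠ x in U, x ∈ fu A := hAU
      refine ⟨{x | x ∈ fu A₀ ∧ x ∈ fu A}, hS'.and hA', ?_⟩
      rintro x ⟨hx1, hx2⟩ y ⟨hy1, hy2⟩
      refine ⟨fun hxy => hA x hx2 y hy2 ?_, hdet x (hA₀S hx1) y (hA₀S hy1)⟩
      rw [hg x hx1, hg y hy1, hxy]
  rcases rk_case_i hU hV hh μ hμ he with hc | hc
  · obtain ⟨S, hS, h1⟩ := key mn (Or.inl rfl) (caseA_mn_i hU hh hc)
    exact ⟨S, hS, Or.inl h1⟩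
  · obtain ⟨S, hS, h1⟩ := key mx (Or.inr rfl) (caseB_mx_i hU hh hc)
    exact ⟨S, hS, Or.inr h1⟩

end Pool.Agent.SOUi
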