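import Pool.Agent.Lib_MP_a0d45a_int.RKi

/-!
# Piece RKII (port of `Lib_MP_a0d45a_lc/RKI.lean`)
-/

set_option autoImplicit false

namespace Pool.Agent.SOUi

open Pool.Agent.SOU Pool.Agent.HMod

universe w

theorem rk_inj_i {𝔐 : HM.{w}} [StdF 𝔐] {U : Filter (Finset ℕ)} (hU : IsSOUi 𝔐 U) {β : Type*}
    [Cod 𝔐 β] {h : Finset ℕ → β} (hh : IntF 𝔐 h)
    (ha : ¬ CaseAi U h) (hb : ¬ CaseBi U h) (h3 : ¬ CaseIIIi U h) :
    ∃ A, IntF 𝔐 A ∧ BlkF A ∧ fu A ∈ U ∧ ∀ x ∈ fu A, ∀ y ∈ fu A, h x = h y → x = y := by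
  classical
  let E : Finset ℕ → Finset ℕ → Prop := fun p q => ∀ᶠ e in U, h (p ∪ e) = h (q ∪ e)
  have hEi : ∀ {γ : Type} [Cod 𝔐 γ] {f g : γ → Finset ℕ}, IntF 𝔐 f → IntF 𝔐 g →
      Int 𝔐 (fun a => E (f a) (g a)) := by
    intro γ _ f g hf hg
    refine int_eventually hU.fil (R := fun a e => h (f a ∪ e) = h (g a ∪ e)) ?_
    exact int_eqF (intF_comp hh (intF_union (intF_comp hf intF_fst) intF_snd))
      (intF_comp hh (intF_union (intF_comp hg intF_fst) intF_snd))
  have hEsymm : ∀ p q, E p q → E q p := fun p q hpq => hpq.mono fun e he => he.symm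
  have hEtrans : ∀ p q r, E p q → E q r → E p r := fun p q r h1 h2 => by
    filter_upwards [h1, h2] with e h1 h2 using h1.trans h2
  have hnE : ∀ p q, ¬ E p q → ∀ᶠ e in U, ¬ h (p ∪ e) = h (q ∪ e) :=
    fun p q hpq => (sou_not_iff hU (p := fun e => h (p ∪ e) = h (q ∪ e))
      (int_eqF (intF_comp hh (intF_union (intF_const p) intF_id))
        (intF_comp hh (intF_union (intF_const q) intF_id)))).1 hpq
  let NC : Finset ℕ → Prop := fun q => ∀ r, ¬ ∀ᶠ c in U, h (q ∪ c) = r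
  let ND : Finset ℕ → Prop := fun p' => ∀ q', ∀ᶠ x in U, ¬ E (p' ∪ x) q'
  have hNCi : ∀ {γ : Type} [Cod 𝔐 γ] {f : γ → Finset ℕ}, IntF 𝔐 f →
      Int 𝔐 (fun a => NC (f a)) := by
    intro γ _ f hf
    refine int_all (R := fun a r => ¬ ∀ᶠ c in U, h (f a ∪ c) = r) (int_not ?_)
    refine int_eventually hU.fil (R := fun (q : γ × β) c => h (f q.1 ∪ c) = q.2) ?_
    exact int_eqF (intF_comp hh (intF_union (intF_comp hf (intF_fst' intF_fst)) intF_snd))
      (intF_snd' intF_fst)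
  have hNDi : ∀ {γ : Type} [Cod 𝔐 γ] {f : γ → Finset ℕ}, IntF 𝔐 f →
      Int 𝔐 (fun a => ND (f a)) := by
    intro γ _ f hf
    refine int_all (R := fun a q' => ∀ᶠ x in U, ¬ E (f a ∪ x) q') ?_
    refine int_eventually hU.fil (R := fun (q : γ × Finset ℕ) x => ¬ E (f q.1 ∪ x) q.2) ?_
    exact int_not (hEi (intF_union (intF_comp hf (intF_fst' intF_fst)) intF_snd)
      (intF_snd' intF_fst))
  have hNC0 : NC ∅ := by
    intro r hr
    apply ha
    have h1 : ∀ᶠ c in U, h c = r := by simpa using hr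
    have h2 := sou_idem_mp hU (p := fun c => h c = r) h1
    exact h2.mono fun b hb => hb.mono fun c hc => hb.mono fun c' hc' => hc.trans hc'.symm
  have hNC : ∀ᶠ b in U, NC b := by
    have h0 : Int 𝔐 (fun b : Finset ℕ => ∀ᶠ c in U, ∀ᶠ c' in U, h (b ∪ c) = h (b ∪ c')) := by
      refine int_eventually hU.fil
        (R := fun (b : Finset ℕ) c => ∀ᶠ c' in U, h (b ∪ c) = h (b ∪ c')) ?_
      refine int_eventually hU.fil
        (R := fun (q : Finset ℕ × Finset ℕ) c' => h (q.1 ∪ q.2) = h (q.1 ∪ c')) ?_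
      exact int_eqF (intF_comp hh (intF_union (intF_fst' intF_fst) (intF_snd' intF_fst)))
        (intF_comp hh (intF_union (intF_fst' intF_fst) intF_snd))
    have h1 := (sou_not_iff hU h0).1 ha
    refine h1.mono fun b hb r hr => hb ?_
    exact hr.mono fun c hc => hr.mono fun c' hc' => hc.trans hc'.symm
  have hEri : ∀ p' q', Int 𝔐 (fun x : Finset ℕ => ¬ E (p' ∪ x) q') := fun p' q' =>
    int_not (hEi (intF_union (intF_const p') intF_id) (intF_const q'))
  have hND0 : ND ∅ := by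
    intro q'
    by_contra hc
    have h1 : ∀ᶠ x in U, E (∅ ∪ x) q' := by
      have := (sou_not_iff hU (hEri ∅ q')).1 hc
      exact this.mono fun x hx => not_not.1 hx
    have h2 : ∀ᶠ x in U, E x q' := by simpa using h1
    exact hb (h2.mono fun b hb => h2.mono fun b' hb' => hEtrans _ _ _ hb (hEsymm _ _ hb'))
  have hND : ∀ᶠ b in U, ND b := by
    by_contra hc
    have h1 : ∀ᶠ b in U, ¬ ND b := (sou_not_iff hU (hNDi intF_id)).1 hc
    apply h3
    refine h1.mono fun x0 hx0 => ?_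
    have h2 : ∃ q', ¬ ∀ᶠ x in U, ¬ E (x0 ∪ x) q' := not_forall.1 hx0
    obtain ⟨q', hq'⟩ := h2
    have hq'' : ∀ᶠ x in U, E (x0 ∪ x) q' :=
      ((sou_not_iff hU (hEri x0 q')).1 hq').mono fun x hx => not_not.1 hx
    exact hq''.mono fun x1 hx1 => hq''.mono fun x2 hx2 => hEtrans _ _ _ hx1 (hEsymm _ _ hx2)
  let S : ℕ → Set (Finset ℕ) := fun n => {e |
    (∀ p, p ⊆ Finset.range n → ∀ q, q ⊆ Finset.range n →
      (¬ E p q → h (p ∪ e) ≠ h (q ∪ e)) ∧ (¬ E p q → ¬ E (p ∪ e) (q ∪ e)) ∧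
      (NC p → h (p ∪ e) ≠ h q) ∧ (ND p → ¬ E (p ∪ e) q)) ∧ NC e ∧ ND e}
  have hSi : Int 𝔐 (fun q : ℕ × Finset ℕ => q.2 ∈ S q.1) := by
    have hT : Int 𝔐 (fun t : ((ℕ × Finset ℕ) × Finset ℕ) × Finset ℕ =>
        (¬ E t.1.2 t.2 → h (t.1.2 ∪ t.1.1.2) ≠ h (t.2 ∪ t.1.1.2)) ∧
        (¬ E t.1.2 t.2 → ¬ E (t.1.2 ∪ t.1.1.2) (t.2 ∪ t.1.1.2)) ∧
        (NC t.1.2 → h (t.1.2 ∪ t.1.1.2) ≠ h t.2) ∧ (ND t.1.2 → ¬ E (t.1.2 ∪ t.1.1.2) t.2)) := by
      have ip : IntF 𝔐 (fun t : ((ℕ × Finset ℕ) × Finset ℕ) × Finset ℕ => t.1.2) :=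
        intF_snd' intF_fst
      have iq : IntF 𝔐 (fun t : ((ℕ × Finset ℕ) × Finset ℕ) × Finset ℕ => t.2) := intF_snd
      have ie : IntF 𝔐 (fun t : ((ℕ × Finset ℕ) × Finset ℕ) × Finset ℕ => t.1.1.2) :=
        intF_snd' (intF_fst' intF_fst)
      refine int_and (int_imp (int_not (hEi ip iq)) (int_not (int_eqF
        (intF_comp hh (intF_union ip ie)) (intF_comp hh (intF_union iq ie))))) (int_and
        (int_imp (int_not (hEi ip iq)) (int_not (hEi (intF_union ip ie) (intF_union iq ie))))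
        (int_and (int_imp (hNCi ip) (int_not (int_eqF (intF_comp hh (intF_union ip ie))
          (intF_comp hh iq)))) (int_imp (hNDi ip) (int_not (hEi (intF_union ip ie) iq)))))
    have h1 : Int 𝔐 (fun q : ℕ × Finset ℕ => (∀ p, p ⊆ Finset.range q.1 →
        ∀ r, r ⊆ Finset.range q.1 →
        (¬ E p r → h (p ∪ q.2) ≠ h (r ∪ q.2)) ∧ (¬ E p r → ¬ E (p ∪ q.2) (r ∪ q.2)) ∧
        (NC p → h (p ∪ q.2) ≠ h r) ∧ (ND p → ¬ E (p ∪ q.2) r))) := by
      refine int_ballS (f := fun q : ℕ × Finset ℕ => q.1) (R := fun (q : ℕ × Finset ℕ) p =>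
        ∀ r, r ⊆ Finset.range q.1 →
        (¬ E p r → h (p ∪ q.2) ≠ h (r ∪ q.2)) ∧ (¬ E p r → ¬ E (p ∪ q.2) (r ∪ q.2)) ∧
        (NC p → h (p ∪ q.2) ≠ h r) ∧ (ND p → ¬ E (p ∪ q.2) r)) ?_ intF_fst
      exact int_ballS (f := fun t : (ℕ × Finset ℕ) × Finset ℕ => t.1.1)
        (R := fun (t : (ℕ × Finset ℕ) × Finset ℕ) r =>
        (¬ E t.2 r → h (t.2 ∪ t.1.2) ≠ h (r ∪ t.1.2)) ∧
        (¬ E t.2 r → ¬ E (t.2 ∪ t.1.2) (r ∪ t.1.2)) ∧
        (NC t.2 → h (t.2 ∪ t.1.2) ≠ h r) ∧ (ND t.2 → ¬ E (t.2 ∪ t.1.2) r)) hT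
        (intF_fst' intF_fst)
    exact int_and h1 (int_and (hNCi intF_snd) (hNDi intF_snd))
  have hS : ∀ n, S n ∈ U := by
    intro n
    have h1 : ∀ᶠ e in U,
        ∀ p ∈ (Finset.range n).powerset, ∀ q ∈ (Finset.range n).powerset,
      (¬ E p q → h (p ∪ e) ≠ h (q ∪ e)) ∧ (¬ E p q → ¬ E (p ∪ e) (q ∪ e)) ∧
      (NC p → h (p ∪ e) ≠ h q) ∧ (ND p → ¬ E (p ∪ e) q) := by
      refine (Filter.eventually_all_finset _).2 fun p _ => ?_
      refine (Filter.eventually_all_finset _).2 fun q _ => ?_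
      have e1 : ∀ᶠ e in U, (¬ E p q → h (p ∪ e) ≠ h (q ∪ e)) := by
        by_cases hE : E p q
        · exact Filter.Eventually.of_forall fun e he => absurd hE he
        · exact (hnE p q hE).mono fun e he _ => he
      have e2 : ∀ᶠ e in U, (¬ E p q → ¬ E (p ∪ e) (q ∪ e)) := by
        by_cases hE : E p q
        · exact Filter.Eventually.of_forall fun e he => absurd hE he
        · have h2 := sou_idem_mp hU (p := fun e => ¬ h (p ∪ e) = h (q ∪ e)) (hnE p q hE)
          refine h2.mono fun e he _ hE2 => ?_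
          have := hU.ne
          obtain ⟨c, hc1, hc2⟩ := (he.and hE2).exists
          apply hc1
          simpa [Finset.union_assoc] using hc2
      have e3 : ∀ᶠ e in U, (NC p → h (p ∪ e) ≠ h q) := by
        by_cases hp : NC p
        · exact ((sou_not_iff hU (p := fun e => h (p ∪ e) = h q)
            (int_eqF (intF_comp hh (intF_union (intF_const p) intF_id)) (intF_const (h q)))).1
            (hp (h q))).mono fun e he _ => he
        · exact Filter.Eventually.of_forall fun e he => absurd he hp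
      have e4 : ∀ᶠ e in U, (ND p → ¬ E (p ∪ e) q) := by
        by_cases hp : ND p
        · exact (hp q).mono fun e he _ => he
        · exact Filter.Eventually.of_forall fun e he => absurd he hp
      filter_upwards [e1, e2, e3, e4] with e h1 h2 h3 h4 using ⟨h1, h2, h3, h4⟩
    exact (h1.and (hNC.and hND)).mono fun e he =>
      ⟨fun p hp q hq => he.1 p (Finset.mem_powerset.2 hp) q (Finset.mem_powerset.2 hq), he.2⟩
  obtain ⟨A, hAi, hA, hAU, hA0, hAS⟩ := diag_i hU S hSi hS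
  refine ⟨A, hAi, hA, hAU, ?_⟩
  let N : ℕ → ℕ := fun k => Nat.rec 0 (fun m _ => mx (A m) + 1) k
  have hN0 : N 0 = 0 := rfl
  have hNs : ∀ k, N (k + 1) = mx (A k) + 1 := fun k => rfl
  have hmem : ∀ k, ∀ J : Finset ℕ, J.Nonempty → (∀ j ∈ J, k ≤ j) → J.biUnion A ∈ S (N k) := by
    intro k J hJ hJk
    cases k with
    | zero => exact hA0 ⟨J, hJ, rfl⟩
    | succ k =>
      rw [hNs]
      refine hAS (A k) (self_mem_fu A k) _ ⟨J, hJ, rfl⟩ ?_
      intro i hi j hj
      obtain ⟨l, hl, hjl⟩ := Finset.mem_biUnion.1 hj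
      exact hA.bef (hJk l hl) i hi j hjl
  have hsub : ∀ k, ∀ I : Finset ℕ, (∀ i ∈ I, i < k) →
      I.biUnion A ⊆ Finset.range (N k) := by
    intro k I hI
    intro i hi
    obtain ⟨l, hl, hil⟩ := Finset.mem_biUnion.1 hi
    have h1 := hI l hl
    cases k with
    | zero => omega
    | succ k =>
      rw [hNs, Finset.mem_range]
      rcases Nat.lt_succ_iff_lt_or_eq.1 h1 with h2 | h2
      · have := hA.bef h2 i hil _ (mx_mem (hA.ne k))
        omega
      · subst h2
        have := le_mx hil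
        omega
  have key : ∀ I J : Finset ℕ, ∀ k, k ∈ I → k ∉ J → (∀ i, k < i → (i ∈ I ↔ i ∈ J)) →
      ¬ E (I.biUnion A) (J.biUnion A) := by
    intro I J k hkI hkJ hIJ
    have h1 : ¬ E ((I.filter (· < k)).biUnion A ∪ A k) ((J.filter (· < k)).biUnion A) := by
      have h2 := hmem k {k} (Finset.singleton_nonempty k) (fun j hj => by
        rw [Finset.mem_singleton] at hj; exact hj.ge)
      rw [Finset.singleton_biUnion] at h2
      have h3 := (h2.1 _ (hsub k (I.filter (· < k)) (fun i hi => (Finset.mem_filter.1 hi).2))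
        _ (hsub k (J.filter (· < k)) (fun i hi => (Finset.mem_filter.1 hi).2))).2.2.2
      apply h3
      rcases (I.filter (· < k)).eq_empty_or_nonempty with h4 | h4
      · rw [h4, Finset.biUnion_empty]
        exact hND0
      · exact (hA0 ⟨_, h4, rfl⟩).2.2
    have hI : I.biUnion A = ((I.filter (· < k)).biUnion A ∪ A k) ∪ (I.filter (k < ·)).biUnion A := by
      ext i
      simp only [Finset.mem_biUnion, Finset.mem_union, Finset.mem_filter]
      constructor
      · rintro ⟨l, hl, hil⟩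
        rcases lt_trichotomy l k with h2 | h2 | h2
        · exact Or.inl (Or.inl ⟨l, ⟨hl, h2⟩, hil⟩)
        · exact Or.inl (Or.inr (h2 ▸ hil))
        · exact Or.inr ⟨l, ⟨hl, h2⟩, hil⟩
      · rintro ((⟨l, ⟨hl, _⟩, hil⟩ | h2) | ⟨l, ⟨hl, _⟩, hil⟩)
        · exact ⟨l, hl, hil⟩
        · exact ⟨k, hkI, h2⟩
        · exact ⟨l, hl, hil⟩
    have hJ : J.biUnion A = (J.filter (· < k)).biUnion A ∪ (I.filter (k < ·)).biUnion A := by
      ext i
      simp only [Finset.mem_biUnion, Finset.mem_union, Finset.mem_filter]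
      constructor
      · rintro ⟨l, hl, hil⟩
        rcases lt_trichotomy l k with h2 | h2 | h2
        · exact Or.inl ⟨l, ⟨hl, h2⟩, hil⟩
        · exact absurd (h2 ▸ hl) hkJ
        · exact Or.inr ⟨l, ⟨(hIJ l h2).2 hl, h2⟩, hil⟩
      · rintro (⟨l, ⟨hl, _⟩, hil⟩ | ⟨l, ⟨hl, h2⟩, hil⟩)
        · exact ⟨l, hl, hil⟩
        · exact ⟨l, (hIJ l h2).1 hl, hil⟩
    rw [hI, hJ]
    rcases (I.filter (k < ·)).eq_empty_or_nonempty with h4 | h4
    · rw [h4, Finset.biUnion_empty, Finset.union_empty, Finset.union_empty]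
      exact h1
    · have h5 := hmem (k + 1) _ h4 (fun j hj => (Finset.mem_filter.1 hj).2)
      have h6 : (I.filter (· < k)).biUnion A ∪ A k = (insert k (I.filter (· < k))).biUnion A := by
        rw [Finset.biUnion_insert, Finset.union_comm]
      have h7 : (I.filter (· < k)).biUnion A ∪ A k ⊆ Finset.range (N (k + 1)) := by
        rw [h6]
        refine hsub (k + 1) _ fun i hi => ?_
        rcases Finset.mem_insert.1 hi with h8 | h8
        · omega
        · have := (Finset.mem_filter.1 h8).2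
          omega
      have h8 : (J.filter (· < k)).biUnion A ⊆ Finset.range (N (k + 1)) :=
        hsub (k + 1) _ fun i hi => by
          have := (Finset.mem_filter.1 hi).2
          omega
      exact (h5.1 _ h7 _ h8).2.1 h1
  have key2 : ∀ I J : Finset ℕ, I ≠ J → ¬ E (I.biUnion A) (J.biUnion A) := by
    intro I J hIJ
    have hne : (symmDiff I J).Nonempty := by
      rw [Finset.nonempty_iff_ne_empty]
      intro h0
      exact hIJ (symmDiff_eq_bot.1 h0)
    have hm := (symmDiff I J).max'_mem hne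
    have hgt : ∀ i, (symmDiff I J).max' hne < i → (i ∈ I ↔ i ∈ J) := by
      intro i hi
      by_contra hc
      have : i ∈ symmDiff I J := by
        rw [Finset.mem_symmDiff]
        tauto
      exact absurd ((symmDiff I J).le_max' i this) (not_le.2 hi)
    rcases Finset.mem_symmDiff.1 hm with ⟨h1, h2⟩ | ⟨h1, h2⟩
    · exact key I J _ h1 h2 hgt
    · intro hE
      exact key J I _ h1 h2 (fun i hi => (hgt i hi).symm) (hEsymm _ _ hE)
  have hsplit : ∀ (J : Finset ℕ) (hJ : J.Nonempty),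
      J.biUnion A = (J.erase (J.max' hJ)).biUnion A ∪ A (J.max' hJ) := by
    intro J hJ
    conv_lhs => rw [← Finset.insert_erase (J.max'_mem hJ)]
    rw [Finset.biUnion_insert, Finset.union_comm]
  have hlt : ∀ (J : Finset ℕ) (hJ : J.Nonempty), ∀ j ∈ J.erase (J.max' hJ), j < J.max' hJ := by
    intro J hJ j hj
    obtain ⟨h1, h2⟩ := Finset.mem_erase.1 hj
    exact lt_of_le_of_ne (J.le_max' j h2) h1
  have hcase : ∀ (I J : Finset ℕ) (hI : I.Nonempty) (hJ : J.Nonempty), I.max' hI < J.max' hJ →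
      h (J.biUnion A) ≠ h (I.biUnion A) := by
    intro I J hI hJ hlt'
    have h2 := hmem (J.max' hJ) {J.max' hJ} (Finset.singleton_nonempty _) (fun j hj => by
        rw [Finset.mem_singleton] at hj; exact hj.ge)
    rw [Finset.singleton_biUnion] at h2
    have h3 := (h2.1 _ (hsub (J.max' hJ) (J.erase (J.max' hJ)) (hlt J hJ)) _
      (hsub (J.max' hJ) I (fun i hi => lt_of_le_of_lt (I.le_max' i hi) hlt'))).2.2.1
    rw [hsplit J hJ]
    apply h3
    rcases (J.erase (J.max' hJ)).eq_empty_or_nonempty with h4 | h4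
    · rw [h4, Finset.biUnion_empty]
      exact hNC0
    · exact (hA0 ⟨_, h4, rfl⟩).2.1
  rintro x ⟨I, hI, rfl⟩ y ⟨J, hJ, rfl⟩ hxy
  by_contra hne
  have hIJ : I ≠ J := fun h0 => hne (by rw [h0])
  rcases lt_trichotomy (I.max' hI) (J.max' hJ) with h1 | h1 | h1
  · exact hcase I J hI hJ h1 hxy.symm
  · have h2 := hmem (J.max' hJ) {J.max' hJ} (Finset.singleton_nonempty _) (fun j hj => by
        rw [Finset.mem_singleton] at hj; exact hj.ge)
    rw [Finset.singleton_biUnion] at h2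
    have hne' : I.erase (J.max' hJ) ≠ J.erase (J.max' hJ) := by
      intro h0
      apply hIJ
      rw [← Finset.insert_erase (I.max'_mem hI), h1, h0, Finset.insert_erase (J.max'_mem hJ)]
    have hltI : ∀ i ∈ I.erase (J.max' hJ), i < J.max' hJ := by
      rw [← h1]
      exact hlt I hI
    have h3 := (h2.1 _ (hsub (J.max' hJ) (I.erase (J.max' hJ)) hltI) _
      (hsub (J.max' hJ) (J.erase (J.max' hJ)) (hlt J hJ))).1 (key2 _ _ hne')
    apply h3
    rw [← hsplit J hJ]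
    have h4 := hsplit I hI
    rw [h1] at h4
    rw [← h4]
    exact hxy
  · exact hcase J I hJ hI h1 hxy

end Pool.Agent.SOUi
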