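import Pool.Agent.Lib_MP_a0d45a_int.USeli
import Pool.Agent.Lib_MP_a0d45a_lc.RKI

/-!
# Pieces RKII, RKAI, RKBI, RKDI, RKEI: definitions (port of `RKI.lean` ... `RKE.lean`)
-/

set_option autoImplicit false

namespace Pool.Agent.SOUi

open Pool.Agent.SOU Pool.Agent.HMod

def CaseAi {β : Type*} (U : Filter (Finset ℕ)) (h : Finset ℕ → β) : Prop :=
  ∀ᶠ b in U, ∀ᶠ c in U, ∀ᶠ c' in U, h (b ∪ c) = h (b ∪ c')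

def CaseBi {β : Type*} (U : Filter (Finset ℕ)) (h : Finset ℕ → β) : Prop :=
  ∀ᶠ b in U, ∀ᶠ b' in U, ∀ᶠ c in U, h (b ∪ c) = h (b' ∪ c)

def CaseIIIi {β : Type*} (U : Filter (Finset ℕ)) (h : Finset ℕ → β) : Prop :=
  ∀ᶠ x0 in U, ∀ᶠ x1 in U, ∀ᶠ x2 in U, ∀ᶠ x3 in U, h (x0 ∪ x1 ∪ x3) = h (x0 ∪ x2 ∪ x3)

end Pool.Agent.SOUi
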