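import Pool.Agent.Lib_MP_a0d45a_int.USFi
import Pool.Agent.Lib_MP_a0d45a_lc.Thin

/-!
# Piece THINI (port of `Lib_MP_a0d45a_lc/Thin.lean`; `thin_step` there can be used)
-/

set_option autoImplicit false

namespace Pool.Agent.SOUi

open Pool.Agent.SOU Pool.Agent.HMod

universe w

variable {𝔐 : HM.{w}} {K : Type} [Field K] [DecidableEq K] [Countable K] [Std 𝔐 K]
  {F : Filter (ℕ →₀ K)}

theorem exists_thin_i (hK : ∃ a : K, a ≠ 0 ∧ a ≠ 1) {X : ℕ → ℕ →₀ K} (hXi : IntF 𝔐 X)
    (hX : Blk X) (ν : Finset ℕ → Typ) (hν : IntF 𝔐 ν) :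
    ∃ Z, IntF 𝔐 Z ∧ Blk Z ∧ bs Z ⊆ bs X ∧ ∀ v ∈ bs Z, ty v ≠ ν v.support := by
  have : StdF 𝔐 := Std.toStdF (K := K)
  have hR : Int 𝔐 (fun q : ℕ × (ℕ →₀ K) × (ℕ →₀ K) =>
      Lo (mx q.2.1.support + 1) q.2.2.support ∧
        ∀ u : ℕ →₀ K, Hi (mx q.2.1.support + 1) u.support → ∀ v : ℕ →₀ K,
          (∃ c : K, c ≠ 0 ∧ v = u + c • q.2.2) → ¬ (ty v = ν (u.support ∪ q.2.2.support))) := by
    refine int_and (int_lo ?_ ?_) (int_all (int_imp (int_hi ?_ ?_)
      (int_all (int_imp ?_ (int_not (int_eqF ?_ ?_))))))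
    · exact intF_comp intF_succ (intF_comp StdF.mx (intF_suppF (intF_fst' (intF_snd' intF_id))))
    · exact intF_suppF (intF_snd' (intF_snd' intF_id))
    · exact intF_comp intF_succ
        (intF_comp StdF.mx (intF_suppF (intF_fst' (intF_snd' (intF_fst' intF_id)))))
    · exact intF_suppF (intF_snd' intF_id)
    · exact int_comp3 (R := fun v u b : ℕ →₀ K => ∃ c : K, c ≠ 0 ∧ v = u + c • b) Std.lin
        (intF_snd' intF_id) (intF_snd' (intF_fst' intF_id))
        (intF_snd' (intF_snd' (intF_fst' (intF_fst' intF_id))))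
    · exact intF_comp Std.ty (intF_snd' intF_id)
    · exact intF_comp hν (intF_union (intF_suppF (intF_snd' (intF_fst' intF_id)))
        (intF_suppF (intF_snd' (intF_snd' (intF_fst' (intF_fst' intF_id))))))
  obtain ⟨f, hfi, _, hf⟩ := int_dc (𝔐 := 𝔐) (p := fun _ (v : ℕ →₀ K) => v ∈ bs X)
    (R := fun _ (a b : ℕ →₀ K) => Lo (mx a.support + 1) b.support ∧
        ∀ u : ℕ →₀ K, Hi (mx a.support + 1) u.support → ∀ v : ℕ →₀ K,
          (∃ c : K, c ≠ 0 ∧ v = u + c • b) → ¬ (ty v = ν (u.support ∪ b.support)))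
    (int_comp (int_bs hXi) (intF_snd' intF_id)) hR (a₀ := X 0) (self_mem_bs hX 0) (by
      intro _ a _
      obtain ⟨z, hz1, hz2, hz3⟩ := thin_step hK hX ν ((Finset.range (mx a.support + 1)).powerset)
        (mx a.support + 1) (by
          intro s hs j hj
          exact Finset.mem_range.1 (Finset.mem_powerset.1 hs hj))
      refine ⟨z, hz1, hz2, ?_⟩
      rintro u hu v ⟨c, hc, rfl⟩
      refine hz3 u ?_ c hc
      rw [Finset.mem_powerset]
      intro j hj
      exact Finset.mem_range.2 (hu j hj))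
  set Z : ℕ → ℕ →₀ K := fun n => f (n + 1) with hZdef
  have hZi : IntF 𝔐 Z := intF_comp hfi intF_succ
  have hZ1 : ∀ n, Z n ∈ bs X := fun n => (hf (n + 1)).1
  have hZ2 : ∀ n, Lo (mx (f n).support + 1) (Z n).support := fun n => (hf n).2.1
  have hZ : Blk Z := by
    refine ⟨fun n => bs_ne_zero (hZ1 n), fun n i hi j hj => ?_⟩
    have h1 := hZ2 (n + 1) j hj
    have h3 : i ≤ mx (f (n + 1)).support := le_mx hi
    omega
  refine ⟨Z, hZi, hZ, bs_mono hZ1, ?_⟩
  intro v hv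
  obtain ⟨n, a, ha, w, hvw, hw, hB, _, _⟩ := bs_snoc hZ hv
  have hws : Hi (mx (f n).support + 1) w.support := by
    rcases hw with hw | hw
    · intro j hj
      rw [hw, Finsupp.support_zero] at hj
      exact absurd hj (Finset.notMem_empty j)
    · obtain ⟨I, _, hI⟩ := supp_mem_fu hZ hw
      intro j hj
      rw [hI] at hj
      obtain ⟨i, hi, hji⟩ := Finset.mem_biUnion.1 hj
      have hin : i < n := by
        by_contra hin
        obtain ⟨j', hj'⟩ := hZ.blkF.ne i
        have h1 : j' ∈ w.support := by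
          rw [hI]
          exact Finset.mem_biUnion.2 ⟨i, hi, hj'⟩
        rcases lt_or_eq_of_le (not_lt.1 hin) with h2 | h2
        · obtain ⟨l, hl⟩ := hZ.blkF.ne n
          have h3 := hZ.blkF.bef h2 l hl j' hj'
          have h4 := hB j' h1 l hl
          omega
        · subst h2
          exact lt_irrefl _ (hB j' h1 j' hj')
      obtain ⟨m, rfl⟩ : ∃ m, n = m + 1 := ⟨n - 1, by omega⟩
      rcases lt_or_eq_of_le (Nat.le_of_lt_succ hin) with h2 | h2
      · obtain ⟨l, hl⟩ := hZ.blkF.ne m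
        have h3 := hZ.blkF.bef h2 j hji l hl
        have h4 : l ≤ mx (f (m + 1)).support := le_mx hl
        omega
      · subst h2
        have h4 : j ≤ mx (f (i + 1)).support := le_mx hji
        omega
  have hsup : v.support = w.support ∪ (Z n).support := by
    have hs : (a • Z n).support = (Z n).support := Finsupp.support_smul_eq ha
    rw [hvw, support_add_bef (by rw [hs]; exact hB), hs]
  rw [hsup]
  exact (hf n).2.2 w hws v ⟨a, ha, hvw⟩

theorem thin_i (hK : ∃ a : K, a ≠ 0 ∧ a ≠ 1) (hF : IsFulli 𝔐 F) (ν : Finset ℕ → Typ)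
    (hν : IntF 𝔐 ν) : ∀ᶠ v in F, ty v ≠ ν v.support := by
  refine full_blk_i hF {v | ty v ≠ ν v.support}
    (int_not (int_eqF Std.ty (intF_comp hν Std.supp))) ?_
  intro X hXi hX _
  obtain ⟨Z, hZi, hZ, hZX, h⟩ := exists_thin_i hK hXi hX ν hν
  exact ⟨Z, hZi, hZ, hZX, h⟩

end Pool.Agent.SOUi
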