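import Pool.Agent.Lib_MP_a0d45a_int.UDiagi
import Pool.Agent.Lib_MP_a0d45a_lc.USel

/-!
# Piece USELI (port of `Lib_MP_a0d45a_lc/USel.lean`)
-/

set_option autoImplicit false

namespace Pool.Agent.SOUi

open Pool.Agent.SOU Pool.Agent.HMod

universe w

variable {𝔐 : HM.{w}} [StdF 𝔐] {U : Filter (Finset ℕ)} (hU : IsSOUi 𝔐 U)
include hU

theorem usel_aux_i {β : Type*} [Cod 𝔐 β] {φ : Finset ℕ → ℕ} (hφi : IntF 𝔐 φ)
    (hφ : ∀ A, BlkF A → ∀ b ∈ fu A, ∃ n, φ b = φ (A n)) {g : ℕ → β} (hg : IntF 𝔐 g) :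
    (∃ x, ∀ᶠ b in U, g (φ b) = x) ∨
    ∃ A, IntF 𝔐 A ∧ BlkF A ∧ fu A ∈ U ∧
      ∀ b ∈ fu A, ∀ c ∈ fu A, g (φ b) = g (φ c) → φ b = φ c := by
  have hR : Int 𝔐 (fun q : Finset ℕ × Finset ℕ => ¬ g (φ q.1) = g (φ q.2)) :=
    int_not (int_eqF (intF_comp hg (intF_comp hφi (intF_fst' intF_id)))
      (intF_comp hg (intF_comp hφi (intF_snd' intF_id))))
  by_cases h : ∀ᶠ b in U, ∀ᶠ c in U, ¬ g (φ b) = g (φ c)
  · right
    obtain ⟨A, hAi, hA, hAU, hA2⟩ := diag2_i hU hR h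
    refine ⟨A, hAi, hA, hAU, fun b hb c hc hbc => ?_⟩
    obtain ⟨n, hn⟩ := hφ A hA b hb
    obtain ⟨m, hm⟩ := hφ A hA c hc
    rw [hn, hm] at hbc ⊢
    rcases lt_trichotomy n m with h1 | h1 | h1
    · exact absurd hbc (hA2 _ (self_mem_fu A n) _ (self_mem_fu A m) (hA.bef h1))
    · rw [h1]
    · exact absurd hbc.symm (hA2 _ (self_mem_fu A m) _ (self_mem_fu A n) (hA.bef h1))
  · left
    have := hU.ne
    obtain ⟨b, hb⟩ := ((sou_not_iff hU (int_eventually hU.fil hR)).1 h).exists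
    have hb' := (sou_not_iff hU (Int.slice (R := fun b c => ¬ g (φ b) = g (φ c)) hR b)).1 hb
    refine ⟨g (φ b), hb'.mono fun c hc => ?_⟩
    exact (not_not.1 hc).symm

theorem sel_mn_i {β : Type*} [Cod 𝔐 β] {g : ℕ → β} (hg : IntF 𝔐 g) :
    (∃ x, ∀ᶠ b in U, g (mn b) = x) ∨
    ∃ A, IntF 𝔐 A ∧ BlkF A ∧ fu A ∈ U ∧
      ∀ b ∈ fu A, ∀ c ∈ fu A, g (mn b) = g (mn c) → mn b = mn c := by
  refine usel_aux_i hU StdF.mn (fun A hA b hb => ?_) hg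
  obtain ⟨n, -, hn, -⟩ := fu_first hA hb
  exact ⟨n, hn⟩

theorem sel_mx_i {β : Type*} [Cod 𝔐 β] {g : ℕ → β} (hg : IntF 𝔐 g) :
    (∃ x, ∀ᶠ b in U, g (mx b) = x) ∨
    ∃ A, IntF 𝔐 A ∧ BlkF A ∧ fu A ∈ U ∧
      ∀ b ∈ fu A, ∀ c ∈ fu A, g (mx b) = g (mx c) → mx b = mx c := by
  refine usel_aux_i hU StdF.mx (fun A hA b hb => ?_) hg
  obtain ⟨n, -, hn, -⟩ := fu_last hA hb
  exact ⟨n, hn⟩

theorem not_mn_det_mx_i {S : Set (Finset ℕ)} (hS : S ∈ U) :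
    ∃ b ∈ S, ∃ c ∈ S, mn b = mn c ∧ mx b ≠ mx c := by
  obtain ⟨A, -, hA, -, hAS⟩ := hU.base S hS
  refine ⟨A 0, hAS (self_mem_fu A 0), A 0 ∪ A 1,
    hAS (fu_union (self_mem_fu A 0) (self_mem_fu A 1)), ?_, ?_⟩
  · exact (usel_mn_union (hA.bef Nat.zero_lt_one) (hA.ne 0)).symm
  · rw [usel_mx_union (hA.bef Nat.zero_lt_one) (hA.ne 1)]
    exact ((hA.bef Nat.zero_lt_one) _ (mx_mem (hA.ne 0)) _ (mx_mem (hA.ne 1))).ne

theorem not_mx_det_mn_i {S : Set (Finset ℕ)} (hS : S ∈ U) :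
    ∃ b ∈ S, ∃ c ∈ S, mx b = mx c ∧ mn b ≠ mn c := by
  obtain ⟨A, -, hA, -, hAS⟩ := hU.base S hS
  refine ⟨A 1, hAS (self_mem_fu A 1), A 0 ∪ A 1,
    hAS (fu_union (self_mem_fu A 0) (self_mem_fu A 1)), ?_, ?_⟩
  · exact (usel_mx_union (hA.bef Nat.zero_lt_one) (hA.ne 1)).symm
  · rw [usel_mn_union (hA.bef Nat.zero_lt_one) (hA.ne 0)]
    exact ((hA.bef Nat.zero_lt_one) _ (mn_mem (hA.ne 0)) _ (mn_mem (hA.ne 1))).ne'

theorem not_det_i {S : Set (Finset ℕ)} (hS : S ∈ U) :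
    ∃ b ∈ S, ∃ c ∈ S, mn b = mn c ∧ mx b = mx c ∧ b ≠ c := by
  obtain ⟨A, -, hA, -, hAS⟩ := hU.base S hS
  have h01 : Bef (A 0) (A 1) := hA.bef Nat.zero_lt_one
  have h02 : Bef (A 0) (A 2) := hA.bef (by norm_num)
  have h12 : Bef (A 1) (A 2) := hA.bef (by norm_num)
  refine ⟨A 0 ∪ A 2, hAS (fu_union (self_mem_fu A 0) (self_mem_fu A 2)), A 0 ∪ (A 1 ∪ A 2),
    hAS (fu_union (self_mem_fu A 0) (fu_union (self_mem_fu A 1) (self_mem_fu A 2))), ?_, ?_, ?_⟩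
  · rw [usel_mn_union h02 (hA.ne 0), usel_mn_union (Bef.union_right h01 h02) (hA.ne 0)]
  · rw [usel_mx_union h02 (hA.ne 2), usel_mx_union (Bef.union_right h01 h02)
      ((hA.ne 1).mono Finset.subset_union_left), usel_mx_union h12 (hA.ne 2)]
  · intro h
    obtain ⟨i, hi⟩ := hA.ne 1
    have h3 : i ∈ A 0 ∪ A 2 := by
      rw [h]
      exact Finset.mem_union_right _ (Finset.mem_union_left _ hi)
    rcases Finset.mem_union.1 h3 with h4 | h4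
    · exact absurd (h01 i h4 i hi) (lt_irrefl i)
    · exact absurd (h12 i hi i h4) (lt_irrefl i)

end Pool.Agent.SOUi
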